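import Pool.Agent.Work.MP_9d1ffa_al.Ct.CDefs
import Pool.Agent.Work.MP_9d1ffa_al.OU1
import Mathlib
import Pool.Agent.Work.MP_9d1ffa_al.WDefs

-- merged part: Pool.Agent.Work.MP_9d1ffa_al.Ct.CL
section
/-! The `ℓ¹` norm of finitely supported functions.

Plan. `l1` is a norm: `l1 μ = ∑ y ∈ s, |μ y|` for any finset `s` containing the support
(`Finsupp.sum_of_support_subset`). `l1_mapDomain_le`: induct with `Finsupp.induction_linear` on the
statement for `μ = μ.sum single`, or use `Finsupp.mapDomain`, `l1_sum_le`. For an equivalence apply the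
inequality twice. Rows are finite because `A i j ≠ 0` forces `b.t j ≤ a.t i + c`. For `Ctl.mul` use
`coeff_cmul_ne` and the triangle inequality
`x i - (g h) z k = (x i - g y j) + g (y j - h z k)`; the height of `j` is at least `a.t i - c`. -/

namespace Pool.Agent.Work.MP_9d1ffa_al

open Matrix MonoidAlgebra

set_option linter.unusedSectionVars false
set_option linter.unusedVariables false

variable {X Y : Type} {G : Type} [Group G] {ρ : G →* Equiv.Perm X} {a b c : Ob X} {I J K L : Type}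

theorem l1_eq (μ : X →₀ ℝ) {s : Finset X} (h : μ.support ⊆ s) : l1 μ = ∑ y ∈ s, |μ y| := by
  exact Finsupp.sum_of_support_subset μ h (fun _ r => |r|) fun _ _ => abs_zero

theorem l1_nonneg (μ : X →₀ ℝ) : 0 ≤ l1 μ := by
  exact Finset.sum_nonneg fun _ _ => abs_nonneg _

theorem l1_zero : l1 (0 : X →₀ ℝ) = 0 := by
  simp [l1]

theorem l1_neg (μ : X →₀ ℝ) : l1 (-μ) = l1 μ := by
  rw [l1_eq (-μ) (s := μ.support) (by rw [Finsupp.support_neg]), l1_eq μ subset_rfl]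
  simp

theorem l1_add_le (μ ν : X →₀ ℝ) : l1 (μ + ν) ≤ l1 μ + l1 ν := by
  classical
  rw [l1_eq (μ + ν) Finsupp.support_add, l1_eq μ (s := μ.support ∪ ν.support) Finset.subset_union_left,
    l1_eq ν (s := μ.support ∪ ν.support) Finset.subset_union_right, ← Finset.sum_add_distrib]
  exact Finset.sum_le_sum fun y _ => abs_add_le _ _

theorem l1_sub_comm (μ ν : X →₀ ℝ) : l1 (μ - ν) = l1 (ν - μ) := by
  rw [← l1_neg, neg_sub]

theorem l1_tri (μ ν κ : X →₀ ℝ) : l1 (μ - κ) ≤ l1 (μ - ν) + l1 (ν - κ) := by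
  rw [← sub_add_sub_cancel μ ν κ]
  exact l1_add_le _ _

theorem l1_smul (r : ℝ) (μ : X →₀ ℝ) : l1 (r • μ) = |r| * l1 μ := by
  rw [l1_eq (r • μ) (s := μ.support) Finsupp.support_smul, l1_eq μ subset_rfl, Finset.mul_sum]
  exact Finset.sum_congr rfl fun y _ => by rw [Finsupp.smul_apply, smul_eq_mul, abs_mul]

theorem l1_single (y : X) (r : ℝ) : l1 (Finsupp.single y r) = |r| := by
  unfold l1
  rw [Finsupp.sum_single_index abs_zero]

theorem CL_sum_le {T : Type} (s : Finset T) (f : T → X →₀ ℝ) :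
    l1 (∑ i ∈ s, f i) ≤ ∑ i ∈ s, l1 (f i) := by
  classical
  induction s using Finset.induction_on with
  | empty => simp [l1_zero]
  | insert i s hi ih =>
    rw [Finset.sum_insert hi, Finset.sum_insert hi]
    exact (l1_add_le _ _).trans (by linarith)

theorem l1_mapDomain_le (φ : X → Y) (μ : X →₀ ℝ) : l1 (μ.mapDomain φ) ≤ l1 μ := by
  unfold Finsupp.mapDomain
  refine (CL_sum_le μ.support fun y => Finsupp.single (φ y) (μ y)).trans (le_of_eq ?_)
  rw [l1_eq μ subset_rfl]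
  exact Finset.sum_congr rfl fun y _ => l1_single _ _

theorem l1_mapDomain_perm (e : Equiv.Perm X) (μ : X →₀ ℝ) : l1 (μ.mapDomain e) = l1 μ := by
  refine le_antisymm (l1_mapDomain_le _ _) ?_
  have h := l1_mapDomain_le e.symm (μ.mapDomain e)
  rwa [← Finsupp.mapDomain_comp, Equiv.symm_comp_self, Finsupp.mapDomain_id] at h

theorem CL_pos {μ : X →₀ ℝ} (h : ∀ y, 0 ≤ μ y) : l1 μ = μ.sum fun _ r => r :=
  Finset.sum_congr rfl fun y _ => abs_of_nonneg (h y)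

theorem l1_add_pos {μ ν : X →₀ ℝ} (h : ∀ y, 0 ≤ μ y) (h' : ∀ y, 0 ≤ ν y) :
    l1 (μ + ν) = l1 μ + l1 ν := by
  rw [CL_pos h, CL_pos h', CL_pos (μ := μ + ν) fun y => add_nonneg (h y) (h' y)]
  exact Finsupp.sum_add_index' (fun _ => rfl) fun _ _ _ => rfl

theorem mapDomain_pos (φ : X → Y) {μ : X →₀ ℝ} (h : ∀ y, 0 ≤ μ y) (z : Y) :
    0 ≤ μ.mapDomain φ z := by
  classical
  unfold Finsupp.mapDomain
  rw [Finsupp.sum_apply]
  refine Finset.sum_nonneg fun y _ => ?_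
  show 0 ≤ Finsupp.single (φ y) (μ y) z
  rw [Finsupp.single_apply]
  split_ifs
  exacts [h y, le_rfl]

theorem l1_mapDomain_pos (φ : X → Y) {μ : X →₀ ℝ} (h : ∀ y, 0 ≤ μ y) :
    l1 (μ.mapDomain φ) = l1 μ := by
  rw [CL_pos h, CL_pos (mapDomain_pos φ h)]
  exact Finsupp.sum_mapDomain_index (fun _ => rfl) fun _ _ _ => rfl

theorem mapDomain_rho_mul (ρ : G →* Equiv.Perm X) (g h : G) (μ : X →₀ ℝ) :
    μ.mapDomain (ρ (g * h)) = (μ.mapDomain (ρ h)).mapDomain (ρ g) := by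
  rw [← Finsupp.mapDomain_comp, map_mul]
  rfl

theorem mapDomain_rho_one (ρ : G →* Equiv.Perm X) (μ : X →₀ ℝ) : μ.mapDomain (ρ 1) = μ := by
  rw [map_one]
  exact Finsupp.mapDomain_id

end Pool.Agent.Work.MP_9d1ffa_al
end

-- merged part: Pool.Agent.Work.MP_9d1ffa_al.Ct.CC
section
-- merged part: Pool.Agent.Work.MP_9d1ffa_al.Ct.CA
section
/-! Controlled matrices are closed under the algebraic operations.

Plan. `l1` is a norm: `l1 μ = ∑ y ∈ s, |μ y|` for any finset `s` containing the support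
(`Finsupp.sum_of_support_subset`). `l1_mapDomain_le`: induct with `Finsupp.induction_linear` on the
statement for `μ = μ.sum single`, or use `Finsupp.mapDomain`, `l1_sum_le`. For an equivalence apply the
inequality twice. Rows are finite because `A i j ≠ 0` forces `b.t j ≤ a.t i + c`. For `Ctl.mul` use
`coeff_cmul_ne` and the triangle inequality
`x i - (g h) z k = (x i - g y j) + g (y j - h z k)`; the height of `j` is at least `a.t i - c`. -/

namespace Pool.Agent.Work.MP_9d1ffa_al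

open Matrix MonoidAlgebra

set_option linter.unusedSectionVars false
set_option linter.unusedVariables false

variable {X Y : Type} {G : Type} [Group G] {ρ : G →* Equiv.Perm X} {a b c : Ob X} {I J K L : Type}

/-- all rows are finite -/
def RowFin (A : Matrix I J (ZG G)) : Prop := ∀ i, {j | A i j ≠ 0}.Finite

theorem CA_ne {x : ZG G} : x ≠ 0 ↔ ∃ g, x.coeff g ≠ 0 := by
  rw [Ne, ← coeff_eq_zero, Finsupp.ext_iff, not_forall]
  rfl

theorem Ctl.rowFin {A : Matrix a.I b.I (ZG G)} (h : Ctl ρ a b A) : RowFin A := by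
  obtain ⟨-, ⟨c, hc⟩, -⟩ := h
  exact fun i => (b.fin (a.t i + c)).subset fun j hj => (hc i j hj).2

theorem Ctl.colFin {A : Matrix a.I b.I (ZG G)} (h : Ctl ρ a b A) (j : b.I) :
    {i | A i j ≠ 0}.Finite := by
  obtain ⟨-, ⟨c, hc⟩, -⟩ := h
  exact (a.fin (b.t j + c)).subset fun i hi => (hc i j hi).1

theorem cmul_eq_sum (A : Matrix I J (ZG G)) (B : Matrix J K (ZG G)) (i : I) (k : K) (s : Finset J)
    (h : ∀ j, A i j * B j k ≠ 0 → j ∈ s) : cmul A B i k = ∑ j ∈ s, A i j * B j k := by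
  exact finsum_eq_sum_of_support_subset _ fun j hj => h j hj

theorem cmul_fintype [Fintype J] (A : Matrix I J (ZG G)) (B : Matrix J K (ZG G)) :
    cmul A B = A * B := by
  refine Matrix.ext fun i k => ?_
  rw [Matrix.mul_apply]
  exact cmul_eq_sum A B i k Finset.univ fun j _ => Finset.mem_univ j

theorem coeff_cmul_ne {A : Matrix I J (ZG G)} {B : Matrix J K (ZG G)} {i : I} {k : K} {g : G}
    (h : (cmul A B i k).coeff g ≠ 0) :
    ∃ j g₁ g₂, g₁ * g₂ = g ∧ (A i j).coeff g₁ ≠ 0 ∧ (B j k).coeff g₂ ≠ 0 := by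
  by_cases hf : (Function.support fun j => A i j * B j k).Finite
  · rw [cmul_eq_sum A B i k hf.toFinset fun j hj => hf.mem_toFinset.2 hj, coeff_sum,
      Finsupp.finsetSum_apply] at h
    obtain ⟨j, -, e⟩ := Finset.exists_ne_zero_of_sum_ne_zero h
    obtain ⟨g₁, g₂, h1, h2, h3⟩ := coeff_mul_ne e
    exact ⟨j, g₁, g₂, h3, h1, h2⟩
  · have e : cmul A B i k = 0 := finsum_of_infinite_support hf
    rw [e] at h
    exact absurd rfl h

/-- a matrix whose support is contained in the support of a controlled matrix -/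
theorem Ctl.mono {A B : Matrix a.I b.I (ZG G)} (h : Ctl ρ a b A)
    (k : ∀ i j g, (B i j).coeff g ≠ 0 → (A i j).coeff g ≠ 0) : Ctl ρ a b B := by
  obtain ⟨⟨S, hS⟩, ⟨c, hc⟩, hd⟩ := h
  refine ⟨⟨S, fun i j g e => hS i j g (k i j g e)⟩, ⟨c, fun i j e => ?_⟩, fun δ hδ => ?_⟩
  · obtain ⟨g, e⟩ := CA_ne.1 e
    exact hc i j (CA_ne.2 ⟨g, k i j g e⟩)
  · obtain ⟨n, hn⟩ := hd δ hδ
    exact ⟨n, fun i j g h1 e => hn i j g h1 (k i j g e)⟩

theorem ctl_zero : Ctl ρ a b 0 := by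
  exact ⟨⟨∅, fun i j g e => absurd rfl e⟩, ⟨0, fun i j e => absurd rfl e⟩,
    fun δ _ => ⟨0, fun i j g _ e => absurd rfl e⟩⟩

theorem Ctl.add {A B : Matrix a.I b.I (ZG G)} (h : Ctl ρ a b A) (h' : Ctl ρ a b B) :
    Ctl ρ a b (A + B) := by
  classical
  obtain ⟨⟨S, hS⟩, ⟨c, hc⟩, hd⟩ := h
  obtain ⟨⟨S', hS'⟩, ⟨c', hc'⟩, hd'⟩ := h'
  have k : ∀ i j g, ((A + B) i j).coeff g ≠ 0 → (A i j).coeff g ≠ 0 ∨ (B i j).coeff g ≠ 0 := by
    intro i j g e
    by_contra hn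
    rw [not_or, not_not, not_not] at hn
    exact e (by rw [Matrix.add_apply, coeff_add, Finsupp.add_apply, hn.1, hn.2, add_zero])
  refine ⟨⟨S ∪ S', fun i j g e => Finset.mem_union.2 ((k i j g e).imp (hS i j g) (hS' i j g))⟩,
    ⟨c + c', fun i j e => ?_⟩, fun δ hδ => ?_⟩
  · obtain ⟨g, e⟩ := CA_ne.1 e
    rcases k i j g e with e | e
    · have := hc i j (CA_ne.2 ⟨g, e⟩)
      omega
    · have := hc' i j (CA_ne.2 ⟨g, e⟩)
      omega
  · obtain ⟨n, hn⟩ := hd δ hδ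
    obtain ⟨n', hn'⟩ := hd' δ hδ
    exact ⟨n + n', fun i j g h1 e =>
      (k i j g e).elim (hn i j g (by omega)) (hn' i j g (by omega))⟩

theorem Ctl.neg {A : Matrix a.I b.I (ZG G)} (h : Ctl ρ a b A) : Ctl ρ a b (-A) := by
  refine h.mono fun i j g e k => e ?_
  rw [Matrix.neg_apply, coeff_neg, Finsupp.neg_apply, k, neg_zero]

theorem Ctl.mul {A : Matrix a.I b.I (ZG G)} {B : Matrix b.I c.I (ZG G)} (h : Ctl ρ a b A)
    (h' : Ctl ρ b c B) : Ctl ρ a c (cmul A B) := by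
  classical
  obtain ⟨⟨S, hS⟩, ⟨d, hc⟩, hd⟩ := h
  obtain ⟨⟨S', hS'⟩, ⟨d', hc'⟩, hd'⟩ := h'
  refine ⟨⟨Finset.image₂ (· * ·) S S', fun i k g e => ?_⟩, ⟨d + d', fun i k e => ?_⟩,
    fun δ hδ => ?_⟩
  · obtain ⟨j, g₁, g₂, rfl, h1, h2⟩ := coeff_cmul_ne e
    exact Finset.mem_image₂_of_mem (hS i j g₁ h1) (hS' j k g₂ h2)
  · obtain ⟨g, e⟩ := CA_ne.1 e
    obtain ⟨j, g₁, g₂, -, h1, h2⟩ := coeff_cmul_ne e
    have k1 := hc i j (CA_ne.2 ⟨g₁, h1⟩)
    have k2 := hc' j k (CA_ne.2 ⟨g₂, h2⟩)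
    omega
  · obtain ⟨n, hn⟩ := hd (δ / 2) (half_pos hδ)
    obtain ⟨n', hn'⟩ := hd' (δ / 2) (half_pos hδ)
    refine ⟨n + n' + d, fun i k g h0 e => ?_⟩
    obtain ⟨j, g₁, g₂, rfl, h1, h2⟩ := coeff_cmul_ne e
    have k1 := hc i j (CA_ne.2 ⟨g₁, h1⟩)
    have k2 := hn i j g₁ (by omega) h1
    have k3 := hn' j k g₂ (by omega) h2
    rw [← l1_mapDomain_perm (ρ g₁), Finsupp.mapDomain_sub, ← mapDomain_rho_mul] at k3
    have k4 := l1_tri (a.x i) ((b.x j).mapDomain (ρ g₁)) ((c.x k).mapDomain (ρ (g₁ * g₂)))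
    linarith

theorem Ctl.ct {A : Matrix a.I b.I (ZG G)} (h : Ctl ρ a b A) : Ctl ρ b a Aᴴ := by
  classical
  obtain ⟨⟨S, hS⟩, ⟨d, hc⟩, hd⟩ := h
  have k : ∀ j i g, (Aᴴ j i).coeff g ≠ 0 → (A i j).coeff g⁻¹ ≠ 0 := by
    intro j i g e
    rwa [conjTranspose_apply, coeff_star] at e
  refine ⟨⟨S.image (·⁻¹), fun j i g e => Finset.mem_image.2 ⟨g⁻¹, hS i j _ (k j i g e), inv_inv g⟩⟩,
    ⟨d, fun j i e => ?_⟩, fun δ hδ => ?_⟩
  · obtain ⟨g, e⟩ := CA_ne.1 e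
    exact (hc i j (CA_ne.2 ⟨_, k j i g e⟩)).symm
  · obtain ⟨n, hn⟩ := hd δ hδ
    refine ⟨n + d, fun j i g h0 e => ?_⟩
    have k1 := hc i j (CA_ne.2 ⟨_, k j i g e⟩)
    have k2 := hn i j g⁻¹ (by omega) (k j i g e)
    rwa [← l1_mapDomain_perm (ρ g), Finsupp.mapDomain_sub, ← mapDomain_rho_mul, mul_inv_cancel,
      mapDomain_rho_one, l1_sub_comm] at k2

open Classical in
/-- the matrix of a map of bases together with a group element for each basis element -/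
noncomputable def pmM (e : I → J) (γ : I → G) : Matrix I J (ZG G) :=
  Matrix.of fun i j => if e i = j then single (γ i) 1 else 0

theorem CA_pm {e : I → J} {γ : I → G} {i : I} {j : J} {g : G} (h : (pmM e γ i j).coeff g ≠ 0) :
    e i = j ∧ γ i = g := by
  unfold pmM at h
  rw [Matrix.of_apply] at h
  split_ifs at h with k
  · refine ⟨k, by_contra fun k' => h ?_⟩
    rw [coeff_single, Finsupp.single_eq_of_ne' k']
  · exact absurd rfl h

theorem ctl_pmM (e : a.I → b.I) (γ : a.I → G) (h1 : ∃ S : Finset G, ∀ i, γ i ∈ S)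
    (h2 : ∃ c : ℕ, ∀ i, a.t i ≤ b.t (e i) + c ∧ b.t (e i) ≤ a.t i + c)
    (h3 : ∀ δ : ℝ, 0 < δ → ∃ n : ℕ, ∀ i, n ≤ a.t i →
      l1 (a.x i - (b.x (e i)).mapDomain (ρ (γ i))) ≤ δ) : Ctl ρ a b (pmM e γ) := by
  obtain ⟨S, hS⟩ := h1
  obtain ⟨d, hc⟩ := h2
  refine ⟨⟨S, fun i j g k => (CA_pm k).2 ▸ hS i⟩, ⟨d, fun i j k => ?_⟩, fun δ hδ => ?_⟩
  · obtain ⟨g, k⟩ := CA_ne.1 k
    exact (CA_pm k).1 ▸ hc i
  · obtain ⟨n, hn⟩ := h3 δ hδ
    refine ⟨n, fun i j g h0 k => ?_⟩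
    obtain ⟨rfl, rfl⟩ := CA_pm k
    exact hn i h0

theorem ctl_pmM_one (e : a.I → b.I) (h1 : ∀ i, b.t (e i) = a.t i) (h2 : ∀ i, b.x (e i) = a.x i) :
    Ctl ρ a b (pmM e fun _ => 1) := by
  refine ctl_pmM e _ ⟨{1}, fun _ => Finset.mem_singleton_self _⟩ ⟨0, fun i => ?_⟩
    fun δ hδ => ⟨0, fun i _ => ?_⟩
  · rw [h1]
    omega
  · rw [mapDomain_rho_one, h2, sub_self, l1_zero]
    exact hδ.le

/-- all matrices between finite bases are controlled -/
theorem ctl_finite [Finite a.I] [Finite b.I] (A : Matrix a.I b.I (ZG G)) : Ctl ρ a b A := by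
  classical
  have := Fintype.ofFinite a.I
  have := Fintype.ofFinite b.I
  obtain ⟨m, hm⟩ := Finite.exists_le a.t
  obtain ⟨m', hm'⟩ := Finite.exists_le b.t
  refine ⟨⟨Finset.univ.biUnion fun p : a.I × b.I => (A p.1 p.2).coeff.support, fun i j g e =>
    Finset.mem_biUnion.2 ⟨(i, j), Finset.mem_univ _, Finsupp.mem_support_iff.2 e⟩⟩,
    ⟨m + m', fun i j _ => ?_⟩, fun δ _ => ⟨m + 1, fun i j g h0 _ => ?_⟩⟩
  · have k1 := hm i
    have k2 := hm' j
    omega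
  · have k1 := hm i
    omega

end Pool.Agent.Work.MP_9d1ffa_al
end

-- merged part: Pool.Agent.Work.MP_9d1ffa_al.Ct.CB
section
/-! The product of matrices with finite rows.

Plan. Everything reduces to finite sums by `cmul_eq_sum`. For associativity fix `i`, take
`s = (hA i).toFinset` and `s' = s.biUnion fun j => (hB j).toFinset`, then `Finset.sum_comm`. For
`cmul_ct` both sides are `finsum`s of `star (A i j * B j k)`; use that `star` is an additive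
equivalence (`AddEquiv.map_finsum`, `starAddEquiv`) or the finite support of `j ↦ A i j * B j k`. -/

namespace Pool.Agent.Work.MP_9d1ffa_al

open Matrix MonoidAlgebra

set_option linter.unusedSectionVars false
set_option linter.unusedVariables false

variable {G H : Type} [Group G] [Group H] {I J K L : Type}

theorem CB_single (A : Matrix I J (ZG G)) (B : Matrix J K (ZG G)) (i : I) (k : K) (j₀ : J)
    (h : ∀ j, j ≠ j₀ → A i j * B j k = 0) : cmul A B i k = A i j₀ * B j₀ k :=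
  finsum_eq_single (fun j => A i j * B j k) j₀ h

theorem CB_zero (A : Matrix I J (ZG G)) (B : Matrix J K (ZG G)) (i : I) (k : K)
    (h : ∀ j, A i j * B j k = 0) : cmul A B i k = 0 :=
  finsum_eq_zero_of_forall_eq_zero h

theorem CB_pm_self (e : I → J) (γ : I → G) (i : I) : pmM e γ i (e i) = single (γ i) 1 := by
  simp [pmM]

theorem CB_pm_ne (e : I → J) (γ : I → G) {i : I} {j : J} (h : e i ≠ j) : pmM e γ i j = 0 := by
  simp [pmM, h]

theorem CB_row {A : Matrix I J (ZG G)} (B : Matrix J K (ZG G)) (i : I) (k : K) (s : Finset J)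
    (h : ∀ j, A i j ≠ 0 → j ∈ s) : cmul A B i k = ∑ j ∈ s, A i j * B j k :=
  cmul_eq_sum A B i k s fun j hj => h j fun h0 => hj (by rw [h0, zero_mul])

theorem CB_ct_cmul {e : I → J} (he : Function.Injective e) (γ : I → G) (A : Matrix I K (ZG G))
    (i : I) (k : K) : cmul (pmM e γ)ᴴ A (e i) k = single (γ i)⁻¹ 1 * A i k := by
  rw [CB_single _ _ _ _ i, conjTranspose_apply, CB_pm_self, star_single]
  intro j hj
  rw [conjTranspose_apply, CB_pm_ne e γ fun h => hj (he h), star_zero, zero_mul]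

theorem CB_ct_cmul_not {e : I → J} (γ : I → G) (A : Matrix I K (ZG G)) {j : J} (k : K)
    (hj : ∀ i, e i ≠ j) : cmul (pmM e γ)ᴴ A j k = 0 := by
  refine CB_zero _ _ _ _ fun i => ?_
  rw [conjTranspose_apply, CB_pm_ne e γ (hj i), star_zero, zero_mul]

theorem CB_one : (single (1 : G) (1 : ℤ) : ZG G) = 1 := rfl

theorem cmul_assoc {A : Matrix I J (ZG G)} {B : Matrix J K (ZG G)} (hA : RowFin A) (hB : RowFin B)
    (D : Matrix K L (ZG G)) : cmul (cmul A B) D = cmul A (cmul B D) := by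
  classical
  refine Matrix.ext fun i l => ?_
  let s := (hA i).toFinset
  let s' := s.biUnion fun j => (hB j).toFinset
  have hs : ∀ j, A i j ≠ 0 → j ∈ s := fun j hj => (hA i).mem_toFinset.2 hj
  have hs' : ∀ j ∈ s, ∀ k, B j k ≠ 0 → k ∈ s' := fun j hj k hk =>
    Finset.mem_biUnion.2 ⟨j, hj, (hB j).mem_toFinset.2 hk⟩
  have h1 : ∀ k, cmul A B i k ≠ 0 → k ∈ s' := fun k hk => by
    rw [CB_row B i k s hs] at hk
    obtain ⟨j, hj, h0⟩ := Finset.exists_ne_zero_of_sum_ne_zero hk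
    exact hs' j hj k fun h => h0 (by rw [h, mul_zero])
  rw [CB_row D i l s' h1, CB_row (cmul B D) i l s hs]
  have h2 : ∀ k ∈ s', cmul A B i k * D k l = ∑ j ∈ s, A i j * B j k * D k l := fun k _ => by
    rw [CB_row B i k s hs, Finset.sum_mul]
  rw [Finset.sum_congr rfl h2, Finset.sum_comm]
  refine Finset.sum_congr rfl fun j hj => ?_
  rw [CB_row D j l s' (hs' j hj), Finset.mul_sum]
  exact Finset.sum_congr rfl fun k _ => mul_assoc _ _ _

theorem cmul_add {A : Matrix I J (ZG G)} (hA : RowFin A) (B D : Matrix J K (ZG G)) :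
    cmul A (B + D) = cmul A B + cmul A D := by
  refine Matrix.ext fun i k => ?_
  have hs : ∀ j, A i j ≠ 0 → j ∈ (hA i).toFinset := fun j hj => (hA i).mem_toFinset.2 hj
  rw [Matrix.add_apply, CB_row _ i k _ hs, CB_row _ i k _ hs, CB_row _ i k _ hs,
    ← Finset.sum_add_distrib]
  exact Finset.sum_congr rfl fun j _ => by rw [Matrix.add_apply, mul_add]

theorem add_cmul {A B : Matrix I J (ZG G)} (hA : RowFin A) (hB : RowFin B)
    (D : Matrix J K (ZG G)) : cmul (A + B) D = cmul A D + cmul B D := by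
  classical
  refine Matrix.ext fun i k => ?_
  let s := (hA i).toFinset ∪ (hB i).toFinset
  have h1 : ∀ j, A i j ≠ 0 → j ∈ s := fun j hj =>
    Finset.mem_union_left _ ((hA i).mem_toFinset.2 hj)
  have h2 : ∀ j, B i j ≠ 0 → j ∈ s := fun j hj =>
    Finset.mem_union_right _ ((hB i).mem_toFinset.2 hj)
  have h3 : ∀ j, (A + B) i j ≠ 0 → j ∈ s := fun j hj => by
    by_cases h : A i j = 0
    · refine h2 j fun h' => hj ?_
      rw [Matrix.add_apply, h, h', add_zero]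
    · exact h1 j h
  rw [Matrix.add_apply, CB_row _ i k _ h1, CB_row _ i k _ h2, CB_row _ i k _ h3,
    ← Finset.sum_add_distrib]
  exact Finset.sum_congr rfl fun j _ => by rw [Matrix.add_apply, add_mul]

theorem cmul_ct (A : Matrix I J (ZG G)) (B : Matrix J K (ZG G)) : (cmul A B)ᴴ = cmul Bᴴ Aᴴ := by
  refine Matrix.ext fun k i => ?_
  rw [conjTranspose_apply]
  have h := AddEquiv.map_finsum (starAddEquiv : ZG G ≃+ ZG G) fun j => A i j * B j k
  refine h.trans ?_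
  refine finsum_congr fun j => ?_
  rw [conjTranspose_apply, conjTranspose_apply]
  exact star_mul _ _

theorem pmM_cmul (e : I → J) (γ : I → G) (A : Matrix J K (ZG G)) (i : I) (k : K) :
    cmul (pmM e γ) A i k = single (γ i) 1 * A (e i) k := by
  rw [CB_single _ _ _ _ (e i), CB_pm_self]
  intro j hj
  rw [CB_pm_ne e γ hj.symm, zero_mul]

theorem cmul_pmM_ct (e : I → J) (γ : I → G) (A : Matrix K J (ZG G)) (k : K) (i : I) :
    cmul A (pmM e γ)ᴴ k i = A k (e i) * single (γ i)⁻¹ 1 := by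
  rw [CB_single _ _ _ _ (e i), conjTranspose_apply, CB_pm_self, star_single]
  intro j hj
  rw [conjTranspose_apply, CB_pm_ne e γ hj.symm, star_zero, mul_zero]

theorem cmul_pmM {e : I → J} (he : Function.Injective e) (γ : I → G) (A : Matrix K I (ZG G)) (k : K)
    (i : I) : cmul A (pmM e γ) k (e i) = A k i * single (γ i) 1 := by
  rw [CB_single _ _ _ _ i, CB_pm_self]
  intro j hj
  rw [CB_pm_ne e γ fun h => hj (he h), mul_zero]

theorem cmul_pmM_not {e : I → J} (γ : I → G) (A : Matrix K I (ZG G)) (k : K) {j : J}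
    (hj : ∀ i, e i ≠ j) : cmul A (pmM e γ) k j = 0 := by
  refine CB_zero _ _ _ _ fun i => ?_
  rw [CB_pm_ne e γ (hj i), mul_zero]

theorem pmM_id [DecidableEq I] : pmM (id : I → I) (fun _ => (1 : G)) = 1 := by
  refine Matrix.ext fun i j => ?_
  by_cases h : i = j
  · subst h
    rw [Matrix.one_apply_eq]
    exact CB_pm_self id _ i
  · rw [Matrix.one_apply_ne h]
    exact CB_pm_ne id _ h

theorem one_cmul [DecidableEq I] (A : Matrix I J (ZG G)) : cmul 1 A = A := by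
  refine Matrix.ext fun i j => ?_
  rw [← pmM_id (G := G), pmM_cmul, CB_one, one_mul]
  rfl

theorem cmul_one [DecidableEq J] (A : Matrix I J (ZG G)) : cmul A 1 = A := by
  refine Matrix.ext fun i j => ?_
  have h := cmul_pmM (e := (id : J → J)) Function.injective_id (fun _ => (1 : G)) A i j
  rw [pmM_id, CB_one, mul_one] at h
  exact h

theorem pmM_mul_ct [DecidableEq I] {e : I → J} (he : Function.Injective e) (γ : I → G) :
    cmul (pmM e γ) (pmM e γ)ᴴ = 1 := by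
  refine Matrix.ext fun i j => ?_
  rw [cmul_pmM_ct]
  by_cases h : i = j
  · subst h
    rw [CB_pm_self, Matrix.one_apply_eq, single_mul_single, mul_inv_cancel, mul_one, CB_one]
  · rw [CB_pm_ne e γ fun h' => h (he h'), zero_mul, Matrix.one_apply_ne h]

theorem pmM_ct_mul [DecidableEq J] {e : I → J} (he : Function.Bijective e) (γ : I → G) :
    cmul (pmM e γ)ᴴ (pmM e γ) = 1 := by
  refine Matrix.ext fun j j' => ?_
  obtain ⟨i, rfl⟩ := he.2 j
  rw [CB_ct_cmul he.1]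
  by_cases h : e i = j'
  · subst h
    rw [CB_pm_self, Matrix.one_apply_eq, single_mul_single, inv_mul_cancel, mul_one, CB_one]
  · rw [CB_pm_ne e γ h, mul_zero, Matrix.one_apply_ne h]

theorem inl_mul_inr : cmul (pmM (Sum.inl : I → I ⊕ J) fun _ => (1 : G))
    (pmM (Sum.inr : J → I ⊕ J) fun _ => (1 : G))ᴴ = 0 := by
  refine Matrix.ext fun i j => ?_
  rw [cmul_pmM_ct, CB_pm_ne _ _ Sum.inl_ne_inr, zero_mul, Matrix.zero_apply]

theorem inl_add_inr [DecidableEq (I ⊕ J)] :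
    cmul (pmM (Sum.inl : I → I ⊕ J) fun _ => (1 : G))ᴴ (pmM Sum.inl fun _ => 1) +
    cmul (pmM (Sum.inr : J → I ⊕ J) fun _ => (1 : G))ᴴ (pmM Sum.inr fun _ => 1) = 1 := by
  refine Matrix.ext fun i j => ?_
  rw [Matrix.add_apply]
  rcases i with i | i
  · rw [CB_ct_cmul Sum.inl_injective, CB_ct_cmul_not _ _ _ fun _ => Sum.inr_ne_inl, add_zero,
      inv_one, CB_one, one_mul]
    by_cases h : Sum.inl i = j
    · subst h
      rw [CB_pm_self, Matrix.one_apply_eq, CB_one]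
    · rw [CB_pm_ne _ _ h, Matrix.one_apply_ne h]
  · rw [CB_ct_cmul Sum.inr_injective, CB_ct_cmul_not _ _ _ fun _ => Sum.inl_ne_inr, zero_add,
      inv_one, CB_one, one_mul]
    by_cases h : Sum.inr i = j
    · subst h
      rw [CB_pm_self, Matrix.one_apply_eq, CB_one]
    · rw [CB_pm_ne _ _ h, Matrix.one_apply_ne h]

theorem fromRows_eq_cmul (A : Matrix I K (ZG G)) (B : Matrix J K (ZG G)) :
    cmul (pmM (Sum.inl : I → I ⊕ J) fun _ => (1 : G))ᴴ A +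
      cmul (pmM (Sum.inr : J → I ⊕ J) fun _ => (1 : G))ᴴ B = fromRows A B := by
  refine Matrix.ext fun i k => ?_
  rw [Matrix.add_apply]
  rcases i with i | i
  · rw [CB_ct_cmul Sum.inl_injective, CB_ct_cmul_not _ _ _ fun _ => Sum.inr_ne_inl, add_zero,
      inv_one, CB_one, one_mul, fromRows_apply_inl]
  · rw [CB_ct_cmul Sum.inr_injective, CB_ct_cmul_not _ _ _ fun _ => Sum.inl_ne_inr, zero_add,
      inv_one, CB_one, one_mul, fromRows_apply_inr]

theorem fromCols_eq_cmul (A : Matrix K I (ZG G)) (B : Matrix K J (ZG G)) :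
    cmul A (pmM (Sum.inl : I → I ⊕ J) fun _ => (1 : G)) +
      cmul B (pmM (Sum.inr : J → I ⊕ J) fun _ => (1 : G)) = fromCols A B := by
  refine Matrix.ext fun k i => ?_
  rw [Matrix.add_apply]
  rcases i with i | i
  · rw [cmul_pmM Sum.inl_injective, cmul_pmM_not _ _ _ fun _ => Sum.inr_ne_inl, add_zero,
      CB_one, mul_one, fromCols_apply_inl]
  · rw [cmul_pmM Sum.inr_injective, cmul_pmM_not _ _ _ fun _ => Sum.inl_ne_inr, zero_add,
      CB_one, mul_one, fromCols_apply_inr]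

end Pool.Agent.Work.MP_9d1ffa_al
end

-- merged part: Pool.Agent.Work.MP_9d1ffa_al.Ct.CB2
section
/-! Images, restrictions and filters of products of matrices with finite rows. The entrywise facts are
the one by one cases of the lemmas `mp_mul`, `rs_mul_mp`, `rs_mp_mul`, `fm_mul_right`, `fm_mul_left` of
`OMp` (see their proofs); `map_cmul` moves an additive map inside the sum.

Plan. Everything reduces to finite sums by `cmul_eq_sum`. For associativity fix `i`, take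
`s = (hA i).toFinset` and `s' = s.biUnion fun j => (hB j).toFinset`, then `Finset.sum_comm`. For
`cmul_ct` both sides are `finsum`s of `star (A i j * B j k)`; use that `star` is an additive
equivalence (`AddEquiv.map_finsum`, `starAddEquiv`) or the finite support of `j ↦ A i j * B j k`. -/

namespace Pool.Agent.Work.MP_9d1ffa_al

open Matrix MonoidAlgebra

set_option linter.unusedSectionVars false
set_option linter.unusedVariables false

variable {G H : Type} [Group G] [Group H] {I J K L : Type}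

/-- one by one matrices -/
def CB2_u (x : ZG G) : Matrix Unit Unit (ZG G) := Matrix.of fun _ _ => x

theorem CB2_mul (x y : ZG G) : CB2_u x * CB2_u y = CB2_u (x * y) := by
  funext i j
  simp [CB2_u, Matrix.mul_apply]

theorem CB2_inj {x y : ZG G} (h : CB2_u x = CB2_u y) : x = y := congrFun (congrFun h ()) ()

/-- the restriction as an additive map -/
noncomputable def CB2_rs (f : H →* G) (hf : Function.Injective f) : ZG G →+ ZG H :=
  AddMonoidHom.mk' (comapDomain f hf) fun x y =>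
    congrFun (congrFun (rs_add (f := f) (hf := hf) (CB2_u x) (CB2_u y)) ()) ()

/-- an additive map of group rings that is compatible with products entry by entry -/
theorem map_cmul {A : Matrix I J (ZG G)} (hA : RowFin A) (B : Matrix J K (ZG G))
    {R : Type} [AddCommGroup R] (f : ZG G →+ R) (i : I) (k : K) :
    f (cmul A B i k) = ∑ᶠ j, f (A i j * B j k) := by
  refine AddMonoidHom.map_finsum f ((hA i).subset fun j hj e => hj ?_)
  show A i j * B j k = 0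
  rw [e, zero_mul]

theorem mp_cmul (f : G →* H) {A : Matrix I J (ZG G)} (hA : RowFin A) (B : Matrix J K (ZG G)) :
    mp f (cmul A B) = cmul (mp f A) (mp f B) := by
  funext i k
  exact (map_cmul hA B (gm f).toAddMonoidHom i k).trans
    (finsum_congr fun j => map_mul (gm f) _ _)

theorem rs_cmul_mp (f : H →* G) (hf : Function.Injective f) {A : Matrix I J (ZG G)} (hA : RowFin A)
    (B : Matrix J K (ZG H)) : rs f hf (cmul A (mp f B)) = cmul (rs f hf A) B := by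
  funext i k
  refine (map_cmul hA (mp f B) (CB2_rs f hf) i k).trans (finsum_congr fun j => CB2_inj ?_)
  have := rs_mul_mp (f := f) (hf := hf) (CB2_u (A i j)) (CB2_u (B j k))
  rw [show mp f (CB2_u (B j k)) = CB2_u (mp f B j k) from rfl, CB2_mul,
    show rs f hf (CB2_u (A i j)) = CB2_u (rs f hf A i j) from rfl, CB2_mul] at this
  exact this

theorem rs_mp_cmul (f : H →* G) (hf : Function.Injective f) {B : Matrix I J (ZG H)} (hB : RowFin B)
    (A : Matrix J K (ZG G)) : rs f hf (cmul (mp f B) A) = cmul B (rs f hf A) := by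
  funext i k
  have hB' : RowFin (mp f B) := fun i => (hB i).subset fun j hj e => hj (by
    rw [mp_apply, e, map_zero])
  refine (map_cmul hB' A (CB2_rs f hf) i k).trans (finsum_congr fun j => CB2_inj ?_)
  have := rs_mp_mul (f := f) (hf := hf) (CB2_u (B i j)) (CB2_u (A j k))
  rw [show mp f (CB2_u (B i j)) = CB2_u (mp f B i j) from rfl, CB2_mul,
    show rs f hf (CB2_u (A j k)) = CB2_u (rs f hf A j k) from rfl, CB2_mul] at this
  exact this

theorem fm_cmul_right {S S' T : G → Prop} {A : Matrix I J (ZG G)} (hA : RowFin A)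
    {B : Matrix J K (ZG G)} (hB : Sup S' B) (h : ∀ a b, S' b → (T (a * b) ↔ S a)) :
    fm T (cmul A B) = cmul (fm S A) B := by
  funext i k
  refine (map_cmul hA B (fil T) i k).trans (finsum_congr fun j => CB2_inj ?_)
  have := fm_mul_right (C := CB2_u (B j k)) (CB2_u (A i j)) (fun _ _ g e => hB j k g e) h
  rw [CB2_mul, show fm S (CB2_u (A i j)) = CB2_u (fm S A i j) from rfl, CB2_mul] at this
  exact this

theorem fm_cmul_left {S S' T : G → Prop} {A : Matrix I J (ZG G)} (hA : RowFin A) (hS : Sup S' A)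
    (B : Matrix J K (ZG G)) (h : ∀ a b, S' a → (T (a * b) ↔ S b)) :
    fm T (cmul A B) = cmul A (fm S B) := by
  funext i k
  refine (map_cmul hA B (fil T) i k).trans (finsum_congr fun j => CB2_inj ?_)
  have := fm_mul_left (A := CB2_u (A i j)) (fun _ _ g e => hS i j g e) (CB2_u (B j k)) h
  rw [CB2_mul, show fm S (CB2_u (B j k)) = CB2_u (fm S B j k) from rfl, CB2_mul] at this
  exact this

end Pool.Agent.Work.MP_9d1ffa_al
end

-- merged part: Pool.Agent.Work.MP_9d1ffa_al.Ct.SC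
section
/-! Additive categories with involution and chosen sums, with a calculus of block matrices that
mirrors the one of `Matrix`. -/

namespace Pool.Agent.Work.MP_9d1ffa_al.Ct

set_option linter.unusedSectionVars false
set_option linter.unusedVariables false

/-- an additive category with a strict involution that fixes the objects, and orthogonal sums -/
structure SCat (O : Type 1) [Add O] [Zero O] where
  Hom : O → O → Type
  acg : ∀ a b, AddCommGroup (Hom a b)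
  mul : ∀ {a b c}, Hom a b → Hom b c → Hom a c
  one : ∀ a, Hom a a
  cj : ∀ {a b}, Hom a b → Hom b a
  inl : ∀ a b, Hom a (a + b)
  inr : ∀ a b, Hom b (a + b)
  mul_assoc : ∀ {a b c d} (x : Hom a b) (y : Hom b c) (z : Hom c d),
    mul (mul x y) z = mul x (mul y z)
  one_mul : ∀ {a b} (x : Hom a b), mul (one a) x = x
  mul_one : ∀ {a b} (x : Hom a b), mul x (one b) = x
  mul_add : ∀ {a b c} (x : Hom a b) (y z : Hom b c), mul x (y + z) = mul x y + mul x z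
  add_mul : ∀ {a b c} (x y : Hom a b) (z : Hom b c), mul (x + y) z = mul x z + mul y z
  cj_add : ∀ {a b} (x y : Hom a b), cj (x + y) = cj x + cj y
  cj_mul : ∀ {a b c} (x : Hom a b) (y : Hom b c), cj (mul x y) = mul (cj y) (cj x)
  cj_cj : ∀ {a b} (x : Hom a b), cj (cj x) = x
  inl_inl : ∀ a b, mul (inl a b) (cj (inl a b)) = one a
  inr_inr : ∀ a b, mul (inr a b) (cj (inr a b)) = one b
  inl_inr : ∀ a b, mul (inl a b) (cj (inr a b)) = 0
  total : ∀ a b, mul (cj (inl a b)) (inl a b) + mul (cj (inr a b)) (inr a b) = one (a + b)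
  one_zero : one 0 = 0

variable {O : Type 1} [Add O] [Zero O] {𝒞 : SCat O} {I J K L M N : O}

instance homAcg (𝒞 : SCat O) (a b : O) : AddCommGroup (𝒞.Hom a b) := 𝒞.acg a b

@[default_instance 100]
instance homHMul : HMul (𝒞.Hom I J) (𝒞.Hom J K) (𝒞.Hom I K) := ⟨𝒞.mul⟩

instance homOne : One (𝒞.Hom I I) := ⟨𝒞.one I⟩

instance homMul : Mul (𝒞.Hom I I) := ⟨fun x y => x * y⟩

/-- the adjoint -/
def SCat.Hom.ct (A : 𝒞.Hom I J) : 𝒞.Hom J I := 𝒞.cj A

namespace Hm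

protected theorem mul_assoc (x : 𝒞.Hom I J) (y : 𝒞.Hom J K) (z : 𝒞.Hom K L) :
    x * y * z = x * (y * z) := 𝒞.mul_assoc x y z

@[simp] protected theorem one_mul (x : 𝒞.Hom I J) : (1 : 𝒞.Hom I I) * x = x := 𝒞.one_mul x

@[simp] protected theorem mul_one (x : 𝒞.Hom I J) : x * (1 : 𝒞.Hom J J) = x := 𝒞.mul_one x

protected theorem mul_add (x : 𝒞.Hom I J) (y z : 𝒞.Hom J K) : x * (y + z) = x * y + x * z :=
  𝒞.mul_add x y z

protected theorem add_mul (x y : 𝒞.Hom I J) (z : 𝒞.Hom J K) : (x + y) * z = x * z + y * z :=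
  𝒞.add_mul x y z

/-- multiplication from the left -/
def lmul (x : 𝒞.Hom I J) : 𝒞.Hom J K →+ 𝒞.Hom I K := AddMonoidHom.mk' (x * ·) (Hm.mul_add x)

/-- multiplication from the right -/
def rmul (z : 𝒞.Hom J K) : 𝒞.Hom I J →+ 𝒞.Hom I K :=
  AddMonoidHom.mk' (· * z) fun x y => Hm.add_mul x y z

@[simp] protected theorem mul_zero (x : 𝒞.Hom I J) : x * (0 : 𝒞.Hom J K) = 0 := (lmul x).map_zero

@[simp] protected theorem zero_mul (z : 𝒞.Hom J K) : (0 : 𝒞.Hom I J) * z = 0 := (rmul z).map_zero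

@[simp] protected theorem mul_neg (x : 𝒞.Hom I J) (y : 𝒞.Hom J K) : x * -y = -(x * y) :=
  (lmul x).map_neg y

@[simp] protected theorem neg_mul (x : 𝒞.Hom I J) (y : 𝒞.Hom J K) : -x * y = -(x * y) :=
  (rmul y).map_neg x

protected theorem mul_sub (x : 𝒞.Hom I J) (y z : 𝒞.Hom J K) : x * (y - z) = x * y - x * z :=
  (lmul x).map_sub y z

protected theorem sub_mul (x y : 𝒞.Hom I J) (z : 𝒞.Hom J K) : (x - y) * z = x * z - y * z :=
  (rmul z).map_sub x y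

@[simp] protected theorem mul_smul (x : 𝒞.Hom I J) (n : ℤ) (y : 𝒞.Hom J K) :
    x * (n • y) = n • (x * y) := (lmul x).map_zsmul n y

@[simp] protected theorem smul_mul (n : ℤ) (x : 𝒞.Hom I J) (y : 𝒞.Hom J K) :
    (n • x) * y = n • (x * y) := (rmul y).map_zsmul n x

protected theorem mul_sum {ι : Type} (s : Finset ι) (x : 𝒞.Hom I J) (f : ι → 𝒞.Hom J K) :
    x * ∑ i ∈ s, f i = ∑ i ∈ s, x * f i := map_sum (lmul x) f s

protected theorem sum_mul {ι : Type} (s : Finset ι) (f : ι → 𝒞.Hom I J) (z : 𝒞.Hom J K) :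
    (∑ i ∈ s, f i) * z = ∑ i ∈ s, f i * z := map_sum (rmul z) f s

end Hm

instance homRing : Ring (𝒞.Hom I I) :=
  { homAcg 𝒞 I I, homOne, homMul with
    mul_assoc := Hm.mul_assoc
    one_mul := Hm.one_mul
    mul_one := Hm.mul_one
    left_distrib := Hm.mul_add
    right_distrib := Hm.add_mul
    zero_mul := Hm.zero_mul
    mul_zero := Hm.mul_zero }

@[simp] theorem conjTranspose_add (x y : 𝒞.Hom I J) : (x + y).ct = x.ct + y.ct := 𝒞.cj_add x y

@[simp] theorem conjTranspose_mul (x : 𝒞.Hom I J) (y : 𝒞.Hom J K) : (x * y).ct = y.ct * x.ct :=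
  𝒞.cj_mul x y

@[simp] theorem conjTranspose_conjTranspose (x : 𝒞.Hom I J) : x.ct.ct = x := 𝒞.cj_cj x

/-- the adjoint as an additive map -/
def ctHom : 𝒞.Hom I J →+ 𝒞.Hom J I := AddMonoidHom.mk' SCat.Hom.ct conjTranspose_add

@[simp] theorem conjTranspose_zero : (0 : 𝒞.Hom I J).ct = 0 := ctHom.map_zero

@[simp] theorem conjTranspose_neg (x : 𝒞.Hom I J) : (-x).ct = -x.ct := ctHom.map_neg x

@[simp] theorem conjTranspose_sub (x y : 𝒞.Hom I J) : (x - y).ct = x.ct - y.ct := ctHom.map_sub x y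

@[simp] theorem ct_zsmul (n : ℤ) (x : 𝒞.Hom I J) : (n • x).ct = n • x.ct := ctHom.map_zsmul n x

@[simp] theorem conjTranspose_one : (1 : 𝒞.Hom I I).ct = 1 := by
  have h := conjTranspose_mul (1 : 𝒞.Hom I I).ct (1 : 𝒞.Hom I I)
  rw [Hm.mul_one, conjTranspose_conjTranspose, Hm.mul_one] at h
  exact h.symm

theorem ct_inj {x y : 𝒞.Hom I J} (h : x.ct = y.ct) : x = y := by
  rw [← conjTranspose_conjTranspose x, h, conjTranspose_conjTranspose]

theorem to_zero (x : 𝒞.Hom I 0) : x = 0 := by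
  rw [← Hm.mul_one x, show (1 : 𝒞.Hom 0 0) = 0 from 𝒞.one_zero, Hm.mul_zero]

theorem from_zero (x : 𝒞.Hom 0 I) : x = 0 := by
  rw [← Hm.one_mul x, show (1 : 𝒞.Hom 0 0) = 0 from 𝒞.one_zero, Hm.zero_mul]

theorem SC_ll : 𝒞.inl I J * (𝒞.inl I J).ct = 1 := 𝒞.inl_inl I J

theorem SC_rr : 𝒞.inr I J * (𝒞.inr I J).ct = 1 := 𝒞.inr_inr I J

theorem SC_lr : 𝒞.inl I J * (𝒞.inr I J).ct = 0 := 𝒞.inl_inr I J

theorem SC_rl : 𝒞.inr I J * (𝒞.inl I J).ct = 0 := by
  apply ct_inj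
  rw [conjTranspose_mul, conjTranspose_conjTranspose, SC_lr, conjTranspose_zero]

theorem SC_tot : (𝒞.inl I J).ct * 𝒞.inl I J + (𝒞.inr I J).ct * 𝒞.inr I J = 1 := 𝒞.total I J

/-- two blocks of rows -/
def fromRows (a : 𝒞.Hom I K) (b : 𝒞.Hom J K) : 𝒞.Hom (I + J) K :=
  (𝒞.inl I J).ct * a + (𝒞.inr I J).ct * b

/-- two blocks of columns -/
def fromCols (a : 𝒞.Hom K I) (b : 𝒞.Hom K J) : 𝒞.Hom K (I + J) := a * 𝒞.inl I J + b * 𝒞.inr I J

/-- four blocks -/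
def fromBlocks (a : 𝒞.Hom I K) (b : 𝒞.Hom I L) (c : 𝒞.Hom J K) (d : 𝒞.Hom J L) :
    𝒞.Hom (I + J) (K + L) := fromRows (fromCols a b) (fromCols c d)

/-- the upper rows -/
def SCat.Hom.toRows₁ (A : 𝒞.Hom (I + J) K) : 𝒞.Hom I K := 𝒞.inl I J * A

/-- the lower rows -/
def SCat.Hom.toRows₂ (A : 𝒞.Hom (I + J) K) : 𝒞.Hom J K := 𝒞.inr I J * A

/-- the left columns -/
def SCat.Hom.toCols₁ (A : 𝒞.Hom K (I + J)) : 𝒞.Hom K I := A * (𝒞.inl I J).ct

/-- the right columns -/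
def SCat.Hom.toCols₂ (A : 𝒞.Hom K (I + J)) : 𝒞.Hom K J := A * (𝒞.inr I J).ct

/-- the upper left block -/
def SCat.Hom.toBlocks₁₁ (A : 𝒞.Hom (I + J) (K + L)) : 𝒞.Hom I K := A.toRows₁.toCols₁

/-- the upper right block -/
def SCat.Hom.toBlocks₁₂ (A : 𝒞.Hom (I + J) (K + L)) : 𝒞.Hom I L := A.toRows₁.toCols₂

/-- the lower left block -/
def SCat.Hom.toBlocks₂₁ (A : 𝒞.Hom (I + J) (K + L)) : 𝒞.Hom J K := A.toRows₂.toCols₁

/-- the lower right block -/
def SCat.Hom.toBlocks₂₂ (A : 𝒞.Hom (I + J) (K + L)) : 𝒞.Hom J L := A.toRows₂.toCols₂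

open SCat.Hom

@[simp] theorem toRows₁_fromRows (a : 𝒞.Hom I K) (b : 𝒞.Hom J K) : (fromRows a b).toRows₁ = a := by
  rw [toRows₁, fromRows, Hm.mul_add, ← Hm.mul_assoc, ← Hm.mul_assoc, SC_ll, SC_lr]; simp

@[simp] theorem toRows₂_fromRows (a : 𝒞.Hom I K) (b : 𝒞.Hom J K) : (fromRows a b).toRows₂ = b := by
  rw [toRows₂, fromRows, Hm.mul_add, ← Hm.mul_assoc, ← Hm.mul_assoc, SC_rl, SC_rr]; simp

@[simp] theorem toCols₁_fromCols (a : 𝒞.Hom K I) (b : 𝒞.Hom K J) : (fromCols a b).toCols₁ = a := by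
  rw [toCols₁, fromCols, Hm.add_mul, Hm.mul_assoc, Hm.mul_assoc, SC_ll, SC_rl]; simp

@[simp] theorem toCols₂_fromCols (a : 𝒞.Hom K I) (b : 𝒞.Hom K J) : (fromCols a b).toCols₂ = b := by
  rw [toCols₂, fromCols, Hm.add_mul, Hm.mul_assoc, Hm.mul_assoc, SC_lr, SC_rr]; simp

@[simp] theorem fromRows_toRows (A : 𝒞.Hom (I + J) K) : fromRows A.toRows₁ A.toRows₂ = A := by
  rw [fromRows, toRows₁, toRows₂, ← Hm.mul_assoc, ← Hm.mul_assoc, ← Hm.add_mul, SC_tot, Hm.one_mul]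

@[simp] theorem fromCols_toCols (A : 𝒞.Hom K (I + J)) : fromCols A.toCols₁ A.toCols₂ = A := by
  rw [fromCols, toCols₁, toCols₂, Hm.mul_assoc, Hm.mul_assoc, ← Hm.mul_add, SC_tot, Hm.mul_one]

@[simp] theorem fromBlocks_toBlocks (A : 𝒞.Hom (I + J) (K + L)) :
    fromBlocks A.toBlocks₁₁ A.toBlocks₁₂ A.toBlocks₂₁ A.toBlocks₂₂ = A := by
  simp only [fromBlocks, toBlocks₁₁, toBlocks₁₂, toBlocks₂₁, toBlocks₂₂, fromCols_toCols,
    fromRows_toRows]

theorem ext_rows {A B : 𝒞.Hom (I + J) K} (h1 : A.toRows₁ = B.toRows₁) (h2 : A.toRows₂ = B.toRows₂) :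
    A = B := by rw [← fromRows_toRows A, h1, h2, fromRows_toRows]

theorem ext_cols {A B : 𝒞.Hom K (I + J)} (h1 : A.toCols₁ = B.toCols₁) (h2 : A.toCols₂ = B.toCols₂) :
    A = B := by rw [← fromCols_toCols A, h1, h2, fromCols_toCols]

theorem exists_rows (A : 𝒞.Hom (I + J) K) : ∃ a b, A = fromRows a b := ⟨_, _, (fromRows_toRows A).symm⟩

theorem exists_cols (A : 𝒞.Hom K (I + J)) : ∃ a b, A = fromCols a b := ⟨_, _, (fromCols_toCols A).symm⟩

theorem exists_blocks (A : 𝒞.Hom (I + J) (K + L)) : ∃ a b c d, A = fromBlocks a b c d :=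
  ⟨_, _, _, _, (fromBlocks_toBlocks A).symm⟩

section Blocks

variable (a a' : 𝒞.Hom I K) (b b' : 𝒞.Hom I L) (c c' : 𝒞.Hom J K) (d d' : 𝒞.Hom J L)

@[simp] theorem toRows₁_fromBlocks : (fromBlocks a b c d).toRows₁ = fromCols a b :=
  toRows₁_fromRows _ _

@[simp] theorem toRows₂_fromBlocks : (fromBlocks a b c d).toRows₂ = fromCols c d :=
  toRows₂_fromRows _ _

@[simp] theorem toBlocks_fromBlocks₁₁ : (fromBlocks a b c d).toBlocks₁₁ = a := by
  simp [toBlocks₁₁]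

@[simp] theorem toBlocks_fromBlocks₁₂ : (fromBlocks a b c d).toBlocks₁₂ = b := by
  simp [toBlocks₁₂]

@[simp] theorem toBlocks_fromBlocks₂₁ : (fromBlocks a b c d).toBlocks₂₁ = c := by
  simp [toBlocks₂₁]

@[simp] theorem toBlocks_fromBlocks₂₂ : (fromBlocks a b c d).toBlocks₂₂ = d := by
  simp [toBlocks₂₂]

theorem fromRows_fromCols_eq_fromBlocks :
    fromRows (fromCols a b) (fromCols c d) = fromBlocks a b c d := rfl

theorem fromCols_fromRows_eq_fromBlocks :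
    fromCols (fromRows a c) (fromRows b d) = fromBlocks a b c d := by
  simp only [fromBlocks, fromCols, fromRows, Hm.mul_add, Hm.add_mul, Hm.mul_assoc]
  abel

@[simp] theorem toCols₁_fromBlocks : (fromBlocks a b c d).toCols₁ = fromRows a c := by
  rw [← fromCols_fromRows_eq_fromBlocks, toCols₁_fromCols]

@[simp] theorem toCols₂_fromBlocks : (fromBlocks a b c d).toCols₂ = fromRows b d := by
  rw [← fromCols_fromRows_eq_fromBlocks, toCols₂_fromCols]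

end Blocks

theorem fromRows_ext_iff {a a' : 𝒞.Hom I K} {b b' : 𝒞.Hom J K} :
    fromRows a b = fromRows a' b' ↔ a = a' ∧ b = b' :=
  ⟨fun h => ⟨by simpa using congrArg toRows₁ h, by simpa using congrArg toRows₂ h⟩,
    fun ⟨h, h'⟩ => h ▸ h' ▸ rfl⟩

theorem fromCols_ext_iff {a a' : 𝒞.Hom K I} {b b' : 𝒞.Hom K J} :
    fromCols a b = fromCols a' b' ↔ a = a' ∧ b = b' :=
  ⟨fun h => ⟨by simpa using congrArg toCols₁ h, by simpa using congrArg toCols₂ h⟩,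
    fun ⟨h, h'⟩ => h ▸ h' ▸ rfl⟩

theorem fromCols_inj {a a' : 𝒞.Hom K I} {b b' : 𝒞.Hom K J} (h : fromCols a b = fromCols a' b') :
    a = a' ∧ b = b' := fromCols_ext_iff.1 h

theorem fromRows_inj {a a' : 𝒞.Hom I K} {b b' : 𝒞.Hom J K} (h : fromRows a b = fromRows a' b') :
    a = a' ∧ b = b' := fromRows_ext_iff.1 h

@[simp] theorem fromBlocks_inj {a a' : 𝒞.Hom I K} {b b' : 𝒞.Hom I L} {c c' : 𝒞.Hom J K}
    {d d' : 𝒞.Hom J L} :
    fromBlocks a b c d = fromBlocks a' b' c' d' ↔ a = a' ∧ b = b' ∧ c = c' ∧ d = d' := by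
  simp only [fromBlocks, fromRows_ext_iff, fromCols_ext_iff, and_assoc]

@[simp] theorem fromRows_mul (a : 𝒞.Hom I K) (b : 𝒞.Hom J K) (x : 𝒞.Hom K L) :
    fromRows a b * x = fromRows (a * x) (b * x) := by
  simp only [fromRows, Hm.add_mul, Hm.mul_assoc]

@[simp] theorem mul_fromCols (x : 𝒞.Hom L K) (a : 𝒞.Hom K I) (b : 𝒞.Hom K J) :
    x * fromCols a b = fromCols (x * a) (x * b) := by
  simp only [fromCols, Hm.mul_add, Hm.mul_assoc]

theorem fromCols_mul_eq (a : 𝒞.Hom K I) (b : 𝒞.Hom K J) (x : 𝒞.Hom (I + J) L) :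
    fromCols a b * x = a * x.toRows₁ + b * x.toRows₂ := by
  simp only [fromCols, toRows₁, toRows₂, Hm.add_mul, Hm.mul_assoc]

theorem mul_fromRows_eq (x : 𝒞.Hom K (I + J)) (c : 𝒞.Hom I L) (d : 𝒞.Hom J L) :
    x * fromRows c d = x.toCols₁ * c + x.toCols₂ * d := by
  simp only [fromRows, toCols₁, toCols₂, Hm.mul_add, Hm.mul_assoc]

theorem fromCols_mul_fromRows (a : 𝒞.Hom K I) (b : 𝒞.Hom K J) (c : 𝒞.Hom I L) (d : 𝒞.Hom J L) :
    fromCols a b * fromRows c d = a * c + b * d := by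
  rw [fromCols_mul_eq, toRows₁_fromRows, toRows₂_fromRows]

theorem fromRows_mul_fromCols (a : 𝒞.Hom I M) (b : 𝒞.Hom J M) (c : 𝒞.Hom M K) (d : 𝒞.Hom M L) :
    fromRows a b * fromCols c d = fromBlocks (a * c) (a * d) (b * c) (b * d) := by
  rw [fromRows_mul, mul_fromCols, mul_fromCols, fromBlocks]

@[simp] theorem fromRows_add (a a' : 𝒞.Hom I K) (b b' : 𝒞.Hom J K) :
    fromRows a b + fromRows a' b' = fromRows (a + a') (b + b') := by
  simp only [fromRows, Hm.mul_add]; abel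

@[simp] theorem fromCols_add (a a' : 𝒞.Hom K I) (b b' : 𝒞.Hom K J) :
    fromCols a b + fromCols a' b' = fromCols (a + a') (b + b') := by
  simp only [fromCols, Hm.add_mul]; abel

theorem fromRows_neg (a : 𝒞.Hom I K) (b : 𝒞.Hom J K) : -fromRows a b = fromRows (-a) (-b) := by
  simp only [fromRows, Hm.mul_neg]; abel

theorem fromCols_neg (a : 𝒞.Hom K I) (b : 𝒞.Hom K J) : -fromCols a b = fromCols (-a) (-b) := by
  simp only [fromCols, Hm.neg_mul]; abel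

@[simp] theorem fromRows_sub (a a' : 𝒞.Hom I K) (b b' : 𝒞.Hom J K) :
    fromRows a b - fromRows a' b' = fromRows (a - a') (b - b') := by
  simp only [sub_eq_add_neg, fromRows_neg, fromRows_add]

@[simp] theorem fromCols_sub (a a' : 𝒞.Hom K I) (b b' : 𝒞.Hom K J) :
    fromCols a b - fromCols a' b' = fromCols (a - a') (b - b') := by
  simp only [sub_eq_add_neg, fromCols_neg, fromCols_add]

theorem fromRows_smul (n : ℤ) (a : 𝒞.Hom I K) (b : 𝒞.Hom J K) :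
    n • fromRows a b = fromRows (n • a) (n • b) := by
  simp only [fromRows, Hm.mul_smul, smul_add]

theorem fromCols_smul (n : ℤ) (a : 𝒞.Hom K I) (b : 𝒞.Hom K J) :
    n • fromCols a b = fromCols (n • a) (n • b) := by
  simp only [fromCols, Hm.smul_mul, smul_add]

@[simp] theorem fromRows_zero : fromRows (0 : 𝒞.Hom I K) (0 : 𝒞.Hom J K) = 0 := by simp [fromRows]

@[simp] theorem fromCols_zero : fromCols (0 : 𝒞.Hom K I) (0 : 𝒞.Hom K J) = 0 := by simp [fromCols]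

@[simp] theorem fromBlocks_zero :
    fromBlocks (0 : 𝒞.Hom I K) (0 : 𝒞.Hom I L) (0 : 𝒞.Hom J K) (0 : 𝒞.Hom J L) = 0 := by
  simp [fromBlocks]

@[simp] theorem fromBlocks_one : fromBlocks (1 : 𝒞.Hom I I) 0 0 (1 : 𝒞.Hom J J) = 1 := by
  simp only [fromBlocks, fromRows, fromCols, Hm.one_mul, Hm.zero_mul, add_zero, zero_add, SC_tot]

theorem conjTranspose_fromRows_eq_fromCols_conjTranspose (a : 𝒞.Hom I K) (b : 𝒞.Hom J K) :
    (fromRows a b).ct = fromCols a.ct b.ct := by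
  simp [fromRows, fromCols]

theorem conjTranspose_fromCols_eq_fromRows_conjTranspose (a : 𝒞.Hom K I) (b : 𝒞.Hom K J) :
    (fromCols a b).ct = fromRows a.ct b.ct := by
  simp [fromRows, fromCols]

section Blocks2

variable (a a' : 𝒞.Hom I K) (b b' : 𝒞.Hom I L) (c c' : 𝒞.Hom J K) (d d' : 𝒞.Hom J L)

theorem fromBlocks_conjTranspose : (fromBlocks a b c d).ct = fromBlocks a.ct c.ct b.ct d.ct := by
  rw [fromBlocks, conjTranspose_fromRows_eq_fromCols_conjTranspose,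
    conjTranspose_fromCols_eq_fromRows_conjTranspose,
    conjTranspose_fromCols_eq_fromRows_conjTranspose, fromCols_fromRows_eq_fromBlocks]

theorem fromBlocks_add : fromBlocks a b c d + fromBlocks a' b' c' d' =
    fromBlocks (a + a') (b + b') (c + c') (d + d') := by
  simp only [fromBlocks, fromRows_add, fromCols_add]

theorem fromBlocks_sub : fromBlocks a b c d - fromBlocks a' b' c' d' =
    fromBlocks (a - a') (b - b') (c - c') (d - d') := by
  simp only [fromBlocks, fromRows_sub, fromCols_sub]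

theorem fromBlocks_neg : -fromBlocks a b c d = fromBlocks (-a) (-b) (-c) (-d) := by
  simp only [fromBlocks, fromRows_neg, fromCols_neg]

theorem fromBlocks_smul (n : ℤ) :
    n • fromBlocks a b c d = fromBlocks (n • a) (n • b) (n • c) (n • d) := by
  simp only [fromBlocks, fromRows_smul, fromCols_smul]

theorem fromBlocks_mul_fromRows (x : 𝒞.Hom K M) (y : 𝒞.Hom L M) :
    fromBlocks a b c d * fromRows x y = fromRows (a * x + b * y) (c * x + d * y) := by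
  rw [fromBlocks, fromRows_mul, fromCols_mul_fromRows, fromCols_mul_fromRows]

theorem fromCols_mul_fromBlocks (x : 𝒞.Hom M I) (y : 𝒞.Hom M J) :
    fromCols x y * fromBlocks a b c d = fromCols (x * a + y * c) (x * b + y * d) := by
  rw [← fromCols_fromRows_eq_fromBlocks, mul_fromCols, fromCols_mul_fromRows, fromCols_mul_fromRows]

theorem fromBlocks_multiply (x : 𝒞.Hom K M) (y : 𝒞.Hom K N) (z : 𝒞.Hom L M) (w : 𝒞.Hom L N) :
    fromBlocks a b c d * fromBlocks x y z w =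
      fromBlocks (a * x + b * z) (a * y + b * w) (c * x + d * z) (c * y + d * w) := by
  rw [fromBlocks, fromRows_mul, fromCols_mul_fromBlocks, fromCols_mul_fromBlocks, fromBlocks]

end Blocks2

section Parts

variable (A B : 𝒞.Hom (I + J) K) (A' B' : 𝒞.Hom K (I + J))

@[simp] theorem toRows₁_add : (A + B).toRows₁ = A.toRows₁ + B.toRows₁ := Hm.mul_add _ _ _
@[simp] theorem toRows₂_add : (A + B).toRows₂ = A.toRows₂ + B.toRows₂ := Hm.mul_add _ _ _
@[simp] theorem toCols₁_add : (A' + B').toCols₁ = A'.toCols₁ + B'.toCols₁ := Hm.add_mul _ _ _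
@[simp] theorem toCols₂_add : (A' + B').toCols₂ = A'.toCols₂ + B'.toCols₂ := Hm.add_mul _ _ _
@[simp] theorem toRows₁_sub : (A - B).toRows₁ = A.toRows₁ - B.toRows₁ := Hm.mul_sub _ _ _
@[simp] theorem toRows₂_sub : (A - B).toRows₂ = A.toRows₂ - B.toRows₂ := Hm.mul_sub _ _ _
@[simp] theorem toCols₁_sub : (A' - B').toCols₁ = A'.toCols₁ - B'.toCols₁ := Hm.sub_mul _ _ _
@[simp] theorem toCols₂_sub : (A' - B').toCols₂ = A'.toCols₂ - B'.toCols₂ := Hm.sub_mul _ _ _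
@[simp] theorem toRows₁_neg : (-A).toRows₁ = -A.toRows₁ := Hm.mul_neg _ _
@[simp] theorem toRows₂_neg : (-A).toRows₂ = -A.toRows₂ := Hm.mul_neg _ _
@[simp] theorem toCols₁_neg : (-A').toCols₁ = -A'.toCols₁ := Hm.neg_mul _ _
@[simp] theorem toCols₂_neg : (-A').toCols₂ = -A'.toCols₂ := Hm.neg_mul _ _
@[simp] theorem toRows₁_smul (n : ℤ) : (n • A).toRows₁ = n • A.toRows₁ := Hm.mul_smul _ _ _
@[simp] theorem toRows₂_smul (n : ℤ) : (n • A).toRows₂ = n • A.toRows₂ := Hm.mul_smul _ _ _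
@[simp] theorem toCols₁_smul (n : ℤ) : (n • A').toCols₁ = n • A'.toCols₁ := Hm.smul_mul _ _ _
@[simp] theorem toCols₂_smul (n : ℤ) : (n • A').toCols₂ = n • A'.toCols₂ := Hm.smul_mul _ _ _
@[simp] theorem toRows₁_zero : (0 : 𝒞.Hom (I + J) K).toRows₁ = 0 := Hm.mul_zero _
@[simp] theorem toRows₂_zero : (0 : 𝒞.Hom (I + J) K).toRows₂ = 0 := Hm.mul_zero _
@[simp] theorem toCols₁_zero : (0 : 𝒞.Hom K (I + J)).toCols₁ = 0 := Hm.zero_mul _
@[simp] theorem toCols₂_zero : (0 : 𝒞.Hom K (I + J)).toCols₂ = 0 := Hm.zero_mul _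
theorem toRows₁_mul (x : 𝒞.Hom K L) : (A * x).toRows₁ = A.toRows₁ * x := (Hm.mul_assoc _ _ _).symm
theorem toRows₂_mul (x : 𝒞.Hom K L) : (A * x).toRows₂ = A.toRows₂ * x := (Hm.mul_assoc _ _ _).symm
theorem toCols₁_mul (x : 𝒞.Hom L K) : (x * A').toCols₁ = x * A'.toCols₁ := Hm.mul_assoc _ _ _
theorem toCols₂_mul (x : 𝒞.Hom L K) : (x * A').toCols₂ = x * A'.toCols₂ := Hm.mul_assoc _ _ _
theorem toRows₁_ct : A'.ct.toRows₁ = A'.toCols₁.ct := by simp [toRows₁, toCols₁]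
theorem toRows₂_ct : A'.ct.toRows₂ = A'.toCols₂.ct := by simp [toRows₂, toCols₂]
theorem toCols₁_ct : A.ct.toCols₁ = A.toRows₁.ct := by simp [toRows₁, toCols₁]
theorem toCols₂_ct : A.ct.toCols₂ = A.toRows₂.ct := by simp [toRows₂, toCols₂]

@[simp] theorem toRows₁_fromCols (x : 𝒞.Hom (I + J) K) (y : 𝒞.Hom (I + J) L) :
    (fromCols x y).toRows₁ = fromCols x.toRows₁ y.toRows₁ := mul_fromCols _ _ _
@[simp] theorem toRows₂_fromCols (x : 𝒞.Hom (I + J) K) (y : 𝒞.Hom (I + J) L) :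
    (fromCols x y).toRows₂ = fromCols x.toRows₂ y.toRows₂ := mul_fromCols _ _ _
@[simp] theorem toCols₁_fromRows (x : 𝒞.Hom K (I + J)) (y : 𝒞.Hom L (I + J)) :
    (fromRows x y).toCols₁ = fromRows x.toCols₁ y.toCols₁ := fromRows_mul _ _ _
@[simp] theorem toCols₂_fromRows (x : 𝒞.Hom K (I + J)) (y : 𝒞.Hom L (I + J)) :
    (fromRows x y).toCols₂ = fromRows x.toCols₂ y.toCols₂ := fromRows_mul _ _ _

@[simp] theorem toRows₁_one : (1 : 𝒞.Hom (I + J) (I + J)).toRows₁ = fromCols 1 0 := by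
  rw [← fromBlocks_one, toRows₁_fromBlocks]
@[simp] theorem toRows₂_one : (1 : 𝒞.Hom (I + J) (I + J)).toRows₂ = fromCols 0 1 := by
  rw [← fromBlocks_one, toRows₂_fromBlocks]
@[simp] theorem toCols₁_one : (1 : 𝒞.Hom (I + J) (I + J)).toCols₁ = fromRows 1 0 := by
  rw [← fromBlocks_one, toCols₁_fromBlocks]
@[simp] theorem toCols₂_one : (1 : 𝒞.Hom (I + J) (I + J)).toCols₂ = fromRows 0 1 := by
  rw [← fromBlocks_one, toCols₂_fromBlocks]

theorem toRows₁_eq (U : 𝒞.Hom (I + J) (K + L)) : U.toRows₁ = fromCols U.toBlocks₁₁ U.toBlocks₁₂ :=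
  (fromCols_toCols _).symm
theorem toRows₂_eq (U : 𝒞.Hom (I + J) (K + L)) : U.toRows₂ = fromCols U.toBlocks₂₁ U.toBlocks₂₂ :=
  (fromCols_toCols _).symm
theorem toCols₁_eq (U : 𝒞.Hom (I + J) (K + L)) : U.toCols₁ = fromRows U.toBlocks₁₁ U.toBlocks₂₁ := by
  conv_lhs => rw [← fromBlocks_toBlocks U, toCols₁_fromBlocks]
theorem toCols₂_eq (U : 𝒞.Hom (I + J) (K + L)) : U.toCols₂ = fromRows U.toBlocks₁₂ U.toBlocks₂₂ := by
  conv_lhs => rw [← fromBlocks_toBlocks U, toCols₂_fromBlocks]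

end Parts

end Pool.Agent.Work.MP_9d1ffa_al.Ct
end

-- merged part: Pool.Agent.Work.MP_9d1ffa_al.Ct.SD
section
/-! Forms, isometries, boxes, idempotents and functors in an additive category with involution. -/

namespace Pool.Agent.Work.MP_9d1ffa_al.Ct

set_option linter.unusedSectionVars false
set_option linter.unusedVariables false

variable {O : Type 1} [Add O] [Zero O] {𝒞 : SCat O} {I J K L : O}

/-- the symmetrisation -/
def sy (ε : ℤˣ) (ψ : 𝒞.Hom I I) : 𝒞.Hom I I := ψ + (ε : ℤ) • ψ.ct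

/-- the hyperbolic form -/
def hypF (𝒞 : SCat O) (κ : O) : 𝒞.Hom (κ + κ) (κ + κ) := fromBlocks 0 1 0 0

/-- the two morphisms define the same quadratic form -/
def Eqv (ε : ℤˣ) (ψ ψ' : 𝒞.Hom I I) : Prop := ∃ χ : 𝒞.Hom I I, ψ' = ψ + χ - (ε : ℤ) • χ.ct

/-- isometric quadratic forms -/
def Iso (ε : ℤˣ) (ψ : 𝒞.Hom I I) (ψ' : 𝒞.Hom J J) : Prop :=
  ∃ (g : 𝒞.Hom J I) (g' : 𝒞.Hom I J), g * g' = 1 ∧ g' * g = 1 ∧ Eqv ε ψ' (g * ψ * g.ct)

/-- stably hyperbolic -/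
def Z (ε : ℤˣ) (ψ : 𝒞.Hom I I) : Prop :=
  ∃ m n : O, Iso ε (fromBlocks ψ 0 0 (hypF 𝒞 m)) (hypF 𝒞 n)

/-- nonsingular quadratic form -/
def NS (ε : ℤˣ) (ψ : 𝒞.Hom I I) : Prop := IsUnit (sy ε ψ)

/-- all nonsingular forms are stably hyperbolic -/
def Van0 (𝒞 : SCat O) (ε : ℤˣ) : Prop := ∀ (I : O) (ψ : 𝒞.Hom I I), NS ε ψ → Z ε ψ

/-- a unitary morphism -/
def Unt (u : 𝒞.Hom J I) : Prop := u * u.ct = 1 ∧ u.ct * u = 1

/-- exchange of two summands -/
def sComm (𝒞 : SCat O) (I J : O) : 𝒞.Hom (J + I) (I + J) := fromBlocks 0 1 1 0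

/-- change of brackets -/
def sAssoc (𝒞 : SCat O) (I J K : O) : 𝒞.Hom (I + (J + K)) ((I + J) + K) :=
  fromBlocks (fromCols 1 0) 0 (fromRows (fromCols 0 1) 0) (fromRows 0 1)

/-- exchange of the two middle summands -/
def sFour (𝒞 : SCat O) (I J K L : O) : 𝒞.Hom ((I + K) + (J + L)) ((I + J) + (K + L)) :=
  fromBlocks (fromBlocks 1 0 0 0) (fromBlocks 0 0 1 0) (fromBlocks 0 1 0 0) (fromBlocks 0 0 0 1)

/-- isometry of the hyperbolic quadratic form -/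
def Uni (η : ℤˣ) (U : 𝒞.Hom (I + I) (I + I)) : Prop :=
  IsUnit U ∧ Eqv η (hypF 𝒞 I) (U * hypF 𝒞 I * U.ct)

/-- block sum of two morphisms acting on hyperbolic objects -/
def dsum (U : 𝒞.Hom (I + I) (I + I)) (V : 𝒞.Hom (J + J) (J + J)) :
    𝒞.Hom ((I + J) + (I + J)) ((I + J) + (I + J)) :=
  fromBlocks (fromBlocks U.toBlocks₁₁ 0 0 V.toBlocks₁₁) (fromBlocks U.toBlocks₁₂ 0 0 V.toBlocks₁₂)
    (fromBlocks U.toBlocks₂₁ 0 0 V.toBlocks₂₁) (fromBlocks U.toBlocks₂₂ 0 0 V.toBlocks₂₂)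

/-- transport along a unitary morphism, the analogue of reindexing -/
def reix (u : 𝒞.Hom J I) (U : 𝒞.Hom (I + I) (I + I)) : 𝒞.Hom (J + J) (J + J) :=
  fromBlocks u 0 0 u * U * (fromBlocks u 0 0 u).ct

/-- the elementary isometries -/
inductive GenU (η : ℤˣ) : 𝒞.Hom (I + I) (I + I) → Prop
  | gl (g g' : 𝒞.Hom I I) (h1 : g * g' = 1) (h2 : g' * g = 1) : GenU η (fromBlocks g 0 0 g'.ct)
  | sh (χ : 𝒞.Hom I I) : GenU η (fromBlocks 1 (χ - (η : ℤ) • χ.ct) 0 1)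
  | sw (κ : O) (s : 𝒞.Hom κ I) (h : s * s.ct = 1) :
      GenU η (fromBlocks (1 - s.ct * s) (s.ct * s) ((η : ℤ) • (s.ct * s)) (1 - s.ct * s))

/-- products of elementary isometries -/
def RU (𝒞 : SCat O) (η : ℤˣ) (I : O) : Submonoid (𝒞.Hom (I + I) (I + I)) :=
  Submonoid.closure {U | GenU η U}

/-- stably a product of elementary isometries -/
def Nul (η : ℤˣ) (U : 𝒞.Hom (I + I) (I + I)) : Prop :=
  ∃ κ : O, dsum U (1 : 𝒞.Hom (κ + κ) (κ + κ)) ∈ RU 𝒞 η (I + κ)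

/-- all isometries of hyperbolic forms are stably elementary -/
def Van1 (𝒞 : SCat O) (η : ℤˣ) : Prop := ∀ (I : O) (U : 𝒞.Hom (I + I) (I + I)), Uni η U → Nul η U

/-- the linear system of the form `ψ` with the boundary condition given by the upper rows of `W` -/
def sysM (ε : ℤˣ) (W : 𝒞.Hom (I + I) (I + I)) (ψ : 𝒞.Hom I I) : 𝒞.Hom I I :=
  W.toBlocks₁₁ * sy ε ψ - W.toBlocks₁₂

/-- the rows `(x, φ)` span the boundary values of the solutions of the form `θ` -/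
def BoxD (ε : ℤˣ) {M : O} (x φ : 𝒞.Hom I I) (θ : 𝒞.Hom (I + M) (I + M)) (m : 𝒞.Hom I M) : Prop :=
  fromCols x m * sy ε θ = fromCols φ 0 ∧
    ∃ (B : 𝒞.Hom M (I + M)) (c : 𝒞.Hom M I), B * sy ε θ = fromCols c 1

/-- the rows `(x, φ)` are the boundary values of some form -/
def HasBox (ε : ℤˣ) (x φ : 𝒞.Hom I I) : Prop :=
  ∃ (M : O) (θ : 𝒞.Hom (I + M) (I + M)) (m : 𝒞.Hom I M), BoxD ε x φ θ m

/-- an idempotent whose image is the object `b` -/
def FreeOn (b : O) (E : 𝒞.Hom I I) : Prop :=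
  ∃ (U : 𝒞.Hom b I) (W : 𝒞.Hom I b), U * W = 1 ∧ W * U = E

/-- an idempotent whose image is an object -/
def FreeIdem (E : 𝒞.Hom I I) : Prop := ∃ b : O, FreeOn b E

/-- an idempotent whose image is stably an object -/
def SFIdem (E : 𝒞.Hom I I) : Prop := ∃ a : O, FreeIdem (fromBlocks E 0 0 (1 : 𝒞.Hom a a))

/-- all idempotents split stably -/
def SFI (𝒞 : SCat O) : Prop := ∀ (I : O) (E : 𝒞.Hom I I), E * E = E → SFIdem E

/-- any two objects are stably isomorphic -/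
def Stab (𝒞 : SCat O) : Prop := ∀ a b : O, ∃ (κ : O) (u : 𝒞.Hom (a + κ) (b + κ)), Unt u

/-- conjugation by `diag (1, η)` -/
def fA (η : ℤˣ) (U : 𝒞.Hom (I + I) (I + I)) : 𝒞.Hom (I + I) (I + I) :=
  fromBlocks U.toBlocks₁₁ ((η : ℤ) • U.toBlocks₁₂) ((η : ℤ) • U.toBlocks₂₁) U.toBlocks₂₂

/-- conjugation by the quarter turn -/
def fB (U : 𝒞.Hom (I + I) (I + I)) : 𝒞.Hom (I + I) (I + I) :=
  fromBlocks U.toBlocks₂₂ (-U.toBlocks₂₁) (-U.toBlocks₁₂) U.toBlocks₁₁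

/-- an additive functor that preserves the involution -/
structure Fn {O' : Type 1} [Add O'] [Zero O'] (𝒞 : SCat O) (𝒟 : SCat O') where
  ob : O → O'
  map : ∀ {a b : O}, 𝒞.Hom a b → 𝒟.Hom (ob a) (ob b)
  map_add : ∀ {a b : O} (x y : 𝒞.Hom a b), map (x + y) = map x + map y
  map_mul : ∀ {a b c : O} (x : 𝒞.Hom a b) (y : 𝒞.Hom b c), map (x * y) = map x * map y
  map_one : ∀ a : O, map (1 : 𝒞.Hom a a) = 1
  map_ct : ∀ {a b : O} (x : 𝒞.Hom a b), map x.ct = (map x).ct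

/-- a class of isomorphisms with the formal properties of the kernel of an index -/
structure KT (𝒞 : SCat O) where
  D : ∀ {a b : O}, 𝒞.Hom a b → Prop
  inv : ∀ {a b : O} {u : 𝒞.Hom a b}, D u → ∃ v : 𝒞.Hom b a, u * v = 1 ∧ v * u = 1
  mul : ∀ {a b c : O} {u : 𝒞.Hom a b} {v : 𝒞.Hom b c}, D u → D v → D (u * v)
  sum : ∀ {a b c d : O} {u : 𝒞.Hom a b} {v : 𝒞.Hom c d}, D u → D v → D (fromBlocks u 0 0 v)
  cancel : ∀ {a b c d : O} {u : 𝒞.Hom a b} {v : 𝒞.Hom c d}, D (fromBlocks u 0 0 v) → D v → D u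
  upper : ∀ {a b : O} (x : 𝒞.Hom a b), D (fromBlocks (1 : 𝒞.Hom a a) x 0 (1 : 𝒞.Hom b b))
  lower : ∀ {a b : O} (x : 𝒞.Hom b a), D (fromBlocks (1 : 𝒞.Hom a a) 0 x (1 : 𝒞.Hom b b))
  comm : ∀ a b : O, D (sComm 𝒞 a b)
  neg : ∀ a : O, D (-1 : 𝒞.Hom a a)

end Pool.Agent.Work.MP_9d1ffa_al.Ct
end

-- merged part: Pool.Agent.Work.MP_9d1ffa_al.Ct.SW
section
/-! Quadratic forms in an additive category with involution. -/

namespace Pool.Agent.Work.MP_9d1ffa_al.Ct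

set_option linter.unusedSectionVars false
set_option linter.unusedVariables false

variable {O : Type 1} [Add O] [Zero O] {𝒞 : SCat O} {ε : ℤˣ} {I J K L : O}

theorem eps_eps {M : Type} [AddCommGroup M] (x : M) : (ε : ℤ) • (ε : ℤ) • x = x := by
  rw [smul_smul, ← Units.val_mul, Int.units_mul_self, Units.val_one, one_smul]

theorem sy_ct (ψ : 𝒞.Hom I I) : (sy ε ψ).ct = (ε : ℤ) • sy ε ψ := by
  rw [sy, conjTranspose_add, ct_zsmul, conjTranspose_conjTranspose, smul_add, eps_eps, add_comm]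

theorem sy_add (a b : 𝒞.Hom I I) : sy ε (a + b) = sy ε a + sy ε b := by
  simp only [sy, conjTranspose_add, smul_add]; abel

theorem sy_neg (a : 𝒞.Hom I I) : sy ε (-a) = -sy ε a := by
  simp only [sy, conjTranspose_neg, smul_neg]; abel

theorem sy_zero : sy ε (0 : 𝒞.Hom I I) = 0 := by simp [sy]

theorem sy_conj (g : 𝒞.Hom J I) (a : 𝒞.Hom I I) :
    sy ε (g * a * g.ct) = g * sy ε a * g.ct := by
  simp only [sy, conjTranspose_mul, conjTranspose_conjTranspose, Hm.mul_add, Hm.add_mul,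
    Hm.mul_smul, Hm.smul_mul, Hm.mul_assoc]

theorem sy_blocks (a : 𝒞.Hom I I) (b : 𝒞.Hom I J) (c : 𝒞.Hom J I) (d : 𝒞.Hom J J) :
    sy ε (fromBlocks a b c d) =
      fromBlocks (sy ε a) (b + (ε : ℤ) • c.ct) (c + (ε : ℤ) • b.ct) (sy ε d) := by
  simp only [sy, fromBlocks_conjTranspose, fromBlocks_smul, fromBlocks_add]

theorem inv_ct {ψ μ : 𝒞.Hom I I} (h1 : sy ε ψ * μ = 1)
    (h2 : μ * sy ε ψ = 1) : μ.ct = (ε : ℤ) • μ := by
  have h3 : μ.ct * ((ε : ℤ) • sy ε ψ) = 1 := by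
    rw [← sy_ct, ← conjTranspose_mul, h1, conjTranspose_one]
  calc μ.ct = μ.ct * ((ε : ℤ) • sy ε ψ) * ((ε : ℤ) • μ) := by
        rw [Hm.mul_assoc, Hm.smul_mul, Hm.mul_smul _ _ μ, eps_eps, h1, Hm.mul_one]
    _ = (ε : ℤ) • μ := by rw [h3, Hm.one_mul]

theorem Eqv.refl (a : 𝒞.Hom I I) : Eqv ε a a := ⟨0, by simp⟩

theorem Eqv.of_eq {a b : 𝒞.Hom I I} (h : a = b) : Eqv ε a b := h ▸ Eqv.refl a

theorem Eqv.symm {a b : 𝒞.Hom I I} (h : Eqv ε a b) : Eqv ε b a := by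
  obtain ⟨χ, rfl⟩ := h
  exact ⟨-χ, by simp only [conjTranspose_neg, smul_neg]; abel⟩

theorem Eqv.trans {a b c : 𝒞.Hom I I} (h : Eqv ε a b) (h' : Eqv ε b c) : Eqv ε a c := by
  obtain ⟨χ, rfl⟩ := h
  obtain ⟨χ', rfl⟩ := h'
  exact ⟨χ + χ', by simp only [conjTranspose_add, smul_add]; abel⟩

theorem Eqv.add {a b c d : 𝒞.Hom I I} (h : Eqv ε a b) (h' : Eqv ε c d) :
    Eqv ε (a + c) (b + d) := by
  obtain ⟨χ, rfl⟩ := h
  obtain ⟨χ', rfl⟩ := h'
  exact ⟨χ + χ', by simp only [conjTranspose_add, smul_add]; abel⟩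

theorem Eqv.neg {a b : 𝒞.Hom I I} (h : Eqv ε a b) : Eqv ε (-a) (-b) := by
  obtain ⟨χ, rfl⟩ := h
  exact ⟨-χ, by simp only [conjTranspose_neg, smul_neg]; abel⟩

theorem Eqv.conj {a b : 𝒞.Hom I I} (h : Eqv ε a b) (g : 𝒞.Hom J I) :
    Eqv ε (g * a * g.ct) (g * b * g.ct) := by
  obtain ⟨χ, rfl⟩ := h
  exact ⟨g * χ * g.ct, by
    simp only [conjTranspose_mul, conjTranspose_conjTranspose, Hm.mul_add, Hm.add_mul,
      Hm.mul_sub, Hm.sub_mul, Hm.mul_smul, Hm.smul_mul, Hm.mul_assoc]⟩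

theorem eqv_swap (a : 𝒞.Hom I I) : Eqv ε a ((ε : ℤ) • a.ct) :=
  ⟨-a, by simp only [conjTranspose_neg, smul_neg]; abel⟩

theorem Eqv.sy_eq {a b : 𝒞.Hom I I} (h : Eqv ε a b) : sy ε a = sy ε b := by
  obtain ⟨χ, rfl⟩ := h
  simp only [sy, conjTranspose_add, conjTranspose_sub, ct_zsmul, conjTranspose_conjTranspose,
    smul_add, smul_sub, eps_eps]
  abel

/-- the cross terms of a sum -/
theorem eqv_cross (X Y : 𝒞.Hom I J) (φ : 𝒞.Hom J J) :
    Eqv ε (X * φ * X.ct + X * sy ε φ * Y.ct + Y * φ * Y.ct) ((X + Y) * φ * (X + Y).ct) :=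
  ⟨Y * φ * X.ct, by
    simp only [sy, conjTranspose_mul, conjTranspose_add, conjTranspose_conjTranspose,
      Hm.mul_add, Hm.add_mul, Hm.mul_smul, Hm.smul_mul, Hm.mul_assoc]
    abel⟩

theorem eqv_blocks {a a' : 𝒞.Hom I I} {b b' : 𝒞.Hom I J} {c c' : 𝒞.Hom J I}
    {d d' : 𝒞.Hom J J} (ha : Eqv ε a a') (hd : Eqv ε d d')
    (h : b + (ε : ℤ) • c.ct = b' + (ε : ℤ) • c'.ct) :
    Eqv ε (fromBlocks a b c d) (fromBlocks a' b' c' d') := by
  obtain ⟨χ, rfl⟩ := ha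
  obtain ⟨χ', rfl⟩ := hd
  refine ⟨fromBlocks χ 0 (c' - c) χ', ?_⟩
  have e : b' = b + 0 - (ε : ℤ) • (c' - c).ct := by
    rw [conjTranspose_sub, smul_sub, add_zero, eq_sub_of_add_eq h.symm]; abel
  rw [fromBlocks_conjTranspose, fromBlocks_smul, fromBlocks_add, sub_eq_add_neg (fromBlocks _ _ _ _),
    fromBlocks_neg, fromBlocks_add, e]
  simp only [← sub_eq_add_neg, conjTranspose_zero, smul_zero, sub_zero, add_sub_cancel]

theorem Iso.of_eqv {a b : 𝒞.Hom I I} (h : Eqv ε a b) : Iso ε a b :=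
  ⟨1, 1, by simp, by simp, by simpa using h.symm⟩

theorem Iso.refl (a : 𝒞.Hom I I) : Iso ε a a := Iso.of_eqv (Eqv.refl a)

theorem iso_conj (a : 𝒞.Hom I I) {g : 𝒞.Hom J I} {g' : 𝒞.Hom I J} (h1 : g * g' = 1)
    (h2 : g' * g = 1) : Iso ε a (g * a * g.ct) := ⟨g, g', h1, h2, Eqv.refl _⟩

theorem Iso.symm {a : 𝒞.Hom I I} {b : 𝒞.Hom J J} (h : Iso ε a b) : Iso ε b a := by
  obtain ⟨g, g', h1, h2, h⟩ := h
  refine ⟨g', g, h2, h1, ?_⟩
  have := (h.conj g').symm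
  rwa [← Hm.mul_assoc, ← Hm.mul_assoc, h2, Hm.one_mul, Hm.mul_assoc,
    ← conjTranspose_mul, h2, conjTranspose_one, Hm.mul_one] at this

theorem Iso.trans {a : 𝒞.Hom I I} {b : 𝒞.Hom J J} {c : 𝒞.Hom K K} (h : Iso ε a b)
    (h' : Iso ε b c) : Iso ε a c := by
  obtain ⟨g, g', h1, h2, h⟩ := h
  obtain ⟨f, f', k1, k2, k⟩ := h'
  refine ⟨f * g, g' * f', ?_, ?_, k.trans ?_⟩
  · rw [Hm.mul_assoc, ← Hm.mul_assoc g, h1, Hm.one_mul, k1]
  · rw [Hm.mul_assoc, ← Hm.mul_assoc f', k2, Hm.one_mul, h2]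
  · simpa only [conjTranspose_mul, Hm.mul_assoc] using h.conj f

theorem Iso.sum {a : 𝒞.Hom I I} {b : 𝒞.Hom J J} {c : 𝒞.Hom K K} {d : 𝒞.Hom L L}
    (h : Iso ε a b) (h' : Iso ε c d) : Iso ε (fromBlocks a 0 0 c) (fromBlocks b 0 0 d) := by
  obtain ⟨g, g', h1, h2, h⟩ := h
  obtain ⟨f, f', k1, k2, k⟩ := h'
  refine ⟨fromBlocks g 0 0 f, fromBlocks g' 0 0 f', ?_, ?_, ?_⟩
  · simp [fromBlocks_multiply, h1, k1]
  · simp [fromBlocks_multiply, h2, k2]
  · simpa [fromBlocks_multiply, fromBlocks_conjTranspose] using eqv_blocks h k (b := 0) (c := 0) rfl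

theorem unt_one : Unt (1 : 𝒞.Hom I I) := by simp [Unt]

theorem Unt.ct {u : 𝒞.Hom J I} (h : Unt u) : Unt u.ct :=
  ⟨by rw [conjTranspose_conjTranspose, h.2], by rw [conjTranspose_conjTranspose, h.1]⟩

theorem Unt.mul {u : 𝒞.Hom K J} {v : 𝒞.Hom J I} (h : Unt u) (h' : Unt v) : Unt (u * v) := by
  constructor
  · rw [conjTranspose_mul, Hm.mul_assoc, ← Hm.mul_assoc v, h'.1, Hm.one_mul, h.1]
  · rw [conjTranspose_mul, Hm.mul_assoc, ← Hm.mul_assoc u.ct, h.2, Hm.one_mul, h'.2]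

theorem Unt.sum {u : 𝒞.Hom J I} {v : 𝒞.Hom L K} (h : Unt u) (h' : Unt v) :
    Unt (fromBlocks u 0 0 v) := by
  constructor <;> simp [fromBlocks_conjTranspose, fromBlocks_multiply, h.1, h.2, h'.1, h'.2]

theorem unt_comm : Unt (sComm 𝒞 I J) := by
  constructor <;> simp [sComm, fromBlocks_conjTranspose, fromBlocks_multiply]

theorem unt_assoc : Unt (sAssoc 𝒞 I J K) := by
  constructor <;> simp [sAssoc, fromBlocks_conjTranspose, fromBlocks_multiply,
    conjTranspose_fromRows_eq_fromCols_conjTranspose,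
    conjTranspose_fromCols_eq_fromRows_conjTranspose, fromCols_mul_fromRows,
    fromRows_fromCols_eq_fromBlocks, fromCols_fromRows_eq_fromBlocks]

theorem unt_four : Unt (sFour 𝒞 I J K L) := by
  constructor <;> simp [sFour, fromBlocks_conjTranspose, fromBlocks_multiply, fromBlocks_add]

theorem iso_unt (a : 𝒞.Hom I I) {u : 𝒞.Hom J I} (h : Unt u) : Iso ε a (u * a * u.ct) :=
  iso_conj a h.1 h.2

theorem UZ_re {a : 𝒞.Hom I I} {b : 𝒞.Hom J J} {u : 𝒞.Hom J I} (hu : Unt u)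
    (h : u * a * u.ct = b) : Iso ε a b := h ▸ iso_unt a hu

theorem UZ_comm (a : 𝒞.Hom I I) (b : 𝒞.Hom J J) :
    Iso ε (fromBlocks a 0 0 b) (fromBlocks b 0 0 a) :=
  UZ_re unt_comm (by simp [sComm, fromBlocks_conjTranspose, fromBlocks_multiply])

theorem UZ_assoc (a : 𝒞.Hom I I) (b : 𝒞.Hom J J) (c : 𝒞.Hom K K) :
    Iso ε (fromBlocks a 0 0 (fromBlocks b 0 0 c)) (fromBlocks (fromBlocks a 0 0 b) 0 0 c) :=
  (UZ_re unt_assoc (by
    simp [sAssoc, fromBlocks_conjTranspose, fromBlocks_multiply,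
      conjTranspose_fromRows_eq_fromCols_conjTranspose,
      conjTranspose_fromCols_eq_fromRows_conjTranspose, fromCols_mul_fromRows,
      fromCols_mul_fromBlocks, fromRows_fromCols_eq_fromBlocks,
      fromCols_fromRows_eq_fromBlocks, fromBlocks_add])).symm

theorem UZ_four (a : 𝒞.Hom I I) (b : 𝒞.Hom J J) (c : 𝒞.Hom K K) (d : 𝒞.Hom L L) :
    Iso ε (fromBlocks (fromBlocks a 0 0 b) 0 0 (fromBlocks c 0 0 d))
      (fromBlocks (fromBlocks a 0 0 c) 0 0 (fromBlocks b 0 0 d)) :=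
  UZ_re unt_four (by simp [sFour, fromBlocks_conjTranspose, fromBlocks_multiply, fromBlocks_add])

theorem UZ_hsum : Iso ε (fromBlocks (hypF 𝒞 I) 0 0 (hypF 𝒞 J)) (hypF 𝒞 (I + J)) :=
  UZ_re unt_four (by
    simp [sFour, hypF, fromBlocks_conjTranspose, fromBlocks_multiply, fromBlocks_add])

theorem UZ_hequiv {u : 𝒞.Hom J I} (h : Unt u) : Iso ε (hypF 𝒞 I) (hypF 𝒞 J) :=
  UZ_re (h.sum h) (by simp [hypF, fromBlocks_conjTranspose, fromBlocks_multiply, h.1])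

theorem UZ_of {a : 𝒞.Hom I I} (h : Iso ε (fromBlocks a 0 0 (hypF 𝒞 K)) (hypF 𝒞 L)) : Z ε a :=
  ⟨K, L, h⟩

theorem UZ_neg {a : 𝒞.Hom I I} {b : 𝒞.Hom J J} (h : Iso ε a b) : Iso ε (-a) (-b) := by
  obtain ⟨g, g', h1, h2, h⟩ := h
  exact ⟨g, g', h1, h2, by simpa using h.neg⟩

theorem UZ_hneg : Iso ε (-hypF 𝒞 I) (hypF 𝒞 I) := by
  have e : (fromBlocks 1 0 0 (-1) : 𝒞.Hom (I + I) (I + I)) * fromBlocks 1 0 0 (-1) = 1 := by
    simp [fromBlocks_multiply]
  refine (iso_conj _ e e).trans (Iso.of_eqv (Eqv.of_eq ?_))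
  simp [hypF, fromBlocks_multiply, fromBlocks_conjTranspose, fromBlocks_neg]

theorem Z.iso {a : 𝒞.Hom I I} {b : 𝒞.Hom J J} (h : Iso ε a b) (hz : Z ε a) : Z ε b := by
  obtain ⟨m, n, k⟩ := hz
  exact ⟨m, n, (h.symm.sum (Iso.refl _)).trans k⟩

theorem Z.eqv {a b : 𝒞.Hom I I} (h : Eqv ε a b) (hz : Z ε a) : Z ε b :=
  Z.iso (Iso.of_eqv h) hz

theorem z_hyp (κ : O) : Z ε (hypF 𝒞 κ) :=
  UZ_of (K := κ) UZ_hsum

theorem Z.sum {a : 𝒞.Hom I I} {b : 𝒞.Hom J J} (ha : Z ε a) (hb : Z ε b) :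
    Z ε (fromBlocks a 0 0 b) := by
  obtain ⟨m, n, h⟩ := ha
  obtain ⟨m', n', h'⟩ := hb
  exact UZ_of (((((Iso.refl _).sum UZ_hsum.symm).trans (UZ_four _ _ _ _)).trans (h.sum h')).trans
    UZ_hsum)

theorem Z.cancel {a : 𝒞.Hom I I} {b : 𝒞.Hom J J} (h : Z ε (fromBlocks a 0 0 b))
    (hb : Z ε b) : Z ε a := by
  obtain ⟨m, n, k⟩ := hb
  obtain ⟨m', n', k'⟩ := h
  refine UZ_of (K := n + m') (L := n' + m) ?_
  refine ((Iso.refl a).sum (UZ_hsum.symm.trans (k.symm.sum (Iso.refl _)))).trans ?_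
  refine ((Iso.refl a).sum ((UZ_assoc _ _ _).symm.trans
    ((Iso.refl b).sum (UZ_comm _ _)))).trans ?_
  exact (((UZ_assoc _ _ _).trans (UZ_assoc _ _ _)).trans (k'.sum (Iso.refl _))).trans UZ_hsum

theorem Z.neg {a : 𝒞.Hom I I} (h : Z ε a) : Z ε (-a) := by
  obtain ⟨m, n, k⟩ := h
  refine ⟨m, n, (((Iso.refl _).sum UZ_hneg.symm).trans ?_).trans UZ_hneg⟩
  simpa [fromBlocks_neg] using UZ_neg k

/-- a form with a complemented lagrangian -/
theorem z_lag (b : 𝒞.Hom I J) (c : 𝒞.Hom J I) (d : 𝒞.Hom J J) (b' : 𝒞.Hom J I)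
    (h1 : (b + (ε : ℤ) • c.ct) * b' = 1) (h2 : b' * (b + (ε : ℤ) • c.ct) = 1) :
    Z ε (fromBlocks 0 b c d) := by
  refine Z.iso (Iso.symm ?_) (z_hyp J)
  generalize hB : b + (ε : ℤ) • c.ct = B at h1 h2
  have e1 : Eqv ε (fromBlocks (0 : 𝒞.Hom I I) b c d) (fromBlocks 0 B 0 d) :=
    eqv_blocks (Eqv.refl _) (Eqv.refl _) (by simp [hB])
  have e2 := iso_conj (ε := ε) (fromBlocks (0 : 𝒞.Hom I I) B 0 d)
    (g := (fromBlocks b' 0 0 1 : 𝒞.Hom (J + J) (I + J))) (g' := fromBlocks B 0 0 1)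
    (by simp [fromBlocks_multiply, h2]) (by simp [fromBlocks_multiply, h1])
  have e3 := iso_conj (ε := ε) (fromBlocks (0 : 𝒞.Hom J J) 1 0 d)
    (g := (fromBlocks 1 0 (-d) 1 : 𝒞.Hom (J + J) (J + J))) (g' := fromBlocks 1 0 d 1)
    (by simp [fromBlocks_multiply]) (by simp [fromBlocks_multiply])
  simp only [fromBlocks_multiply, fromBlocks_conjTranspose, conjTranspose_zero, conjTranspose_one,
    Hm.mul_zero, Hm.zero_mul, Hm.mul_one, Hm.one_mul, add_zero, zero_add, h2,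
    neg_add_cancel] at e2 e3
  exact ((Iso.of_eqv e1).trans e2).trans e3

theorem z_lag' (a : 𝒞.Hom I I) (b : 𝒞.Hom I J) (c : 𝒞.Hom J I) (b' : 𝒞.Hom J I)
    (h1 : (b + (ε : ℤ) • c.ct) * b' = 1) (h2 : b' * (b + (ε : ℤ) • c.ct) = 1) :
    Z ε (fromBlocks a b c 0) := by
  have e : c + (ε : ℤ) • b.ct = (ε : ℤ) • (b + (ε : ℤ) • c.ct).ct := by
    rw [conjTranspose_add, ct_zsmul, conjTranspose_conjTranspose, smul_add, eps_eps, add_comm]
  refine Z.iso (UZ_re unt_comm (by simp [sComm, fromBlocks_conjTranspose, fromBlocks_multiply]))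
    (z_lag c b a ((ε : ℤ) • b'.ct) ?_ ?_)
  · rw [e, Hm.smul_mul, Hm.mul_smul, eps_eps, ← conjTranspose_mul, h2, conjTranspose_one]
  · rw [e, Hm.smul_mul, Hm.mul_smul, eps_eps, ← conjTranspose_mul, h1, conjTranspose_one]

/-- a nonsingular form with two complementary lagrangians -/
theorem z_lag_two (b : 𝒞.Hom I J) (c : 𝒞.Hom J I) (μ : 𝒞.Hom (I + J) (I + J))
    (h1 : sy ε (fromBlocks 0 b c 0) * μ = 1) (h2 : μ * sy ε (fromBlocks 0 b c 0) = 1) :
    Z ε (fromBlocks 0 b c 0) := by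
  rw [sy_blocks, sy_zero, sy_zero, ← fromBlocks_toBlocks μ, fromBlocks_multiply, ← fromBlocks_one,
    fromBlocks_inj] at h1 h2
  exact z_lag b c 0 μ.toBlocks₂₁ (by simpa using h1.1) (by simpa using h2.2.2.2)

theorem OL0_ns {ψ μ : 𝒞.Hom I I} (h1 : sy ε ψ * μ = 1) (h2 : μ * sy ε ψ = 1) : NS ε ψ :=
  ⟨⟨sy ε ψ, μ, h1, h2⟩, rfl⟩

theorem ns_of_left {ψ C : 𝒞.Hom I I} (h : C * sy ε ψ = 1) : NS ε ψ := by
  have h1 : sy ε ψ * ((ε : ℤ) • C.ct) = 1 := by
    rw [Hm.mul_smul, ← Hm.smul_mul, ← sy_ct, ← conjTranspose_mul, h, conjTranspose_one]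
  have h2 : C = (ε : ℤ) • C.ct := left_inv_eq_right_inv h h1
  rw [← h2] at h1
  exact OL0_ns h1 h

theorem NS.inv {ψ : 𝒞.Hom I I} (h : NS ε ψ) :
    ∃ μ : 𝒞.Hom I I, sy ε ψ * μ = 1 ∧ μ * sy ε ψ = 1 := by
  obtain ⟨u, hu⟩ := h
  exact ⟨(↑u⁻¹ : 𝒞.Hom I I), hu ▸ u.mul_inv, hu ▸ u.inv_mul⟩

theorem NS.iso {a : 𝒞.Hom I I} {b : 𝒞.Hom J J} (h : Iso ε a b) (ha : NS ε a) : NS ε b := by
  obtain ⟨g, g', h1, h2, h⟩ := h
  obtain ⟨μ, -, k⟩ := ha.inv
  refine ns_of_left (C := g'.ct * μ * g') ?_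
  rw [h.sy_eq, sy_conj]
  calc g'.ct * μ * g' * (g * sy ε a * g.ct) = g'.ct * (μ * (g' * g) * sy ε a) * g.ct := by
        simp only [Hm.mul_assoc]
    _ = 1 := by
        rw [h2, Hm.mul_one, k, Hm.mul_one, ← conjTranspose_mul, h1, conjTranspose_one]

theorem OL0_sy (a : 𝒞.Hom I I) (b : 𝒞.Hom J J) :
    sy ε (fromBlocks a 0 0 b) = fromBlocks (sy ε a) 0 0 (sy ε b) := by
  simp [sy_blocks]

theorem NS.sum {a : 𝒞.Hom I I} {b : 𝒞.Hom J J} (ha : NS ε a) (hb : NS ε b) :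
    NS ε (fromBlocks a 0 0 b) := by
  obtain ⟨μ, -, k⟩ := ha.inv
  obtain ⟨μ', -, k'⟩ := hb.inv
  refine ns_of_left (C := fromBlocks μ 0 0 μ') ?_
  simp [OL0_sy, fromBlocks_multiply, k, k']

theorem NS.left {a : 𝒞.Hom I I} {b : 𝒞.Hom J J} (h : NS ε (fromBlocks a 0 0 b)) :
    NS ε a := by
  obtain ⟨μ, -, k⟩ := h.inv
  rw [OL0_sy, ← fromBlocks_toBlocks μ, fromBlocks_multiply, ← fromBlocks_one,
    fromBlocks_inj] at k
  exact ns_of_left (C := μ.toBlocks₁₁) (by simpa using k.1)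

theorem NS.right {a : 𝒞.Hom I I} {b : 𝒞.Hom J J} (h : NS ε (fromBlocks a 0 0 b)) :
    NS ε b :=
  (h.iso (UZ_comm a b)).left

theorem NS.neg {a : 𝒞.Hom I I} (ha : NS ε a) : NS ε (-a) := by
  unfold NS
  rw [sy_neg]
  exact IsUnit.neg ha

theorem ns_hyp : NS ε (hypF 𝒞 I) := by
  refine ns_of_left (C := fromBlocks 0 ((ε : ℤ) • 1) 1 0) ?_
  rw [hypF, sy_blocks, sy_zero, fromBlocks_multiply, ← fromBlocks_one]
  simp only [conjTranspose_zero, conjTranspose_one, smul_zero, add_zero, zero_add, Hm.mul_zero,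
    Hm.zero_mul, Hm.mul_one, Hm.smul_mul, Hm.one_mul, eps_eps]

theorem Z.ns {a : 𝒞.Hom I I} (h : Z ε a) : NS ε a := by
  obtain ⟨m, n, k⟩ := h
  exact (ns_hyp.iso k.symm).left

theorem z_sum_neg {a : 𝒞.Hom I I} (ha : NS ε a) : Z ε (fromBlocks a 0 0 (-a)) := by
  obtain ⟨μ, h1, h2⟩ := ha.inv
  have e := iso_conj (ε := ε) (fromBlocks a 0 0 (-a))
    (g := (fromBlocks 1 1 0 1 : 𝒞.Hom (I + I) (I + I))) (g' := fromBlocks 1 (-1) 0 1)
    (by simp [fromBlocks_multiply]) (by simp [fromBlocks_multiply])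
  simp only [fromBlocks_multiply, fromBlocks_conjTranspose, conjTranspose_zero, conjTranspose_one,
    Hm.mul_zero, Hm.zero_mul, Hm.mul_one, Hm.one_mul, add_zero, zero_add,
    add_neg_cancel] at e
  have e1 : -a + (ε : ℤ) • (-a).ct = -sy ε a := sy_neg a
  refine Z.iso e.symm (z_lag (-a) (-a) (-a) (-μ) ?_ ?_)
  · rw [e1, Hm.neg_mul, Hm.mul_neg, neg_neg, h1]
  · rw [e1, Hm.neg_mul, Hm.mul_neg, neg_neg, h2]

end Pool.Agent.Work.MP_9d1ffa_al.Ct
end

-- merged part: Pool.Agent.Work.MP_9d1ffa_al.Ct.CC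
section
/-! The obstruction category as an additive category with involution. -/

namespace Pool.Agent.Work.MP_9d1ffa_al.Ct

open MonoidAlgebra

set_option linter.unusedSectionVars false
set_option linter.unusedVariables false

variable {X Y : Type} {G H K : Type} [Group G] [Group H] [Group K]

instance obAdd : Add (Ob X) := ⟨Ob.sum⟩

instance obZero : Zero (Ob X) :=
  ⟨⟨Empty, Empty.elim, Empty.elim, fun _ => Set.toFinite _, fun i => i.elim, fun i => i.elim,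
    ∅, fun i => i.elim⟩⟩

/-- the controlled matrices -/
def ctlSub (ρ : G →* Equiv.Perm X) (a b : Ob X) : AddSubgroup (Matrix a.I b.I (ZG G)) where
  carrier := {A | Ctl ρ a b A}
  zero_mem' := ctl_zero
  add_mem' := Ctl.add
  neg_mem' := Ctl.neg

open Classical in
theorem ctl_one (ρ : G →* Equiv.Perm X) (a : Ob X) : Ctl ρ a a 1 :=
  pmM_id (G := G) (I := a.I) ▸ ctl_pmM_one id (fun _ => rfl) fun _ => rfl

open Classical in
/-- the obstruction category -/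
noncomputable def OC (ρ : G →* Equiv.Perm X) : SCat (Ob X) where
  Hom a b := ctlSub ρ a b
  acg a b := inferInstance
  mul A B := ⟨cmul A.1 B.1, Ctl.mul A.2 B.2⟩
  one a := ⟨1, ctl_one ρ a⟩
  cj A := ⟨A.1.conjTranspose, Ctl.ct A.2⟩
  inl a b := ⟨pmM Sum.inl fun _ => 1, ctl_pmM_one (b := a.sum b) Sum.inl (fun _ => rfl) fun _ => rfl⟩
  inr a b := ⟨pmM Sum.inr fun _ => 1, ctl_pmM_one (b := a.sum b) Sum.inr (fun _ => rfl) fun _ => rfl⟩
  mul_assoc A B D := Subtype.ext (cmul_assoc (Ctl.rowFin A.2) (Ctl.rowFin B.2) D.1)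
  one_mul A := Subtype.ext (one_cmul A.1)
  mul_one A := Subtype.ext (cmul_one A.1)
  mul_add A B D := Subtype.ext (cmul_add (Ctl.rowFin A.2) B.1 D.1)
  add_mul A B D := Subtype.ext (add_cmul (Ctl.rowFin A.2) (Ctl.rowFin B.2) D.1)
  cj_add A B := Subtype.ext (Matrix.conjTranspose_add A.1 B.1)
  cj_mul A B := Subtype.ext (cmul_ct A.1 B.1)
  cj_cj A := Subtype.ext (Matrix.conjTranspose_conjTranspose A.1)
  inl_inl a b := Subtype.ext (pmM_mul_ct Sum.inl_injective _)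
  inr_inr a b := Subtype.ext (pmM_mul_ct Sum.inr_injective _)
  inl_inr a b := Subtype.ext inl_mul_inr
  total a b := Subtype.ext (@inl_add_inr G _ a.I b.I fun _ _ => Classical.propDecidable _)
  one_zero := Subtype.ext (by ext i; exact i.elim)

variable {ρ : G →* Equiv.Perm X} {ρ' : H →* Equiv.Perm X} {ρ'' : K →* Equiv.Perm X}
  {I J L M : Ob X}

/-- the matrix of a morphism -/
def val (A : (OC ρ).Hom I J) : Matrix I.I J.I (ZG G) := Subtype.val (p := Ctl ρ I J) A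

/-- the morphism of a controlled matrix -/
def mk (A : Matrix I.I J.I (ZG G)) (h : Ctl ρ I J A) : (OC ρ).Hom I J :=
  (⟨A, h⟩ : ctlSub ρ I J)

theorem val_ctl (A : (OC ρ).Hom I J) : Ctl ρ I J (val A) := Subtype.property (p := Ctl ρ I J) A

theorem val_fin (A : (OC ρ).Hom I J) : RowFin (val A) := (val_ctl A).rowFin

@[simp] theorem val_mk (A : Matrix I.I J.I (ZG G)) (h : Ctl ρ I J A) : val (mk A h) = A := rfl

theorem val_inj {A B : (OC ρ).Hom I J} (h : val A = val B) : A = B := Subtype.ext h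

theorem hom_ext {A B : (OC ρ).Hom I J}
    (h : ∀ i j g, (val A i j).coeff g = (val B i j).coeff g) : A = B := val_inj (mat_ext h)

theorem val_add (A B : (OC ρ).Hom I J) : val (A + B) = val A + val B := rfl
theorem val_neg (A : (OC ρ).Hom I J) : val (-A) = -val A := rfl
theorem val_sub (A B : (OC ρ).Hom I J) : val (A - B) = val A - val B := rfl
theorem val_zero : val (0 : (OC ρ).Hom I J) = 0 := rfl
theorem val_zsmul (n : ℤ) (A : (OC ρ).Hom I J) : val (n • A) = n • val A := rfl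
theorem val_mul (A : (OC ρ).Hom I J) (B : (OC ρ).Hom J L) : val (A * B) = cmul (val A) (val B) := rfl
theorem val_ct (A : (OC ρ).Hom I J) : val A.ct = (val A).conjTranspose := rfl
open Classical in
theorem val_one : val (1 : (OC ρ).Hom I I) = 1 := rfl

theorem val_fromRows (a : (OC ρ).Hom I L) (b : (OC ρ).Hom J L) :
    val (fromRows a b) = Matrix.fromRows (val a) (val b) := fromRows_eq_cmul _ _

theorem val_fromCols (a : (OC ρ).Hom L I) (b : (OC ρ).Hom L J) :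
    val (fromCols a b) = Matrix.fromCols (val a) (val b) := fromCols_eq_cmul _ _

theorem val_fromBlocks (a : (OC ρ).Hom I L) (b : (OC ρ).Hom I M) (c : (OC ρ).Hom J L)
    (d : (OC ρ).Hom J M) :
    val (fromBlocks a b c d) = Matrix.fromBlocks (val a) (val b) (val c) (val d) := by
  rw [fromBlocks, val_fromRows, val_fromCols, val_fromCols]
  exact Matrix.fromRows_fromCols_eq_fromBlocks _ _ _ _

theorem val_toRows₁ (A : (OC ρ).Hom (I + J) L) (i : I.I) (k : L.I) :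
    val A.toRows₁ i k = val A (Sum.inl i) k := by
  conv_rhs => rw [← fromRows_toRows A, val_fromRows]
  rfl

theorem val_toRows₂ (A : (OC ρ).Hom (I + J) L) (i : J.I) (k : L.I) :
    val A.toRows₂ i k = val A (Sum.inr i) k := by
  conv_rhs => rw [← fromRows_toRows A, val_fromRows]
  rfl

theorem val_toCols₁ (A : (OC ρ).Hom L (I + J)) (k : L.I) (i : I.I) :
    val A.toCols₁ k i = val A k (Sum.inl i) := by
  conv_rhs => rw [← fromCols_toCols A, val_fromCols]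
  rfl

theorem val_toCols₂ (A : (OC ρ).Hom L (I + J)) (k : L.I) (i : J.I) :
    val A.toCols₂ k i = val A k (Sum.inr i) := by
  conv_rhs => rw [← fromCols_toCols A, val_fromCols]
  rfl

open Classical in
theorem val_hyp : val (hypF (OC ρ) I) = MP_9d1ffa_al.hypF (ZG G) I.I := val_fromBlocks _ _ _ _

theorem val_sy (ε : ℤˣ) (A : (OC ρ).Hom I I) : val (sy ε A) = MP_9d1ffa_al.sy ε (val A) := rfl

/-- a homomorphism of groups that is compatible with the actions -/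
structure AH (ρ : G →* Equiv.Perm X) (ρ' : H →* Equiv.Perm X) where
  f : G →* H
  h : ∀ g, ρ' (f g) = ρ g

/-- the composition -/
def AH.comp (f : AH ρ' ρ'') (f' : AH ρ ρ') : AH ρ ρ'' :=
  ⟨f.f.comp f'.f, fun g => (f.h _).trans (f'.h g)⟩

/-- the identity -/
def AH.id (ρ : G →* Equiv.Perm X) : AH ρ ρ := ⟨MonoidHom.id G, fun _ => rfl⟩

/-- a homomorphism with the action pulled back -/
def AH.of (ρ' : H →* Equiv.Perm X) (f : G →* H) : AH (ρ'.comp f) ρ' := ⟨f, fun _ => rfl⟩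

theorem ctl_push {σ : H →* Equiv.Perm Y} (f : G →* H) {I' J' : Ob Y} (e : I'.I → I.I)
    (e' : J'.I → J.I) (h1 : ∀ i, I'.t i = I.t (e i)) (h1' : ∀ j, J'.t j = J.t (e' j))
    (h2 : ∀ i j g, l1 (I'.x i - (J'.x j).mapDomain (σ (f g))) ≤
      l1 (I.x (e i) - (J.x (e' j)).mapDomain (ρ g))) (A : (OC ρ).Hom I J) :
    Ctl σ I' J' (MP_9d1ffa_al.mp f ((val A).submatrix e e')) := by
  classical
  obtain ⟨⟨S, hS⟩, ⟨c, hc⟩, h⟩ := val_ctl A
  have key : ∀ i j g, (MP_9d1ffa_al.mp f ((val A).submatrix e e') i j).coeff g ≠ 0 →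
      ∃ g', f g' = g ∧ (val A (e i) (e' j)).coeff g' ≠ 0 := fun i j g hg => by
    have := Finsupp.mapDomain_support (Finsupp.mem_support_iff.2 hg)
    obtain ⟨g', k1, k2⟩ := Finset.mem_image.1 this
    exact ⟨g', k2, Finsupp.mem_support_iff.1 k1⟩
  refine ⟨⟨S.image f, fun i j g hg => ?_⟩, ⟨c, fun i j hij => ?_⟩, fun δ hδ => ?_⟩
  · obtain ⟨g', rfl, k⟩ := key i j g hg
    exact Finset.mem_image_of_mem _ (hS _ _ _ k)
  · rw [h1, h1']
    refine hc _ _ fun e0 => hij ?_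
    change gm f (val A (e i) (e' j)) = 0
    rw [e0, map_zero]
  · obtain ⟨n, hn⟩ := h δ hδ
    refine ⟨n, fun i j g hi hg => ?_⟩
    obtain ⟨g', rfl, k⟩ := key i j g hg
    exact (h2 i j g').trans (hn _ _ _ (h1 i ▸ hi) k)

theorem ctl_rs (f : AH ρ ρ') (hf : Function.Injective f.f) (A : (OC ρ').Hom I J) :
    Ctl ρ I J (MP_9d1ffa_al.rs f.f hf (val A)) := by
  classical
  obtain ⟨⟨S, hS⟩, ⟨c, hc⟩, h⟩ := val_ctl A
  refine ⟨⟨S.preimage f.f hf.injOn, fun i j g hg => Finset.mem_preimage.2 (hS i j _ hg)⟩,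
    ⟨c, fun i j hij => hc i j fun e0 => hij ?_⟩, fun δ hδ => ?_⟩
  · change comapDomain f.f hf (val A i j) = 0
    rw [e0, comapDomain_zero]
  · obtain ⟨n, hn⟩ := h δ hδ
    exact ⟨n, fun i j g hi hg => f.h g ▸ hn i j _ hi hg⟩

/-- the image of a morphism under a homomorphism of groups -/
noncomputable def mp (f : AH ρ ρ') (A : (OC ρ).Hom I J) : (OC ρ').Hom I J :=
  mk (MP_9d1ffa_al.mp f.f (val A))
    (ctl_push f.f id id (fun _ => rfl) (fun _ => rfl) (fun i j g => by rw [f.h]; rfl) A)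

/-- the part of a morphism supported on the image of an injective homomorphism -/
noncomputable def rs (f : AH ρ ρ') (hf : Function.Injective f.f) (A : (OC ρ').Hom I J) :
    (OC ρ).Hom I J := mk (MP_9d1ffa_al.rs f.f hf (val A)) (ctl_rs f hf A)

/-- the part of a morphism supported on `S` -/
noncomputable def fm (S : G → Prop) (A : (OC ρ).Hom I J) : (OC ρ).Hom I J :=
  mk (MP_9d1ffa_al.fm S (val A)) ((val_ctl A).mono fun i j g h e => h (by
    classical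
    rw [MP_9d1ffa_al.coeff_fm, e, ite_self]))

/-- the morphism is supported on `S` -/
def Sup (S : G → Prop) (A : (OC ρ).Hom I J) : Prop := ∀ k l g, (val A k l).coeff g ≠ 0 → S g

theorem val_mp (f : AH ρ ρ') (A : (OC ρ).Hom I J) :
    val (mp f A) = MP_9d1ffa_al.mp f.f (val A) := rfl

theorem val_rs (f : AH ρ ρ') (hf : Function.Injective f.f) (A : (OC ρ').Hom I J) :
    val (rs f hf A) = MP_9d1ffa_al.rs f.f hf (val A) := rfl

theorem val_fm (S : G → Prop) (A : (OC ρ).Hom I J) :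
    val (fm S A) = MP_9d1ffa_al.fm S (val A) := rfl

/-- the image of an object under a map of sets -/
noncomputable def push (φ : X → Y) (a : Ob X) : Ob Y where
  I := a.I
  t := a.t
  x i := (a.x i).mapDomain φ
  fin := a.fin
  pos i := mapDomain_pos φ (a.pos i)
  tot i := (l1_mapDomain_pos φ (a.pos i)).trans (a.tot i)
  cpt := by
    classical
    obtain ⟨F, h⟩ := a.cpt
    refine ⟨F.image φ, fun i y hy => ?_⟩
    obtain ⟨z, k1, rfl⟩ := Finset.mem_image.1 (Finsupp.mapDomain_support hy)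
    exact Finset.mem_image_of_mem _ (h i z k1)

/-- an object with the heights and positions pulled back along a map with finite fibres -/
def pull (a : Ob X) {ι : Type} (e : ι → a.I) (h : ∀ i, {k | e k = i}.Finite) : Ob X where
  I := ι
  t k := a.t (e k)
  x k := a.x (e k)
  fin n := ((a.fin n).biUnion fun i _ => h i).subset fun k hk => Set.mem_biUnion hk rfl
  pos k := a.pos _
  tot k := a.tot _
  cpt := a.cpt.imp fun F hF k => hF _

/-- the object spanned by a part of the basis -/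
def sub (a : Ob X) (P : a.I → Prop) : Ob X :=
  pull a (Subtype.val : {i // P i} → a.I) fun i =>
    Set.Subsingleton.finite fun k hk l hl => Subtype.ext (hk.trans hl.symm)

/-- finitely many copies of an object -/
def cop (n : ℕ) (a : Ob X) : Ob X :=
  pull a (Prod.snd : Fin n × a.I → a.I) fun i =>
    (Set.finite_range fun k : Fin n => (k, i)).subset fun k hk => ⟨k.1, Prod.ext rfl hk.symm⟩

/-- a morphism that sends basis elements to translates of basis elements with the same height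
and position -/
noncomputable def pm (ρ : G →* Equiv.Perm X) (e : I.I → J.I) (γ : I.I → G)
    (h1 : ∃ S : Finset G, ∀ i, γ i ∈ S) (h2 : ∀ i, J.t (e i) = I.t i)
    (h3 : ∀ i, (J.x (e i)).mapDomain (ρ (γ i)) = I.x i) : (OC ρ).Hom I J :=
  mk (pmM e γ) (ctl_pmM e γ h1 ⟨0, fun i => by simp [h2]⟩ fun δ hδ =>
    ⟨0, fun i _ => by rw [h3, sub_self, l1_zero]; exact hδ.le⟩)

/-- a morphism that sends basis elements to basis elements with the same height and position -/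
noncomputable def pm1 (ρ : G →* Equiv.Perm X) (e : I.I → J.I) (h2 : ∀ i, J.t (e i) = I.t i)
    (h3 : ∀ i, J.x (e i) = I.x i) : (OC ρ).Hom I J :=
  mk (pmM e fun _ => 1) (ctl_pmM_one e h2 h3)

/-- the inclusion of a part of the basis -/
noncomputable def inc (ρ : G →* Equiv.Perm X) (a : Ob X) (P : a.I → Prop) :
    (OC ρ).Hom (sub a P) a := pm1 ρ Subtype.val (fun _ => rfl) fun _ => rfl

/-- a unitary morphism supported on one group element -/
structure TU (ρ : G →* Equiv.Perm X) (t : G) (J J' : Ob X) where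
  T : (OC ρ).Hom J J'
  sup : Sup (· = t) T
  u1 : T * T.ct = 1
  u2 : T.ct * T = 1

end Pool.Agent.Work.MP_9d1ffa_al.Ct
end

-- merged part: Pool.Agent.Work.MP_9d1ffa_al.Ct.CM
section
/-! Calculus of images, supports, filters and restrictions of controlled morphisms. -/

namespace Pool.Agent.Work.MP_9d1ffa_al.Ct

open MonoidAlgebra

set_option linter.unusedSectionVars false
set_option linter.unusedVariables false

variable {X : Type} {G H K : Type} [Group G] [Group H] [Group K] {ρ : G →* Equiv.Perm X}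
  {ρ' : H →* Equiv.Perm X} {ρ'' : K →* Equiv.Perm X} {I J L M : Ob X}

section Mp

variable (f : AH ρ ρ')

theorem mp_mul (A : (OC ρ).Hom I J) (B : (OC ρ).Hom J L) : mp f (A * B) = mp f A * mp f B :=
  val_inj (mp_cmul f.f (val_fin A) (val B))

theorem mp_add (A B : (OC ρ).Hom I J) : mp f (A + B) = mp f A + mp f B :=
  val_inj (MP_9d1ffa_al.mp_add f.f (val A) (val B))

theorem mp_sub (A B : (OC ρ).Hom I J) : mp f (A - B) = mp f A - mp f B :=
  val_inj (MP_9d1ffa_al.mp_sub f.f (val A) (val B))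

theorem mp_neg (A : (OC ρ).Hom I J) : mp f (-A) = -mp f A :=
  val_inj (MP_9d1ffa_al.mp_neg f.f (val A))

theorem mp_zero : mp f (0 : (OC ρ).Hom I J) = 0 := val_inj (MP_9d1ffa_al.mp_zero f.f)

theorem mp_one : mp f (1 : (OC ρ).Hom I I) = 1 := by
  classical
  exact val_inj (MP_9d1ffa_al.mp_one f.f)

theorem mp_zsmul (n : ℤ) (A : (OC ρ).Hom I J) : mp f (n • A) = n • mp f A :=
  val_inj (MP_9d1ffa_al.mp_zsmul f.f n (val A))

theorem mp_ct (A : (OC ρ).Hom I J) : mp f A.ct = (mp f A).ct :=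
  val_inj (MP_9d1ffa_al.mp_ct f.f (val A))

theorem mp_sy (ε : ℤˣ) (A : (OC ρ).Hom I I) : mp f (sy ε A) = sy ε (mp f A) := by
  rw [sy, sy, mp_add, mp_zsmul, mp_ct]

theorem mp_mp (f : AH ρ' ρ'') (f' : AH ρ ρ') (A : (OC ρ).Hom I J) :
    mp f (mp f' A) = mp (f.comp f') A := val_inj (MP_9d1ffa_al.mp_mp f.f f'.f (val A))

theorem mp_congr {f f' : AH ρ ρ'} (h : f.f = f'.f) (A : (OC ρ).Hom I J) : mp f A = mp f' A :=
  val_inj (by rw [val_mp, val_mp, h])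

theorem mp_id (A : (OC ρ).Hom I J) : mp (AH.id ρ) A = A := val_inj (MP_9d1ffa_al.mp_id (val A))

theorem mp_fromRows (a : (OC ρ).Hom I L) (b : (OC ρ).Hom J L) :
    mp f (fromRows a b) = fromRows (mp f a) (mp f b) :=
  val_inj (by rw [val_mp, val_fromRows, val_fromRows]; exact MP_9d1ffa_al.mp_fromRows _ _ _)

theorem mp_fromCols (a : (OC ρ).Hom I L) (b : (OC ρ).Hom I M) :
    mp f (fromCols a b) = fromCols (mp f a) (mp f b) :=
  val_inj (by rw [val_mp, val_fromCols, val_fromCols]; exact MP_9d1ffa_al.mp_fromCols _ _ _)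

theorem mp_blocks (a : (OC ρ).Hom I L) (b : (OC ρ).Hom I M) (c : (OC ρ).Hom J L)
    (d : (OC ρ).Hom J M) :
    mp f (fromBlocks a b c d) = fromBlocks (mp f a) (mp f b) (mp f c) (mp f d) := by
  simp only [fromBlocks, mp_fromRows, mp_fromCols]

theorem mp_toRows₁ (A : (OC ρ).Hom (I + J) L) : (mp f A).toRows₁ = mp f A.toRows₁ := by
  conv_lhs => rw [← fromRows_toRows A, mp_fromRows, toRows₁_fromRows]

theorem mp_toRows₂ (A : (OC ρ).Hom (I + J) L) : (mp f A).toRows₂ = mp f A.toRows₂ := by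
  conv_lhs => rw [← fromRows_toRows A, mp_fromRows, toRows₂_fromRows]

theorem mp_toCols₁ (A : (OC ρ).Hom L (I + J)) : (mp f A).toCols₁ = mp f A.toCols₁ := by
  conv_lhs => rw [← fromCols_toCols A, mp_fromCols, toCols₁_fromCols]

theorem mp_toCols₂ (A : (OC ρ).Hom L (I + J)) : (mp f A).toCols₂ = mp f A.toCols₂ := by
  conv_lhs => rw [← fromCols_toCols A, mp_fromCols, toCols₂_fromCols]

theorem mp_toBlocks₁₁ (A : (OC ρ).Hom (I + J) (L + M)) :
    (mp f A).toBlocks₁₁ = mp f A.toBlocks₁₁ := by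
  simp only [SCat.Hom.toBlocks₁₁, mp_toRows₁, mp_toCols₁]

theorem mp_toBlocks₁₂ (A : (OC ρ).Hom (I + J) (L + M)) :
    (mp f A).toBlocks₁₂ = mp f A.toBlocks₁₂ := by
  simp only [SCat.Hom.toBlocks₁₂, mp_toRows₁, mp_toCols₂]

theorem mp_toBlocks₂₁ (A : (OC ρ).Hom (I + J) (L + M)) :
    (mp f A).toBlocks₂₁ = mp f A.toBlocks₂₁ := by
  simp only [SCat.Hom.toBlocks₂₁, mp_toRows₂, mp_toCols₁]

theorem mp_toBlocks₂₂ (A : (OC ρ).Hom (I + J) (L + M)) :
    (mp f A).toBlocks₂₂ = mp f A.toBlocks₂₂ := by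
  simp only [SCat.Hom.toBlocks₂₂, mp_toRows₂, mp_toCols₂]

theorem mp_hyp : mp f (hypF (OC ρ) I) = hypF (OC ρ') I := by
  rw [hypF, hypF, mp_blocks, mp_zero, mp_one]

theorem mp_dsum (U : (OC ρ).Hom (I + I) (I + I)) (V : (OC ρ).Hom (J + J) (J + J)) :
    mp f (dsum U V) = dsum (mp f U) (mp f V) := by
  simp only [dsum, mp_blocks, mp_zero, mp_toBlocks₁₁, mp_toBlocks₁₂, mp_toBlocks₂₁, mp_toBlocks₂₂]

theorem IsUnit.mp {A : (OC ρ).Hom I I} (h : IsUnit A) : IsUnit (mp f A) := by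
  obtain ⟨u, rfl⟩ := h
  exact ⟨⟨Ct.mp f u.1, Ct.mp f u.inv, (mp_mul f _ _).symm.trans (by rw [u.val_inv, mp_one]),
    (mp_mul f _ _).symm.trans (by rw [u.inv_val, mp_one])⟩, rfl⟩

theorem Eqv.mp {ε : ℤˣ} {a b : (OC ρ).Hom I I} (h : Eqv ε a b) : Eqv ε (mp f a) (mp f b) := by
  obtain ⟨χ, rfl⟩ := h
  exact ⟨Ct.mp f χ, by rw [mp_sub, mp_add, mp_zsmul, mp_ct]⟩

theorem Iso.mp {ε : ℤˣ} {a : (OC ρ).Hom I I} {b : (OC ρ).Hom J J} (h : Iso ε a b) :
    Iso ε (mp f a) (mp f b) := by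
  obtain ⟨g, g', h1, h2, h⟩ := h
  refine ⟨Ct.mp f g, Ct.mp f g', by rw [← mp_mul, h1, mp_one], by rw [← mp_mul, h2, mp_one], ?_⟩
  simpa only [mp_mul, mp_ct] using h.mp f

theorem Z.mp {ε : ℤˣ} {a : (OC ρ).Hom I I} (h : Z ε a) : Z ε (mp f a) := by
  obtain ⟨m, n, k⟩ := h
  exact ⟨m, n, by simpa only [mp_blocks, mp_zero, mp_hyp] using k.mp f⟩

theorem NS.mp {ε : ℤˣ} {a : (OC ρ).Hom I I} (h : NS ε a) : NS ε (mp f a) := by
  unfold NS
  rw [← mp_sy]
  exact IsUnit.mp f h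

theorem Uni.mp {η : ℤˣ} {U : (OC ρ).Hom (I + I) (I + I)} (h : Uni η U) : Uni η (mp f U) :=
  ⟨IsUnit.mp f h.1, by simpa only [mp_mul, mp_ct, mp_hyp] using h.2.mp f⟩

theorem Unt.mp {u : (OC ρ).Hom I J} (h : Unt u) : Unt (mp f u) :=
  ⟨by rw [← mp_ct, ← mp_mul, h.1, mp_one], by rw [← mp_ct, ← mp_mul, h.2, mp_one]⟩

theorem SFIdem.mp {E : (OC ρ).Hom I I} (h : SFIdem E) : SFIdem (mp f E) := by
  obtain ⟨a, b, U, W, h1, h2⟩ := h
  refine ⟨a, b, Ct.mp f U, Ct.mp f W, by rw [← mp_mul, h1, mp_one], ?_⟩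
  rw [← mp_mul, h2, mp_blocks, mp_zero, mp_zero, mp_one]

end Mp

section SupFm

variable {S S' : G → Prop} {A B : (OC ρ).Hom I J}

theorem coeff_ct (A : (OC ρ).Hom I J) (j : J.I) (i : I.I) (g : G) :
    (val A.ct j i).coeff g = (val A i j).coeff g⁻¹ := MP_9d1ffa_al.coeff_ct (val A) j i g

theorem coeff_mul_ne {D : (OC ρ).Hom J L} {i : I.I} {k : L.I} {g : G}
    (h : (val (A * D) i k).coeff g ≠ 0) :
    ∃ j g₁ g₂, g₁ * g₂ = g ∧ (val A i j).coeff g₁ ≠ 0 ∧ (val D j k).coeff g₂ ≠ 0 :=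
  coeff_cmul_ne h

theorem Sup.mono (h : Sup S A) (hS : ∀ g, S g → S' g) : Sup S' A := fun k l g e => hS g (h k l g e)

theorem sup_zero : Sup S (0 : (OC ρ).Hom I J) := MP_9d1ffa_al.sup_zero

theorem Sup.add (hA : Sup S A) (hB : Sup S B) : Sup S (A + B) := MP_9d1ffa_al.Sup.add hA hB

theorem Sup.neg (hA : Sup S A) : Sup S (-A) := MP_9d1ffa_al.Sup.neg hA

theorem Sup.sub (hA : Sup S A) (hB : Sup S B) : Sup S (A - B) := MP_9d1ffa_al.Sup.sub hA hB

theorem Sup.zsmul (hA : Sup S A) (n : ℤ) : Sup S (n • A) := MP_9d1ffa_al.Sup.zsmul hA n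

theorem Sup.mul {D : (OC ρ).Hom J L} {T : G → Prop} (hA : Sup S A) (hD : Sup S' D)
    (h : ∀ a b, S a → S' b → T (a * b)) : Sup T (A * D) := fun k l g e => by
  obtain ⟨j, g₁, g₂, rfl, h1, h2⟩ := coeff_mul_ne e
  exact h _ _ (hA _ _ _ h1) (hD _ _ _ h2)

theorem Sup.ct (hA : Sup S A) : Sup (fun g => S g⁻¹) A.ct := MP_9d1ffa_al.Sup.ct hA

theorem Sup.eq_zero (hA : Sup S A) (hA' : Sup S' A) (h : ∀ g, S g → ¬ S' g) : A = 0 :=
  val_inj (MP_9d1ffa_al.Sup.eq_zero hA hA' h)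

theorem sup_true (A : (OC ρ).Hom I J) : Sup (fun _ => True) A := fun _ _ _ _ => trivial

theorem sup_mp (f : AH ρ' ρ) (A : (OC ρ').Hom I J) : Sup (fun g => ∃ h, f.f h = g) (mp f A) :=
  MP_9d1ffa_al.sup_mp f.f (val A)

theorem Sup.map {T : H → Prop} (f : AH ρ ρ') (hA : Sup S A) (h : ∀ g, S g → T (f.f g)) :
    Sup T (mp f A) := MP_9d1ffa_al.Sup.map f.f hA h

theorem sup_one : Sup (· = (1 : G)) (1 : (OC ρ).Hom J J) := by
  classical
  exact MP_9d1ffa_al.sup_one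

theorem sup_fromRows {A : (OC ρ).Hom I L} {B : (OC ρ).Hom J L} :
    Sup S (fromRows A B) ↔ Sup S A ∧ Sup S B := by
  unfold Sup
  rw [val_fromRows]
  exact MP_9d1ffa_al.sup_fromRows

theorem sup_fromCols {A : (OC ρ).Hom I L} {B : (OC ρ).Hom I M} :
    Sup S (fromCols A B) ↔ Sup S A ∧ Sup S B := by
  unfold Sup
  rw [val_fromCols]
  exact MP_9d1ffa_al.sup_fromCols

theorem sup_fromBlocks {a : (OC ρ).Hom I L} {b : (OC ρ).Hom I M} {c : (OC ρ).Hom J L}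
    {d : (OC ρ).Hom J M} :
    Sup S (fromBlocks a b c d) ↔ Sup S a ∧ Sup S b ∧ Sup S c ∧ Sup S d := by
  simp only [fromBlocks, sup_fromRows, sup_fromCols, and_assoc]

theorem Sup.toRows₁ {A : (OC ρ).Hom (I + J) L} (h : Sup S A) : Sup S A.toRows₁ :=
  (sup_fromRows.1 ((fromRows_toRows A).symm ▸ h)).1

theorem Sup.toRows₂ {A : (OC ρ).Hom (I + J) L} (h : Sup S A) : Sup S A.toRows₂ :=
  (sup_fromRows.1 ((fromRows_toRows A).symm ▸ h)).2

theorem Sup.toCols₁ {A : (OC ρ).Hom L (I + J)} (h : Sup S A) : Sup S A.toCols₁ :=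
  (sup_fromCols.1 ((fromCols_toCols A).symm ▸ h)).1

theorem Sup.toCols₂ {A : (OC ρ).Hom L (I + J)} (h : Sup S A) : Sup S A.toCols₂ :=
  (sup_fromCols.1 ((fromCols_toCols A).symm ▸ h)).2

/-- the supports of all entries lie in a finite set -/
theorem exists_sup_finset (A : (OC ρ).Hom I J) : ∃ s : Finset G, Sup (· ∈ s) A := (val_ctl A).1

open Classical in
theorem coeff_fm (S : G → Prop) (A : (OC ρ).Hom I J) (k : I.I) (l : J.I) (g : G) :
    (val (fm S A) k l).coeff g = if S g then (val A k l).coeff g else 0 :=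
  MP_9d1ffa_al.coeff_fm S (val A) k l g

theorem sup_fm (S : G → Prop) (A : (OC ρ).Hom I J) : Sup S (fm S A) := MP_9d1ffa_al.sup_fm S (val A)

theorem Sup.fm (hA : Sup S A) (T : G → Prop) : Sup S (fm T A) := MP_9d1ffa_al.Sup.fm hA T

theorem Sup.fm_eq (hA : Sup S A) : Ct.fm S A = A := val_inj (MP_9d1ffa_al.Sup.fm_eq hA)

theorem Sup.fm_zero (hA : Sup S A) (h : ∀ g, S g → ¬ S' g) : Ct.fm S' A = 0 :=
  val_inj (MP_9d1ffa_al.Sup.fm_zero hA h)

theorem fm_add (S : G → Prop) (A B : (OC ρ).Hom I J) : fm S (A + B) = fm S A + fm S B :=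
  val_inj (MP_9d1ffa_al.fm_add S (val A) (val B))

theorem fm_sub (S : G → Prop) (A B : (OC ρ).Hom I J) : fm S (A - B) = fm S A - fm S B :=
  val_inj (MP_9d1ffa_al.fm_sub S (val A) (val B))

theorem fm_neg (S : G → Prop) (A : (OC ρ).Hom I J) : fm S (-A) = -fm S A :=
  val_inj (MP_9d1ffa_al.fm_neg S (val A))

theorem fm_zsmul (S : G → Prop) (n : ℤ) (A : (OC ρ).Hom I J) : fm S (n • A) = n • fm S A :=
  val_inj (MP_9d1ffa_al.fm_zsmul S n (val A))

theorem fm_zero (S : G → Prop) : fm S (0 : (OC ρ).Hom I J) = 0 := sup_zero.fm_eq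

theorem fm_add_not (S : G → Prop) (A : (OC ρ).Hom I J) : fm S A + fm (fun g => ¬ S g) A = A :=
  val_inj (MP_9d1ffa_al.fm_add_not S (val A))

theorem fm_ct (S : G → Prop) (A : (OC ρ).Hom I J) : (fm S A).ct = fm (fun g => S g⁻¹) A.ct :=
  val_inj (MP_9d1ffa_al.fm_ct S (val A))

theorem fm_fromRows (S : G → Prop) (a : (OC ρ).Hom I L) (b : (OC ρ).Hom J L) :
    fm S (fromRows a b) = fromRows (fm S a) (fm S b) :=
  val_inj (by rw [val_fm, val_fromRows, val_fromRows]; exact MP_9d1ffa_al.fm_fromRows _ _ _)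

theorem fm_fromCols (S : G → Prop) (a : (OC ρ).Hom I L) (b : (OC ρ).Hom I M) :
    fm S (fromCols a b) = fromCols (fm S a) (fm S b) :=
  val_inj (by rw [val_fm, val_fromCols, val_fromCols]; exact MP_9d1ffa_al.fm_fromCols _ _ _)

/-- a filter passes through a right factor that does not change the set -/
theorem fm_mul_right {D : (OC ρ).Hom J L} {T : G → Prop} (A : (OC ρ).Hom I J) (hD : Sup S' D)
    (h : ∀ a b, S' b → (T (a * b) ↔ S a)) : fm T (A * D) = fm S A * D :=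
  val_inj (fm_cmul_right (val_fin A) hD h)

/-- a filter passes through a left factor that does not change the set -/
theorem fm_mul_left {T : G → Prop} (hA : Sup S' A) (D : (OC ρ).Hom J L)
    (h : ∀ a b, S' a → (T (a * b) ↔ S b)) : fm T (A * D) = A * fm S D :=
  val_inj (fm_cmul_left (val_fin A) hA (val D) h)

theorem sup_sub_fm {T : G → Prop} (h : Sup T B) : Sup (fun g => T g ∧ ¬ S g) (B - fm S B) := by
  have e : B - fm S B = fm (fun g => ¬ S g) B := by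
    rw [sub_eq_iff_eq_add', fm_add_not]
  rw [e]
  exact fun k l g hg => ⟨h.fm _ k l g hg, sup_fm _ _ k l g hg⟩

/-- a morphism is the sum of its parts at the group elements -/
theorem eq_sum_fm (s : Finset G) (h : Sup (· ∈ s) A) : A = ∑ g ∈ s, fm (· = g) A := by
  classical
  induction s using Finset.induction_on generalizing A with
  | empty => exact h.eq_zero h fun g k => absurd k (Finset.notMem_empty g)
  | insert g s hg ih =>
    have h1 : Sup (· ∈ s) (fm (fun x => ¬ x = g) A) := fun k l x hx =>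
      (Finset.mem_insert.1 (h.fm _ k l x hx)).resolve_left (sup_fm _ _ k l x hx)
    rw [Finset.sum_insert hg]
    conv_lhs => rw [← fm_add_not (· = g) A, ih h1]
    congr 1
    refine Finset.sum_congr rfl fun x hx => hom_ext fun i j y => ?_
    rw [coeff_fm, coeff_fm, coeff_fm]
    split_ifs with k1 k2
    · exact absurd (k1.symm.trans k2 ▸ hx) hg
    · rfl
    · rfl

end SupFm

section Rs

variable {f : AH ρ' ρ} {hf : Function.Injective f.f} {S : G → Prop}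

theorem coeff_rs (A : (OC ρ).Hom I J) (k : I.I) (l : J.I) (h : H) :
    (val (rs f hf A) k l).coeff h = (val A k l).coeff (f.f h) := rfl

theorem coeff_mp (hf : Function.Injective f.f) (A : (OC ρ').Hom I J) (k : I.I) (l : J.I) (h : H) :
    (val (mp f A) k l).coeff (f.f h) = (val A k l).coeff h :=
  MP_9d1ffa_al.coeff_mp hf (val A) k l h

theorem rs_mp (A : (OC ρ').Hom I J) : rs f hf (mp f A) = A := val_inj (MP_9d1ffa_al.rs_mp (val A))

theorem mp_inj (hf : Function.Injective f.f) {A B : (OC ρ').Hom I J} (h : mp f A = mp f B) :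
    A = B := by rw [← rs_mp (f := f) (hf := hf) A, h, rs_mp]

theorem mp_rs (A : (OC ρ).Hom I J) : mp f (rs f hf A) = fm (fun g => ∃ h, f.f h = g) A :=
  val_inj (MP_9d1ffa_al.mp_rs (val A))

theorem Sup.mp_rs {A : (OC ρ).Hom I J} (h : Sup (fun g => ∃ h, f.f h = g) A) :
    mp f (rs f hf A) = A := by rw [Ct.mp_rs, h.fm_eq]

theorem rs_add (A B : (OC ρ).Hom I J) : rs f hf (A + B) = rs f hf A + rs f hf B :=
  val_inj (MP_9d1ffa_al.rs_add (val A) (val B))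

theorem rs_neg (A : (OC ρ).Hom I J) : rs f hf (-A) = -rs f hf A :=
  val_inj (MP_9d1ffa_al.rs_neg (val A))

theorem rs_sub (A B : (OC ρ).Hom I J) : rs f hf (A - B) = rs f hf A - rs f hf B :=
  val_inj (MP_9d1ffa_al.rs_sub (val A) (val B))

theorem rs_zero : rs f hf (0 : (OC ρ).Hom I J) = 0 := val_inj MP_9d1ffa_al.rs_zero

theorem rs_zsmul (n : ℤ) (A : (OC ρ).Hom I J) : rs f hf (n • A) = n • rs f hf A :=
  val_inj (MP_9d1ffa_al.rs_zsmul n (val A))

theorem rs_ct (A : (OC ρ).Hom I J) : rs f hf A.ct = (rs f hf A).ct :=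
  val_inj (MP_9d1ffa_al.rs_ct (val A))

theorem rs_one : rs f hf (1 : (OC ρ).Hom I I) = 1 := by rw [← mp_one f, rs_mp]

theorem rs_sy (ε : ℤˣ) (A : (OC ρ).Hom I I) : sy ε (rs f hf A) = rs f hf (sy ε A) := by
  rw [sy, sy, rs_add, rs_zsmul, rs_ct]

theorem Sup.rs_zero {A : (OC ρ).Hom I J} (hA : Sup S A) (h : ∀ x, ¬ S (f.f x)) : rs f hf A = 0 :=
  val_inj (MP_9d1ffa_al.Sup.rs_zero hA h)

theorem Sup.rs {A : (OC ρ).Hom I J} (hA : Sup S A) : Sup (fun x => S (f.f x)) (rs f hf A) :=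
  fun k l x hx => hA k l _ hx

theorem rs_fm (A : (OC ρ).Hom I J) (h : ∀ x, S (f.f x)) : rs f hf (fm S A) = rs f hf A :=
  val_inj (MP_9d1ffa_al.rs_fm (val A) h)

theorem rs_mul_mp (A : (OC ρ).Hom I J) (D : (OC ρ').Hom J L) :
    rs f hf (A * mp f D) = rs f hf A * D := val_inj (rs_cmul_mp f.f hf (val_fin A) (val D))

theorem rs_mp_mul (D : (OC ρ').Hom I J) (A : (OC ρ).Hom J L) :
    rs f hf (mp f D * A) = D * rs f hf A := val_inj (rs_mp_cmul f.f hf (val_fin D) (val A))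

theorem rs_fromRows (a : (OC ρ).Hom I L) (b : (OC ρ).Hom J L) :
    rs f hf (fromRows a b) = fromRows (rs f hf a) (rs f hf b) :=
  val_inj (by rw [val_rs, val_fromRows, val_fromRows]; exact MP_9d1ffa_al.rs_fromRows _ _)

theorem rs_fromCols (a : (OC ρ).Hom I L) (b : (OC ρ).Hom I M) :
    rs f hf (fromCols a b) = fromCols (rs f hf a) (rs f hf b) :=
  val_inj (by rw [val_rs, val_fromCols, val_fromCols]; exact MP_9d1ffa_al.rs_fromCols _ _)

theorem rs_blocks (a : (OC ρ).Hom I L) (b : (OC ρ).Hom I M) (c : (OC ρ).Hom J L)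
    (d : (OC ρ).Hom J M) :
    rs f hf (fromBlocks a b c d) = fromBlocks (rs f hf a) (rs f hf b) (rs f hf c) (rs f hf d) := by
  simp only [fromBlocks, rs_fromRows, rs_fromCols]

theorem Eqv.rs {ε : ℤˣ} {a b : (OC ρ).Hom I I} (h : Eqv ε a b) :
    Eqv ε (rs f hf a) (rs f hf b) := by
  obtain ⟨χ, rfl⟩ := h
  exact ⟨Ct.rs f hf χ, by rw [rs_sub, rs_add, rs_zsmul, rs_ct]⟩

end Rs

section Pm

variable {e : I.I → J.I} {γ : I.I → G} {h1 : ∃ S : Finset G, ∀ i, γ i ∈ S}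
  {h2 : ∀ i, J.t (e i) = I.t i} {h3 : ∀ i, (J.x (e i)).mapDomain (ρ (γ i)) = I.x i}
  {h4 : ∀ i, J.x (e i) = I.x i}

theorem sup_pmM {P : (OC ρ).Hom I J} (h : val P = pmM e γ) : Sup (fun g => ∃ i, γ i = g) P :=
  fun k l g hg => by
    classical
    rw [h, pmM, Matrix.of_apply] at hg
    split_ifs at hg
    · exact ⟨k, by_contra fun e => hg (by simp [e])⟩
    · exact absurd rfl hg

theorem val_pm : val (pm ρ e γ h1 h2 h3) = pmM e γ := rfl

theorem val_pm1 : val (pm1 ρ e h2 h4) = pmM e fun _ => 1 := rfl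

theorem pmM_mul {P : (OC ρ).Hom I J} (h : val P = pmM e γ) (A : (OC ρ).Hom J L) (i : I.I)
    (k : L.I) : val (P * A) i k = single (γ i) 1 * val A (e i) k := by
  rw [val_mul, h, pmM_cmul]

theorem mul_pmM_ct {P : (OC ρ).Hom I J} (h : val P = pmM e γ) (A : (OC ρ).Hom L J) (k : L.I)
    (i : I.I) : val (A * P.ct) k i = val A k (e i) * single (γ i)⁻¹ 1 := by
  rw [val_mul, val_ct, h, cmul_pmM_ct]

theorem pmM_u1 {P : (OC ρ).Hom I J} (h : val P = pmM e γ) (he : Function.Injective e) :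
    P * P.ct = 1 := by
  classical
  exact val_inj (by rw [val_mul, val_ct, h]; exact pmM_mul_ct he γ)

theorem pmM_unt {P : (OC ρ).Hom I J} (h : val P = pmM e γ) (he : Function.Bijective e) : Unt P := by
  classical
  exact ⟨pmM_u1 h he.1, val_inj (by rw [val_mul, val_ct, h]; exact pmM_ct_mul he γ)⟩

theorem sup_pm1 : Sup (· = 1) (pm1 ρ e h2 h4) :=
  (sup_pmM val_pm1).mono fun _ ⟨_, h⟩ => h.symm

/-- conjugation by a map of bases is a submatrix -/
theorem val_conj_pm1 {I' J' : Ob X} {P : (OC ρ).Hom I J} (h : val P = pmM e fun _ => 1)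
    {e' : I'.I → J'.I} {P' : (OC ρ).Hom I' J'} (h' : val P' = pmM e' fun _ => 1)
    (A : (OC ρ).Hom J J') : val (P * A * P'.ct) = (val A).submatrix e e' := by
  funext i k
  rw [mul_pmM_ct h', pmM_mul h, inv_one, ← MonoidAlgebra.one_def, one_mul, mul_one]
  rfl

theorem mp_pm1 (f : AH ρ ρ') : mp f (pm1 ρ e h2 h4) = pm1 ρ' e h2 h4 :=
  val_inj (by
    classical
    funext i j
    change gm f.f (if e i = j then single 1 1 else 0) = if e i = j then single 1 1 else 0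
    split_ifs
    · rw [gm_single, map_one]
    · exact map_zero _)

theorem inc_u1 (P : I.I → Prop) : inc ρ I P * (inc ρ I P).ct = 1 :=
  pmM_u1 rfl Subtype.val_injective

/-- an object is the sum of two complementary parts -/
theorem unt_inc (P : I.I → Prop) : Unt (fromRows (inc ρ I P) (inc ρ I fun i => ¬ P i)) := by
  classical
  refine pmM_unt (e := (Equiv.sumCompl P : (sub I P + sub I fun i => ¬ P i).I → I.I))
    (γ := fun _ => 1) ?_ (Equiv.sumCompl P).bijective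
  rw [val_fromRows]
  funext i j
  rcases i with i | i <;> rfl

end Pm

section Tu

variable {t : G} {J' L' : Ob X}

theorem TU.unt (T : TU ρ t J J') : Unt T.T := ⟨T.u1, T.u2⟩

theorem TU.sup_ct (T : TU ρ t J J') : Sup (· = t⁻¹) T.T.ct :=
  T.sup.ct.mono fun g h => by rw [← h, inv_inv]

/-- the sum -/
noncomputable def TU.sum (T : TU ρ t J J') (T' : TU ρ t L L') : TU ρ t (J + L) (J' + L') :=
  ⟨fromBlocks T.T 0 0 T'.T, sup_fromBlocks.2 ⟨T.sup, sup_zero, sup_zero, T'.sup⟩,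
    (T.unt.sum T'.unt).1, (T.unt.sum T'.unt).2⟩

theorem TU.sum_T (T : TU ρ t J J') (T' : TU ρ t L L') : (T.sum T').T = fromBlocks T.T 0 0 T'.T := rfl

/-- the adjoint -/
noncomputable def TU.symm (T : TU ρ t J J') : TU ρ t⁻¹ J' J :=
  ⟨T.T.ct, T.sup_ct, T.unt.ct.1, T.unt.ct.2⟩

/-- the translation by `t` between objects with the same basis -/
noncomputable def TU.mk' (ρ : G →* Equiv.Perm X) (t : G) (e : J.I ≃ J'.I)
    (h2 : ∀ i, J'.t (e i) = J.t i) (h3 : ∀ i, (J'.x (e i)).mapDomain (ρ t) = J.x i) : TU ρ t J J' :=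
  ⟨pm ρ e (fun _ => t) ⟨{t}, fun _ => Finset.mem_singleton_self t⟩ h2 h3,
    (sup_pmM val_pm).mono fun _ ⟨_, h⟩ => h.symm, (pmM_unt val_pm e.bijective).1,
    (pmM_unt val_pm e.bijective).2⟩

/-- the translation with a given source -/
noncomputable def TU.src (ρ : G →* Equiv.Perm X) (t : G) (J : Ob X) : TU ρ t J (push (ρ t⁻¹) J) :=
  TU.mk' ρ t (Equiv.refl _) (fun _ => rfl) fun i =>
    (mapDomain_rho_mul ρ t t⁻¹ _).symm.trans (by rw [mul_inv_cancel, mapDomain_rho_one]; rfl)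

/-- the translation with a given target -/
noncomputable def TU.tgt (ρ : G →* Equiv.Perm X) (t : G) (J : Ob X) : TU ρ t (push (ρ t) J) J :=
  TU.mk' ρ t (Equiv.refl _) (fun _ => rfl) fun i => rfl

/-- the translation by an element that acts trivially -/
noncomputable def TU.cen (ρ : G →* Equiv.Perm X) (t : G) (h : ρ t = 1) (J : Ob X) : TU ρ t J J :=
  TU.mk' ρ t (Equiv.refl _) (fun _ => rfl) fun i => by
    rw [h, ← map_one ρ, mapDomain_rho_one]; rfl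

theorem coeff_tgt_mul (A : (OC ρ).Hom J L) (i : J.I) (k : L.I) (g : G) :
    (val ((TU.tgt ρ t J).T * A) i k).coeff (t * g) = (val A i k).coeff g := by
  rw [val_mul]
  refine (congrArg (fun z => z.coeff (t * g))
    (pmM_cmul (Equiv.refl J.I) (fun _ => t) (val A) i k)).trans ?_
  simp

theorem coeff_mul_src (A : (OC ρ).Hom L J) (k : L.I) (i : J.I) (g : G) :
    (val (A * (TU.src ρ t J).T) k i).coeff (g * t) = (val A k i).coeff g := by
  rw [val_mul]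
  refine (congrArg (fun z => z.coeff (g * t))
    (cmul_pmM (e := Equiv.refl _) (Equiv.refl _).injective (fun _ => t) (val A) k i)).trans ?_
  simp

theorem cen_comm (h : ρ t = 1) (hc : ∀ g, t * g = g * t) (A : (OC ρ).Hom J L) :
    (TU.cen ρ t h J).T * A = A * (TU.cen ρ t h L).T := by
  refine val_inj (funext fun i => funext fun k => ?_)
  rw [pmM_mul (P := (TU.cen ρ t h J).T) (e := id) (γ := fun _ => t) rfl, val_mul]
  refine Eq.trans ?_
    (cmul_pmM (e := Equiv.refl _) (Equiv.refl _).injective (fun _ => t) (val A) i k).symm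
  change single t 1 * val A i k = val A i k * single t 1
  induction val A i k using MonoidAlgebra.induction_linear with
  | zero => simp
  | add a b ha hb => rw [mul_add, add_mul, ha, hb]
  | single g n => simp [single_mul_single, hc]

/-- the support of a product with a translation -/
theorem Sup.of_mul_tu {S : G → Prop} {A : (OC ρ).Hom L J} (T : TU ρ t J J') (h : Sup S (A * T.T)) :
    Sup (fun g => S (g * t)) A := by
  have := h.mul T.sup_ct (T := fun g => S (g * t)) (by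
    rintro a _ ha rfl
    rwa [inv_mul_cancel_right])
  rwa [Hm.mul_assoc, T.u1, Hm.mul_one] at this

theorem Sup.of_tu_mul {S : G → Prop} {A : (OC ρ).Hom J' L} (T : TU ρ t J J') (h : Sup S (T.T * A)) :
    Sup (fun g => S (t * g)) A := by
  have := T.sup_ct.mul h (T := fun g => S (t * g)) (by
    rintro _ a rfl ha
    rwa [mul_inv_cancel_left])
  rwa [← Hm.mul_assoc, T.u2, Hm.one_mul] at this

/-- a support condition can be tested at the identity after translating -/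
theorem sup_of_tgt {S : G → Prop} {A : (OC ρ).Hom J L}
    (h : ∀ g, ¬ S g → Sup (· ≠ 1) ((TU.tgt ρ g⁻¹ J).T * A)) : Sup S A := fun k l g hg =>
  by_contra fun e => h g e k l (g⁻¹ * g) (by rwa [coeff_tgt_mul]) (inv_mul_cancel g)

end Tu

end Pool.Agent.Work.MP_9d1ffa_al.Ct
end

-- merged part: Pool.Agent.Work.MP_9d1ffa_al.Ct.SU1
section
/-! Isometries of hyperbolic forms. -/

namespace Pool.Agent.Work.MP_9d1ffa_al.Ct

set_option linter.unusedSectionVars false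
set_option linter.unusedVariables false

variable {O : Type 1} [Add O] [Zero O] {𝒞 : SCat O} {ε η : ℤˣ} {I J K L M : O}

theorem dsum_blocks (a b c d : 𝒞.Hom I I) (a' b' c' d' : 𝒞.Hom J J) :
    dsum (fromBlocks a b c d) (fromBlocks a' b' c' d') =
      fromBlocks (fromBlocks a 0 0 a') (fromBlocks b 0 0 b') (fromBlocks c 0 0 c')
        (fromBlocks d 0 0 d') := by
  simp [dsum]

theorem dsum_eq (U : 𝒞.Hom (I + I) (I + I)) (V : 𝒞.Hom (J + J) (J + J)) :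
    dsum U V = fromBlocks (fromBlocks U.toBlocks₁₁ 0 0 V.toBlocks₁₁)
      (fromBlocks U.toBlocks₁₂ 0 0 V.toBlocks₁₂) (fromBlocks U.toBlocks₂₁ 0 0 V.toBlocks₂₁)
        (fromBlocks U.toBlocks₂₂ 0 0 V.toBlocks₂₂) := rfl

theorem dsum_mul (U U' : 𝒞.Hom (I + I) (I + I)) (V V' : 𝒞.Hom (J + J) (J + J)) :
    dsum U V * dsum U' V' = dsum (U * U') (V * V') := by
  obtain ⟨a, b, c, d, rfl⟩ := exists_blocks U
  obtain ⟨a', b', c', d', rfl⟩ := exists_blocks U'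
  obtain ⟨x, y, z, w, rfl⟩ := exists_blocks V
  obtain ⟨x', y', z', w', rfl⟩ := exists_blocks V'
  simp [dsum_blocks, fromBlocks_multiply, fromBlocks_add]

theorem dsum_one : dsum (1 : 𝒞.Hom (I + I) (I + I)) (1 : 𝒞.Hom (J + J) (J + J)) = 1 := by
  rw [← fromBlocks_one (I := I), ← fromBlocks_one (I := J), dsum_blocks]
  simp

theorem dsum_ct (U : 𝒞.Hom (I + I) (I + I)) (V : 𝒞.Hom (J + J) (J + J)) :
    (dsum U V).ct = dsum U.ct V.ct := by
  obtain ⟨a, b, c, d, rfl⟩ := exists_blocks U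
  obtain ⟨x, y, z, w, rfl⟩ := exists_blocks V
  simp [dsum_blocks, fromBlocks_conjTranspose]

theorem reix_blocks (a b c d : 𝒞.Hom I I) (u : 𝒞.Hom J I) :
    reix u (fromBlocks a b c d) =
      fromBlocks (u * a * u.ct) (u * b * u.ct) (u * c * u.ct) (u * d * u.ct) := by
  simp [reix, fromBlocks_multiply, fromBlocks_conjTranspose]

theorem reix_mul {u : 𝒞.Hom J I} (hu : Unt u) (U V : 𝒞.Hom (I + I) (I + I)) :
    reix u U * reix u V = reix u (U * V) := by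
  simp only [reix, Hm.mul_assoc]
  rw [← Hm.mul_assoc (fromBlocks u 0 0 u).ct, (hu.sum hu).2, Hm.one_mul]

theorem reix_one {u : 𝒞.Hom J I} (hu : Unt u) : reix u (1 : 𝒞.Hom (I + I) (I + I)) = 1 := by
  rw [reix, Hm.mul_one, (hu.sum hu).1]

theorem reix_reix {u : 𝒞.Hom J I} (hu : Unt u) (U : 𝒞.Hom (I + I) (I + I)) :
    reix u.ct (reix u U) = U := by
  have e : fromBlocks u.ct 0 0 u.ct = (fromBlocks u 0 0 u).ct := by
    simp [fromBlocks_conjTranspose]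
  simp only [reix, e, Hm.mul_assoc, conjTranspose_conjTranspose]
  rw [(hu.sum hu).2, Hm.mul_one, ← Hm.mul_assoc, (hu.sum hu).2, Hm.one_mul]

theorem sy_hyp : sy η (hypF 𝒞 I) = fromBlocks 0 1 ((η : ℤ) • 1) 0 := by
  simp [hypF, sy_blocks, sy_zero]

theorem OU1_conj (a b c d : 𝒞.Hom I I) :
    fromBlocks a b c d * hypF 𝒞 I * (fromBlocks a b c d).ct =
      fromBlocks (a * b.ct) (a * d.ct) (c * b.ct) (c * d.ct) := by
  simp [hypF, fromBlocks_multiply, fromBlocks_conjTranspose]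

theorem OU1_eqv_blocks {a a' : 𝒞.Hom I I} {b b' : 𝒞.Hom I J} {c c' : 𝒞.Hom J I}
    {d d' : 𝒞.Hom J J} (h : Eqv η (fromBlocks a b c d) (fromBlocks a' b' c' d')) :
    Eqv η a a' ∧ Eqv η d d' ∧ b + (η : ℤ) • c.ct = b' + (η : ℤ) • c'.ct := by
  refine ⟨?_, ?_, ?_⟩
  · obtain ⟨χ, h⟩ := h
    obtain ⟨x, y, z, w, rfl⟩ := exists_blocks χ
    rw [fromBlocks_conjTranspose, fromBlocks_smul, fromBlocks_add, fromBlocks_sub,
      fromBlocks_inj] at h
    exact ⟨x, h.1⟩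
  · obtain ⟨χ, h⟩ := h
    obtain ⟨x, y, z, w, rfl⟩ := exists_blocks χ
    rw [fromBlocks_conjTranspose, fromBlocks_smul, fromBlocks_add, fromBlocks_sub,
      fromBlocks_inj] at h
    exact ⟨w, h.2.2.2⟩
  · have := h.sy_eq
    rw [sy_blocks, sy_blocks, fromBlocks_inj] at this
    exact this.2.1

theorem OU1_unit {U V : 𝒞.Hom I I} (h1 : U * V = 1) (h2 : V * U = 1) : IsUnit U :=
  ⟨⟨U, V, h1, h2⟩, rfl⟩

theorem OU1_inv {U : 𝒞.Hom I I} (h : IsUnit U) : ∃ V, U * V = 1 ∧ V * U = 1 := by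
  obtain ⟨u, rfl⟩ := h
  exact ⟨↑u⁻¹, u.mul_inv, u.inv_mul⟩

theorem OU1_zsmul {a : 𝒞.Hom I I} (h : Eqv η 0 a) (n : ℤ) : Eqv η 0 (n • a) := by
  obtain ⟨χ, rfl⟩ := h
  exact ⟨n • χ, by rw [zero_add, zero_add, smul_sub, ct_zsmul, smul_comm n (η : ℤ)]⟩

theorem OU1_ct {a : 𝒞.Hom I I} (h : Eqv η 0 a) : Eqv η 0 a.ct := by
  have := OU1_zsmul (h.trans (eqv_swap a)) η
  rwa [eps_eps] at this

theorem uni_iff {a b c d : 𝒞.Hom I I} :
    Uni η (fromBlocks a b c d) ↔ IsUnit (fromBlocks a b c d) ∧ Eqv η 0 (a * b.ct) ∧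
      Eqv η 0 (c * d.ct) ∧ a * d.ct + (η : ℤ) • (b * c.ct) = 1 := by
  rw [Uni, OU1_conj, hypF]
  refine and_congr_right fun _ => ⟨fun h => ?_, fun ⟨h1, h2, h3⟩ => eqv_blocks h1 h2 ?_⟩
  · obtain ⟨h1, h2, h3⟩ := OU1_eqv_blocks h
    refine ⟨h1, h2, ?_⟩
    simpa using h3.symm
  · simpa using h3.symm

theorem Uni.omega {U : 𝒞.Hom (I + I) (I + I)} (h : Uni η U) :
    U * sy η (hypF 𝒞 I) * U.ct = sy η (hypF 𝒞 I) := by
  rw [← sy_conj, ← h.2.sy_eq]

theorem uni_one : Uni η (1 : 𝒞.Hom (I + I) (I + I)) := by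
  exact ⟨isUnit_one, Eqv.of_eq (by simp)⟩

theorem Uni.mul {U V : 𝒞.Hom (I + I) (I + I)} (h : Uni η U) (h' : Uni η V) :
    Uni η (U * V) := by
  refine ⟨h.1.mul h'.1, h.2.trans ?_⟩
  simpa only [conjTranspose_mul, Hm.mul_assoc] using h'.2.conj U

theorem Uni.of_inv {U V : 𝒞.Hom (I + I) (I + I)} (h : Uni η U) (h1 : U * V = 1) :
    Uni η V ∧ V * U = 1 := by
  obtain ⟨W, h2, h3⟩ := OU1_inv h.1
  have e : V = W := by
    rw [← Hm.one_mul V, ← h3, Hm.mul_assoc, h1, Hm.mul_one]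
  subst e
  refine ⟨⟨OU1_unit h3 h2, ?_⟩, h3⟩
  have := (h.2.conj V).symm
  rwa [← Hm.mul_assoc, ← Hm.mul_assoc, h3, Hm.one_mul, Hm.mul_assoc,
    ← conjTranspose_mul, h3, conjTranspose_one, Hm.mul_one] at this

theorem Uni.inv {U : 𝒞.Hom (I + I) (I + I)} (h : Uni η U) :
    ∃ V, Uni η V ∧ U * V = 1 ∧ V * U = 1 := by
  obtain ⟨V, h1, h2⟩ := OU1_inv h.1
  exact ⟨V, (h.of_inv h1).1, h1, h2⟩

theorem Uni.dsum {U : 𝒞.Hom (I + I) (I + I)} {V : 𝒞.Hom (J + J) (J + J)} (h : Uni η U)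
    (h' : Uni η V) : Uni η (dsum U V) := by
  obtain ⟨U', u1, u2⟩ := OU1_inv h.1
  obtain ⟨V', v1, v2⟩ := OU1_inv h'.1
  have hu : IsUnit (Ct.dsum U V) :=
    OU1_unit (V := Ct.dsum U' V') (by rw [dsum_mul, u1, v1, dsum_one])
      (by rw [dsum_mul, u2, v2, dsum_one])
  rw [← fromBlocks_toBlocks U] at h
  rw [← fromBlocks_toBlocks V] at h'
  obtain ⟨-, a1, a2, a3⟩ := uni_iff.1 h
  obtain ⟨-, b1, b2, b3⟩ := uni_iff.1 h'
  rw [dsum_eq] at hu ⊢
  refine uni_iff.2 ⟨hu, ?_, ?_, ?_⟩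
  · simpa [fromBlocks_multiply, fromBlocks_conjTranspose] using
      eqv_blocks a1 b1 (b := 0) (c := 0) rfl
  · simpa [fromBlocks_multiply, fromBlocks_conjTranspose] using
      eqv_blocks a2 b2 (b := 0) (c := 0) rfl
  · simp only [fromBlocks_multiply, fromBlocks_conjTranspose, fromBlocks_smul, fromBlocks_add,
      conjTranspose_zero, Hm.mul_zero, Hm.zero_mul, add_zero, zero_add, smul_zero, a3, b3,
      fromBlocks_one]

theorem Uni.reindex {U : 𝒞.Hom (I + I) (I + I)} (h : Uni η U) {u : 𝒞.Hom J I} (hu : Unt u) :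
    Uni η (reix u U) := by
  obtain ⟨V, h1, h2⟩ := OU1_inv h.1
  have e0 : hypF 𝒞 J = reix u (hypF 𝒞 I) := by simp [hypF, reix_blocks, hu.1]
  refine ⟨OU1_unit (V := reix u V) (by rw [reix_mul hu, h1, reix_one hu])
    (by rw [reix_mul hu, h2, reix_one hu]), ?_⟩
  have e1 : (reix u U).ct = reix u U.ct := by
    simp only [reix, conjTranspose_mul, conjTranspose_conjTranspose, Hm.mul_assoc]
  rw [e0, e1, reix_mul hu, reix_mul hu]
  exact h.2.conj _

theorem GenU.uni {U : 𝒞.Hom (I + I) (I + I)} (h : GenU η U) : Uni η U := by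
  cases h with
  | gl g g' h1 h2 =>
    refine uni_iff.2 ⟨OU1_unit (V := fromBlocks g' 0 0 g.ct) ?_ ?_, Eqv.of_eq (by simp),
      Eqv.of_eq (by simp), by simp [h1]⟩
    · simp [fromBlocks_multiply, h1, ← conjTranspose_mul]
    · simp [fromBlocks_multiply, h2, ← conjTranspose_mul]
  | sh χ =>
    refine uni_iff.2 ⟨OU1_unit (V := fromBlocks 1 (-(χ - (η : ℤ) • χ.ct)) 0 1) ?_ ?_, ⟨χ.ct, ?_⟩,
      Eqv.of_eq (by simp), by simp⟩
    · simp [fromBlocks_multiply]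
    · simp [fromBlocks_multiply]
    · rw [Hm.one_mul, conjTranspose_sub, ct_zsmul, zero_add]
  | sw κ s h =>
    have e1 : s.ct * s * (s.ct * s) = s.ct * s := by
      rw [Hm.mul_assoc, ← Hm.mul_assoc s, h, Hm.one_mul]
    have e2 : (s.ct * s).ct = s.ct * s := by rw [conjTranspose_mul, conjTranspose_conjTranspose]
    generalize s.ct * s = e at e1 e2
    have e3 : (1 - e).ct = 1 - e := by rw [conjTranspose_sub, conjTranspose_one, e2]
    have e4 : (1 - e) * e = 0 := by rw [Hm.sub_mul, e1, Hm.one_mul, sub_self]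
    have e5 : e * (1 - e) = 0 := by rw [Hm.mul_sub, e1, Hm.mul_one, sub_self]
    have e6 : (1 - e) * (1 - e) = 1 - e := by rw [Hm.sub_mul, e5, Hm.one_mul, sub_zero]
    refine uni_iff.2 ⟨OU1_unit (V := fromBlocks (1 - e) ((η : ℤ) • e) e (1 - e)) ?_ ?_,
      Eqv.of_eq ?_, Eqv.of_eq ?_, ?_⟩
    · simp only [fromBlocks_multiply, Hm.mul_smul, Hm.smul_mul, e1, e4, e5, e6, eps_eps,
        smul_zero, add_zero, sub_add_cancel, add_sub_cancel, fromBlocks_one]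
    · simp only [fromBlocks_multiply, Hm.mul_smul, Hm.smul_mul, e1, e4, e5, e6, eps_eps,
        smul_zero, add_zero, sub_add_cancel, add_sub_cancel, fromBlocks_one]
    · rw [e2, e4]
    · rw [e3, Hm.smul_mul, e5, smul_zero]
    · rw [e3, e6, ct_zsmul, e2, Hm.mul_smul, eps_eps, e1, sub_add_cancel]

theorem Uni.of_mem {U : 𝒞.Hom (I + I) (I + I)} (h : U ∈ RU 𝒞 η I) : Uni η U := by
  induction h using Submonoid.closure_induction with
  | mem x hx => exact GenU.uni hx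
  | one => exact uni_one
  | mul x y _ _ hx hy => exact hx.mul hy

/-- two Lagrangians that span are complementary -/
theorem Uni.unit₁₂ {U : 𝒞.Hom (I + I) (I + I)} (h : Uni η U) {C : 𝒞.Hom I I}
    (hC : C * U.toBlocks₁₂ = 1) : IsUnit U.toBlocks₁₂ := by
  rw [← fromBlocks_toBlocks U] at h
  obtain ⟨-, a1, -, a3⟩ := uni_iff.1 h
  generalize U.toBlocks₁₁ = a, U.toBlocks₁₂ = b, U.toBlocks₂₁ = c, U.toBlocks₂₂ = d at *
  have s1 : a * b.ct = -((η : ℤ) • (b * a.ct)) := by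
    have := a1.sy_eq
    rw [sy_zero, sy, conjTranspose_mul, conjTranspose_conjTranspose] at this
    exact eq_neg_of_add_eq_zero_left this.symm
  have key : ∀ k : 𝒞.Hom I I, k * b = 0 → k = 0 := by
    intro k k1
    have k2 : k * a = 0 := by
      have : b.ct * C.ct = 1 := by rw [← conjTranspose_mul, hC, conjTranspose_one]
      rw [← Hm.mul_one a, ← this, ← Hm.mul_assoc a, s1, ← Hm.mul_assoc, Hm.mul_neg,
        Hm.mul_smul, ← Hm.mul_assoc, k1, Hm.zero_mul, smul_zero, neg_zero,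
        Hm.zero_mul]
    rw [← Hm.mul_one k, ← a3, Hm.mul_add, Hm.mul_smul, ← Hm.mul_assoc,
      ← Hm.mul_assoc, k1, k2, Hm.zero_mul, Hm.zero_mul, smul_zero, add_zero]
  have k3 : b * C - 1 = 0 := key _ (by
    rw [Hm.sub_mul, Hm.mul_assoc, hC, Hm.mul_one, Hm.one_mul, sub_self])
  exact OU1_unit (sub_eq_zero.1 k3) hC

theorem OU1_fA (ε : ℤˣ) {U : 𝒞.Hom (I + I) (I + I)} (h : Uni η U) : Uni η (fA ε U) := by
  have hu := h.1
  rw [← fromBlocks_toBlocks U] at h hu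
  obtain ⟨-, a1, a2, a3⟩ := uni_iff.1 h
  have hδ : IsUnit (fromBlocks 1 0 0 ((ε : ℤ) • 1) : 𝒞.Hom (I + I) (I + I)) := by
    have : (fromBlocks 1 0 0 ((ε : ℤ) • 1) : 𝒞.Hom (I + I) (I + I)) *
        fromBlocks 1 0 0 ((ε : ℤ) • 1) = 1 := by
      simp only [fromBlocks_multiply, Hm.mul_smul, eps_eps, Hm.mul_zero,
        Hm.mul_one, smul_zero, add_zero, zero_add, fromBlocks_one]
    exact OU1_unit this this
  refine uni_iff.2 ⟨?_, ?_, ?_, ?_⟩
  · have := (hδ.mul hu).mul hδ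
    simpa only [fromBlocks_multiply, Hm.mul_smul, Hm.smul_mul, eps_eps, Hm.mul_zero,
      Hm.zero_mul, Hm.mul_one, Hm.one_mul, smul_zero, add_zero, zero_add] using this
  · rw [ct_zsmul, Hm.mul_smul]
    exact OU1_zsmul a1 _
  · rw [Hm.smul_mul]
    exact OU1_zsmul a2 _
  · rw [ct_zsmul, Hm.mul_smul, Hm.smul_mul, eps_eps, a3]

theorem Uni.fA {U : 𝒞.Hom (I + I) (I + I)} (h : Uni η U) : Uni η (fA η U) := by
  exact OU1_fA η h

theorem Uni.fA_neg {U : 𝒞.Hom (I + I) (I + I)} (h : Uni η U) : Uni η (Ct.fA (-1) U) := by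
  exact OU1_fA (-1) h

theorem Uni.fB {U : 𝒞.Hom (I + I) (I + I)} (h : Uni η U) : Uni η (fB U) := by
  have hu := h.1
  rw [← fromBlocks_toBlocks U] at h hu
  obtain ⟨-, a1, a2, a3⟩ := uni_iff.1 h
  have q1 : (fromBlocks 0 1 (-1) 0 : 𝒞.Hom (I + I) (I + I)) * fromBlocks 0 (-1) 1 0 = 1 := by
    simp [fromBlocks_multiply]
  have q2 : (fromBlocks 0 (-1) 1 0 : 𝒞.Hom (I + I) (I + I)) * fromBlocks 0 1 (-1) 0 = 1 := by
    simp [fromBlocks_multiply]
  refine uni_iff.2 ⟨?_, ?_, ?_, ?_⟩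
  · have := ((OU1_unit q1 q2).mul hu).mul (OU1_unit q2 q1)
    simpa only [fromBlocks_multiply, Hm.mul_neg, Hm.neg_mul, Hm.mul_zero,
      Hm.zero_mul, Hm.mul_one, Hm.one_mul, add_zero, zero_add, neg_neg, neg_zero]
      using this
  · simpa using (OU1_ct a2).neg
  · simpa using (OU1_ct a1).neg
  · have := congrArg SCat.Hom.ct a3
    rw [conjTranspose_add, ct_zsmul, conjTranspose_mul, conjTranspose_mul,
      conjTranspose_conjTranspose, conjTranspose_conjTranspose, conjTranspose_one] at this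
    rw [conjTranspose_neg, Hm.neg_mul, Hm.mul_neg, neg_neg, this]

/-- the shear by a form -/
theorem genU_sy (ε : ℤˣ) (θ : 𝒞.Hom I I) : GenU (-ε) (fromBlocks 1 (sy ε θ) 0 1) := by
  have := GenU.sh (η := -ε) θ
  rwa [Units.val_neg, neg_smul, sub_neg_eq_add] at this

/-- the full swap -/
theorem genU_swap : GenU η (fromBlocks 0 1 ((η : ℤ) • 1) 0 : 𝒞.Hom (I + I) (I + I)) := by
  simpa using GenU.sw (η := η) I (1 : 𝒞.Hom I I) (by simp)

/-- a system with a left inverse is invertible -/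
theorem sys_unit {ε : ℤˣ} {W : 𝒞.Hom (I + I) (I + I)} (hW : Uni (-ε) W) {ψ C : 𝒞.Hom I I}
    (h : C * sysM ε W ψ = 1) : IsUnit (sysM ε W ψ) := by
  have h1 := hW.mul (genU_sy ε (-ψ)).uni
  have e : (W * fromBlocks 1 (sy ε (-ψ)) 0 1).toBlocks₁₂ = -sysM ε W ψ := by
    conv_lhs => rw [← fromBlocks_toBlocks W]
    rw [fromBlocks_multiply, toBlocks_fromBlocks₁₂, sy_neg, sysM, Hm.mul_neg, Hm.mul_one,
      neg_sub, sub_eq_neg_add]
  have h2 := h1.unit₁₂ (C := -C) (by rw [e, Hm.neg_mul, Hm.mul_neg, neg_neg, h])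
  rw [e] at h2
  exact (IsUnit.neg_iff _).1 h2

theorem sysM_one (ε : ℤˣ) (ψ : 𝒞.Hom I I) : sysM ε 1 ψ = sy ε ψ := by
  rw [sysM, ← fromBlocks_one, toBlocks_fromBlocks₁₁, toBlocks_fromBlocks₁₂, Hm.one_mul,
    sub_zero]

end Pool.Agent.Work.MP_9d1ffa_al.Ct
end

-- merged part: Pool.Agent.Work.MP_9d1ffa_al.Ct.SL0
section
/-! The even Wall group of an additive category with involution. -/

namespace Pool.Agent.Work.MP_9d1ffa_al.Ct

set_option linter.unusedSectionVars false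
set_option linter.unusedVariables false

variable {O : Type 1} [Add O] [Zero O] {𝒞 : SCat O} {ε : ℤˣ} {I J K L : O}

/-- Witt equivalence of two forms -/
def OL0W (ε : ℤˣ) (a : 𝒞.Hom I I) (b : 𝒞.Hom J J) : Prop := Z ε (fromBlocks a 0 0 (-b))

theorem OL0_neg_blocks (a : 𝒞.Hom I I) (b : 𝒞.Hom J J) :
    -fromBlocks a 0 0 b = fromBlocks (-a) 0 0 (-b) := by
  simp [fromBlocks_neg]

theorem OL0W.neg {a : 𝒞.Hom I I} {b : 𝒞.Hom J J} (h : OL0W ε a b) : OL0W ε (-a) (-b) := by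
  have := Z.neg h
  rwa [OL0_neg_blocks] at this

theorem OL0W.symm {a : 𝒞.Hom I I} {b : 𝒞.Hom J J} (h : OL0W ε a b) : OL0W ε b a := by
  have := Z.iso (UZ_comm _ _) h.neg
  rwa [neg_neg] at this

theorem OL0W.iso {a : 𝒞.Hom I I} {b : 𝒞.Hom J J} {c : 𝒞.Hom K K} {d : 𝒞.Hom L L}
    (h : OL0W ε a b) (h1 : Iso ε a c) (h2 : Iso ε b d) : OL0W ε c d :=
  Z.iso (h1.sum (UZ_neg h2)) h

theorem OL0W.of_iso {a : 𝒞.Hom I I} {b : 𝒞.Hom J J} (ha : NS ε a) (h : Iso ε a b) :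
    OL0W ε a b :=
  OL0W.iso (z_sum_neg ha) (Iso.refl a) h

theorem OL0W.sum {a : 𝒞.Hom I I} {b : 𝒞.Hom J J} {c : 𝒞.Hom K K} {d : 𝒞.Hom L L}
    (h : OL0W ε a b) (h' : OL0W ε c d) : OL0W ε (fromBlocks a 0 0 c) (fromBlocks b 0 0 d) := by
  unfold OL0W
  rw [OL0_neg_blocks]
  exact Z.iso (UZ_four _ _ _ _) (Z.sum h h')

theorem OL0W.trans {a : 𝒞.Hom I I} {b : 𝒞.Hom J J} {c : 𝒞.Hom K K} (h : OL0W ε a b)
    (h' : OL0W ε b c) : OL0W ε a c := by
  have h1 := Z.iso (((Iso.refl _).sum (UZ_comm _ _)).trans (UZ_four _ _ _ _)) (Z.sum h h')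
  exact h1.cancel (Z.iso (UZ_comm _ _) (z_sum_neg (Z.ns h').left))

theorem unt_zero : Unt (fromCols 1 0 : 𝒞.Hom I (I + 0)) := by
  constructor
  · simp [conjTranspose_fromCols_eq_fromRows_conjTranspose, fromCols_mul_fromRows]
  · rw [conjTranspose_fromCols_eq_fromRows_conjTranspose, fromRows_mul_fromCols, ← fromBlocks_one,
      to_zero (1 : 𝒞.Hom 0 0)]
    simp

theorem OL0_empty (a : 𝒞.Hom I I) (b : 𝒞.Hom 0 0) : Iso ε (fromBlocks a 0 0 b) a :=
  UZ_re unt_zero (by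
    simp [conjTranspose_fromCols_eq_fromRows_conjTranspose, fromCols_mul_fromRows,
      fromCols_mul_fromBlocks])

/-- a nonsingular form -/
structure Fm (𝒞 : SCat O) (ε : ℤˣ) where
  n : O
  ψ : 𝒞.Hom n n
  ns : NS ε ψ

/-- Witt equivalence -/
def fmSetoid (𝒞 : SCat O) (ε : ℤˣ) : Setoid (Fm 𝒞 ε) where
  r a b := Z ε (fromBlocks a.ψ 0 0 (-b.ψ))
  iseqv := ⟨fun a => z_sum_neg a.ns, fun h => OL0W.symm h, fun h h' => OL0W.trans h h'⟩

/-- the even Wall group -/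
def L0 (𝒞 : SCat O) (ε : ℤˣ) : Type 1 := Quotient (fmSetoid 𝒞 ε)

/-- the class of a nonsingular form -/
def OL0_q (ψ : 𝒞.Hom I I) (h : NS ε ψ) : L0 𝒞 ε := Quotient.mk (fmSetoid 𝒞 ε) ⟨I, ψ, h⟩

theorem OL0_q_eq {a : 𝒞.Hom I I} {b : 𝒞.Hom J J} {ha : NS ε a} {hb : NS ε b} :
    OL0_q a ha = OL0_q b hb ↔ OL0W ε a b := Quotient.eq

theorem OL0_q_iso {a : 𝒞.Hom I I} {b : 𝒞.Hom J J} {ha : NS ε a} {hb : NS ε b}
    (h : Iso ε a b) : OL0_q a ha = OL0_q b hb :=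
  OL0_q_eq.2 (OL0W.of_iso ha h)

theorem OL0_q_surj (x : L0 𝒞 ε) : ∃ (n : O) (ψ : 𝒞.Hom n n) (h : NS ε ψ), OL0_q ψ h = x := by
  obtain ⟨x, rfl⟩ := Quotient.exists_rep x
  exact ⟨x.n, x.ψ, x.ns, rfl⟩

instance OL0_add : Add (L0 𝒞 ε) :=
  ⟨Quotient.lift₂ (fun a b : Fm 𝒞 ε => OL0_q _ (a.ns.sum b.ns))
    fun _ _ _ _ h h' => OL0_q_eq.2 (OL0W.sum h h')⟩

instance OL0_neg : Neg (L0 𝒞 ε) :=
  ⟨Quotient.lift (fun a : Fm 𝒞 ε => OL0_q _ a.ns.neg) fun _ _ h => OL0_q_eq.2 (OL0W.neg h)⟩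

theorem OL0_ns_empty (a : 𝒞.Hom 0 0) : NS ε a :=
  ns_of_left (C := 1) ((to_zero _).trans (to_zero _).symm)

instance OL0_zero : Zero (L0 𝒞 ε) := ⟨OL0_q (0 : 𝒞.Hom 0 0) (OL0_ns_empty _)⟩

theorem OL0_q_add {a : 𝒞.Hom I I} {b : 𝒞.Hom J J} (ha : NS ε a) (hb : NS ε b) :
    OL0_q a ha + OL0_q b hb = OL0_q _ (ha.sum hb) := rfl

theorem OL0_q_neg {a : 𝒞.Hom I I} (ha : NS ε a) : -OL0_q a ha = OL0_q _ ha.neg := rfl

theorem OL0_q_zero {a : 𝒞.Hom I I} (ha : NS ε a) : OL0_q a ha = 0 ↔ Z ε a :=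
  OL0_q_eq.trans ⟨fun h => Z.iso (OL0_empty _ _) h, fun h => Z.iso (OL0_empty _ _).symm h⟩

theorem OL0_add_comm (x y : L0 𝒞 ε) : x + y = y + x := by
  obtain ⟨_, a, ha, rfl⟩ := OL0_q_surj x
  obtain ⟨_, b, hb, rfl⟩ := OL0_q_surj y
  rw [OL0_q_add, OL0_q_add]
  exact OL0_q_iso (UZ_comm _ _)

theorem OL0_add_assoc (x y z : L0 𝒞 ε) : x + y + z = x + (y + z) := by
  obtain ⟨_, a, ha, rfl⟩ := OL0_q_surj x
  obtain ⟨_, b, hb, rfl⟩ := OL0_q_surj y
  obtain ⟨_, c, hc, rfl⟩ := OL0_q_surj z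
  rw [OL0_q_add, OL0_q_add, OL0_q_add, OL0_q_add]
  exact OL0_q_iso (UZ_assoc _ _ _).symm

theorem OL0_zero_add (x : L0 𝒞 ε) : 0 + x = x := by
  obtain ⟨_, a, ha, rfl⟩ := OL0_q_surj x
  rw [OL0_add_comm]
  exact (OL0_q_add ha (OL0_ns_empty _)).trans (OL0_q_iso (OL0_empty _ _))

theorem OL0_neg_add (x : L0 𝒞 ε) : -x + x = 0 := by
  obtain ⟨_, a, ha, rfl⟩ := OL0_q_surj x
  rw [OL0_add_comm, OL0_q_neg, OL0_q_add, OL0_q_zero]
  exact z_sum_neg ha

instance L0.group : AddCommGroup (L0 𝒞 ε) :=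
  { AddGroup.ofLeftAxioms OL0_add_assoc OL0_zero_add OL0_neg_add with
    add_comm := OL0_add_comm }

/-- the class of a form (zero if the form is singular) -/
noncomputable def cls (ε : ℤˣ) (ψ : 𝒞.Hom I I) : L0 𝒞 ε :=
  open Classical in if h : NS ε ψ then OL0_q ψ h else 0

theorem OL0_cls {a : 𝒞.Hom I I} (ha : NS ε a) : cls ε a = OL0_q a ha := dif_pos ha

theorem OL0_cls' {a : 𝒞.Hom I I} (ha : ¬ NS ε a) : cls ε a = 0 := dif_neg ha

theorem cls_iso {a : 𝒞.Hom I I} {b : 𝒞.Hom J J} (h : Iso ε a b) : cls ε a = cls ε b := by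
  by_cases ha : NS ε a
  · rw [OL0_cls ha, OL0_cls (ha.iso h)]
    exact OL0_q_iso h
  · rw [OL0_cls' ha, OL0_cls' fun hb => ha (hb.iso h.symm)]

theorem cls_sum {a : 𝒞.Hom I I} {b : 𝒞.Hom J J} (ha : NS ε a) (hb : NS ε b) :
    cls ε (fromBlocks a 0 0 b) = cls ε a + cls ε b := by
  rw [OL0_cls ha, OL0_cls hb, OL0_cls (ha.sum hb), OL0_q_add]

theorem cls_neg (a : 𝒞.Hom I I) : cls ε (-a) = -cls ε a := by
  by_cases ha : NS ε a
  · rw [OL0_cls ha, OL0_cls ha.neg, OL0_q_neg]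
  · rw [OL0_cls' ha, OL0_cls' fun hb => ha (neg_neg a ▸ hb.neg), neg_zero]

theorem cls_eq_zero {a : 𝒞.Hom I I} (ha : NS ε a) : cls ε a = 0 ↔ Z ε a := by
  rw [OL0_cls ha, OL0_q_zero]

end Pool.Agent.Work.MP_9d1ffa_al.Ct
end

-- merged part: Pool.Agent.Work.MP_9d1ffa_al.Ct.CD
section
/-! Splittings of groups along one edge together with compatible actions. -/

namespace Pool.Agent.Work.MP_9d1ffa_al.Ct

open MonoidAlgebra

set_option linter.unusedSectionVars false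
set_option linter.unusedVariables false

variable {X Γ V A : Type} [Group Γ] [Group V] [Group A]

/-- an HNN extension whose three groups act compatibly on the set `X` -/
structure TC (ρ : Γ →* Equiv.Perm X) (ρV : V →* Equiv.Perm X) (ρA : A →* Equiv.Perm X)
    extends Cut Γ V A where
  hv : ∀ h, ρ (v h) = ρV h
  hi : ∀ a, ρV (i a) = ρA a

variable {ρ : Γ →* Equiv.Perm X} {ρV : V →* Equiv.Perm X} {ρA : A →* Equiv.Perm X}
  {I J J' L L' M M' : Ob X}

namespace TC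

variable (C : TC ρ ρV ρA)

/-- the vertex group in the whole group -/
def vh : AH ρV ρ := ⟨C.v, C.hv⟩

/-- the edge group in the vertex group -/
def ih : AH ρA ρV := ⟨C.i, C.hi⟩

/-- the edge group in the whole group -/
def ah : AH ρA ρ := ⟨C.va, fun a => (C.hv _).trans (C.hi a)⟩

theorem hV : Function.Injective C.vh.f := C.vinj

theorem hVA : Function.Injective C.ah.f := C.vainj

theorem vh_f (h : V) : C.vh.f h = C.v h := rfl

theorem ih_f (a : A) : C.ih.f a = C.i a := rfl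

theorem ah_f (a : A) : C.ah.f a = C.va a := rfl

theorem mp_va (U : (OC ρA).Hom I J) : mp C.ah U = mp C.vh (mp C.ih U) := (mp_mp C.vh C.ih U).symm

/-- the image of a morphism over the edge group under the second inclusion -/
noncomputable def jm (T₁ : TU ρ C.t J J') (T₂ : TU ρ C.t L L') (U : (OC ρA).Hom J L) :
    (OC ρV).Hom J' L' := rs C.vh C.hV (T₁.T.ct * mp C.ah U * T₂.T)

variable (T₁ : TU ρ C.t J J') (T₂ : TU ρ C.t L L') (T₃ : TU ρ C.t M M')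

theorem mp_jm (U : (OC ρA).Hom J L) : mp C.vh (C.jm T₁ T₂ U) = T₁.T.ct * mp C.ah U * T₂.T := by
  refine Sup.mp_rs ((T₁.sup_ct.mul (sup_mp C.ah U) (T := fun g => ∃ a, C.t⁻¹ * C.va a = g) ?_).mul
    T₂.sup ?_)
  · rintro _ _ rfl ⟨a, rfl⟩
    exact ⟨a, rfl⟩
  · rintro _ _ ⟨a, rfl⟩ rfl
    exact ⟨C.j a, by rw [mul_assoc, C.va_t, inv_mul_cancel_left]; rfl⟩

theorem mp_va_dg (U : (OC ρA).Hom J L) : mp C.ah U * T₂.T = T₁.T * mp C.vh (C.jm T₁ T₂ U) := by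
  rw [mp_jm, ← Hm.mul_assoc, ← Hm.mul_assoc, T₁.u1, Hm.one_mul]

theorem jm_mul (U : (OC ρA).Hom J L) (U' : (OC ρA).Hom L M) :
    C.jm T₁ T₃ (U * U') = C.jm T₁ T₂ U * C.jm T₂ T₃ U' := mp_inj C.hV (by
  rw [mp_mul, mp_jm, mp_jm, mp_jm, mp_mul]
  simp only [Hm.mul_assoc]
  rw [← Hm.mul_assoc T₂.T, T₂.u1, Hm.one_mul])

theorem jm_one : C.jm T₁ T₁ 1 = 1 := mp_inj C.hV (by
  rw [mp_jm, mp_one, mp_one, Hm.mul_one, T₁.u2])

theorem jm_ct (U : (OC ρA).Hom J L) : C.jm T₂ T₁ U.ct = (C.jm T₁ T₂ U).ct := mp_inj C.hV (by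
  rw [mp_ct, mp_jm, mp_jm, mp_ct, conjTranspose_mul, conjTranspose_mul,
    conjTranspose_conjTranspose, Hm.mul_assoc])

theorem jm_add (U U' : (OC ρA).Hom J L) : C.jm T₁ T₂ (U + U') = C.jm T₁ T₂ U + C.jm T₁ T₂ U' := by
  rw [jm, jm, jm, mp_add, Hm.mul_add, Hm.add_mul, rs_add]

theorem jm_sub (U U' : (OC ρA).Hom J L) : C.jm T₁ T₂ (U - U') = C.jm T₁ T₂ U - C.jm T₁ T₂ U' := by
  rw [jm, jm, jm, mp_sub, Hm.mul_sub, Hm.sub_mul, rs_sub]

theorem jm_neg (U : (OC ρA).Hom J L) : C.jm T₁ T₂ (-U) = -C.jm T₁ T₂ U := by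
  rw [jm, jm, mp_neg, Hm.mul_neg, Hm.neg_mul, rs_neg]

theorem jm_zero : C.jm T₁ T₂ 0 = 0 := by
  rw [jm, mp_zero, Hm.mul_zero, Hm.zero_mul, rs_zero]

theorem jm_zsmul (n : ℤ) (U : (OC ρA).Hom J L) : C.jm T₁ T₂ (n • U) = n • C.jm T₁ T₂ U := by
  rw [jm, jm, mp_zsmul, Hm.mul_smul, Hm.smul_mul, rs_zsmul]

theorem jm_sy (ε : ℤˣ) (U : (OC ρA).Hom J J) : C.jm T₁ T₁ (sy ε U) = sy ε (C.jm T₁ T₁ U) := by
  rw [sy, sy, jm_add, jm_zsmul, jm_ct]

theorem jm_blocks {N N' : Ob X} (T₄ : TU ρ C.t N N') (a : (OC ρA).Hom J M) (b : (OC ρA).Hom J N)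
    (c : (OC ρA).Hom L M) (d : (OC ρA).Hom L N) :
    C.jm (T₁.sum T₂) (T₃.sum T₄) (fromBlocks a b c d) =
      fromBlocks (C.jm T₁ T₃ a) (C.jm T₁ T₄ b) (C.jm T₂ T₃ c) (C.jm T₂ T₄ d) := by
  rw [jm, jm, jm, jm, jm, TU.sum_T, TU.sum_T, mp_blocks, fromBlocks_conjTranspose,
    fromBlocks_multiply, fromBlocks_multiply, rs_blocks]
  simp only [conjTranspose_zero, Hm.zero_mul, Hm.mul_zero, add_zero, zero_add]

theorem jm_eq (U : (OC ρA).Hom (J + J) (J + J)) : C.jm (T₁.sum T₁) (T₁.sum T₁) U =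
    fromBlocks (C.jm T₁ T₁ U.toBlocks₁₁) (C.jm T₁ T₁ U.toBlocks₁₂) (C.jm T₁ T₁ U.toBlocks₂₁)
      (C.jm T₁ T₁ U.toBlocks₂₂) := by
  rw [← jm_blocks, fromBlocks_toBlocks]

theorem uni_jm {η : ℤˣ} {U : (OC ρA).Hom (J + J) (J + J)} (h : Uni η U) :
    Uni η (C.jm (T₁.sum T₁) (T₁.sum T₁) U) := by
  obtain ⟨U', -, h1, h2⟩ := h.inv
  obtain ⟨-, χ, h3⟩ := h
  have e : C.jm (T₁.sum T₁) (T₁.sum T₁) (hypF (OC ρA) J) = hypF (OC ρV) J' := by
    rw [hypF, hypF, jm_blocks, jm_zero, jm_one]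
  refine ⟨⟨⟨_, C.jm (T₁.sum T₁) (T₁.sum T₁) U', ?_, ?_⟩, rfl⟩, C.jm (T₁.sum T₁) (T₁.sum T₁) χ, ?_⟩
  · exact (C.jm_mul _ _ _ _ _).symm.trans (by rw [h1, jm_one])
  · exact (C.jm_mul _ _ _ _ _).symm.trans (by rw [h2, jm_one])
  · rw [← e, ← jm_ct, ← jm_ct, ← jm_mul, ← jm_mul, h3, jm_sub, jm_add, jm_zsmul]

variable (T : TU ρ C.t J J')

/-- a quadratic form that is linear in the stable letter -/
noncomputable def lin (θ : (OC ρV).Hom I I) (P : (OC ρV).Hom I J) (Q : (OC ρV).Hom I J') :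
    (OC ρ).Hom I I :=
  mp C.vh θ + mp C.vh P * T.T * (mp C.vh Q).ct

/-- the sources placed at the two ends of the base edge -/
noncomputable def sig (ε : ℤˣ) (P : (OC ρV).Hom I J) (Q : (OC ρV).Hom I J') :
    (OC ρ).Hom (J + J) I :=
  fromRows (-(T.T * (mp C.vh Q).ct)) ((ε : ℤ) • (mp C.vh P).ct)

/-- the boundary values at the base edge -/
noncomputable def bd (W : (OC ρV).Hom (I + I) (I + I)) (P : (OC ρV).Hom I J)
    (Q : (OC ρV).Hom I J') : (OC ρ).Hom I (J + J) :=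
  fromCols (mp C.vh (W.toBlocks₁₁ * P)) (mp C.vh (W.toBlocks₁₁ * Q) * T.T.ct)

/-- the system of a linear form with a boundary condition at the base vertex -/
noncomputable def sys (ε : ℤˣ) (W : (OC ρV).Hom (I + I) (I + I)) (θ : (OC ρV).Hom I I)
    (P : (OC ρV).Hom I J) (Q : (OC ρV).Hom I J') : (OC ρ).Hom I I :=
  sysM ε (mp C.vh W) (C.lin T θ P Q)

/-- the vertex form does not couple the edges, and `U` lists its boundary values -/
def Loc (ε : ℤˣ) (W : (OC ρV).Hom (I + I) (I + I)) (θ : (OC ρV).Hom I I) (P : (OC ρV).Hom I J)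
    (Q : (OC ρV).Hom I J') (U : (OC ρA).Hom (J + J) (J + J)) : Prop :=
  ∃ (n₁ : (OC ρV).Hom J' I) (n₂ : (OC ρV).Hom J I),
    n₁ * (W.toBlocks₁₁ * P) = 0 ∧ n₁ * (W.toBlocks₁₁ * Q) = C.jm T T U.toBlocks₁₂ ∧
    n₁ * sysM ε W θ = -(C.jm T T U.toBlocks₁₁ * Q.ct) ∧
    n₂ * (W.toBlocks₁₁ * P) = -mp C.ih U.toBlocks₂₁ ∧ n₂ * (W.toBlocks₁₁ * Q) = 0 ∧
    n₂ * sysM ε W θ = (ε : ℤ) • (mp C.ih U.toBlocks₂₂ * P.ct)

/-- the upper rows are supported on the positive side and the lower rows on the other side -/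
def Side (Y : (OC ρ).Hom (J + J) L) : Prop :=
  Sup C.pos Y.toRows₁ ∧ Sup (fun g => ¬ C.pos g) Y.toRows₂

/-- the rows of `U` are the boundary values of the solutions on the two sides of the base edge -/
def EF (ε : ℤˣ) (W : (OC ρV).Hom (I + I) (I + I)) (θ : (OC ρV).Hom I I) (P : (OC ρV).Hom I J)
    (Q : (OC ρV).Hom I J') (U : (OC ρA).Hom (J + J) (J + J)) : Prop :=
  Uni (-ε) U ∧ ∃ Y : (OC ρ).Hom (J + J) I,
    Y * C.sys T ε W θ P Q = mp C.ah U * C.sig T ε P Q ∧ C.Side Y ∧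
    C.Side ((Y * mp C.vh (W.toBlocks₁₁ * P) + mp C.ah U.toCols₁) * T.T) ∧
    C.Side (Y * mp C.vh (W.toBlocks₁₁ * Q) * T.T.ct - mp C.ah U.toCols₂)

/-- the form `φ` is, up to a hyperbolic summand, linear in the stable letter -/
def LinOK (ε : ℤˣ) (φ : (OC ρ).Hom I I) : Prop :=
  ∃ (N : Ob X) (κ : (OC ρ).Hom N N) (Y : (OC ρ).Hom I N) (J J' : Ob X) (T : TU ρ C.t J J')
    (θ : (OC ρV).Hom (I + N) (I + N)) (P : (OC ρV).Hom (I + N) J) (Q : (OC ρV).Hom (I + N) J'),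
    NS ε κ ∧ Z ε κ ∧ Eqv ε (fromBlocks (φ + Y * κ * Y.ct) (Y * κ) (κ * Y.ct) κ) (C.lin T θ P Q)

/-- the class `x` is represented by a linear form with edge frame `U` -/
def Rep (ε : ℤˣ) (x : L0 (OC ρ) ε) (U : (OC ρA).Hom (J + J) (J + J)) : Prop :=
  ∃ (I : Ob X) (θ : (OC ρV).Hom I I) (P : (OC ρV).Hom I J) (Q : (OC ρV).Hom I J'),
    NS ε (C.lin T θ P Q) ∧ C.EF T ε 1 θ P Q U ∧ cls ε (C.lin T θ P Q) = x

end TC

/-- a splitting with the actions obtained by restriction -/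
def TC.of (C : Cut Γ V A) (ρ : Γ →* Equiv.Perm X) : TC ρ (ρ.comp C.v) (ρ.comp C.va) :=
  { C with
    hv := fun _ => rfl
    hi := fun _ => rfl }

/-- the action of the product with the infinite cyclic group -/
abbrev ln (ρ : A →* Equiv.Perm X) : A × Multiplicative ℤ →* Equiv.Perm X :=
  ρ.comp (MonoidHom.fst A (Multiplicative ℤ))

/-- the splitting of the product with the infinite cyclic group -/
def TC.line (ρ : A →* Equiv.Perm X) : TC (ln ρ) ρ ρ :=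
  { Cut.line A with
    hv := fun _ => rfl
    hi := fun _ => rfl }

/-- the translation by the central stable letter -/
noncomputable def lineT (ρ : A →* Equiv.Perm X) (J : Ob X) :
    TU (ln ρ) (TC.line ρ).t J J :=
  TU.cen (ln ρ) (TC.line ρ).t (map_one ρ) J

theorem line_ih (U : (OC ρA).Hom I J) : mp (TC.line ρA).ih U = U := mp_id U

theorem line_ah (U : (OC ρA).Hom I J) : mp (TC.line ρA).ah U = mp (TC.line ρA).vh U := rfl

theorem line_comm {G : Type} [Group G] {ρ : G →* Equiv.Perm X}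
    (U : (OC (ln ρ)).Hom I J) :
    (lineT ρ I).T * U = U * (lineT ρ J).T :=
  cen_comm (ρ := ln ρ) (t := (TC.line ρ).t) (map_one ρ)
    (fun g => Prod.ext ((one_mul _).trans (mul_one _).symm) (mul_comm _ _)) U

theorem line_jm (U : (OC ρA).Hom I J) : (TC.line ρA).jm (lineT ρA I) (lineT ρA J) U = U :=
  mp_inj (TC.line ρA).hV (by
    rw [TC.mp_jm, Hm.mul_assoc, ← line_comm, ← Hm.mul_assoc, TU.u2, Hm.one_mul, line_ah])

end Pool.Agent.Work.MP_9d1ffa_al.Ct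
end

-- merged part: Pool.Agent.Work.MP_9d1ffa_al.Ct.CCut
section
/-! Filters along the base edge of an HNN extension. -/

namespace Pool.Agent.Work.MP_9d1ffa_al.Ct

set_option linter.unusedSectionVars false
set_option linter.unusedVariables false

open MonoidAlgebra

variable {X Γ V A : Type} [Group Γ] [Group V] [Group A] {ε : ℤˣ} {ρ : Γ →* Equiv.Perm X}
  {ρV : V →* Equiv.Perm X} {ρA : A →* Equiv.Perm X} {I J J' K L M N κ κ' : Ob X}

theorem mp_sysM (f : AH ρV ρ) (W : (OC ρV).Hom (I + I) (I + I)) (ψ : (OC ρV).Hom I I) :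
    mp f (sysM ε W ψ) = sysM ε (mp f W) (mp f ψ) := by
  rw [sysM, sysM, mp_sub, mp_mul, mp_sy, mp_toBlocks₁₁, mp_toBlocks₁₂]

namespace TC

variable (C : TC ρ ρV ρA) (T : TU ρ C.t J J')

theorem sy_lin (θ : (OC ρV).Hom I I) (P : (OC ρV).Hom I J) (Q : (OC ρV).Hom I J') :
    sy ε (C.lin T θ P Q) = mp C.vh (sy ε θ) + mp C.vh P * T.T * (mp C.vh Q).ct +
      (ε : ℤ) • (mp C.vh Q * T.T.ct * (mp C.vh P).ct) := by
  rw [TC.lin, mp_sy, sy, sy, conjTranspose_add, conjTranspose_mul, conjTranspose_mul,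
    conjTranspose_conjTranspose, smul_add, ← Hm.mul_assoc]
  abel

theorem sys_eq (W : (OC ρV).Hom (I + I) (I + I)) (θ : (OC ρV).Hom I I) (P : (OC ρV).Hom I J)
    (Q : (OC ρV).Hom I J') :
    C.sys T ε W θ P Q = mp C.vh (sysM ε W θ) + mp C.vh (W.toBlocks₁₁ * P) * T.T * (mp C.vh Q).ct +
      (ε : ℤ) • (mp C.vh (W.toBlocks₁₁ * Q) * T.T.ct * (mp C.vh P).ct) := by
  rw [TC.sys, sysM, TC.sy_lin, mp_sysM, sysM, mp_sy, mp_mul, mp_mul, mp_toBlocks₁₁,
    Hm.mul_add, Hm.mul_add, Hm.mul_smul]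
  simp only [Hm.mul_assoc]
  abel

theorem sys_one (θ : (OC ρV).Hom I I) (P : (OC ρV).Hom I J) (Q : (OC ρV).Hom I J') :
    C.sys T ε 1 θ P Q = sy ε (C.lin T θ P Q) := by
  rw [TC.sys, mp_one, sysM_one]

theorem fm_v (Y : (OC ρ).Hom L I) (B : (OC ρV).Hom I J) :
    fm C.pos (Y * mp C.vh B) = fm C.pos Y * mp C.vh B := by
  refine fm_mul_right Y (sup_mp C.vh B) ?_
  rintro a _ ⟨b, rfl⟩
  exact C.right a b

theorem fm_va (B : (OC ρA).Hom L I) (Y : (OC ρ).Hom I J) :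
    fm C.pos (mp C.ah B * Y) = mp C.ah B * fm C.pos Y := by
  refine fm_mul_left (sup_mp C.ah B) Y ?_
  rintro _ b ⟨a, rfl⟩
  exact C.left a b

theorem fm_t (Y : (OC ρ).Hom L J) :
    fm C.pos (Y * T.T) = fm C.pos Y * T.T + mp C.ah (rs C.ah C.hVA Y) * T.T := by
  rw [← Hm.add_mul, mp_rs, fm_mul_right (S := fun g => C.pos (g * C.t)) Y T.sup
    (by rintro a _ rfl; rfl)]
  refine congrArg (· * T.T) (hom_ext fun k l g => ?_)
  have h := C.OCut_pos_t g
  rw [val_add, Matrix.add_apply, coeff_add, Finsupp.add_apply, coeff_fm, coeff_fm, coeff_fm]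
  by_cases e : C.pos g
  · rw [if_pos (h.2 (Or.inl e)), if_pos e, if_neg (show ¬ ∃ a, C.ah.f a = g from C.OCut_excl e),
      add_zero]
  · by_cases e' : ∃ a, C.ah.f a = g
    · rw [if_pos (h.2 (Or.inr e')), if_neg e, if_pos e', zero_add]
    · rw [if_neg fun x => (h.1 x).elim e e', if_neg e, if_neg e', add_zero]

theorem fm_tinv (Y : (OC ρ).Hom L J') :
    fm C.pos (Y * T.T.ct) = fm C.pos Y * T.T.ct - mp C.ah (rs C.ah C.hVA (Y * T.T.ct)) := by
  have h := C.fm_t T (Y * T.T.ct)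
  rw [Hm.mul_assoc, T.u2, Hm.mul_one] at h
  rw [h, Hm.add_mul, Hm.mul_assoc, Hm.mul_assoc, T.u1, Hm.mul_one,
    Hm.mul_one, add_sub_cancel_right]

theorem key_pos (W : (OC ρV).Hom (I + I) (I + I)) (θ : (OC ρV).Hom I I) (P : (OC ρV).Hom I J)
    (Q : (OC ρV).Hom I J') (y : (OC ρ).Hom L I) :
    fm C.pos y * C.sys T ε W θ P Q = fm C.pos (y * C.sys T ε W θ P Q) +
      mp C.ah (rs C.ah C.hVA (y * C.bd T W P Q)) * C.sig T ε P Q := by
  rw [TC.sys_eq, TC.bd, TC.sig, mul_fromCols, rs_fromCols, mp_fromCols, fromCols_mul_fromRows,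
    ← mp_ct, ← mp_ct]
  simp only [Hm.mul_add, Hm.mul_smul, fm_add, fm_zsmul, ← Hm.mul_assoc, C.fm_v, C.fm_t,
    C.fm_tinv, Hm.add_mul, Hm.sub_mul, Hm.mul_neg, smul_sub]
  abel

theorem key_neg (W : (OC ρV).Hom (I + I) (I + I)) (θ : (OC ρV).Hom I I) (P : (OC ρV).Hom I J)
    (Q : (OC ρV).Hom I J') (y : (OC ρ).Hom L I) :
    fm (fun g => ¬ C.pos g) y * C.sys T ε W θ P Q =
      fm (fun g => ¬ C.pos g) (y * C.sys T ε W θ P Q) -
        mp C.ah (rs C.ah C.hVA (y * C.bd T W P Q)) * C.sig T ε P Q := by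
  have h1 := fm_add_not C.pos y
  have h2 := fm_add_not C.pos (y * C.sys T ε W θ P Q)
  rw [eq_sub_of_add_eq' h1, eq_sub_of_add_eq' h2, Hm.sub_mul, C.key_pos]
  abel

variable {C}

theorem Side.mul_v {Y : (OC ρ).Hom (L + L) I} (h : C.Side Y) (B : (OC ρV).Hom I J) :
    C.Side (Y * mp C.vh B) := by
  rw [Side, toRows₁_mul, toRows₂_mul]
  constructor
  · refine h.1.mul (sup_mp C.vh B) ?_
    rintro a _ ha ⟨b, rfl⟩
    exact (C.right a b).2 ha
  · refine h.2.mul (sup_mp C.vh B) ?_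
    rintro a _ ha ⟨b, rfl⟩
    exact fun e => ha ((C.right a b).1 e)

theorem Side.add {Y Y' : (OC ρ).Hom (L + L) I} (h : C.Side Y) (h' : C.Side Y') : C.Side (Y + Y') := by
  rw [Side, toRows₁_add, toRows₂_add]
  exact ⟨h.1.add h'.1, h.2.add h'.2⟩

theorem Side.neg {Y : (OC ρ).Hom (L + L) I} (h : C.Side Y) : C.Side (-Y) := by
  rw [Side, toRows₁_neg, toRows₂_neg]
  exact ⟨h.1.neg, h.2.neg⟩

theorem Side.zsmul {Y : (OC ρ).Hom (L + L) I} (h : C.Side Y) (n : ℤ) : C.Side (n • Y) := by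
  rw [Side, toRows₁_smul, toRows₂_smul]
  exact ⟨h.1.zsmul n, h.2.zsmul n⟩

theorem side_fromCols {Y : (OC ρ).Hom (L + L) I} {Y' : (OC ρ).Hom (L + L) J} :
    C.Side (fromCols Y Y') ↔ C.Side Y ∧ C.Side Y' := by
  rw [Side, toRows₁_fromCols, toRows₂_fromCols, sup_fromCols, sup_fromCols]
  exact and_and_and_comm

theorem side_fromRows {Y Y' : (OC ρ).Hom L I} :
    C.Side (fromRows Y Y') ↔ Sup C.pos Y ∧ Sup (fun g => ¬ C.pos g) Y' := by
  rw [Side, toRows₁_fromRows, toRows₂_fromRows]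

end TC

end Pool.Agent.Work.MP_9d1ffa_al.Ct
end

-- merged part: Pool.Agent.Work.MP_9d1ffa_al.Ct.CLin
section
/-! Linearisation of quadratic forms over an HNN extension. -/

namespace Pool.Agent.Work.MP_9d1ffa_al.Ct

set_option linter.unusedSectionVars false
set_option linter.unusedVariables false

open MonoidAlgebra

section Alg

variable {O : Type 1} [Add O] [Zero O] {𝒞 : SCat O} {ε : ℤˣ} {I J K L N : O}

/-- the extended form -/
def CLin_ext (φ : 𝒞.Hom I I) (X : 𝒞.Hom I J) (κ : 𝒞.Hom J J) : 𝒞.Hom (I + J) (I + J) :=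
  fromBlocks (φ + X * κ * X.ct) (X * κ) (κ * X.ct) κ

theorem CLin_z {φ : 𝒞.Hom I I} {κ : 𝒞.Hom J J} (h : Z ε φ) (h' : Z ε κ) (X : 𝒞.Hom I J) :
    Z ε (CLin_ext φ X κ) := by
  refine Z.iso ⟨fromBlocks 1 X 0 1, fromBlocks 1 (-X) 0 1, ?_, ?_, Eqv.of_eq ?_⟩ (h.sum h') <;>
    simp [fromBlocks_multiply, fromBlocks_conjTranspose, CLin_ext]

theorem CLin_ext_ext (φ : 𝒞.Hom I I) (X : 𝒞.Hom I J) (κ : 𝒞.Hom J J) (X₁ : 𝒞.Hom I N)
    (X₂ : 𝒞.Hom J N) (κ' : 𝒞.Hom N N) :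
    CLin_ext φ (fromCols X (X₁ - X * X₂)) (CLin_ext κ X₂ κ') =
      sAssoc 𝒞 I J N * CLin_ext (CLin_ext φ X κ) (fromRows X₁ X₂) κ' * (sAssoc 𝒞 I J N).ct := by
  simp only [CLin_ext, sAssoc, conjTranspose_fromRows_eq_fromCols_conjTranspose,
    conjTranspose_fromCols_eq_fromRows_conjTranspose, fromBlocks_conjTranspose, fromRows_mul,
    mul_fromCols, fromCols_mul_fromBlocks, fromBlocks_mul_fromRows, fromCols_mul_fromRows,
    fromBlocks_multiply, fromCols_fromRows_eq_fromBlocks,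
    fromBlocks_add, fromRows_add, fromCols_add, Hm.mul_zero, Hm.zero_mul, Hm.mul_one, Hm.one_mul,
    add_zero, zero_add, conjTranspose_zero, conjTranspose_one, fromBlocks_inj, fromRows_ext_iff,
    fromCols_ext_iff, Hm.mul_add, Hm.add_mul, Hm.sub_mul, Hm.mul_sub, Hm.mul_assoc,
    conjTranspose_sub, conjTranspose_mul]
  refine ⟨?_, ⟨?_, ?_⟩, ⟨?_, ?_⟩, trivial⟩ <;> abel

theorem CLin_ext_add (φ φ' : 𝒞.Hom I I) (X : 𝒞.Hom I J) (κ : 𝒞.Hom J J)
    (X' : 𝒞.Hom I N) (κ' : 𝒞.Hom N N) {e : 𝒞.Hom (I + (J + N)) (I + J)}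
    {e' : 𝒞.Hom (I + (J + N)) (I + N)} (he : fromBlocks 1 0 0 (fromRows 1 0) = e)
    (he' : fromBlocks 1 0 0 (fromRows 0 1) = e') :
    CLin_ext (φ + φ') (fromCols X X') (fromBlocks κ 0 0 κ') =
      e * CLin_ext φ X κ * e.ct + e' * CLin_ext φ' X' κ' * e'.ct := by
  subst he he'
  simp [CLin_ext, conjTranspose_fromRows_eq_fromCols_conjTranspose,
    conjTranspose_fromCols_eq_fromRows_conjTranspose, fromBlocks_conjTranspose,
    fromCols_mul_fromBlocks, fromBlocks_mul_fromRows, fromCols_mul_fromRows, fromBlocks_multiply,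
    fromCols_fromRows_eq_fromBlocks, fromBlocks_add, add_add_add_comm]

theorem CLin_ext_mul (a : 𝒞.Hom I J) (b : 𝒞.Hom I L) (u : 𝒞.Hom J K) (w : 𝒞.Hom K L) :
    CLin_ext (a * (u * w) * b.ct) (fromCols (-(b * w.ct)) (-(a * u))) (fromBlocks 0 0 (-1) 0) =
      fromRows a 0 * u * (fromRows (0 : 𝒞.Hom I K) (fromRows 1 0)).ct +
        fromRows (0 : 𝒞.Hom I K) (fromRows 0 1) * w * (fromRows b 0).ct +
        fromBlocks 0 0 0 (fromBlocks 0 0 (-1) 0) := by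
  refine ext_cols ?_ (ext_cols ?_ ?_) <;>
    simp [CLin_ext, conjTranspose_fromRows_eq_fromCols_conjTranspose,
      conjTranspose_fromCols_eq_fromRows_conjTranspose, fromCols_mul_fromBlocks,
      fromBlocks_mul_fromRows, fromCols_mul_fromRows, Hm.mul_assoc]

theorem CLin_zk : Z ε (fromBlocks 0 0 (-1) 0 : 𝒞.Hom (J + J) (J + J)) := by
  refine z_lag 0 (-1) 0 (-((ε : ℤ) • 1)) ?_ ?_ <;>
    simp only [zero_add, conjTranspose_neg, conjTranspose_one, smul_neg, Hm.mul_neg,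
      neg_neg, Hm.mul_smul, Hm.mul_one, eps_eps]

end Alg

variable {X Γ V A : Type} [Group Γ] [Group V] [Group A] {ε : ℤˣ} {ρ : Γ →* Equiv.Perm X}
  {ρV : V →* Equiv.Perm X} {ρA : A →* Equiv.Perm X} {I J J' K L M N κ κ' : Ob X}

section

variable {C : TC ρ ρV ρA} {φ φ' : (OC ρ).Hom I I}

/-- the form is linear in the stable letter -/
def CLin_L (C : TC ρ ρV ρA) (ε : ℤˣ) (F : (OC ρ).Hom I I) : Prop :=
  ∃ (J J' : Ob X) (T : TU ρ C.t J J') (θ : (OC ρV).Hom I I) (P : (OC ρV).Hom I J)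
    (Q : (OC ρV).Hom I J'), Eqv ε F (C.lin T θ P Q)

theorem CLin_mk {k : (OC ρ).Hom J J} (hz : Z ε k) (Y : (OC ρ).Hom I J)
    (h : CLin_L C ε (CLin_ext φ Y k)) : C.LinOK ε φ :=
  let ⟨K, K', T, θ, P, Q, h⟩ := h
  ⟨J, k, Y, K, K', T, θ, P, Q, hz.ns, hz, h⟩

theorem CLin_out (h : C.LinOK ε φ) : ∃ (N : Ob X) (k : (OC ρ).Hom N N) (Y : (OC ρ).Hom I N),
    Z ε k ∧ CLin_L C ε (CLin_ext φ Y k) :=
  let ⟨N, k, Y, K, K', T, θ, P, Q, _, hz, h⟩ := h
  ⟨N, k, Y, hz, K, K', T, θ, P, Q, h⟩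

theorem CLin_sub (h : CLin_L C ε φ) (e : (OC ρV).Hom J I) {e' : (OC ρ).Hom J I}
    (he : mp C.vh e = e') : CLin_L C ε (e' * φ * e'.ct) := by
  obtain ⟨K, K', T, θ, P, Q, h⟩ := h
  refine ⟨K, K', T, e * θ * e.ct, e * P, e * Q, (h.conj e').trans (Eqv.of_eq ?_)⟩
  simp only [TC.lin, mp_mul, mp_ct, he, Hm.mul_add, Hm.add_mul, conjTranspose_mul, Hm.mul_assoc]

theorem CLin_add (h : CLin_L C ε φ) (h' : CLin_L C ε φ') : CLin_L C ε (φ + φ') := by
  obtain ⟨K, L, T, θ, P, Q, h⟩ := h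
  obtain ⟨K', L', T', θ', P', Q', h'⟩ := h'
  refine ⟨K + K', L + L', T.sum T', θ + θ', fromCols P P', fromCols Q Q',
    (h.add h').trans (Eqv.of_eq ?_)⟩
  simp only [TC.lin, mp_add, mp_fromCols, TU.sum_T, fromCols_mul_fromBlocks,
    conjTranspose_fromCols_eq_fromRows_conjTranspose, fromCols_mul_fromRows, Hm.mul_zero,
    add_zero, zero_add]
  abel

theorem CLin_lin (T : TU ρ C.t J J') (θ : (OC ρV).Hom I I) (P : (OC ρV).Hom I J)
    (Q : (OC ρV).Hom I J') : C.LinOK ε (C.lin T θ P Q) := by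
  refine CLin_mk (z_hyp 0) 0 ?_
  convert CLin_sub (J := I + (0 + 0)) ⟨J, J', T, θ, P, Q, Eqv.refl _⟩ (fromRows 1 0) rfl using 1
  refine ext_cols ?_ ?_ <;> simp [CLin_ext, hypF, to_zero (1 : (OC ρ).Hom 0 0), mp_fromRows, mp_one,
    mp_zero, conjTranspose_fromRows_eq_fromCols_conjTranspose]

theorem CLin_eqv (h : C.LinOK ε φ) (e : Eqv ε φ φ') : C.LinOK ε φ' :=
  let ⟨N, k, Y, K, K', T, θ, P, Q, h1, hz, h⟩ := h
  ⟨N, k, Y, K, K', T, θ, P, Q, h1, hz,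
    (eqv_blocks (e.symm.add (Eqv.refl _)) (Eqv.refl _) rfl).trans h⟩

theorem CLin_mp (θ : (OC ρV).Hom I I) : C.LinOK ε (mp C.vh θ) := by
  have h := CLin_lin (ε := ε) (TU.src ρ C.t I) θ 0 0
  rwa [TC.lin, mp_zero, Hm.zero_mul, Hm.zero_mul, add_zero] at h

theorem CLin_ok_add (h : C.LinOK ε φ) (h' : C.LinOK ε φ') : C.LinOK ε (φ + φ') := by
  obtain ⟨N, k, Y, hz, h⟩ := CLin_out h
  obtain ⟨N', k', Y', hz', h'⟩ := CLin_out h'
  refine CLin_mk (hz.sum hz') (fromCols Y Y') ?_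
  rw [CLin_ext_add _ _ _ _ _ _ rfl rfl]
  refine CLin_add (CLin_sub h (fromBlocks 1 0 0 (fromRows 1 0)) ?_)
    (CLin_sub h' (fromBlocks 1 0 0 (fromRows 0 1)) ?_) <;>
    simp only [mp_blocks, mp_fromRows, mp_one, mp_zero]

theorem CLin_of_ext {k : (OC ρ).Hom J J} (hz : Z ε k) (Y : (OC ρ).Hom I J)
    (h : C.LinOK ε (CLin_ext φ Y k)) : C.LinOK ε φ := by
  obtain ⟨N, k', Y', hz', h⟩ := CLin_out h
  obtain ⟨a, b, rfl⟩ := exists_rows Y'
  refine CLin_mk (CLin_z hz hz' b) (fromCols Y (a - Y * b)) ?_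
  rw [CLin_ext_ext]
  exact CLin_sub h (sAssoc _ I J N)
    (by simp only [sAssoc, mp_blocks, mp_fromRows, mp_fromCols, mp_one, mp_zero])

theorem CLin_mono (g : Γ) : ∀ (I S S' : Ob X) (T : TU ρ g S S') (Y : (OC ρV).Hom I S)
    (W : (OC ρV).Hom I S'), C.LinOK ε (mp C.vh Y * T.T * (mp C.vh W).ct) := by
  have hv : ∀ (h : V) (I S S' : Ob X) (T : TU ρ (C.v h) S S') (Y : (OC ρV).Hom I S)
      (W : (OC ρV).Hom I S'), C.LinOK ε (mp C.vh Y * T.T * (mp C.vh W).ct) := by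
    intro h I S S' T Y W
    rw [← Sup.mp_rs (hf := C.hV) (T.sup.mono fun g e => ⟨h, e.symm⟩), ← mp_ct, ← mp_mul, ← mp_mul]
    exact CLin_mp _
  have hg : g ∈ Subgroup.closure (insert C.t (Set.range C.v)) := C.gen ▸ Subgroup.mem_top g
  induction hg using Subgroup.closure_induction with
  | mem x hx =>
    obtain rfl | ⟨h, rfl⟩ := hx
    · intro I S S' T Y W
      have h := CLin_lin (ε := ε) T 0 Y W
      rwa [TC.lin, mp_zero, zero_add] at h
    · exact hv h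
  | one => exact map_one C.v ▸ hv 1
  | mul x y _ _ hx hy =>
    intro I S S' T Y W
    obtain ⟨K, ⟨U⟩⟩ : ∃ K, Nonempty (TU ρ x S K) := ⟨_, ⟨TU.src ρ x S⟩⟩
    have hu := U.unt.ct.mul T.unt
    refine CLin_of_ext (CLin_zk (J := K))
      (fromCols (-(mp C.vh W * (U.T.ct * T.T).ct)) (-(mp C.vh Y * U.T))) ?_
    have h1 := hx _ S K U (fromRows Y 0) (fromRows (0 : (OC ρV).Hom I K)
      (fromRows (1 : (OC ρV).Hom K K) (0 : (OC ρV).Hom K K)))
    have h2 := hy _ K S' ⟨U.T.ct * T.T, U.sup_ct.mul T.sup fun a b e e' => by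
      rw [e, e', inv_mul_cancel_left], hu.1, hu.2⟩ (fromRows (0 : (OC ρV).Hom I K)
      (fromRows (0 : (OC ρV).Hom K K) (1 : (OC ρV).Hom K K))) (fromRows W 0)
    have h3 := CLin_ok_add (CLin_ok_add h1 h2) (CLin_mp (fromBlocks 0 0 0 (fromBlocks 0 0 (-1) 0)))
    simp only [mp_fromRows, mp_blocks, mp_zero, mp_one, mp_neg] at h3
    rwa [← CLin_ext_mul, ← Hm.mul_assoc U.T, U.u1, Hm.one_mul] at h3
  | inv x _ hx =>
    intro I S S' T Y W
    have h := CLin_eqv (hx I S' S ⟨T.T.ct, T.sup_ct.mono fun g e => e.trans (inv_inv x),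
      T.unt.ct.1, T.unt.ct.2⟩ ((ε : ℤ) • W) Y) (eqv_swap _)
    rwa [mp_zsmul, Hm.smul_mul, Hm.smul_mul, ct_zsmul, eps_eps, conjTranspose_mul,
      conjTranspose_mul, conjTranspose_conjTranspose, conjTranspose_conjTranspose,
      ← Hm.mul_assoc] at h

end

theorem TC.linOK_all (C : TC ρ ρV ρA) (φ : (OC ρ).Hom I I) : C.LinOK ε φ := by
  classical
  obtain ⟨s, hs⟩ := exists_sup_finset φ
  rw [eq_sum_fm s hs]
  refine Finset.sum_induction _ (C.LinOK ε) (fun _ _ => CLin_ok_add)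
    (mp_zero C.vh ▸ CLin_mp 0) fun g _ => ?_
  have h := CLin_mono (C := C) (ε := ε) g I _ I (TU.tgt ρ g I)
    (rs C.vh C.hV (fm (· = g) φ * (TU.tgt ρ g I).T.ct)) 1
  rwa [Sup.mp_rs ((sup_fm _ φ).mul (TU.sup_ct _) fun a b e e' => ⟨1, by simp [e, e']⟩), mp_one,
    conjTranspose_one, Hm.mul_one, Hm.mul_assoc, TU.u2, Hm.mul_one] at h

end Pool.Agent.Work.MP_9d1ffa_al.Ct
end

-- merged part: Pool.Agent.Work.MP_9d1ffa_al.Ct.SU2
section
/-! Products of elementary isometries. -/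

namespace Pool.Agent.Work.MP_9d1ffa_al.Ct

set_option linter.unusedSectionVars false
set_option linter.unusedVariables false

variable {O : Type 1} [Add O] [Zero O] {𝒞 : SCat O} {ε η : ℤˣ} {I J K L M : O}

theorem GenU.mem {U : 𝒞.Hom (I + I) (I + I)} (h : GenU η U) : U ∈ RU 𝒞 η I :=
  Submonoid.subset_closure h

/-- the square of a swap along an idempotent -/
theorem OU2_sq {e : 𝒞.Hom I I} (he : e * e = e) :
    fromBlocks (1 - e) e ((η : ℤ) • e) (1 - e) * fromBlocks (1 - e) e ((η : ℤ) • e) (1 - e) =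
      fromBlocks (1 - e + (η : ℤ) • e) 0 0 (1 - e + (η : ℤ) • e) := by
  rw [fromBlocks_multiply]
  simp only [Hm.mul_sub, Hm.sub_mul, Hm.mul_smul, Hm.smul_mul, Hm.mul_one,
    Hm.one_mul, he, sub_self, sub_zero, smul_zero, add_zero]
  rw [add_comm ((η : ℤ) • e)]

theorem OU2_invol {e : 𝒞.Hom I I} (he : e * e = e) :
    (1 - e + (η : ℤ) • e) * (1 - e + (η : ℤ) • e) = 1 := by
  simp only [Hm.mul_sub, Hm.sub_mul, Hm.mul_add, Hm.add_mul, Hm.mul_smul,
    Hm.smul_mul, Hm.mul_one, Hm.one_mul, he, sub_self, eps_eps, zero_add]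
  abel

theorem OU2_gen_inv {U : 𝒞.Hom (I + I) (I + I)} (h : GenU η U) :
    ∃ V ∈ RU 𝒞 η I, U * V = 1 ∧ V * U = 1 := by
  have hm := h.mem
  cases h with
  | gl g g' h1 h2 =>
    refine ⟨_, (GenU.gl g' g h2 h1).mem, ?_, ?_⟩
    · rw [fromBlocks_multiply, ← conjTranspose_mul, h1]; simp
    · rw [fromBlocks_multiply, ← conjTranspose_mul, h2]; simp
  | sh χ =>
    refine ⟨_, (GenU.sh (-χ)).mem, ?_, ?_⟩
    · rw [fromBlocks_multiply, ← fromBlocks_one]
      simp only [Hm.mul_one, Hm.one_mul, Hm.mul_zero, Hm.zero_mul, add_zero,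
        zero_add, conjTranspose_neg, smul_neg]
      congr 1; abel
    · rw [fromBlocks_multiply, ← fromBlocks_one]
      simp only [Hm.mul_one, Hm.one_mul, Hm.mul_zero, Hm.zero_mul, add_zero,
        zero_add, conjTranspose_neg, smul_neg]
      congr 1; abel
  | sw κ s h =>
    have he : s.ct * s * (s.ct * s) = s.ct * s := by
      rw [Hm.mul_assoc, ← Hm.mul_assoc s, h, Hm.one_mul]
    generalize s.ct * s = e at he hm
    set σ := fromBlocks (1 - e) e ((η : ℤ) • e) (1 - e) with hσ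
    have h4 : σ * σ * (σ * σ) = 1 := by
      rw [hσ, OU2_sq he, fromBlocks_multiply, OU2_invol he]; simp
    refine ⟨σ * (σ * σ), mul_mem hm (mul_mem hm hm), ?_, ?_⟩
    · rw [← h4]; simp only [Hm.mul_assoc]
    · rw [← h4]; simp only [Hm.mul_assoc]

theorem OU2_inv {U : 𝒞.Hom (I + I) (I + I)} (h : U ∈ RU 𝒞 η I) :
    ∃ V ∈ RU 𝒞 η I, U * V = 1 ∧ V * U = 1 := by
  induction h using Submonoid.closure_induction with
  | mem U h => exact OU2_gen_inv h
  | one => exact ⟨1, one_mem _, mul_one _, mul_one _⟩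
  | mul U U' _ _ h h' =>
    obtain ⟨V, hV, a, b⟩ := h
    obtain ⟨V', hV', a', b'⟩ := h'
    refine ⟨V' * V, mul_mem hV' hV, ?_, ?_⟩
    · rw [mul_assoc, ← mul_assoc U', a', one_mul, a]
    · rw [mul_assoc, ← mul_assoc V, b, one_mul, b']

theorem ru_inv {U V : 𝒞.Hom (I + I) (I + I)} (h : U ∈ RU 𝒞 η I) (h1 : U * V = 1) :
    V ∈ RU 𝒞 η I := by
  obtain ⟨W, hW, _, b⟩ := OU2_inv h
  have : V = W := by rw [← one_mul V, ← b, mul_assoc, h1, mul_one]
  exact this ▸ hW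

theorem OU2_cancel {U W : 𝒞.Hom (I + I) (I + I)} (h : U * W ∈ RU 𝒞 η I) (hW : W ∈ RU 𝒞 η I) :
    U ∈ RU 𝒞 η I := by
  obtain ⟨V, hV, a, _⟩ := OU2_inv hW
  have := mul_mem h hV
  rwa [mul_assoc, a, mul_one] at this

theorem OU2_cancel' {U W : 𝒞.Hom (I + I) (I + I)} (h : W * U ∈ RU 𝒞 η I) (hW : W ∈ RU 𝒞 η I) :
    U ∈ RU 𝒞 η I := by
  obtain ⟨V, hV, _, b⟩ := OU2_inv hW
  have := mul_mem hV h
  rwa [← mul_assoc, b, one_mul] at this

theorem OU2_of_eq {U V : 𝒞.Hom (I + I) (I + I)} (h : GenU η V) (e : U = V) : U ∈ RU 𝒞 η I :=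
  e ▸ h.mem

theorem ru_dsum_one {U : 𝒞.Hom (I + I) (I + I)} (h : U ∈ RU 𝒞 η I) :
    dsum U (1 : 𝒞.Hom (J + J) (J + J)) ∈ RU 𝒞 η (I + J) := by
  induction h using Submonoid.closure_induction with
  | one => rw [dsum_one]; exact one_mem _
  | mul U U' _ _ h h' =>
    have := mul_mem h h'
    rwa [dsum_mul, mul_one] at this
  | mem U h =>
    rw [← fromBlocks_one]
    cases h with
    | gl g g' h1 h2 =>
      refine OU2_of_eq (GenU.gl (fromBlocks g 0 0 1) (fromBlocks g' 0 0 1) ?_ ?_) ?_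
      · rw [fromBlocks_multiply, h1]; simp
      · rw [fromBlocks_multiply, h2]; simp
      · rw [dsum_blocks, fromBlocks_conjTranspose]; simp
    | sh χ =>
      refine OU2_of_eq (GenU.sh (fromBlocks χ 0 0 0)) ?_
      rw [dsum_blocks, fromBlocks_conjTranspose, fromBlocks_smul, sub_eq_add_neg (fromBlocks _ _ _ _),
        fromBlocks_neg, fromBlocks_add]
      simp [sub_eq_add_neg]
    | sw κ s h =>
      have e : (fromCols s (0 : 𝒞.Hom κ J)).ct * fromCols s (0 : 𝒞.Hom κ J) =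
          fromBlocks (s.ct * s) 0 0 0 := by
        rw [conjTranspose_fromCols_eq_fromRows_conjTranspose, fromRows_mul_fromCols]; simp
      refine OU2_of_eq (GenU.sw κ (fromCols s (0 : 𝒞.Hom κ J)) ?_) ?_
      · rw [conjTranspose_fromCols_eq_fromRows_conjTranspose, fromCols_mul_fromRows, h]; simp
      · rw [dsum_blocks, e, ← fromBlocks_one (I := I) (J := J), sub_eq_add_neg (fromBlocks _ _ _ _),
          fromBlocks_neg, fromBlocks_add, fromBlocks_smul]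
        simp [sub_eq_add_neg]

theorem ru_reindex {U : 𝒞.Hom (I + I) (I + I)} (h : U ∈ RU 𝒞 η I) {u : 𝒞.Hom J I} (hu : Unt u) :
    reix u U ∈ RU 𝒞 η J := by
  have k : ∀ a b : 𝒞.Hom I I, u * a * u.ct * (u * b * u.ct) = u * (a * b) * u.ct := fun a b => by
    rw [Hm.mul_assoc (u * a), ← Hm.mul_assoc u.ct, ← Hm.mul_assoc u.ct, hu.2, Hm.one_mul,
      ← Hm.mul_assoc, Hm.mul_assoc u]
  induction h using Submonoid.closure_induction with
  | one => exact (reix_one hu).symm ▸ one_mem _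
  | mul U U' _ _ h h' => exact reix_mul hu U U' ▸ mul_mem h h'
  | mem U h =>
    cases h with
    | gl g g' h1 h2 =>
      refine OU2_of_eq (GenU.gl (u * g * u.ct) (u * g' * u.ct) ?_ ?_) ?_
      · rw [k, h1, Hm.mul_one, hu.1]
      · rw [k, h2, Hm.mul_one, hu.1]
      · simp [reix_blocks, Hm.mul_assoc]
    | sh χ =>
      refine OU2_of_eq (GenU.sh (u * χ * u.ct)) ?_
      simp [reix_blocks, Hm.mul_assoc, hu.1, Hm.mul_sub, Hm.sub_mul, -zsmul_eq_mul]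
    | sw κ s h =>
      refine OU2_of_eq (GenU.sw κ (s * u.ct) ?_) ?_
      · rw [conjTranspose_mul, conjTranspose_conjTranspose, Hm.mul_assoc, ← Hm.mul_assoc u.ct, hu.2,
          Hm.one_mul, h]
      · simp [reix_blocks, Hm.mul_assoc, hu.1, Hm.mul_sub, Hm.sub_mul, -zsmul_eq_mul]

/-- the lower shears -/
theorem OU2_low {T : 𝒞.Hom I I} (h : Eqv η 0 T) :
    (fromBlocks 1 0 T 1 : 𝒞.Hom (I + I) (I + I)) ∈ RU 𝒞 η I := by
  obtain ⟨χ, rfl⟩ := h
  refine OU2_cancel (W := fromBlocks 0 1 ((η : ℤ) • 1) 0) ?_ genU_swap.mem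
  have := mul_mem (genU_swap (𝒞 := 𝒞) (η := η) (I := I)).mem (GenU.sh (η := η) ((η : ℤ) • χ)).mem
  convert this using 1
  simp only [fromBlocks_multiply, Hm.mul_one, Hm.one_mul, Hm.mul_zero, Hm.zero_mul,
    add_zero, zero_add, Hm.smul_mul, ct_zsmul, smul_sub, eps_eps]

theorem ru_tu {U : 𝒞.Hom (I + I) (I + I)} (h : Uni η U) (h0 : U.toBlocks₁₂ = 0) :
    U ∈ RU 𝒞 η I := by
  rw [← fromBlocks_toBlocks U, h0] at h ⊢
  generalize U.toBlocks₁₁ = a, U.toBlocks₂₁ = c, U.toBlocks₂₂ = d at h ⊢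
  obtain ⟨hu, -, hc, h1⟩ := uni_iff.1 h
  rw [Hm.zero_mul, smul_zero, add_zero] at h1
  have h2 : d * a.ct = 1 := by
    rw [← conjTranspose_conjTranspose d, ← conjTranspose_mul, h1, conjTranspose_one]
  obtain ⟨W, hW⟩ := hu.exists_left_inv
  rw [← fromBlocks_toBlocks W, fromBlocks_multiply, ← fromBlocks_one] at hW
  have h3 := (fromBlocks_inj.1 hW).2.2.2
  rw [Hm.mul_zero, zero_add] at h3
  have h4 : a.ct * d = 1 := by
    rw [← Hm.one_mul a.ct, ← h3, Hm.mul_assoc _ d, h2, Hm.mul_one, h3]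
  have h5 : d.ct * a = 1 := by
    rw [← conjTranspose_conjTranspose a, ← conjTranspose_mul, h4, conjTranspose_one]
  have h6 : Eqv η 0 (a.ct * c) := by
    have := hc.conj a.ct
    rwa [Hm.mul_zero, Hm.zero_mul, conjTranspose_conjTranspose, Hm.mul_assoc,
      Hm.mul_assoc, h5, Hm.mul_one] at this
  have := mul_mem (GenU.gl (η := η) a d.ct h1 h5).mem (OU2_low h6)
  convert this using 1
  simp only [fromBlocks_multiply, Hm.mul_one, Hm.mul_zero, Hm.zero_mul,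
    add_zero, zero_add, conjTranspose_conjTranspose, ← Hm.mul_assoc, h2, Hm.one_mul]

theorem ru_compl {U : 𝒞.Hom (I + I) (I + I)} (h : Uni η U) (h0 : IsUnit U.toBlocks₁₂) :
    U ∈ RU 𝒞 η I := by
  rw [← fromBlocks_toBlocks U] at h ⊢
  generalize U.toBlocks₁₁ = a, U.toBlocks₁₂ = b, U.toBlocks₂₁ = c, U.toBlocks₂₂ = d at h h0 ⊢
  obtain ⟨-, ha, -, -⟩ := uni_iff.1 h
  obtain ⟨b', h1, h2⟩ := isUnit_iff_exists.1 h0
  have h3 : Eqv η 0 (-(b' * a)) := by
    have := (ha.conj b').neg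
    rwa [Hm.mul_zero, Hm.zero_mul, neg_zero, Hm.mul_assoc, Hm.mul_assoc,
      ← conjTranspose_mul, h2, conjTranspose_one, Hm.mul_one] at this
  have hW := mul_mem (OU2_low h3) (genU_swap (𝒞 := 𝒞) (η := η) (I := I)).mem
  refine OU2_cancel (ru_tu (h.mul (Uni.of_mem hW)) ?_) hW
  simp only [fromBlocks_multiply, Hm.mul_one, Hm.mul_zero, Hm.zero_mul,
    add_zero, zero_add, Hm.one_mul, toBlocks_fromBlocks₁₂, Hm.mul_neg, ← Hm.mul_assoc,
    h1, add_neg_cancel]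

theorem OU2_rows {D D' X : 𝒞.Hom (I + I) (I + I)} (M : 𝒞.Hom I I) (h : D * D' = 1)
    (h1 : X.toBlocks₁₁ = M * D.toBlocks₁₁) (h2 : X.toBlocks₁₂ = M * D.toBlocks₁₂) :
    (X * D').toBlocks₁₂ = 0 := by
  rw [← fromBlocks_toBlocks D, ← fromBlocks_toBlocks D', fromBlocks_multiply, ← fromBlocks_one] at h
  rw [← fromBlocks_toBlocks X, ← fromBlocks_toBlocks D', fromBlocks_multiply, toBlocks_fromBlocks₁₂,
    h1, h2, Hm.mul_assoc, Hm.mul_assoc, ← Hm.mul_add, (fromBlocks_inj.1 h).2.1,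
    Hm.mul_zero]

/-- an element whose upper rows span the antidiagonal -/
theorem OU2_diag : ∃ D ∈ RU 𝒞 η (I + I), D.toBlocks₁₁ = fromBlocks 1 1 0 0 ∧
    D.toBlocks₁₂ = fromBlocks 0 0 (-1) 1 := by
  have e : (fromCols (0 : 𝒞.Hom I I) (1 : 𝒞.Hom I I)).ct *
      fromCols (0 : 𝒞.Hom I I) (1 : 𝒞.Hom I I) = fromBlocks 0 0 0 1 := by
    rw [conjTranspose_fromCols_eq_fromRows_conjTranspose, fromRows_mul_fromCols]; simp
  have e1 : (1 : 𝒞.Hom (I + I) (I + I)) - fromBlocks 0 0 0 1 = fromBlocks 1 0 0 0 := by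
    rw [sub_eq_iff_eq_add, fromBlocks_add]; simp
  have h1 := (GenU.sw (η := η) I (fromCols (0 : 𝒞.Hom I I) (1 : 𝒞.Hom I I)) (by
    rw [conjTranspose_fromCols_eq_fromRows_conjTranspose, fromCols_mul_fromRows]; simp)).mem
  have h2 := (GenU.gl (η := η) (fromBlocks 1 1 0 1 : 𝒞.Hom (I + I) (I + I))
    (fromBlocks 1 (-1) 0 1) (by simp [fromBlocks_multiply]) (by simp [fromBlocks_multiply])).mem
  rw [e, e1] at h1
  refine ⟨_, mul_mem h1 h2, ?_, ?_⟩
  · simp [fromBlocks_multiply]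
  · simp [fromBlocks_multiply, fromBlocks_conjTranspose]

theorem ru_white {U : 𝒞.Hom (I + I) (I + I)} (h : Uni η U) :
    dsum U (fA (-1) U) ∈ RU 𝒞 η (I + I) := by
  obtain ⟨D, hD, e1, e2⟩ := OU2_diag (𝒞 := 𝒞) (η := η) (I := I)
  obtain ⟨D', hD', a, -⟩ := OU2_inv hD
  refine OU2_cancel' (OU2_cancel (ru_tu (((Uni.of_mem hD).mul (h.dsum h.fA_neg)).mul
    (Uni.of_mem hD')) (OU2_rows (fA (-1) U) a ?_ ?_)) hD') hD
  · rw [← fromBlocks_toBlocks D, dsum_eq, fromBlocks_multiply, e1, e2]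
    simp [fA, fromBlocks_multiply, fromBlocks_add]
  · rw [← fromBlocks_toBlocks D, dsum_eq, fromBlocks_multiply, e1, e2]
    simp [fA, fromBlocks_multiply, fromBlocks_add]

end Pool.Agent.Work.MP_9d1ffa_al.Ct
end

-- merged part: Pool.Agent.Work.MP_9d1ffa_al.Ct.SU3
section
/-! Stably elementary isometries. -/

namespace Pool.Agent.Work.MP_9d1ffa_al.Ct

set_option linter.unusedSectionVars false
set_option linter.unusedVariables false

variable {O : Type 1} [Add O] [Zero O] {𝒞 : SCat O} {ε η : ℤˣ} {I J K L M : O}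

theorem OU3_assoc' (U : 𝒞.Hom (I + I) (I + I)) (V : 𝒞.Hom (J + J) (J + J))
    (W : 𝒞.Hom (K + K) (K + K)) :
    dsum U (dsum V W) = reix (sAssoc 𝒞 I J K) (dsum (dsum U V) W) := by
  have k : ∀ (a : 𝒞.Hom I I) (b : 𝒞.Hom J J) (c : 𝒞.Hom K K),
      sAssoc 𝒞 I J K * fromBlocks (fromBlocks a 0 0 b) 0 0 c * (sAssoc 𝒞 I J K).ct =
        fromBlocks a 0 0 (fromBlocks b 0 0 c) := fun a b c => by
    rw [← Hm.mul_one (fromBlocks a 0 0 (fromBlocks b 0 0 c)),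
      ← (unt_assoc (I := I) (J := J) (K := K)).1, ← Hm.mul_assoc]
    congr 1
    simp [sAssoc, fromBlocks_multiply, fromCols_mul_fromBlocks, fromBlocks_mul_fromRows]
  rw [dsum_eq (dsum U V), reix_blocks, dsum_eq U (dsum V W), dsum_eq U V, dsum_eq V W]
  simp only [toBlocks_fromBlocks₁₁, toBlocks_fromBlocks₁₂, toBlocks_fromBlocks₂₁,
    toBlocks_fromBlocks₂₂, k]

theorem OU3_assoc (U : 𝒞.Hom (I + I) (I + I)) (V : 𝒞.Hom (J + J) (J + J))
    (W : 𝒞.Hom (K + K) (K + K)) :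
    dsum (dsum U V) W = reix (sAssoc 𝒞 I J K).ct (dsum U (dsum V W)) := by
  rw [OU3_assoc', reix_reix unt_assoc]

theorem OU3_comm (U : 𝒞.Hom (I + I) (I + I)) (V : 𝒞.Hom (J + J) (J + J)) :
    dsum V U = reix (sComm 𝒞 I J) (dsum U V) := by
  rw [dsum_eq U, reix_blocks, dsum_eq]
  simp [sComm, fromBlocks_multiply, fromBlocks_conjTranspose]

theorem OU3_re (U : 𝒞.Hom (I + I) (I + I)) (W : 𝒞.Hom (K + K) (K + K)) (u : 𝒞.Hom J I) :
    dsum (reix u U) W = reix (fromBlocks u 0 0 1) (dsum U W) := by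
  obtain ⟨a, b, c, d, rfl⟩ := exists_blocks U
  obtain ⟨x, y, z, v, rfl⟩ := exists_blocks W
  simp [reix_blocks, dsum_blocks, fromBlocks_multiply, fromBlocks_conjTranspose]

theorem OU3_re' (U : 𝒞.Hom (I + I) (I + I)) (W : 𝒞.Hom (K + K) (K + K)) (u : 𝒞.Hom J K) :
    dsum U (reix u W) = reix (fromBlocks 1 0 0 u) (dsum U W) := by
  obtain ⟨a, b, c, d, rfl⟩ := exists_blocks U
  obtain ⟨x, y, z, v, rfl⟩ := exists_blocks W
  simp [reix_blocks, dsum_blocks, fromBlocks_multiply, fromBlocks_conjTranspose]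

theorem OU3_four (A : 𝒞.Hom (I + I) (I + I)) (B : 𝒞.Hom (J + J) (J + J))
    (C : 𝒞.Hom (K + K) (K + K)) (D : 𝒞.Hom (L + L) (L + L)) :
    dsum (dsum A C) (dsum B D) = reix (sFour 𝒞 I J K L) (dsum (dsum A B) (dsum C D)) := by
  obtain ⟨a, b, c, d, rfl⟩ := exists_blocks A
  obtain ⟨a', b', c', d', rfl⟩ := exists_blocks B
  obtain ⟨x, y, z, v, rfl⟩ := exists_blocks C
  obtain ⟨x', y', z', v', rfl⟩ := exists_blocks D
  simp [reix_blocks, dsum_blocks, sFour, fromBlocks_multiply, fromBlocks_conjTranspose,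
    fromBlocks_add]

theorem OU3_pad {U : 𝒞.Hom (I + I) (I + I)}
    (h : dsum U (1 : 𝒞.Hom (J + J) (J + J)) ∈ RU 𝒞 η (I + J)) :
    dsum U (1 : 𝒞.Hom ((J + K) + (J + K)) ((J + K) + (J + K))) ∈ RU 𝒞 η (I + (J + K)) := by
  rw [← dsum_one, OU3_assoc']
  exact ru_reindex (ru_dsum_one h) unt_assoc

theorem OU3_pad' {U : 𝒞.Hom (I + I) (I + I)}
    (h : dsum U (1 : 𝒞.Hom (J + J) (J + J)) ∈ RU 𝒞 η (I + J)) :
    dsum U (1 : 𝒞.Hom ((K + J) + (K + J)) ((K + J) + (K + J))) ∈ RU 𝒞 η (I + (K + J)) := by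
  rw [← reix_one (unt_comm (I := J) (J := K)), OU3_re']
  exact ru_reindex (OU3_pad h) (unt_one.sum unt_comm)

theorem Nul.of_mem {U : 𝒞.Hom (I + I) (I + I)} (h : U ∈ RU 𝒞 η I) : Nul η U := by
  exact ⟨I, ru_dsum_one h⟩

theorem Nul.reindex {U : 𝒞.Hom (I + I) (I + I)} (h : Nul η U) {u : 𝒞.Hom J I} (hu : Unt u) :
    Nul η (reix u U) := by
  obtain ⟨κ, h⟩ := h
  refine ⟨κ, ?_⟩
  rw [OU3_re]
  exact ru_reindex h (hu.sum unt_one)

theorem Nul.mul {U V : 𝒞.Hom (I + I) (I + I)} (h : Nul η U) (h' : Nul η V) :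
    Nul η (U * V) := by
  obtain ⟨κ, h⟩ := h
  obtain ⟨κ', h'⟩ := h'
  refine ⟨κ + κ', ?_⟩
  have := mul_mem (OU3_pad (K := κ') h) (OU3_pad' (K := κ) h')
  rwa [dsum_mul, Hm.mul_one] at this

theorem Nul.inv {U V : 𝒞.Hom (I + I) (I + I)} (h : Nul η U) (h1 : U * V = 1) : Nul η V := by
  obtain ⟨κ, h⟩ := h
  exact ⟨κ,
    ru_inv h (by rw [dsum_mul, h1, Hm.mul_one, dsum_one])⟩

theorem nul_dsum_one {U : 𝒞.Hom (I + I) (I + I)} :
    Nul η (dsum U (1 : 𝒞.Hom (J + J) (J + J))) ↔ Nul η U := by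
  constructor
  · rintro ⟨κ, h⟩
    refine ⟨J + κ, ?_⟩
    rw [← dsum_one, OU3_assoc']
    exact ru_reindex h unt_assoc
  · rintro ⟨κ, h⟩
    refine ⟨κ, ?_⟩
    rw [OU3_assoc, dsum_one]
    exact ru_reindex (OU3_pad' h) unt_assoc.ct

theorem Nul.swap {U : 𝒞.Hom (I + I) (I + I)} {V : 𝒞.Hom (J + J) (J + J)}
    (h : Nul η (dsum U V)) : Nul η (dsum V U) := by
  rw [OU3_comm]
  exact h.reindex unt_comm

theorem Nul.dsum {U : 𝒞.Hom (I + I) (I + I)} {V : 𝒞.Hom (J + J) (J + J)} (h : Nul η U)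
    (h' : Nul η V) : Nul η (dsum U V) := by
  have := (nul_dsum_one (J := J).2 h).mul (nul_dsum_one (J := I).2 h').swap
  rwa [dsum_mul, Hm.mul_one, Hm.one_mul] at this

theorem Nul.conj {U U' V : 𝒞.Hom (I + I) (I + I)} (h : Nul η V) (hU : Uni η U)
    (h1 : U * U' = 1) : Nul η (U * V * U') := by
  obtain ⟨κ, h⟩ := h
  have hU₁ := hU.dsum (uni_one (I := κ))
  obtain ⟨F, -, hF, -⟩ := hU₁.fA_neg.inv
  have hT := ru_white hU₁
  have hT' := ru_inv hT (V := Ct.dsum (Ct.dsum U' 1) F) (by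
    rw [dsum_mul, dsum_mul, h1, hF, Hm.mul_one, dsum_one, dsum_one])
  have := mul_mem (mul_mem hT (ru_dsum_one h)) hT'
  simp only [dsum_mul, Hm.mul_one, hF] at this
  exact nul_dsum_one.1 ⟨_, this⟩

theorem nul_dsum_inv {U V : 𝒞.Hom (I + I) (I + I)} (hU : Uni η U) (h1 : U * V = 1) :
    Nul η (dsum U V) := by
  have hs : (fromBlocks 0 1 1 0 : 𝒞.Hom (I + I) (I + I)) * fromBlocks 0 1 1 0 = 1 := by
    simp [fromBlocks_multiply]
  have hσ := Nul.of_mem (GenU.gl (η := η) _ _ hs hs).mem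
  have h2 := (hσ.conj (hU.dsum (uni_one (I := I))) (U' := dsum V 1)
    (by rw [dsum_mul, h1, Hm.mul_one, dsum_one])).mul hσ
  have e : (fromBlocks (fromBlocks 0 1 1 0) 0 0 (fromBlocks 0 1 1 0).ct :
      𝒞.Hom ((I + I) + (I + I)) ((I + I) + (I + I))) * dsum V 1 *
      fromBlocks (fromBlocks 0 1 1 0) 0 0 (fromBlocks 0 1 1 0).ct = dsum 1 V := by
    rw [dsum_eq, dsum_eq]
    simp [fromBlocks_multiply, fromBlocks_conjTranspose]
  rwa [Hm.mul_assoc (dsum U 1), Hm.mul_assoc (dsum U 1), e, dsum_mul, Hm.mul_one,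
    Hm.one_mul] at h2

theorem Nul.cancel {U : 𝒞.Hom (I + I) (I + I)} {V : 𝒞.Hom (J + J) (J + J)}
    (h : Nul η (Ct.dsum U V)) (h' : Nul η V) (hV : Uni η V) : Nul η U := by
  obtain ⟨V', -, h1, -⟩ := hV.inv
  have := h.mul (nul_dsum_one (J := I).2 (h'.inv h1)).swap
  rw [dsum_mul, Hm.mul_one, h1] at this
  exact nul_dsum_one.1 this

/-- the block sum and the product agree up to elementary isometries -/
theorem nul_dsum_iff {U V : 𝒞.Hom (I + I) (I + I)} (hU : Uni η U) (hV : Uni η V) :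
    Nul η (dsum U V) ↔ Nul η (U * V) := by
  obtain ⟨V', hV', h1, h2⟩ := hV.inv
  constructor
  · intro h
    have := h.mul (nul_dsum_inv hV h1)
    rw [dsum_mul, h1] at this
    exact nul_dsum_one.1 this
  · intro h
    have := (nul_dsum_one (J := I).2 h).mul (nul_dsum_inv hV' h2)
    rwa [dsum_mul, Hm.mul_assoc, h1, Hm.mul_one, Hm.one_mul] at this

end Pool.Agent.Work.MP_9d1ffa_al.Ct
end

-- merged part: Pool.Agent.Work.MP_9d1ffa_al.Ct.SL1
section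
/-! The odd Wall group of an additive category with involution. -/

namespace Pool.Agent.Work.MP_9d1ffa_al.Ct

set_option linter.unusedSectionVars false
set_option linter.unusedVariables false

variable {O : Type 1} [Add O] [Zero O] {𝒞 : SCat O} {ε η : ℤˣ} {I J K L M : O}

/-- an isometry of a hyperbolic form, with its inverse -/
structure Un (𝒞 : SCat O) (η : ℤˣ) where
  n : O
  U : 𝒞.Hom (n + n) (n + n)
  V : 𝒞.Hom (n + n) (n + n)
  uni : Uni η U
  inv : U * V = 1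

theorem OL1_shuffle {A : 𝒞.Hom (I + I) (I + I)} {B : 𝒞.Hom (J + J) (J + J)}
    {C : 𝒞.Hom (K + K) (K + K)} {D : 𝒞.Hom (L + L) (L + L)}
    (h : Nul η (dsum (dsum A B) (dsum C D))) : Nul η (dsum (dsum A C) (dsum B D)) := by
  rw [OU3_four]
  exact h.reindex unt_four

theorem OL1_nul_left (A : 𝒞.Hom (I + I) (I + I)) (B : 𝒞.Hom (J + J) (J + J)) {u : 𝒞.Hom K I}
    (hu : Unt u) (h : Nul η (dsum A B)) : Nul η (dsum (reix u A) B) := by
  rw [OU3_re]
  exact h.reindex (hu.sum unt_one)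

theorem Un.uniV (a : Un 𝒞 η) : Uni η a.V := (a.uni.of_inv a.inv).1

theorem Un.inv' (a : Un 𝒞 η) : a.V * a.U = 1 := (a.uni.of_inv a.inv).2

/-- equivalence up to elementary isometries -/
def unSetoid (𝒞 : SCat O) (η : ℤˣ) : Setoid (Un 𝒞 η) where
  r a b := Nul η (dsum a.U b.V)
  iseqv := by
    refine ⟨fun a => nul_dsum_inv a.uni a.inv, fun {a b} h => ?_, fun {a b c} h h' => ?_⟩
    · exact (h.inv (V := dsum a.V b.U) (by rw [dsum_mul, a.inv, b.inv', dsum_one])).swap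
    · exact (OL1_shuffle (h.dsum h'.swap)).cancel (nul_dsum_inv b.uniV b.inv')
        (b.uniV.dsum b.uni)

/-- the odd Wall group -/
def L1 (𝒞 : SCat O) (η : ℤˣ) : Type 1 := Quotient (unSetoid 𝒞 η)

/-- the class of an isometry with a given inverse -/
def OL1cl (U V : 𝒞.Hom (I + I) (I + I)) (h : Uni η U) (h1 : U * V = 1) : L1 𝒞 η :=
  Quotient.mk (unSetoid 𝒞 η) ⟨I, U, V, h, h1⟩

theorem OL1cl_eq {U V : 𝒞.Hom (I + I) (I + I)} {h : Uni η U} {h1 : U * V = 1}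
    {U' V' : 𝒞.Hom (J + J) (J + J)} {h' : Uni η U'} {h1' : U' * V' = 1} :
    OL1cl U V h h1 = OL1cl U' V' h' h1' ↔ Nul η (dsum U V') := Quotient.eq

theorem OL1cl_reindex {U V : 𝒞.Hom (I + I) (I + I)} {h : Uni η U} {h1 : U * V = 1}
    {U' V' : 𝒞.Hom (J + J) (J + J)} {h' : Uni η U'} {h1' : U' * V' = 1} {u : 𝒞.Hom J I}
    (hu : Unt u) (he : U' = reix u U) : OL1cl U' V' h' h1' = OL1cl U V h h1 := by
  subst he
  exact OL1cl_eq.2 (OL1_nul_left _ _ hu (nul_dsum_inv h h1))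

theorem OL1_ind (x : L1 𝒞 η) : ∃ (n : O) (U V : 𝒞.Hom (n + n) (n + n))
    (h : Uni η U) (h1 : U * V = 1), OL1cl U V h h1 = x := by
  induction x using Quotient.inductionOn with
  | h a => exact ⟨a.n, a.U, a.V, a.uni, a.inv, rfl⟩

theorem OL1_dsum_inv {U V : 𝒞.Hom (I + I) (I + I)} (h1 : U * V = 1)
    {U' V' : 𝒞.Hom (J + J) (J + J)} (h1' : U' * V' = 1) : dsum U U' * dsum V V' = 1 := by
  rw [dsum_mul, h1, h1', dsum_one]

instance OL1add : Add (L1 𝒞 η) where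
  add := Quotient.map₂ (sa := unSetoid 𝒞 η) (sb := unSetoid 𝒞 η) (sc := unSetoid 𝒞 η)
    (fun a b => ⟨_, dsum a.U b.U, dsum a.V b.V, a.uni.dsum b.uni, OL1_dsum_inv a.inv b.inv⟩)
    fun _ _ h _ _ h' => OL1_shuffle (Nul.dsum h h')

instance OL1neg : Neg (L1 𝒞 η) where
  neg := Quotient.map (sa := unSetoid 𝒞 η) (sb := unSetoid 𝒞 η)
    (fun a => ⟨a.n, a.V, a.U, a.uniV, a.inv'⟩)
    fun a b h => Nul.inv h (OL1_dsum_inv a.inv b.inv')

instance OL1zero : Zero (L1 𝒞 η) where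
  zero := OL1cl (I := 0) 1 1 uni_one (Hm.mul_one _)

theorem OL1cl_add {U V : 𝒞.Hom (I + I) (I + I)} (h : Uni η U) (h1 : U * V = 1)
    {U' V' : 𝒞.Hom (J + J) (J + J)} (h' : Uni η U') (h1' : U' * V' = 1) :
    OL1cl U V h h1 + OL1cl U' V' h' h1' =
      OL1cl (dsum U U') (dsum V V') (h.dsum h') (OL1_dsum_inv h1 h1') := rfl

theorem OL1cl_neg {U V : 𝒞.Hom (I + I) (I + I)} (h : Uni η U) (h1 : U * V = 1) :
    -OL1cl U V h h1 = OL1cl V U (h.of_inv h1).1 (h.of_inv h1).2 := rfl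

theorem OL1cl_zero {U V : 𝒞.Hom (I + I) (I + I)} (h : Uni η U) (h1 : U * V = 1) :
    OL1cl U V h h1 = 0 ↔ Nul η U :=
  OL1cl_eq.trans nul_dsum_one

theorem OL1_add_comm (x y : L1 𝒞 η) : x + y = y + x := by
  obtain ⟨n, U, V, h, h1, rfl⟩ := OL1_ind x
  obtain ⟨n', U', V', h', h1', rfl⟩ := OL1_ind y
  rw [OL1cl_add, OL1cl_add]
  exact OL1cl_reindex unt_comm (OU3_comm _ _)

theorem OL1_add_assoc (x y z : L1 𝒞 η) : x + y + z = x + (y + z) := by
  obtain ⟨n, U, V, h, h1, rfl⟩ := OL1_ind x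
  obtain ⟨n', U', V', h', h1', rfl⟩ := OL1_ind y
  obtain ⟨n'', U'', V'', h'', h1'', rfl⟩ := OL1_ind z
  rw [OL1cl_add, OL1cl_add, OL1cl_add, OL1cl_add]
  exact OL1cl_reindex unt_assoc.ct (OU3_assoc _ _ _)

theorem OL1_add_zero (x : L1 𝒞 η) : x + 0 = x := by
  obtain ⟨n, U, V, h, h1, rfl⟩ := OL1_ind x
  refine (OL1cl_add h h1 (J := 0) uni_one (Hm.mul_one _)).trans (OL1cl_eq.2 ?_)
  rw [OU3_assoc]
  refine Nul.reindex ?_ unt_assoc.ct
  rw [OU3_comm V, OU3_re']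
  refine Nul.reindex ?_ (unt_one.sum unt_comm)
  rw [OU3_assoc']
  exact (nul_dsum_one.2 (nul_dsum_inv h h1)).reindex unt_assoc

theorem OL1_zero_add (x : L1 𝒞 η) : 0 + x = x := by rw [OL1_add_comm, OL1_add_zero]

theorem OL1_neg_add (x : L1 𝒞 η) : -x + x = 0 := by
  obtain ⟨n, U, V, h, h1, rfl⟩ := OL1_ind x
  rw [OL1cl_neg, OL1cl_add, OL1cl_zero]
  exact nul_dsum_inv (h.of_inv h1).1 (h.of_inv h1).2

noncomputable instance L1.group : AddCommGroup (L1 𝒞 η) :=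
  { AddGroup.ofLeftAxioms OL1_add_assoc OL1_zero_add OL1_neg_add with
    add_comm := OL1_add_comm }

open Classical in
open Classical in
/-- the class of an isometry (zero if the matrix is not an isometry) -/
noncomputable def ucl (η : ℤˣ) (U : 𝒞.Hom (I + I) (I + I)) : L1 𝒞 η :=
  if h : Uni η U then OL1cl U h.inv.choose h h.inv.choose_spec.2.1 else 0

theorem OL1_ucl {U V : 𝒞.Hom (I + I) (I + I)} (h : Uni η U) (h1 : U * V = 1) :
    ucl η U = OL1cl U V h h1 := by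
  rw [ucl, dif_pos h, OL1cl_eq]
  exact nul_dsum_inv h h1

theorem ucl_dsum {U : 𝒞.Hom (I + I) (I + I)} {V : 𝒞.Hom (J + J) (J + J)} (hU : Uni η U)
    (hV : Uni η V) : ucl η (dsum U V) = ucl η U + ucl η V := by
  obtain ⟨U', -, h1, -⟩ := hU.inv
  obtain ⟨V', -, h2, -⟩ := hV.inv
  rw [OL1_ucl hU h1, OL1_ucl hV h2, OL1_ucl (hU.dsum hV) (OL1_dsum_inv h1 h2)]
  exact (OL1cl_add _ _ _ _).symm

theorem ucl_eq_zero {U : 𝒞.Hom (I + I) (I + I)} (hU : Uni η U) : ucl η U = 0 ↔ Nul η U := by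
  obtain ⟨U', -, h1, -⟩ := hU.inv
  rw [OL1_ucl hU h1]
  exact OL1cl_zero _ _

theorem OL1_ucl_inv {U V : 𝒞.Hom (I + I) (I + I)} (h : Uni η U) (h1 : U * V = 1) :
    ucl η U + ucl η V = 0 := by
  rw [← ucl_dsum h (h.of_inv h1).1, ucl_eq_zero (h.dsum (h.of_inv h1).1)]
  exact nul_dsum_inv h h1

theorem ucl_mul {U V : 𝒞.Hom (I + I) (I + I)} (hU : Uni η U) (hV : Uni η V) :
    ucl η (U * V) = ucl η U + ucl η V := by
  obtain ⟨U', hU', h1, h1'⟩ := hU.inv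
  obtain ⟨V', hV', h2, h2'⟩ := hV.inv
  -- the class of `U * V` plus the class of `dsum U' V'` vanishes
  have hW : Uni η (V' * U') := hV'.mul hU'
  have h3 : U * V * (V' * U') = 1 := by
    rw [Hm.mul_assoc, ← Hm.mul_assoc V, h2, Hm.one_mul, h1]
  have h4 : V' * U' * (U * V) = 1 := ((hU.mul hV).of_inv h3).2
  -- `dsum (U * V) V'` is equivalent to `dsum U 1`
  have k1 : ucl η (U * V) + ucl η V' + ucl η U' = 0 := by
    have a1 : Uni η (dsum (U * V) V') := (hU.mul hV).dsum hV'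
    have a2 : Uni η (dsum U' (1 : 𝒞.Hom (I + I) (I + I))) := hU'.dsum uni_one
    have a3 : ucl η (dsum U' (1 : 𝒞.Hom (I + I) (I + I))) = ucl η U' := by
      rw [ucl_dsum hU' uni_one, (ucl_eq_zero uni_one).2 (Nul.of_mem (one_mem _)), add_zero]
    rw [← ucl_dsum (hU.mul hV) hV', ← a3, add_comm, ← ucl_dsum a2 a1, ucl_eq_zero (a2.dsum a1),
      nul_dsum_iff a2 a1, dsum_mul, ← Hm.mul_assoc, h1', Hm.one_mul, Hm.one_mul]
    exact nul_dsum_inv hV h2
  have k2 := OL1_ucl_inv hU h1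
  have k3 := OL1_ucl_inv hV h2
  calc ucl η (U * V) = ucl η (U * V) + (ucl η U + ucl η U') + (ucl η V + ucl η V') := by
        rw [k2, k3, add_zero, add_zero]
    _ = ucl η (U * V) + ucl η V' + ucl η U' + (ucl η U + ucl η V) := by abel
    _ = ucl η U + ucl η V := by rw [k1, zero_add]

end Pool.Agent.Work.MP_9d1ffa_al.Ct
end

-- merged part: Pool.Agent.Work.MP_9d1ffa_al.Ct.SL2
section
/-! Computations in the odd Wall group. -/

namespace Pool.Agent.Work.MP_9d1ffa_al.Ct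

set_option linter.unusedSectionVars false
set_option linter.unusedVariables false

variable {O : Type 1} [Add O] [Zero O] {𝒞 : SCat O} {ε η : ℤˣ} {I J K L M : O}

theorem ucl_mem {U : 𝒞.Hom (I + I) (I + I)} (h : U ∈ RU 𝒞 η I) : ucl η U = 0 :=
  (ucl_eq_zero (Uni.of_mem h)).2 (Nul.of_mem h)

theorem ucl_one : ucl η (1 : 𝒞.Hom (I + I) (I + I)) = 0 := ucl_mem (one_mem _)

theorem ucl_gen {U : 𝒞.Hom (I + I) (I + I)} (h : GenU η U) : ucl η U = 0 := ucl_mem h.mem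

theorem ucl_inv {U V : 𝒞.Hom (I + I) (I + I)} (hU : Uni η U) (h : U * V = 1) :
    ucl η V = -ucl η U := by
  rw [eq_neg_iff_add_eq_zero, add_comm, ← ucl_mul hU (hU.of_inv h).1, h, ucl_one]

theorem ucl_fA_neg {U : 𝒞.Hom (I + I) (I + I)} (hU : Uni η U) :
    ucl η (fA (-1) U) = -ucl η U := by
  rw [eq_neg_iff_add_eq_zero, add_comm, ← ucl_dsum hU hU.fA_neg, ucl_mem (ru_white hU)]

theorem OL2_fA_one (U : 𝒞.Hom (I + I) (I + I)) : fA 1 U = U := by
  simp [fA, fromBlocks_toBlocks]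

theorem ucl_fA {U : 𝒞.Hom (I + I) (I + I)} (hU : Uni η U) :
    ucl η (fA η U) = (η : ℤ) • ucl η U := by
  rcases Int.units_eq_one_or η with rfl | rfl
  · rw [OL2_fA_one]
    simp
  · rw [ucl_fA_neg hU]
    simp

theorem ucl_fB {U : 𝒞.Hom (I + I) (I + I)} (hU : Uni η U) :
    ucl η (fB U) = -((η : ℤ) • ucl η U) := by
  have hs : Uni η (fromBlocks 0 1 ((η : ℤ) • 1) 0 : 𝒞.Hom (I + I) (I + I)) := genU_swap.uni
  have hs0 : ucl η (fromBlocks 0 1 ((η : ℤ) • 1) 0 : 𝒞.Hom (I + I) (I + I)) = 0 :=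
    ucl_gen genU_swap
  have key : (fromBlocks 0 1 ((η : ℤ) • 1) 0 : 𝒞.Hom (I + I) (I + I)) * U =
      fA (-η) (fB U) * fromBlocks 0 1 ((η : ℤ) • 1) 0 := by
    obtain ⟨a, b, c, d, rfl⟩ := exists_blocks U
    rcases Int.units_eq_one_or η with rfl | rfl <;>
      simp [fA, fB, fromBlocks_multiply]
  have h1 := congrArg (ucl η) key
  rcases Int.units_eq_one_or η with rfl | rfl
  · rw [ucl_mul hs hU, ucl_mul hU.fB.fA_neg hs, hs0, ucl_fA_neg hU.fB] at h1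
    simp only [zero_add, add_zero] at h1
    rw [h1]
    simp
  · rw [neg_neg, OL2_fA_one, ucl_mul hs hU, ucl_mul hU.fB hs, hs0] at h1
    simp only [zero_add, add_zero] at h1
    rw [← h1]
    simp

theorem uni_neg {U : 𝒞.Hom (I + I) (I + I)} (hU : Uni η U) :
    Uni η (-U) ∧ ucl η (-U) = ucl η U := by
  have hg : GenU η (fromBlocks (-1) 0 0 (-1 : 𝒞.Hom I I).ct) :=
    GenU.gl (-1) (-1) (by simp) (by simp)
  have key : -U = U * fromBlocks (-1) 0 0 (-1 : 𝒞.Hom I I).ct := by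
    have : (fromBlocks (-1) 0 0 (-1 : 𝒞.Hom I I).ct : 𝒞.Hom (I + I) (I + I)) = -1 := by
      rw [← fromBlocks_one, fromBlocks_neg]
      simp
    rw [this]
    simp
  rw [key]
  exact ⟨hU.mul hg.uni, by rw [ucl_mul hU hg.uni, ucl_gen hg, add_zero]⟩

/-- a boundary condition of a form is trivial -/
theorem ucl_sys {W : 𝒞.Hom (I + I) (I + I)} (hW : Uni (-ε) W) {ψ C : 𝒞.Hom I I}
    (h : C * sysM ε W ψ = 1) : ucl (-ε) W = 0 := by
  have hg := genU_sy ε (-ψ)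
  have hW' := hW.mul hg.uni
  have hb : (W * fromBlocks 1 (sy ε (-ψ)) 0 1).toBlocks₁₂ = -sysM ε W ψ := by
    conv_lhs => rw [← fromBlocks_toBlocks W]
    rw [fromBlocks_multiply, toBlocks_fromBlocks₁₂]
    simp only [sysM, sy, conjTranspose_neg, smul_neg, Hm.mul_add, Hm.mul_neg,
      Hm.mul_one]
    abel
  have hu : IsUnit (W * fromBlocks 1 (sy ε (-ψ)) 0 1).toBlocks₁₂ :=
    hW'.unit₁₂ (C := -C) (by rw [hb]; simpa using h)
  have h0 := ucl_mem (ru_compl hW' hu)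
  rwa [ucl_mul hW hg.uni, ucl_gen hg, add_zero] at h0

end Pool.Agent.Work.MP_9d1ffa_al.Ct
end

-- merged part: Pool.Agent.Work.MP_9d1ffa_al.Ct.SB
section
/-! Boxes. -/

namespace Pool.Agent.Work.MP_9d1ffa_al.Ct

set_option linter.unusedSectionVars false
set_option linter.unusedVariables false

variable {O : Type 1} [Add O] [Zero O] {𝒞 : SCat O} {ε η : ℤˣ} {I J K L M : O}

theorem OBox_add {L A B : O} (a a' : 𝒞.Hom L A) (b b' : 𝒞.Hom L B) :
    fromCols a b + fromCols a' b' = fromCols (a + a') (b + b') := fromCols_add _ _ _ _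

theorem OBox_smul {L A B : O} (n : ℤ) (a : 𝒞.Hom A L) (b : 𝒞.Hom B L) :
    n • fromRows a b = fromRows (n • a) (n • b) := fromRows_smul _ _ _

theorem OBox_T {L A B : O} (Y : 𝒞.Hom L B) (T : 𝒞.Hom B A)
    (θ : 𝒞.Hom A A) (γ : 𝒞.Hom B B) :
    Y * sy ε (T * θ * T.ct + γ) = Y * T * sy ε θ * T.ct + Y * sy ε γ := by
  rw [sy_add, sy_conj, Hm.mul_add]
  simp only [Hm.mul_assoc]

theorem OBox_T0 {L A B : O} (Y : 𝒞.Hom L B) (T : 𝒞.Hom B A)
    (θ : 𝒞.Hom A A) : Y * sy ε (T * θ * T.ct) = Y * T * sy ε θ * T.ct := by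
  rw [sy_conj]
  simp only [Hm.mul_assoc]

theorem OBox_gl {x φ g g' : 𝒞.Hom I I} (h : HasBox ε x φ) (h1 : g * g' = 1) :
    HasBox ε (x * g) (φ * g'.ct) := by
  obtain ⟨M, θ, m, h2, C, c, h3⟩ := h
  refine ⟨M,
    fromBlocks g' 0 0 1 * θ * (fromBlocks g' 0 0 1).ct, m, ?_, 
    C * (fromBlocks g 0 0 1 : 𝒞.Hom (I + M) (I + M)), c * g'.ct, ?_⟩
  · rw [OBox_T0, fromCols_mul_fromBlocks]
    simp only [Hm.mul_zero, add_zero, zero_add, Hm.mul_one, Hm.mul_assoc x, h1]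
    rw [h2, fromBlocks_conjTranspose, fromCols_mul_fromBlocks]
    simp
  · rw [OBox_T0, Hm.mul_assoc C, fromBlocks_multiply]
    simp only [Hm.mul_zero, Hm.zero_mul, add_zero, zero_add, Hm.mul_one, h1,
      fromBlocks_one]
    rw [h3, fromBlocks_conjTranspose, fromCols_mul_fromBlocks]
    simp

theorem OBox_sh {x φ : 𝒞.Hom I I} (h : HasBox ε x φ) (χ : 𝒞.Hom I I) :
    HasBox ε x (x * sy ε χ + φ) := by
  obtain ⟨M, θ, m, h2, C, c, h3⟩ := h
  refine ⟨M, fromBlocks χ 0 0 0 + θ, m, ?_, C,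
    C.toCols₁ * sy ε χ + c, ?_⟩
  · rw [sy_add, Hm.mul_add, h2, sy_blocks, fromCols_mul_fromBlocks, OBox_add]
    simp [sy_zero]
  · rw [sy_add, Hm.mul_add, h3, sy_blocks]
    conv_lhs => rw [← fromCols_toCols C]
    rw [fromCols_mul_fromBlocks, OBox_add]
    simp [sy_zero]

theorem OBox_sw {x φ : 𝒞.Hom I I} (h : HasBox ε x φ) {κ : O}
    {s : 𝒞.Hom κ I} (hs : s * s.ct = 1) :
    HasBox ε (x * (1 - s.ct * s) - (ε : ℤ) • (φ * (s.ct * s))) (x * (s.ct * s) + φ * (1 - s.ct * s)) := by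
  obtain ⟨M, θ, m, h2, C, c, h3⟩ := h
  have e1 : s * (1 - s.ct * s) = 0 := by
    rw [Hm.mul_sub, ← Hm.mul_assoc, hs, Hm.mul_one, Hm.one_mul, sub_self]
  have e2 : (1 - s.ct * s) * s.ct = 0 := by
    rw [Hm.sub_mul, Hm.mul_assoc, hs, Hm.mul_one, Hm.one_mul, sub_self]
  have e3 : (1 - s.ct * s) * (1 - s.ct * s) = 1 - s.ct * s := by
    rw [Hm.mul_sub (1 - s.ct * s), ← Hm.mul_assoc, e2, Hm.mul_one, Hm.zero_mul,
      sub_zero]
  have e4 : (1 - s.ct * s).ct = 1 - s.ct * s := by simp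
  have e5 : 1 - s.ct * s + s.ct * s = 1 := sub_add_cancel _ _
  generalize 1 - s.ct * s = p at *
  let T : 𝒞.Hom (I + (M + κ)) (I + M) := fromBlocks p 0 (fromRows 0 s) (fromRows 1 0)
  let γ : 𝒞.Hom (I + (M + κ)) (I + (M + κ)) := fromBlocks 0 (fromCols 0 ((ε : ℤ) • s.ct)) 0 0
  have hT : T.ct = fromBlocks p (fromCols 0 s.ct) 0 (fromCols 1 0) := by
    simp only [T, fromBlocks_conjTranspose, conjTranspose_fromRows_eq_fromCols_conjTranspose, e4,
      conjTranspose_zero, conjTranspose_one]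
  have hγ : sy ε γ = fromBlocks 0 (fromCols 0 ((ε : ℤ) • s.ct)) (fromRows 0 s) 0 := by
    simp only [γ, sy_blocks, sy_zero, conjTranspose_zero, smul_zero, add_zero, zero_add,
      conjTranspose_fromCols_eq_fromRows_conjTranspose, OBox_smul, ct_zsmul, eps_eps,
      conjTranspose_conjTranspose]
  have key : ∀ {L : O} (a : 𝒞.Hom L I) (b : 𝒞.Hom L M) (d : 𝒞.Hom L κ),
      fromCols a (fromCols b d) * T = fromCols (a * p + d * s) b := by
    intro L a b d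
    simp [T, fromCols_mul_fromBlocks, fromCols_mul_fromRows]
  have key2 : ∀ {L : O} (a : 𝒞.Hom L I) (b : 𝒞.Hom L M) (d : 𝒞.Hom L κ),
      fromCols a (fromCols b d) * sy ε γ = fromCols (d * s) (fromCols 0 ((ε : ℤ) • (a * s.ct))) := by
    intro L a b d
    simp [hγ, fromCols_mul_fromBlocks, fromCols_mul_fromRows, mul_fromCols]
  have key3 : ∀ {L : O} (a : 𝒞.Hom L I) (b : 𝒞.Hom L M),
      fromCols a b * T.ct = fromCols (a * p) (fromCols b (a * s.ct)) := by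
    intro L a b
    simp [hT, fromCols_mul_fromBlocks, mul_fromCols, OBox_add]
  have r1 : fromCols (C.toCols₁ * p) (fromCols C.toCols₂ (C.toCols₁ * s.ct)) *
      sy ε (T * θ * T.ct + γ) = fromCols (c * p + C.toCols₁ * s.ct * s) (fromCols 1 (c * s.ct)) := by
    rw [OBox_T, key, key2, Hm.mul_assoc _ p p, e3, Hm.mul_assoc _ s.ct s, ← Hm.mul_add,
      e5, Hm.mul_one, fromCols_toCols, h3, key3, OBox_add, OBox_add, Hm.mul_assoc _ p s.ct,
      e2]
    simp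
  have r2 : fromCols ((ε : ℤ) • s) (fromCols (0 : 𝒞.Hom κ M) (0 : 𝒞.Hom κ κ)) *
      sy ε (T * θ * T.ct + γ) =
      fromCols 0 (fromCols 0 1) := by
    rw [OBox_T, key, key2]
    simp only [Hm.smul_mul, e1, hs, eps_eps, smul_zero, Hm.zero_mul, add_zero,
      fromCols_zero, zero_add]
  refine ⟨M + κ, T * θ * T.ct + γ, fromCols m (x * s.ct), ?_,
    fromRows (fromCols (C.toCols₁ * p) (fromCols C.toCols₂ (C.toCols₁ * s.ct)) +
      -(c * s.ct) * fromCols ((ε : ℤ) • s) (fromCols (0 : 𝒞.Hom κ M) (0 : 𝒞.Hom κ κ)))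
      (fromCols ((ε : ℤ) • s) (fromCols 0 0)),
    fromRows (c * p + C.toCols₁ * s.ct * s) 0, ?_⟩
  · have e6 : (x * p - (ε : ℤ) • (φ * (s.ct * s))) * p + x * s.ct * s = x := by
      rw [Hm.sub_mul, Hm.smul_mul, Hm.mul_assoc x p p, e3, Hm.mul_assoc φ,
        Hm.mul_assoc s.ct, e1, Hm.mul_zero, Hm.mul_zero, smul_zero, sub_zero,
        Hm.mul_assoc, ← Hm.mul_add, e5, Hm.mul_one]
    have e7 : φ * s.ct + (ε : ℤ) • ((x * p - (ε : ℤ) • (φ * (s.ct * s))) * s.ct) = 0 := by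
      rw [Hm.sub_mul, Hm.smul_mul, Hm.mul_assoc x, e2, Hm.mul_zero, zero_sub,
        smul_neg, eps_eps, Hm.mul_assoc φ, Hm.mul_assoc s.ct, hs, Hm.mul_one,
        add_neg_cancel]
    rw [OBox_T, key, key2, e6, h2, key3, OBox_add, OBox_add, e7, add_zero, fromCols_zero,
      add_comm, Hm.mul_assoc]
  · rw [fromRows_mul, Hm.add_mul, Hm.mul_assoc (-(c * s.ct)), r1, r2, mul_fromCols,
      mul_fromCols, OBox_add, OBox_add, ← fromBlocks_one, ← fromRows_fromCols_eq_fromBlocks,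
      fromRows_fromCols_eq_fromBlocks, fromCols_fromRows_eq_fromBlocks]
    simp

theorem HasBox.gen {x φ : 𝒞.Hom I I} (h : HasBox ε x φ) {g : 𝒞.Hom (I + I) (I + I)}
    (hg : GenU (-ε) g) : HasBox ε (fromCols x φ * g).toCols₁ (fromCols x φ * g).toCols₂ := by
  cases hg with
  | gl g g' h1 h2 =>
    rw [fromCols_mul_fromBlocks, toCols₁_fromCols, toCols₂_fromCols]
    simpa using OBox_gl h h1
  | sh χ =>
    rw [fromCols_mul_fromBlocks, toCols₁_fromCols, toCols₂_fromCols]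
    simpa [sy] using OBox_sh h χ
  | sw κ s hs =>
    rw [fromCols_mul_fromBlocks, toCols₁_fromCols, toCols₂_fromCols, Units.val_neg, neg_smul,
      Hm.mul_neg, Hm.mul_smul, ← sub_eq_add_neg]
    exact OBox_sw h hs

theorem hasBox_of_mem {W : 𝒞.Hom (I + I) (I + I)} (h : W ∈ RU 𝒞 (-ε) I) :
    HasBox ε W.toBlocks₁₁ W.toBlocks₁₂ := by
  induction h using Submonoid.closure_induction_right with
  | one =>
    rw [← fromBlocks_one, toBlocks_fromBlocks₁₁, toBlocks_fromBlocks₁₂]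
    exact ⟨0, 0, 0, by simp [sy_zero], 0, 0, (from_zero _).trans (from_zero _).symm⟩
  | mul_right W _ g hg ih =>
    have := ih.gen hg
    rw [← toRows₁_eq, ← toRows₁_mul] at this
    exact this

theorem HasBox.destab {x φ : 𝒞.Hom I I}
    (h : HasBox ε (fromBlocks x 0 0 (1 : 𝒞.Hom J J)) (fromBlocks φ 0 0 (0 : 𝒞.Hom J J))) :
    HasBox ε x φ := by
  obtain ⟨M, θ, m, h2, C, c, h3⟩ := h
  have e1 : fromCols (fromBlocks x 0 0 (1 : 𝒞.Hom J J)) m =
      fromRows (fromCols (fromCols x 0) m.toRows₁) (fromCols (fromCols 0 1) m.toRows₂) := by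
    refine ext_rows ?_ ?_ <;> simp
  have e2 : fromCols (fromBlocks φ 0 0 (0 : 𝒞.Hom J J)) (0 : 𝒞.Hom (I + J) M) =
      fromRows (fromCols (fromCols φ 0) 0) 0 := by
    refine ext_rows ?_ ?_ <;> simp
  rw [e1, e2, fromRows_mul, fromRows_ext_iff] at h2
  let T : 𝒞.Hom (I + M) ((I + J) + M) := fromBlocks (fromCols 1 0) 0 0 1
  have key : ∀ {L : O} (a : 𝒞.Hom L I) (b : 𝒞.Hom L M),
      fromCols a b * T = fromCols (fromCols a 0) b := by
    intro L a b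
    simp [T, fromCols_mul_fromBlocks, mul_fromCols]
  have key2 : ∀ {L : O} (a : 𝒞.Hom L (I + J)) (b : 𝒞.Hom L M),
      fromCols a b * T.ct = fromCols a.toCols₁ b := by
    intro L a b
    conv_lhs => rw [← fromCols_toCols a]
    simp [T, fromBlocks_conjTranspose, conjTranspose_fromCols_eq_fromRows_conjTranspose,
      fromCols_mul_fromBlocks, fromCols_mul_fromRows, -fromCols_toCols]
  refine ⟨M, T * θ * T.ct, m.toRows₁, ?_,
    fromCols C.toCols₁.toCols₁ (C.toCols₂ - C.toCols₁.toCols₂ * m.toRows₂), c.toCols₁, ?_⟩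
  · rw [OBox_T0, key, h2.1, key2, toCols₁_fromCols]
  · have e3 : fromCols (fromCols C.toCols₁.toCols₁ 0)
        (C.toCols₂ - C.toCols₁.toCols₂ * m.toRows₂) =
        C - C.toCols₁.toCols₂ * fromCols (fromCols 0 1) m.toRows₂ := by
      rw [mul_fromCols, mul_fromCols, Hm.mul_zero, Hm.mul_one]
      refine ext_cols (ext_cols ?_ ?_) ?_ <;> simp
    rw [OBox_T0, key, e3, Hm.sub_mul, Hm.mul_assoc _ _ (sy ε θ), h2.2, Hm.mul_zero,
      sub_zero, h3, key2]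

theorem hasBox_upper {W : 𝒞.Hom (I + I) (I + I)} (hW : Uni (-ε) W) (h : ucl (-ε) W = 0) :
    HasBox ε W.toBlocks₁₁ W.toBlocks₁₂ := by
  obtain ⟨κ, h1⟩ := (ucl_eq_zero hW).1 h
  have h2 := hasBox_of_mem h1
  rw [dsum_eq, toBlocks_fromBlocks₁₁, toBlocks_fromBlocks₁₂, ← fromBlocks_one,
    toBlocks_fromBlocks₁₁, toBlocks_fromBlocks₁₂] at h2
  exact h2.destab

theorem hasBox_lower {W : 𝒞.Hom (I + I) (I + I)} (hW : Uni (-ε) W) (h : ucl (-ε) W = 0) :
    HasBox ε W.toBlocks₂₁ W.toBlocks₂₂ := by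
  have hg : GenU (-ε) _ := GenU.sw I (1 : 𝒞.Hom I I) (by simp)
  have h1 := hasBox_upper (hg.uni.mul hW) (by rw [ucl_mul hg.uni hW, ucl_gen hg, h, add_zero])
  rw [← fromBlocks_toBlocks W, fromBlocks_multiply, toBlocks_fromBlocks₁₁,
    toBlocks_fromBlocks₁₂] at h1
  simpa using h1

end Pool.Agent.Work.MP_9d1ffa_al.Ct
end

-- merged part: Pool.Agent.Work.MP_9d1ffa_al.Ct.SG
section
/-! Systems and boxes. -/

namespace Pool.Agent.Work.MP_9d1ffa_al.Ct

set_option linter.unusedSectionVars false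
set_option linter.unusedVariables false

variable {O : Type 1} [Add O] [Zero O] {𝒞 : SCat O} {ε η : ℤˣ} {I J K L M : O}

theorem OGlue_unit {A B : 𝒞.Hom I I} (h1 : A * B = 1) (h2 : B * A = 1) : IsUnit A :=
  ⟨⟨A, B, h1, h2⟩, rfl⟩

theorem OGlue_box {x φ : 𝒞.Hom I I} {θ : 𝒞.Hom (I + M) (I + M)} {m : 𝒞.Hom I M}
    (h : BoxD ε x φ θ m) :
    ∃ (a : 𝒞.Hom I I) (b : 𝒞.Hom I M) (c : 𝒞.Hom M I) (d : 𝒞.Hom M M)
      (C₁ : 𝒞.Hom M I) (C₂ : 𝒞.Hom M M), sy ε θ = fromBlocks a b c d ∧ x * a + m * c = φ ∧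
        x * b + m * d = 0 ∧ C₁ * b + C₂ * d = 1 := by
  obtain ⟨h1, C, c, h2⟩ := h
  rw [← fromBlocks_toBlocks (sy ε θ), fromCols_mul_fromBlocks, fromCols_ext_iff] at h1
  rw [← fromBlocks_toBlocks (sy ε θ), ← fromCols_toCols C, fromCols_mul_fromBlocks,
    fromCols_ext_iff] at h2
  exact ⟨_, _, _, _, _, _, (fromBlocks_toBlocks _).symm, h1.1, h1.2, h2.2⟩

theorem OGlue_left {s₁ y₁ u u' : 𝒞.Hom I I} {s₂ y₂ : 𝒞.Hom I M} {s₃ y₃ : 𝒞.Hom M I}
    {s₄ y₄ : 𝒞.Hom M M} (h1 : y₁ * s₁ + y₂ * s₃ = u) (h2 : y₁ * s₂ + y₂ * s₄ = 0)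
    (h3 : y₃ * s₂ + y₄ * s₄ = 1) (hu : u' * u = 1) :
    ∃ C : 𝒞.Hom (I + M) (I + M), C * fromBlocks s₁ s₂ s₃ s₄ = 1 := by
  refine ⟨fromBlocks u' 0 (-((y₃ * s₁ + y₄ * s₃) * u')) 1 * fromBlocks y₁ y₂ y₃ y₄, ?_⟩
  rw [Hm.mul_assoc, fromBlocks_multiply y₁, h1, h2, h3, fromBlocks_multiply]
  simp only [Hm.mul_zero, Hm.zero_mul, add_zero, zero_add, Hm.one_mul, hu,
    Hm.neg_mul, Hm.mul_assoc, Hm.mul_one, neg_add_cancel, fromBlocks_one]

theorem OGlue_sys (W : 𝒞.Hom (I + I) (I + I)) {θ : 𝒞.Hom (I + M) (I + M)}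
    {a : 𝒞.Hom I I} {b : 𝒞.Hom I M} {c : 𝒞.Hom M I} {d : 𝒞.Hom M M}
    (h : sy ε θ = fromBlocks a b c d) :
    sysM ε (dsum W (1 : 𝒞.Hom (M + M) (M + M))) θ =
      fromBlocks (W.toBlocks₁₁ * a - W.toBlocks₁₂) (W.toBlocks₁₁ * b) c d := by
  rw [sysM, dsum_eq, ← fromBlocks_one, h]
  simp only [toBlocks_fromBlocks₁₁, toBlocks_fromBlocks₁₂, fromBlocks_multiply, Hm.zero_mul,
    add_zero, zero_add, Hm.one_mul, sub_eq_add_neg, fromBlocks_neg, fromBlocks_add, neg_zero]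

theorem OGlue_up (X : 𝒞.Hom I M) :
    fromBlocks (1 : 𝒞.Hom I I) X 0 (1 : 𝒞.Hom M M) * fromBlocks 1 (-X) 0 1 = 1 ∧
      fromBlocks (1 : 𝒞.Hom I I) (-X) 0 (1 : 𝒞.Hom M M) * fromBlocks 1 X 0 1 = 1 := by
  constructor <;> simp [fromBlocks_multiply]

theorem OGlue_low (X : 𝒞.Hom M I) :
    fromBlocks (1 : 𝒞.Hom I I) 0 X (1 : 𝒞.Hom M M) * fromBlocks 1 0 (-X) 1 = 1 ∧
      fromBlocks (1 : 𝒞.Hom I I) 0 (-X) (1 : 𝒞.Hom M M) * fromBlocks 1 0 X 1 = 1 := by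
  constructor <;> simp [fromBlocks_multiply]

theorem OGlue_conj (X : 𝒞.Hom I M) (a : 𝒞.Hom I I) (b : 𝒞.Hom I M) (c : 𝒞.Hom M I)
    (d : 𝒞.Hom M M) :
    fromBlocks (1 : 𝒞.Hom I I) X 0 (1 : 𝒞.Hom M M) * fromBlocks a b c d *
      (fromBlocks (1 : 𝒞.Hom I I) X 0 (1 : 𝒞.Hom M M)).ct =
      fromBlocks (a + X * c + (b + X * d) * X.ct) (b + X * d) (c + d * X.ct) d := by
  simp only [fromBlocks_conjTranspose, fromBlocks_multiply, conjTranspose_one, conjTranspose_zero,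
    Hm.mul_zero, Hm.zero_mul, zero_add, Hm.one_mul, Hm.mul_one]

theorem BoxD.sys {W : 𝒞.Hom (I + I) (I + I)} (hW : Uni (-ε) W)
    {θ : 𝒞.Hom (I + M) (I + M)} {m : 𝒞.Hom I M}
    (h : BoxD ε W.toBlocks₂₁ W.toBlocks₂₂ θ m) :
    IsUnit (sysM ε (dsum W (1 : 𝒞.Hom (M + M) (M + M))) θ) := by
  obtain ⟨a, b, c, d, C₁, C₂, e, h1, h2, h3⟩ := OGlue_box h
  obtain ⟨V, -, -, hV⟩ := hW.inv
  rw [← fromBlocks_toBlocks V, ← fromBlocks_toBlocks W, fromBlocks_multiply, ← fromBlocks_one,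
    fromBlocks_inj] at hV
  obtain ⟨v1, v2, v3, v4⟩ := hV
  have w1 : V.toBlocks₁₁ * W.toBlocks₁₁ = 1 - V.toBlocks₁₂ * W.toBlocks₂₁ := eq_sub_of_add_eq v1
  have w3 : V.toBlocks₂₁ * W.toBlocks₁₁ = -(V.toBlocks₂₂ * W.toBlocks₂₁) :=
    eq_neg_of_add_eq_zero_left v3
  have k1 : m * c = W.toBlocks₂₂ - W.toBlocks₂₁ * a := eq_sub_of_add_eq' h1
  have k2 : m * d = -(W.toBlocks₂₁ * b) := eq_neg_of_add_eq_zero_right h2
  obtain ⟨C, hC⟩ := OGlue_left (s₁ := W.toBlocks₁₁ * a - W.toBlocks₁₂) (s₂ := W.toBlocks₁₁ * b)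
    (s₃ := c) (s₄ := d) (y₁ := V.toBlocks₂₁) (y₂ := -(V.toBlocks₂₂ * m))
    (y₃ := C₁ * V.toBlocks₁₁) (y₄ := C₂ - C₁ * V.toBlocks₁₂ * m) (u := -1) (u' := -1)
    (by
      rw [← v4, Hm.mul_sub, ← Hm.mul_assoc, w3, Hm.neg_mul, Hm.neg_mul,
        Hm.mul_assoc _ m, k1, Hm.mul_sub, Hm.mul_assoc]
      abel)
    (by
      rw [← Hm.mul_assoc, w3, Hm.neg_mul, Hm.neg_mul, Hm.mul_assoc _ m, k2,
        Hm.mul_neg, Hm.mul_assoc]
      abel)
    (by
      rw [← h3, Hm.mul_assoc C₁, ← Hm.mul_assoc V.toBlocks₁₁, w1, Hm.sub_mul,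
        Hm.sub_mul, Hm.mul_assoc _ m, k2, Hm.one_mul, Hm.mul_sub, Hm.mul_neg,
        Hm.mul_assoc, Hm.mul_assoc]
      abel)
    (by simp)
  refine sys_unit (hW.dsum uni_one) (C := C) ?_
  rw [OGlue_sys W e, hC]

theorem exists_sys {W : 𝒞.Hom (I + I) (I + I)} (hW : Uni (-ε) W) (h : ucl (-ε) W = 0) :
    ∃ (M : O) (θ : 𝒞.Hom (I + M) (I + M)),
      IsUnit (sysM ε (dsum W (1 : 𝒞.Hom (M + M) (M + M))) θ) := by
  obtain ⟨M, θ, m, hb⟩ := hasBox_lower hW h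
  exact ⟨M, θ, hb.sys hW⟩

theorem BoxD.glue {W : 𝒞.Hom (I + I) (I + I)} {ψ : 𝒞.Hom I I} (hψ : IsUnit (sysM ε W ψ))
    {β : 𝒞.Hom (I + M) (I + M)} {m : 𝒞.Hom I M}
    (h : BoxD ε W.toBlocks₁₁ W.toBlocks₁₂ β m) : NS ε (fromBlocks ψ 0 0 0 - β) := by
  obtain ⟨a, b, c, d, C₁, C₂, e, h1, h2, h3⟩ := OGlue_box h
  obtain ⟨u, hu⟩ := hψ.exists_left_inv
  obtain ⟨C, hC⟩ := OGlue_left (s₁ := sy ε ψ - a) (s₂ := -b) (s₃ := -c) (s₄ := -d)
    (y₁ := W.toBlocks₁₁) (y₂ := m) (y₃ := -C₁) (y₄ := -C₂) (u := sysM ε W ψ) (u' := u)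
    (by
      rw [sysM, ← h1, Hm.mul_sub, Hm.mul_neg]
      abel)
    (by rw [Hm.mul_neg, Hm.mul_neg, ← neg_add, h2, neg_zero])
    (by rw [Hm.neg_mul, Hm.neg_mul, Hm.mul_neg, Hm.mul_neg, neg_neg, neg_neg, h3])
    hu
  refine ns_of_left (C := C) ?_
  rw [sub_eq_add_neg, sy_add, sy_neg, e, sy_blocks, sy_zero, fromBlocks_neg, fromBlocks_add, ← hC]
  simp only [conjTranspose_zero, smul_zero, add_zero, zero_add, sub_eq_add_neg]

theorem BoxD.triv {β : 𝒞.Hom (I + M) (I + M)} {m : 𝒞.Hom I M} (h : BoxD ε 1 0 β m) :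
    NS ε β.toBlocks₂₂ ∧ ∃ D : 𝒞.Hom I I, sy ε D = 0 ∧ ∀ ψ : 𝒞.Hom I I,
      Iso ε (fromBlocks ψ 0 0 0 - β) (fromBlocks (ψ - D) 0 0 (-β.toBlocks₂₂)) := by
  obtain ⟨a, b, c, d, C₁, C₂, e, h1, h2, h3⟩ := OGlue_box h
  rw [Hm.one_mul] at h1 h2
  have e1 := sy_conj (ε := ε) (fromBlocks (1 : 𝒞.Hom I I) m 0 (1 : 𝒞.Hom M M)) β
  rw [e, OGlue_conj, h1, h2, ← fromBlocks_toBlocks β, OGlue_conj, sy_blocks, fromBlocks_inj] at e1
  obtain ⟨f1, f2, _, f4⟩ := e1
  rw [Hm.zero_mul, add_zero] at f1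
  refine ⟨ns_of_left (C := C₂ - C₁ * m) ?_, _, f1, fun ψ => ?_⟩
  · rw [f4, ← h3, eq_neg_of_add_eq_zero_left h2, Hm.sub_mul, Hm.mul_neg, Hm.mul_assoc]
    abel
  · refine (iso_conj _ (OGlue_up m).1 (OGlue_up m).2).trans (Iso.of_eqv ?_)
    rw [Hm.mul_sub, Hm.sub_mul, OGlue_conj]
    conv_lhs => rw [← fromBlocks_toBlocks β, OGlue_conj]
    rw [sub_eq_add_neg, fromBlocks_neg, fromBlocks_add]
    refine eqv_blocks (Eqv.of_eq ?_) (Eqv.of_eq ?_) ?_
    · simp only [Hm.mul_zero, Hm.zero_mul, add_zero, sub_eq_add_neg]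
    · rw [zero_add]
    · simp only [Hm.mul_zero, Hm.zero_mul, add_zero, zero_add, conjTranspose_zero,
        smul_zero, conjTranspose_neg, smul_neg]
      rw [← neg_add, f2, neg_zero]

/-- block sums of systems -/
theorem sysM_dsum (W : 𝒞.Hom (I + I) (I + I)) (W' : 𝒞.Hom (J + J) (J + J))
    (ψ : 𝒞.Hom I I) (ψ' : 𝒞.Hom J J) :
    sysM ε (dsum W W') (fromBlocks ψ 0 0 ψ') = fromBlocks (sysM ε W ψ) 0 0 (sysM ε W' ψ') := by
  rw [sysM, dsum_eq, sy_blocks]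
  simp only [sysM, toBlocks_fromBlocks₁₁, toBlocks_fromBlocks₁₂, fromBlocks_multiply,
    Hm.zero_mul, Hm.mul_zero, add_zero, zero_add, sub_eq_add_neg, fromBlocks_neg,
    fromBlocks_add, neg_zero, conjTranspose_zero, smul_zero]

theorem sysM_eqv (W : 𝒞.Hom (I + I) (I + I)) {ψ ψ' : 𝒞.Hom I I} (h : Eqv ε ψ ψ') :
    sysM ε W ψ = sysM ε W ψ' := by
  rw [sysM, sysM, h.sy_eq]

/-- adding new variables does not change the solvability of a system -/
theorem sys_ext {W : 𝒞.Hom (I + I) (I + I)} {ψ : 𝒞.Hom I I} (h : IsUnit (sysM ε W ψ))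
    {κ : 𝒞.Hom M M} (hκ : NS ε κ) (X : 𝒞.Hom I M) :
    IsUnit (sysM ε (dsum W (1 : 𝒞.Hom (M + M) (M + M)))
      (fromBlocks (ψ + X * κ * X.ct) (X * κ) (κ * X.ct) κ)) := by
  have e1 := sy_conj (ε := ε) (fromBlocks (1 : 𝒞.Hom I I) X 0 (1 : 𝒞.Hom M M))
    (fromBlocks ψ 0 0 κ)
  rw [OGlue_conj, sy_blocks ψ, OGlue_conj] at e1
  simp only [Hm.mul_zero, add_zero, zero_add, conjTranspose_zero, smul_zero] at e1
  obtain ⟨u, hu⟩ := h
  obtain ⟨k, hk⟩ := hκ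
  have hd : IsUnit (fromBlocks (sysM ε W ψ) 0 0 (sy ε κ)) := by
    rw [← hu, ← hk]
    refine OGlue_unit (B := fromBlocks (↑u⁻¹ : 𝒞.Hom I I) 0 0 (↑k⁻¹ : 𝒞.Hom M M)) ?_ ?_ <;>
      simp only [fromBlocks_multiply, Hm.mul_zero, Hm.zero_mul, add_zero, zero_add,
        Units.mul_inv, Units.inv_mul, fromBlocks_one]
  have hp := ((OGlue_unit (OGlue_up (W.toBlocks₁₁ * X)).1 (OGlue_up _).2).mul hd).mul
    (OGlue_unit (OGlue_low X.ct).1 (OGlue_low _).2)
  rw [OGlue_sys W e1]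
  convert hp using 1
  simp only [sysM, fromBlocks_multiply, Hm.mul_zero, Hm.zero_mul, add_zero, zero_add,
    Hm.one_mul, Hm.mul_one, Hm.mul_add, Hm.mul_assoc]
  congr 1
  abel

theorem iso_ext (ψ : 𝒞.Hom I I) (κ : 𝒞.Hom M M) (X : 𝒞.Hom I M) :
    Iso ε (fromBlocks ψ 0 0 κ) (fromBlocks (ψ + X * κ * X.ct) (X * κ) (κ * X.ct) κ) := by
  have h := iso_conj (ε := ε) (fromBlocks ψ 0 0 κ) (OGlue_up X).1 (OGlue_up X).2
  rw [OGlue_conj] at h
  simpa only [Hm.mul_zero, add_zero, zero_add] using h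

end Pool.Agent.Work.MP_9d1ffa_al.Ct
end
end
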