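import Pool.Agent.Work.MP_9d1ffa_al.WDefs

/-! The obstruction category of a group acting on the simplex of finitely supported probability
measures on a set, and the vanishing of its even Wall groups. -/

namespace Pool.Agent.Work.MP_9d1ffa_al

open Matrix

/-- the `ℓ¹` norm -/
noncomputable def l1 {X : Type} (μ : X →₀ ℝ) : ℝ := μ.sum fun _ r => |r|

/-- a basis whose elements have a height, with finitely many elements below each height, and a
position, a probability measure on a fixed finite subset of `X` -/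
structure Ob (X : Type) : Type 1 where
  I : Type
  t : I → ℕ
  x : I → X →₀ ℝ
  fin : ∀ n, {i | t i ≤ n}.Finite
  pos : ∀ i y, 0 ≤ x i y
  tot : ∀ i, l1 (x i) = 1
  cpt : ∃ F : Finset X, ∀ i, ∀ y ∈ (x i).support, y ∈ F

variable {X : Type}

theorem Ob.sum_fin (a b : Ob X) (n : ℕ) : {i | Sum.elim a.t b.t i ≤ n}.Finite :=
  (((a.fin n).image Sum.inl).union ((b.fin n).image Sum.inr)).subset fun i h => by
    rcases i with i | i
    exacts [Or.inl ⟨i, h, rfl⟩, Or.inr ⟨i, h, rfl⟩]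

theorem Ob.sum_cpt (a b : Ob X) :
    ∃ F : Finset X, ∀ i, ∀ y ∈ (Sum.elim a.x b.x i).support, y ∈ F := by
  classical
  obtain ⟨F, h⟩ := a.cpt
  obtain ⟨F', h'⟩ := b.cpt
  exact ⟨F ∪ F', Sum.rec (fun i y k => Finset.mem_union_left _ (h i y k))
    fun i y k => Finset.mem_union_right _ (h' i y k)⟩

/-- the direct sum -/
def Ob.sum (a b : Ob X) : Ob X :=
  ⟨a.I ⊕ b.I, Sum.elim a.t b.t, Sum.elim a.x b.x, a.sum_fin b, Sum.rec a.pos b.pos,
    Sum.rec a.tot b.tot, a.sum_cpt b⟩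

variable {G : Type} [Group G]

/-- a controlled matrix: finitely many group elements occur, heights change by a bounded amount,
and positions change by an amount that tends to zero with the height -/
def Ctl (ρ : G →* Equiv.Perm X) (a b : Ob X) (A : Matrix a.I b.I (ZG G)) : Prop :=
  (∃ S : Finset G, ∀ i j g, (A i j).coeff g ≠ 0 → g ∈ S) ∧
  (∃ c : ℕ, ∀ i j, A i j ≠ 0 → a.t i ≤ b.t j + c ∧ b.t j ≤ a.t i + c) ∧
  ∀ δ : ℝ, 0 < δ → ∃ n : ℕ, ∀ i j g, n ≤ a.t i → (A i j).coeff g ≠ 0 →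
    l1 (a.x i - (b.x j).mapDomain (ρ g)) ≤ δ

/-- the product of matrices with finite rows -/
noncomputable def cmul {I J K : Type} (A : Matrix I J (ZG G)) (B : Matrix J K (ZG G)) :
    Matrix I K (ZG G) := Matrix.of fun i k => ∑ᶠ j, A i j * B j k

open Classical in
/-- the controlled form `ψ` is stably hyperbolic in the category of controlled matrices -/
def HypC (ρ : G →* Equiv.Perm X) (ε : ℤˣ) (a : Ob X) (ψ : Matrix a.I a.I (ZG G)) : Prop :=
  ∃ (k l : Ob X) (g : Matrix (l.I ⊕ l.I) (a.I ⊕ (k.I ⊕ k.I)) (ZG G))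
    (g' : Matrix (a.I ⊕ (k.I ⊕ k.I)) (l.I ⊕ l.I) (ZG G))
    (χ : Matrix (l.I ⊕ l.I) (l.I ⊕ l.I) (ZG G)),
    Ctl ρ (l.sum l) (a.sum (k.sum k)) g ∧ Ctl ρ (a.sum (k.sum k)) (l.sum l) g' ∧
      Ctl ρ (l.sum l) (l.sum l) χ ∧ cmul g g' = 1 ∧ cmul g' g = 1 ∧
      cmul (cmul g (fromBlocks ψ 0 0 (hypF (ZG G) k.I))) (ct g) =
        hypF (ZG G) l.I + χ - (ε : ℤ) • ct χ

open Classical in
/-- for every free action of `G`, all even Wall groups of all Laurent extensions of the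
obstruction category vanish -/
def Van (G : Type) [Group G] : Prop :=
  ∀ (X : Type) (ρ : G →* Equiv.Perm X), (∀ g y, ρ g y = y → g = 1) →
    ∀ (n : ℕ) (ε : ℤˣ) (a : Ob X) (ψ μ : Matrix a.I a.I (ZG (G × Multiplicative (Fin n → ℤ)))),
      Ctl (ρ.comp (MonoidHom.fst _ _)) a a ψ → Ctl (ρ.comp (MonoidHom.fst _ _)) a a μ →
      cmul (symF ε ψ) μ = 1 → cmul μ (symF ε ψ) = 1 → HypC (ρ.comp (MonoidHom.fst _ _)) ε a ψ

end Pool.Agent.Work.MP_9d1ffa_al
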