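import Pool.Agent.Work.MP_9d1ffa_al.Ct.CC
import Pool.Agent.Work.MP_9d1ffa_al.Geo
import Pool.Agent.Work.MP_9d1ffa_al.Walls
import Pool.Agent.Work.MP_9d1ffa_al.VFin

-- merged part: Pool.Agent.Work.MP_9d1ffa_al.Ct.BSw
section
/-! The Eilenberg swindle. -/

namespace Pool.Agent.Work.MP_9d1ffa_al.Ct

open MonoidAlgebra

set_option linter.unusedSectionVars false
set_option linter.unusedVariables false

section Alg

variable {O : Type 1} [Add O] [Zero O] {𝒞 : SCat O} {ε : ℤˣ}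

/-- a functor that absorbs the identity functor -/
structure Flq (𝒞 : SCat O) where
  S : Fn 𝒞 𝒞
  u : ∀ a, 𝒞.Hom (S.ob a) (a + S.ob a)
  unt : ∀ a, Unt (u a)
  nat : ∀ {a b : O} (x : 𝒞.Hom a b), u a * fromBlocks x 0 0 (S.map x) = S.map x * u b

theorem BSw_zsmul {O' : Type 1} [Add O'] [Zero O'] {𝒟 : SCat O'} (F : Fn 𝒞 𝒟) {a b : O} (n : ℤ)
    (x : 𝒞.Hom a b) : F.map (n • x) = n • F.map x :=
  map_zsmul (AddMonoidHom.mk' (F.map (a := a) (b := b)) F.map_add) n x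

theorem Flq.conj (F : Flq 𝒞) {a : O} (x : 𝒞.Hom a a) :
    F.u a * fromBlocks x 0 0 (F.S.map x) * (F.u a).ct = F.S.map x := by
  rw [F.nat, Hm.mul_assoc, (F.unt a).1, Hm.mul_one]

theorem Flq.van0 (F : Flq 𝒞) (ε : ℤˣ) : Van0 𝒞 ε := fun I ψ h => by
  obtain ⟨μ, h1, h2⟩ := h.inv
  have e : sy ε (F.S.map ψ) = F.S.map (sy ε ψ) := by
    rw [sy, sy, F.S.map_add, BSw_zsmul, F.S.map_ct]
  have n : NS ε (F.S.map ψ) :=
    OL0_ns (μ := F.S.map μ) (by rw [e, ← F.S.map_mul, h1, F.S.map_one])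
      (by rw [e, ← F.S.map_mul, h2, F.S.map_one])
  have z := z_sum_neg n
  exact (Z.iso (((UZ_re (F.unt I) (F.conj ψ)).symm.sum (Iso.refl _)).trans
    (UZ_assoc _ _ _).symm) z).cancel z

theorem Flq.sfi (F : Flq 𝒞) : SFI 𝒞 := fun I E h => by
  obtain ⟨P, hP⟩ : ∃ P, P = F.S.map E := ⟨_, rfl⟩
  have hPP : P * P = P := by rw [hP, ← F.S.map_mul, h]
  have n1 : P * F.u I = F.u I * fromBlocks E 0 0 P := by rw [hP, F.nat]
  have n2 : (F.u I).ct * P = fromBlocks E 0 0 P * (F.u I).ct := by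
    rw [← Hm.mul_one ((F.u I).ct * P), ← (F.unt I).1, ← Hm.mul_assoc, Hm.mul_assoc _ P, n1,
      ← Hm.mul_assoc, (F.unt I).2, Hm.one_mul]
  have p1 : P * (1 - P) = 0 := by rw [Hm.mul_sub, Hm.mul_one, hPP, sub_self]
  have p2 : (1 - P) * P = 0 := by rw [Hm.sub_mul, Hm.one_mul, hPP, sub_self]
  have p3 : (1 - P) * (1 - P) = 1 - P := by rw [Hm.sub_mul, Hm.one_mul, p1, sub_zero]
  refine ⟨F.S.ob I, F.S.ob I, P * F.u I + fromCols 0 (1 - P),
    (F.u I).ct * P + fromRows 0 (1 - P), ?_, ?_⟩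
  · have a1 : P * F.u I * ((F.u I).ct * P) = P := by
      rw [Hm.mul_assoc, ← Hm.mul_assoc (F.u I), (F.unt I).1, Hm.one_mul, hPP]
    have a2 : P * F.u I * fromRows (0 : 𝒞.Hom I _) (1 - P) = 0 := by
      rw [n1, Hm.mul_assoc, fromBlocks_mul_fromRows]
      simp [p1]
    have a3 : fromCols (0 : 𝒞.Hom _ I) (1 - P) * ((F.u I).ct * P) = 0 := by
      rw [n2, ← Hm.mul_assoc, fromCols_mul_fromBlocks]
      simp [p2]
    rw [Hm.add_mul, Hm.mul_add, Hm.mul_add, a1, a2, a3, fromCols_mul_fromRows, p3]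
    simp
  · have a1 : (F.u I).ct * P * (P * F.u I) = fromBlocks E 0 0 P := by
      rw [Hm.mul_assoc, ← Hm.mul_assoc P, hPP, n1, ← Hm.mul_assoc, (F.unt I).2, Hm.one_mul]
    have a2 : (F.u I).ct * P * fromCols (0 : 𝒞.Hom _ I) (1 - P) = 0 := by
      rw [Hm.mul_assoc, mul_fromCols, p1]
      simp
    have a3 : fromRows 0 (1 - P) * (P * F.u I) = (0 : 𝒞.Hom (I + F.S.ob I) (I + F.S.ob I)) := by
      rw [← Hm.mul_assoc, fromRows_mul, p2]
      simp
    rw [Hm.add_mul, Hm.mul_add, Hm.mul_add, a1, a2, a3, fromRows_mul_fromCols, p3]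
    simp [fromBlocks_add]

/-- absorbing objects give stable isomorphisms -/
theorem stab_of_absorb (h : ∀ a : O, ∃ (b : O) (u : 𝒞.Hom b (a + b)), Unt u) : Stab 𝒞 := by
  intro a b
  obtain ⟨a', u, hu⟩ := h a
  obtain ⟨b', v, hv⟩ := h b
  have k1 := unt_assoc.mul ((hu.ct.sum (unt_one (𝒞 := 𝒞) (I := b'))))
  have k2 := unt_assoc.mul ((hv.ct.sum (unt_one (𝒞 := 𝒞) (I := a'))))
  exact ⟨a' + b', _, (k1.mul unt_comm).mul (k2.ct.mul (unt_one.sum unt_comm))⟩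

end Alg

variable {X G : Type} [Group G] {ρ : G →* Equiv.Perm X}

/-- the weight of the original position -/
noncomputable def BSw_w (t n : ℕ) : ℝ := ((t : ℝ) + 1) / ((t : ℝ) + n + 1)

theorem BSw_w0 (t n : ℕ) : 0 ≤ BSw_w t n := by unfold BSw_w; positivity

theorem BSw_w1 (t n : ℕ) : BSw_w t n ≤ 1 := by
  unfold BSw_w
  rw [div_le_one (by positivity)]
  have : (0 : ℝ) ≤ n := by positivity
  linarith

theorem BSw_wz (t : ℕ) : BSw_w t 0 = 1 := by
  unfold BSw_w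
  rw [Nat.cast_zero, add_zero, div_self (by positivity)]

theorem BSw_step (t n : ℕ) : |BSw_w t (n + 1) - BSw_w t n| ≤ 1 / ((t : ℝ) + (n + 1 : ℕ) + 1) := by
  have h := BSw_w1 t n
  have h0 := BSw_w0 t n
  have e : BSw_w t (n + 1) - BSw_w t n = -(BSw_w t n / ((t : ℝ) + (n + 1 : ℕ) + 1)) := by
    unfold BSw_w
    push_cast
    field_simp
    ring
  rw [e, abs_neg, abs_of_nonneg (by positivity)]
  exact div_le_div_of_nonneg_right h (by positivity)

theorem BSw_diff {t s c : ℕ} (n : ℕ) (h1 : t ≤ s + c) (h2 : s ≤ t + c) :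
    |BSw_w t n - BSw_w s n| ≤ c / ((t : ℝ) + n + 1) := by
  have e : BSw_w t n - BSw_w s n =
      ((t : ℝ) - s) / ((t : ℝ) + n + 1) * (n / ((s : ℝ) + n + 1)) := by
    unfold BSw_w
    field_simp
    ring
  have a1 : |(t : ℝ) - s| ≤ c := by
    have b1 : (t : ℝ) ≤ s + c := by exact_mod_cast h1
    have b2 : (s : ℝ) ≤ t + c := by exact_mod_cast h2
    rw [abs_le]
    constructor <;> linarith
  have a2 : (n : ℝ) / ((s : ℝ) + n + 1) ≤ 1 := by
    rw [div_le_one (by positivity)]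
    have : (0 : ℝ) ≤ s := by positivity
    linarith
  rw [e, abs_mul, abs_div, abs_of_nonneg (a := (n : ℝ) / _) (by positivity),
    abs_of_nonneg (a := (t : ℝ) + n + 1) (by positivity)]
  calc _ ≤ |(t : ℝ) - s| / ((t : ℝ) + n + 1) * 1 := by gcongr
    _ ≤ _ := by rw [mul_one]; gcongr

theorem BSw_small (C : ℝ) {δ : ℝ} (hδ : 0 < δ) :
    ∃ N : ℕ, ∀ t n : ℕ, N ≤ t + n → C / ((t : ℝ) + n + 1) ≤ δ := by
  obtain ⟨N, hN⟩ := exists_nat_ge (C / δ)
  refine ⟨N, fun t n h => ?_⟩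
  have : (N : ℝ) ≤ t + n := by exact_mod_cast h
  rw [div_le_iff₀ (by positivity)]
  rw [div_le_iff₀ hδ] at hN
  nlinarith

/-- the sum of all shifts of an object, moved slowly along the map `φ` -/
noncomputable def swO (φ : X → X) (a : Ob X) : Ob X where
  I := a.I × ℕ
  t p := a.t p.1 + p.2
  x p := BSw_w (a.t p.1) p.2 • a.x p.1 + (1 - BSw_w (a.t p.1) p.2) • (a.x p.1).mapDomain φ
  fin n := ((a.fin n).prod (Set.finite_Iic n)).subset fun p (hp : a.t p.1 + p.2 ≤ n) =>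
    ⟨show a.t p.1 ≤ n by omega, show p.2 ≤ n by omega⟩
  pos p y := add_nonneg (mul_nonneg (BSw_w0 _ _) (a.pos _ y))
    (mul_nonneg (sub_nonneg.2 (BSw_w1 _ _)) (mapDomain_pos φ (a.pos _) y))
  tot p := by
    rw [l1_add_pos (fun y => mul_nonneg (BSw_w0 _ _) (a.pos _ y))
      fun y => mul_nonneg (sub_nonneg.2 (BSw_w1 _ _)) (mapDomain_pos φ (a.pos _) y), l1_smul,
      l1_smul, l1_mapDomain_pos φ (a.pos _), a.tot, abs_of_nonneg (BSw_w0 _ _),
      abs_of_nonneg (sub_nonneg.2 (BSw_w1 _ _))]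
    ring
  cpt := by
    classical
    obtain ⟨F, hF⟩ := a.cpt
    refine ⟨F ∪ F.image φ, fun p y hy => Finset.mem_union.2 ?_⟩
    rcases Finset.mem_union.1 (Finsupp.support_add hy) with h | h
    · exact Or.inl (hF _ y (Finsupp.support_smul h))
    · obtain ⟨z, k, rfl⟩ := Finset.mem_image.1 (Finsupp.mapDomain_support (Finsupp.support_smul h))
      exact Or.inr (Finset.mem_image_of_mem _ (hF _ z k))

/-- the shift -/
def swE {I : Type} : I × ℕ → I ⊕ I × ℕ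
  | (i, 0) => Sum.inl i
  | (i, n + 1) => Sum.inr (i, n)

theorem swE_bij {I : Type} : Function.Bijective (swE : I × ℕ → I ⊕ I × ℕ) := by
  constructor
  · rintro ⟨i, _ | n⟩ ⟨j, _ | m⟩ h <;> simp_all [swE]
  · rintro (i | ⟨i, n⟩)
    exacts [⟨(i, 0), rfl⟩, ⟨(i, n + 1), rfl⟩]

theorem BSw_two {a b : Ob X} (i : a.I) (j : b.I) : l1 (a.x i - b.x j) ≤ 2 := by
  rw [sub_eq_add_neg]
  refine (l1_add_le _ _).trans ?_
  rw [l1_neg, a.tot, b.tot]
  norm_num

/-- the shift as a morphism -/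
noncomputable def swU (ρ : G →* Equiv.Perm X) (φ : X → X) (a : Ob X) :
    (OC ρ).Hom (swO φ a) (a + swO φ a) :=
  mk (pmM swE fun _ => 1) (ctl_pmM (a := swO φ a) (b := a + swO φ a) swE _
    ⟨{1}, fun _ => Finset.mem_singleton_self _⟩ ⟨1, by
      rintro ⟨i, _ | n⟩
      · exact ⟨show a.t i + 0 ≤ a.t i + 1 by omega, show a.t i ≤ a.t i + 0 + 1 by omega⟩
      · exact ⟨show a.t i + (n + 1) ≤ a.t i + n + 1 by omega,
          show a.t i + n ≤ a.t i + (n + 1) + 1 by omega⟩⟩ fun δ hδ => by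
    obtain ⟨N, hN⟩ := BSw_small 2 hδ
    refine ⟨N, ?_⟩
    rintro ⟨i, _ | n⟩ hi <;> rw [mapDomain_rho_one]
    · have : (swO φ a).x (i, 0) = a.x i := by simp [swO, BSw_wz]
      rw [this]
      change l1 (a.x i - a.x i) ≤ δ
      rw [sub_self, l1_zero]
      exact hδ.le
    · have e : (swO φ a).x (i, n + 1) - (swO φ a).x (i, n) =
          (BSw_w (a.t i) (n + 1) - BSw_w (a.t i) n) • (a.x i - (push φ a).x i) := by
        simp only [swO, push]
        module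
      change l1 ((swO φ a).x (i, n + 1) - (swO φ a).x (i, n)) ≤ δ
      rw [e, l1_smul]
      refine le_trans ?_ (hN (a.t i) (n + 1) hi)
      exact (mul_le_mul (BSw_step _ _) (BSw_two (b := push φ a) i i) (l1_nonneg _)
        (by positivity)).trans_eq (by ring))

theorem unt_swU (φ : X → X) (a : Ob X) : Unt (swU ρ φ a) :=
  ⟨val_inj (@pmM_mul_ct _ _ _ _ (fun _ _ => Classical.propDecidable _) _ swE_bij.1 _),
    val_inj (@pmM_ct_mul _ _ _ _ (fun _ _ => Classical.propDecidable _) _ swE_bij _)⟩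

theorem stab_oc (ρ : G →* Equiv.Perm X) : Stab (OC ρ) :=
  stab_of_absorb fun a => ⟨_, _, unt_swU id a⟩

/-- the sum of all shifts of a matrix -/
def swM {I J R : Type} [Zero R] (A : Matrix I J R) : Matrix (I × ℕ) (J × ℕ) R :=
  Matrix.of fun p q => if p.2 = q.2 then A p.1 q.1 else 0

theorem BSw_ne {I J : Type} {A : Matrix I J (ZG G)} {p : I × ℕ} {q : J × ℕ} {g : G}
    (h : (swM A p q).coeff g ≠ 0) : p.2 = q.2 ∧ (A p.1 q.1).coeff g ≠ 0 := by
  by_cases e : p.2 = q.2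
  · exact ⟨e, by simpa [swM, e] using h⟩
  · simp [swM, e] at h

theorem BSw_const (y : X) (a : Ob X) (i : a.I) :
    (a.x i).mapDomain (fun _ => y) = Finsupp.single y 1 := by
  rw [← a.tot i, CL_pos (a.pos i), Finsupp.mapDomain, Finsupp.sum, Finsupp.sum,
    Finsupp.single_finsetSum]

theorem ctl_swM (h : ∀ g, ρ g = 1) (y : X) {a b : Ob X} {A : Matrix a.I b.I (ZG G)}
    (hA : Ctl ρ a b A) : Ctl ρ (swO (fun _ => y) a) (swO (fun _ => y) b) (swM A) := by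
  obtain ⟨⟨S, h1⟩, ⟨c, h2⟩, h3⟩ := hA
  have hm : ∀ (g : G) (μ : X →₀ ℝ), μ.mapDomain (ρ g) = μ := fun g μ => by
    rw [h]
    exact Finsupp.mapDomain_id
  refine ⟨⟨S, fun p q g e => h1 _ _ g (BSw_ne e).2⟩, ⟨c, fun p q e => ?_⟩, fun δ hδ => ?_⟩
  · obtain ⟨g, hg⟩ := CA_ne.1 e
    have := h2 _ _ (CA_ne.2 ⟨g, (BSw_ne hg).2⟩)
    have := (BSw_ne hg).1
    simp only [swO]
    omega
  · obtain ⟨n₀, hn⟩ := h3 (δ / 3) (by positivity)
    obtain ⟨N, hN⟩ := BSw_small (2 * n₀ + 2 * c) (δ := δ / 3) (by positivity)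
    refine ⟨N, ?_⟩
    rintro ⟨i, n⟩ ⟨j, m⟩ g hi e
    obtain ⟨rfl, e'⟩ : n = m ∧ (A i j).coeff g ≠ 0 := BSw_ne e
    have hc := h2 _ _ (CA_ne.2 ⟨g, e'⟩)
    have k1 := hN (a.t i) n hi
    have k2 := BSw_diff n hc.1 hc.2
    have e1 : (swO (fun _ => y) a).x (i, n) - (swO (fun _ => y) b).x (j, n) =
        BSw_w (a.t i) n • (a.x i - b.x j) + (BSw_w (a.t i) n - BSw_w (b.t j) n) •
          (b.x j - (push (fun _ => y) b).x j) := by
      simp only [swO, push, BSw_const]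
      module
    have k3 : BSw_w (a.t i) n * l1 (a.x i - b.x j) ≤ δ / 3 + 2 * n₀ / ((a.t i : ℝ) + n + 1) := by
      by_cases ht : n₀ ≤ a.t i
      · have := hn i j g ht e'
        rw [hm] at this
        have k4 := mul_le_mul (BSw_w1 (a.t i) n) this (l1_nonneg _) zero_le_one
        have : (0 : ℝ) ≤ 2 * n₀ / ((a.t i : ℝ) + n + 1) := by positivity
        linarith
      · have k4 : BSw_w (a.t i) n ≤ n₀ / ((a.t i : ℝ) + n + 1) := by
          have : (a.t i : ℝ) + 1 ≤ n₀ := by exact_mod_cast not_le.1 ht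
          unfold BSw_w
          gcongr
        have k5 := mul_le_mul k4 (BSw_two i j) (l1_nonneg _) (by positivity)
        have : 2 * (n₀ : ℝ) / ((a.t i : ℝ) + n + 1) = n₀ / ((a.t i : ℝ) + n + 1) * 2 := by ring
        linarith
    have k6 := mul_le_mul k2 (BSw_two (b := push (fun _ => y) b) j j) (l1_nonneg _)
      (by positivity)
    rw [hm, e1]
    refine (l1_add_le _ _).trans ?_
    rw [l1_smul, l1_smul, abs_of_nonneg (BSw_w0 _ _)]
    have : (2 * (n₀ : ℝ) + 2 * c) / ((a.t i : ℝ) + n + 1) =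
      2 * n₀ / ((a.t i : ℝ) + n + 1) + c / ((a.t i : ℝ) + n + 1) * 2 := by ring
    linarith

theorem swM_cmul {I J K : Type} (A : Matrix I J (ZG G)) (B : Matrix J K (ZG G)) :
    swM (cmul A B) = cmul (swM A) (swM B) := by
  funext ⟨i, n⟩ ⟨k, m⟩
  have e : cmul (swM A) (swM B) (i, n) (k, m) = ∑ᶠ j, A i j * swM B (j, n) (k, m) := by
    refine Eq.trans ?_ ((finsum_mem_range (f := fun q => swM A (i, n) q * swM B q (k, m))
      (g := fun j : J => (j, n)) fun _ _ e => congrArg Prod.fst e).trans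
        (finsum_congr fun j => by simp [swM]))
    refine finsum_congr fun q => ?_
    by_cases hq : n = q.2
    · have : q ∈ Set.range fun j : J => (j, n) := ⟨q.1, Prod.ext rfl hq⟩
      simp [this]
    · simp [swM, hq]
  rw [e]
  by_cases h : n = m
  · simp [swM, h, cmul]
  · simp [swM, h]

theorem swM_add {I J : Type} (A B : Matrix I J (ZG G)) : swM (A + B) = swM A + swM B := by
  funext p q
  by_cases e : p.2 = q.2 <;> simp [swM, e]

theorem swM_one {I : Type} [DecidableEq I] [DecidableEq (I × ℕ)] :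
    swM (1 : Matrix I I (ZG G)) = 1 := by
  funext ⟨i, n⟩ ⟨j, m⟩
  by_cases e : n = m <;> simp [swM, e, Matrix.one_apply]

theorem swM_nat {I J : Type} (A : Matrix I J (ZG G)) (p : I × ℕ) (q : J × ℕ) :
    Matrix.fromBlocks A 0 0 (swM A) (swE p) (swE q) = swM A p q := by
  obtain ⟨i, _ | n⟩ := p <;> obtain ⟨j, _ | m⟩ := q <;> simp [swE, swM]

/-- the swindle for a trivial action -/
noncomputable def swF (h : ∀ g, ρ g = 1) (y : X) : Flq (OC ρ) where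
  S :=
    { ob := swO fun _ => y
      map := fun A => mk (swM (val A)) (ctl_swM h y (val_ctl A))
      map_add := fun A B => val_inj (swM_add _ _)
      map_mul := fun A B => val_inj (swM_cmul _ _)
      map_one := fun a => val_inj (@swM_one G _ a.I (fun _ _ => Classical.propDecidable _)
        fun _ _ => Classical.propDecidable _)
      map_ct := fun A => val_inj (by
        funext p q
        by_cases e : p.2 = q.2
        · simp [val_ct, swM, e]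
        · simp [val_ct, swM, e, Ne.symm e]) }
  u a := swU ρ _ a
  unt a := unt_swU _ a
  nat {a b} A := val_inj (by
    funext p q
    obtain ⟨q, rfl⟩ := swE_bij.2 q
    rw [val_mul, val_mul, val_fromBlocks]
    refine (pmM_cmul _ _ _ _ _).trans (Eq.trans ?_ (cmul_pmM swE_bij.1 _ _ _ _).symm)
    rw [CB_one, one_mul, mul_one]
    exact swM_nat _ p q)

theorem exists_flq (h : ∀ g, ρ g = 1) : Nonempty (Flq (OC ρ)) := by
  rcases isEmpty_or_nonempty X with hX | ⟨⟨y⟩⟩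
  · have z : ∀ (a b : Ob X) (A B : (OC ρ).Hom a b), A = B := fun a b A B =>
      val_inj (funext fun i => by
        have := a.tot i
        rw [Subsingleton.elim (a.x i) 0, l1_zero] at this
        exact absurd this zero_ne_one)
    exact ⟨⟨⟨id, id, fun _ _ => rfl, fun _ _ => rfl, fun _ => rfl, fun _ => rfl⟩, fun _ => 0,
      fun _ => ⟨z _ _ _ _, z _ _ _ _⟩, fun _ => z _ _ _ _⟩⟩
  · exact ⟨swF h y⟩

theorem van0_triv (h : ∀ g, ρ g = 1) (ε : ℤˣ) : Van0 (OC ρ) ε :=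
  (exists_flq h).elim fun F => F.van0 ε

theorem sfi_triv (h : ∀ g, ρ g = 1) : SFI (OC ρ) := (exists_flq h).elim fun F => F.sfi

end Pool.Agent.Work.MP_9d1ffa_al.Ct
end

-- merged part: Pool.Agent.Work.MP_9d1ffa_al.Ct.CSp
section
-- merged part: Pool.Agent.Work.MP_9d1ffa_al.Ct.CIn0
section
/-! Linear representatives of Witt classes. -/

namespace Pool.Agent.Work.MP_9d1ffa_al.Ct

set_option linter.unusedSectionVars false
set_option linter.unusedVariables false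
set_option linter.unusedSimpArgs false

open MonoidAlgebra

section Alg

variable {O : Type 1} [Add O] [Zero O] {𝒞 : SCat O} {ε : ℤˣ} {I J J' L : O}

/-- the auxiliary form on the new variables -/
def CIn0k (ε : ℤˣ) (d : 𝒞.Hom J J) : 𝒞.Hom (J + J) (J + J) :=
  fromBlocks 0 (-1) 0 ((ε : ℤ) • d)

theorem CIn0_sy_smul (d : 𝒞.Hom J J) : sy ε ((ε : ℤ) • d) = (ε : ℤ) • sy ε d := by
  rw [sy, sy, ct_zsmul, smul_add]

theorem CIn0_syk (d : 𝒞.Hom J J) :
    sy ε (CIn0k ε d) = fromBlocks 0 (-1) (-((ε : ℤ) • 1)) ((ε : ℤ) • sy ε d) := by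
  rw [CIn0k, sy_blocks, CIn0_sy_smul, sy_zero]
  simp

theorem CIn0_zk (d : 𝒞.Hom J J) : Z ε (CIn0k ε d) :=
  z_lag _ _ _ (-1) (by simp) (by simp)

/-- the extended form -/
def CIn0f (ε : ℤˣ) (θ : 𝒞.Hom I I) (p : 𝒞.Hom I J) (q : 𝒞.Hom I J') (T : 𝒞.Hom J J')
    (c : 𝒞.Hom J J) (d : 𝒞.Hom J' J') : 𝒞.Hom (I + (J' + J')) (I + (J' + J')) :=
  fromBlocks (θ - (ε : ℤ) • (p * c * p.ct)) (fromCols (p * T) q) 0 (CIn0k ε d)

theorem CIn0_iso (θ : 𝒞.Hom I I) (p : 𝒞.Hom I J) (q : 𝒞.Hom I J') {T : 𝒞.Hom J J'}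
    {c : 𝒞.Hom J J} {d : 𝒞.Hom J' J'}
    (hT : T * T.ct = 1) (hc : c * T = T * d) (hc' : c.ct * T = T * d.ct) :
    Iso ε (fromBlocks (θ + p * T * q.ct) 0 0 (CIn0k ε d)) (CIn0f ε θ p q T c d) := by
  refine (iso_ext _ _ (fromCols (-q - p * T * sy ε d) (-((ε : ℤ) • (p * T))))).trans
    (Iso.of_eqv (eqv_blocks ?_ (Eqv.refl _) ?_))
  · have e : T * (d.ct * (T.ct * p.ct)) = c.ct * p.ct := by
      rw [← Hm.mul_assoc, ← hc', Hm.mul_assoc, ← Hm.mul_assoc T, hT, Hm.one_mul]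
    refine ⟨p * c.ct * p.ct - p * T * q.ct, ?_⟩
    rw [CIn0k, fromCols_mul_fromBlocks, conjTranspose_fromCols_eq_fromRows_conjTranspose,
      fromCols_mul_fromRows]
    simp only [sy, Hm.mul_zero, Hm.zero_mul, add_zero, zero_add, Hm.mul_neg,
      Hm.neg_mul, Hm.mul_one, Hm.mul_smul, Hm.smul_mul, eps_eps, neg_neg,
      conjTranspose_neg, ct_zsmul, conjTranspose_mul, conjTranspose_sub,
      conjTranspose_conjTranspose, Hm.mul_add, Hm.add_mul, Hm.sub_mul, Hm.mul_sub,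
      Hm.mul_assoc, smul_add, smul_sub, smul_neg, e]
    abel
  · have : ∀ X : 𝒞.Hom I (J' + J'), X * CIn0k ε d + (ε : ℤ) • (CIn0k ε d * X.ct).ct =
        X * sy ε (CIn0k ε d) := fun X => by
      rw [sy, Hm.mul_add, Hm.mul_smul, conjTranspose_mul, conjTranspose_conjTranspose]
    rw [this, CIn0_syk, fromCols_mul_fromBlocks, conjTranspose_zero, smul_zero, add_zero]
    congr 1
    · simp only [Hm.mul_zero, zero_add, Hm.mul_neg, Hm.neg_mul, Hm.mul_smul,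
        Hm.smul_mul, eps_eps, neg_neg, Hm.mul_one, smul_neg]
    · simp only [Hm.mul_neg, Hm.neg_mul, Hm.mul_smul,
        Hm.smul_mul, eps_eps, neg_neg, Hm.mul_one, smul_neg]
      abel

theorem CIn0_eq (θ : 𝒞.Hom I I) (p : 𝒞.Hom I J) (q : 𝒞.Hom I J') {T : 𝒞.Hom J J'}
    {c : 𝒞.Hom J J} {d : 𝒞.Hom J' J'}
    (hT : T * T.ct = 1) (hc : c * T = T * d) (hc' : c.ct * T = T * d.ct) {Y : 𝒞.Hom L I}
    {u w : 𝒞.Hom L J}
    (hY : Y * sy ε (θ + p * T * q.ct) = -(u * T * q.ct) + (ε : ℤ) • (w * p.ct)) :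
    fromCols Y (fromCols (Y * q + (Y * p + u) * T * sy ε d) ((ε : ℤ) • ((Y * p + u) * T))) *
        sy ε (CIn0f ε θ p q T c d) =
      fromCols ((ε : ℤ) • ((u * sy ε c + w) * p.ct)) (fromCols (-(u * T)) 0) := by
  have e : T * (d.ct * (T.ct * p.ct)) = c.ct * p.ct := by
    rw [← Hm.mul_assoc, ← hc', Hm.mul_assoc, ← Hm.mul_assoc T, hT, Hm.one_mul]
  have e' : T * (d * (T.ct * p.ct)) = c * p.ct := by
    rw [← Hm.mul_assoc, ← hc, Hm.mul_assoc, ← Hm.mul_assoc T, hT, Hm.one_mul]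
  rw [CIn0f, sy_blocks, CIn0_syk, fromCols_mul_fromBlocks, conjTranspose_zero, smul_zero, add_zero,
    zero_add, conjTranspose_fromCols_eq_fromRows_conjTranspose, fromRows_smul,
    fromCols_mul_fromRows, mul_fromCols, fromCols_mul_fromBlocks, fromCols_add]
  congr 1
  · have hY' : Y * θ = -(u * T * q.ct) + (ε : ℤ) • (w * p.ct) -
        Y * (p * T * q.ct + (ε : ℤ) • (θ + p * T * q.ct).ct) := by
      rw [← hY, sy, add_assoc, Hm.mul_add, add_sub_cancel_right]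
    simp only [sy, Hm.mul_neg,
      Hm.neg_mul, Hm.mul_smul, Hm.smul_mul, eps_eps, neg_neg,
      conjTranspose_neg, ct_zsmul, conjTranspose_mul, conjTranspose_sub, conjTranspose_add,
      conjTranspose_conjTranspose, Hm.mul_add, Hm.add_mul, Hm.sub_mul, Hm.mul_sub,
      Hm.mul_assoc, smul_add, smul_sub, smul_neg, e, e', hY']
    abel
  · congr 1
    · simp only [Hm.mul_zero, zero_add, Hm.mul_neg, Hm.neg_mul, Hm.mul_smul,
        Hm.smul_mul, eps_eps, neg_neg, Hm.mul_one, smul_neg, Hm.add_mul,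
        Hm.mul_assoc, smul_add]
      abel
    · simp only [Hm.mul_neg, Hm.neg_mul, Hm.mul_smul,
        Hm.smul_mul, eps_eps, neg_neg, Hm.mul_one, smul_neg]
      abel

end Alg

variable {X Γ V A : Type} [Group Γ] [Group V] [Group A] {ε : ℤˣ} {ρ : Γ →* Equiv.Perm X}
  {ρV : V →* Equiv.Perm X} {ρA : A →* Equiv.Perm X} {I J J' K L M N κ κ' : Ob X}
  {C : TC ρ ρV ρA} {T : TU ρ C.t J J'}
  {x : L0 (OC ρ) ε} {U : (OC ρA).Hom (J + J) (J + J)}

theorem CIn0_ef {θ : (OC ρV).Hom I I}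
    {P : (OC ρV).Hom I J} {Q : (OC ρV).Hom I J'} : C.EF T ε 1 θ P Q U ↔ Uni (-ε) U ∧ ∃ Y : (OC ρ).Hom (J + J) I,
      Y * sy ε (C.lin T θ P Q) = -(mp C.ah U.toCols₁ * T.T * (mp C.vh Q).ct) +
        (ε : ℤ) • (mp C.ah U.toCols₂ * (mp C.vh P).ct) ∧ C.Side Y ∧
      C.Side ((Y * mp C.vh P + mp C.ah U.toCols₁) * T.T) ∧
      C.Side (Y * mp C.vh Q * T.T.ct - mp C.ah U.toCols₂) := by
  have e1 : (1 : (OC ρV).Hom (I + I) (I + I)).toBlocks₁₁ = 1 := by
    rw [← fromBlocks_one, toBlocks_fromBlocks₁₁]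
  have e2 : mp C.ah U * C.sig T ε P Q = -(mp C.ah U.toCols₁ * T.T * (mp C.vh Q).ct) +
      (ε : ℤ) • (mp C.ah U.toCols₂ * (mp C.vh P).ct) := by
    conv_lhs => rw [← fromCols_toCols U, mp_fromCols, TC.sig, fromCols_mul_fromRows]
    rw [Hm.mul_neg, Hm.mul_smul, Hm.mul_assoc]
  rw [TC.EF, TC.sys_one, e1, Hm.one_mul, Hm.one_mul, e2]

theorem CIn0_col (U : (OC ρA).Hom (J + J) (J + J)) (a b c d : (OC ρA).Hom J J) :
    U * fromBlocks a b c d =
      fromCols (U.toCols₁ * a + U.toCols₂ * c) (U.toCols₁ * b + U.toCols₂ * d) := by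
  conv_lhs => rw [← fromCols_toCols U, fromCols_mul_fromBlocks]

theorem TC.Rep.gl (h : C.Rep T ε x U) (g g' : (OC ρA).Hom J J) (h1 : g * g' = 1)
    (h2 : g' * g = 1) : C.Rep T ε x (U * fromBlocks g 0 0 g'.ct) := by
  obtain ⟨I, θ, P, Q, hns, hef, hx⟩ := h
  obtain ⟨hU, Y, hY, s1, s2, s3⟩ := CIn0_ef.1 hef
  have a1 : mp C.ah g * (T.T * mp C.vh (C.jm T T g')) = T.T := by
    rw [← Hm.mul_assoc, C.mp_va_dg T T, Hm.mul_assoc, ← mp_mul, ← C.jm_mul, h1, C.jm_one,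
      mp_one, Hm.mul_one]
  have a2 : (mp C.vh (Q * (C.jm T T g').ct)).ct = mp C.vh (C.jm T T g') * (mp C.vh Q).ct := by
    rw [mp_mul, mp_ct, conjTranspose_mul, conjTranspose_conjTranspose]
  have a3 : mp C.vh (P * mp C.ih g) = mp C.vh P * mp C.ah g := by rw [mp_mul, TC.mp_va]
  have e : C.lin T θ (P * mp C.ih g) (Q * (C.jm T T g').ct) = C.lin T θ P Q := by
    rw [TC.lin, TC.lin, a2, a3, Hm.mul_assoc, Hm.mul_assoc, ← Hm.mul_assoc T.T,
      ← Hm.mul_assoc (mp C.ah g), a1, Hm.mul_assoc]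
  refine ⟨I, θ, P * mp C.ih g, Q * (C.jm T T g').ct, e ▸ hns,
    CIn0_ef.2 ⟨hU.mul (GenU.gl g g' h1 h2).uni, Y, ?_, s1, ?_, ?_⟩, e ▸ hx⟩
  all_goals rw [CIn0_col]
  all_goals simp only [toCols₁_fromCols, toCols₂_fromCols, Hm.mul_zero, add_zero, zero_add]
  · have b : (mp C.ah g').ct * ((mp C.ah g).ct * (mp C.vh P).ct) = (mp C.vh P).ct := by
      rw [← Hm.mul_assoc, ← conjTranspose_mul, ← mp_mul, h1, mp_one, conjTranspose_one,
        Hm.one_mul]
    have b' : mp C.ah g * (T.T * (mp C.vh (C.jm T T g') * (mp C.vh Q).ct)) =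
        T.T * (mp C.vh Q).ct := by
      rw [← Hm.mul_assoc T.T, ← Hm.mul_assoc, a1]
    rw [e, hY, a2, a3]
    simp only [mp_mul, mp_ct, conjTranspose_mul, Hm.mul_assoc, b, b']
  · have := s2.mul_v (C.jm T T g)
    rwa [Hm.mul_assoc, ← C.mp_va_dg T T, ← Hm.mul_assoc, Hm.add_mul, ← mp_mul,
      Hm.mul_assoc Y, ← a3] at this
  · have := s3.mul_v (mp C.ih g'.ct)
    have b : T.T.ct * mp C.ah g'.ct = mp C.vh (C.jm T T g').ct * T.T.ct := by
      rw [mp_ct, mp_ct, ← conjTranspose_mul, ← conjTranspose_mul, C.mp_va_dg T T]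
    rwa [← TC.mp_va, Hm.sub_mul, ← mp_mul, Hm.mul_assoc _ T.T.ct, b,
      ← Hm.mul_assoc, Hm.mul_assoc Y, ← mp_mul] at this

theorem TC.Rep.sh (h : C.Rep T ε x U) (χ : (OC ρA).Hom J J) :
    C.Rep T ε x (U * fromBlocks 1 (sy ε χ) 0 1) := by
  obtain ⟨I, θ, P, Q, hns, hef, hx⟩ := h
  obtain ⟨hU, Y, hY, s1, s2, s3⟩ := CIn0_ef.1 hef
  have hT : T.T * T.T.ct = 1 := T.u1
  have hc := C.mp_va_dg T T χ
  have hc' : (mp C.ah χ).ct * T.T = T.T * (mp C.vh (C.jm T T χ)).ct := by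
    rw [← mp_ct, ← mp_ct, ← C.jm_ct, C.mp_va_dg T T]
  have p1 : mp C.vh (fromRows P (0 : (OC ρV).Hom (J' + J') J)) = fromRows (mp C.vh P) 0 := by
    rw [mp_fromRows, mp_zero]
  have q1 : mp C.vh (fromRows (0 : (OC ρV).Hom I J') (fromRows (1 : (OC ρV).Hom J' J')
      (0 : (OC ρV).Hom J' J'))) = fromRows 0 (fromRows 1 0) := by
    rw [mp_fromRows, mp_fromRows, mp_zero, mp_zero, mp_one]
  have e : C.lin T (fromBlocks (θ - (ε : ℤ) • (P * mp C.ih χ * P.ct)) (fromCols 0 Q) 0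
      (CIn0k ε (C.jm T T χ))) (fromRows P 0) (fromRows 0 (fromRows 1 0)) =
      CIn0f ε (mp C.vh θ) (mp C.vh P) (mp C.vh Q) T.T (mp C.ah χ) (mp C.vh (C.jm T T χ)) := by
    rw [TC.lin, p1, q1, fromRows_mul, conjTranspose_fromRows_eq_fromCols_conjTranspose,
      conjTranspose_fromRows_eq_fromCols_conjTranspose, fromRows_mul_fromCols, mp_blocks,
      fromBlocks_add, CIn0f, CIn0k, CIn0k]
    simp only [mp_sub, mp_zsmul, mp_mul, mp_ct, mp_fromCols, mp_zero, mp_blocks, mp_neg, mp_one,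
      conjTranspose_zero, conjTranspose_one, Hm.mul_zero, Hm.zero_mul, add_zero,
      mul_fromCols, Hm.mul_one, fromCols_add, zero_add, ← TC.mp_va]
  have iso : Iso ε (fromBlocks (C.lin T θ P Q) 0 0 _) _ :=
    CIn0_iso (ε := ε) (mp C.vh θ) (mp C.vh P) (mp C.vh Q) hT hc hc'
  have zk := CIn0_zk (ε := ε) (mp C.vh (C.jm T T χ))
  refine ⟨I + (J' + J'), _, _, _, e ▸ NS.iso iso (hns.sum zk.ns),
    CIn0_ef.2 ⟨hU.mul (genU_sy ε χ).uni, fromCols Y (fromCols (Y * mp C.vh Q +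
      (Y * mp C.vh P + mp C.ah U.toCols₁) * T.T * sy ε (mp C.vh (C.jm T T χ)))
      ((ε : ℤ) • ((Y * mp C.vh P + mp C.ah U.toCols₁) * T.T))), ?_, ?_, ?_, ?_⟩, ?_⟩
  · rw [e, CIn0_eq _ _ _ hT hc hc' hY, CIn0_col, p1, q1,
      conjTranspose_fromRows_eq_fromCols_conjTranspose,
      conjTranspose_fromRows_eq_fromCols_conjTranspose,
      conjTranspose_fromRows_eq_fromCols_conjTranspose]
    simp only [toCols₁_fromCols, toCols₂_fromCols, Hm.mul_zero, add_zero, zero_add,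
      Hm.mul_one, conjTranspose_zero, conjTranspose_one, mul_fromCols, fromCols_neg, neg_zero,
      fromCols_smul, smul_zero, fromCols_add, mp_add, mp_mul, mp_sy]
  · refine TC.side_fromCols.2 ⟨s1, TC.side_fromCols.2 ⟨(s1.mul_v Q).add ?_, s2.zsmul _⟩⟩
    rw [← mp_sy]
    exact s2.mul_v _
  · rw [CIn0_col, p1, fromCols_mul_fromRows]
    simpa only [toCols₁_fromCols, Hm.mul_zero, add_zero, Hm.mul_one] using s2
  · have hs : T.T * (sy ε (mp C.vh (C.jm T T χ)) * T.T.ct) = sy ε (mp C.ah χ) := by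
      rw [← Hm.mul_assoc, ← mp_sy, ← mp_sy, ← C.jm_sy, ← C.mp_va_dg T T, Hm.mul_assoc, T.u1,
        Hm.mul_one]
    have := s3.add (s1.mul_v (P * mp C.ih (sy ε χ)))
    rw [CIn0_col, q1, fromCols_mul_fromRows, fromCols_mul_fromRows]
    convert this using 1
    simp only [toCols₂_fromCols, Hm.mul_zero, add_zero, zero_add, Hm.mul_one, mp_add,
      mp_mul, ← TC.mp_va, mp_sy, Hm.add_mul, Hm.mul_assoc, hs]
    abel
  · rw [e, ← cls_iso iso, cls_sum hns zk.ns, (cls_eq_zero zk.ns).2 zk, add_zero, hx]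

end Pool.Agent.Work.MP_9d1ffa_al.Ct
end

-- merged part: Pool.Agent.Work.MP_9d1ffa_al.Ct.SS
section
/-! Schur complements and idempotents with free image. -/

namespace Pool.Agent.Work.MP_9d1ffa_al.Ct

set_option linter.unusedSectionVars false
set_option linter.unusedVariables false

variable {O : Type 1} [Add O] [Zero O] {𝒞 : SCat O} {ε η : ℤˣ} {I J K L M : O}

theorem schur {ψ μ : 𝒞.Hom I I} (h1 : sy ε ψ * μ = 1) (h2 : μ * sy ε ψ = 1)
    (φ : 𝒞.Hom J J) (X : 𝒞.Hom I J) (hu : IsUnit (1 + X * (sy ε φ * X.ct * μ))) :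
    Iso ε (fromBlocks ψ 0 0 φ) (fromBlocks (ψ + X * φ * X.ct) 0 0
      (φ + (sy ε φ * X.ct * μ) * ψ * (sy ε φ * X.ct * μ).ct)) := by
  obtain ⟨w, hw⟩ := hu
  have w1 : (1 + X * (sy ε φ * X.ct * μ)) * (↑w⁻¹ : 𝒞.Hom I I) = 1 := by
    rw [← hw, Units.mul_inv]
  have w2 : (↑w⁻¹ : 𝒞.Hom I I) * (1 + X * (sy ε φ * X.ct * μ)) = 1 := by
    rw [← hw, Units.inv_mul]
  have hY : (sy ε φ * X.ct * μ).ct = μ * X * sy ε φ := by
    rw [conjTranspose_mul, conjTranspose_mul, conjTranspose_conjTranspose, inv_ct h1 h2, sy_ct,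
      Hm.smul_mul, Hm.mul_smul, Hm.mul_smul, eps_eps, Hm.mul_assoc]
  generalize sy ε φ * X.ct * μ = Y at w1 w2 hY ⊢
  generalize (↑w⁻¹ : 𝒞.Hom I I) = v at w1 w2
  have hg : fromBlocks (1 : 𝒞.Hom I I) X (-Y) (1 : 𝒞.Hom J J) =
      fromBlocks 1 X 0 1 * fromBlocks (1 + X * Y) 0 (-Y) 1 := by
    simp [fromBlocks_multiply]
  have p1 : fromBlocks (1 : 𝒞.Hom I I) X 0 (1 : 𝒞.Hom J J) * fromBlocks 1 (-X) 0 1 = 1 := by
    simp [fromBlocks_multiply]
  have p2 : fromBlocks (1 : 𝒞.Hom I I) (-X) 0 (1 : 𝒞.Hom J J) * fromBlocks 1 X 0 1 = 1 := by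
    simp [fromBlocks_multiply]
  have q1 : fromBlocks (1 + X * Y) 0 (-Y) (1 : 𝒞.Hom J J) *
      fromBlocks v 0 (Y * v) (1 : 𝒞.Hom J J) = 1 := by
    simp [fromBlocks_multiply, w1]
  have q2 : fromBlocks v 0 (Y * v) (1 : 𝒞.Hom J J) *
      fromBlocks (1 + X * Y) 0 (-Y) (1 : 𝒞.Hom J J) = 1 := by
    simp [fromBlocks_multiply, w2, Hm.mul_assoc]
  refine ⟨fromBlocks 1 X (-Y) 1, fromBlocks v 0 (Y * v) 1 * fromBlocks 1 (-X) 0 1, ?_, ?_, ?_⟩
  · rw [hg, Hm.mul_assoc, ← Hm.mul_assoc (fromBlocks (1 + X * Y) 0 (-Y) 1), q1,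
      Hm.one_mul, p1]
  · rw [hg, Hm.mul_assoc, ← Hm.mul_assoc (fromBlocks 1 (-X) 0 1), p2,
      Hm.one_mul, q2]
  · have e : fromBlocks (1 : 𝒞.Hom I I) X (-Y) (1 : 𝒞.Hom J J) * fromBlocks ψ 0 0 φ *
        (fromBlocks (1 : 𝒞.Hom I I) X (-Y) (1 : 𝒞.Hom J J)).ct =
        fromBlocks (ψ + X * φ * X.ct) (-(ψ * Y.ct) + X * φ) (-(Y * ψ) + φ * X.ct)
          (φ + Y * ψ * Y.ct) := by
      simp [fromBlocks_multiply, fromBlocks_conjTranspose, add_comm]
    rw [e]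
    refine eqv_blocks (Eqv.refl _) (Eqv.refl _) ?_
    have e2 : -(ψ * Y.ct) + X * φ + (ε : ℤ) • (-(Y * ψ) + φ * X.ct).ct =
        -(sy ε ψ * Y.ct) + X * sy ε φ := by
      simp only [sy, conjTranspose_add, conjTranspose_neg, conjTranspose_mul,
        conjTranspose_conjTranspose, smul_add, smul_neg, Hm.add_mul, Hm.mul_add,
        Hm.smul_mul, Hm.mul_smul]
      abel
    rw [e2, hY, ← Hm.mul_assoc, ← Hm.mul_assoc, h1]
    simp

theorem USchur_ret {F : 𝒞.Hom I I} (h : FreeIdem F) (S : 𝒞.Hom J I) (T : 𝒞.Hom I J)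
    (hT : T * S = 1) : FreeIdem (S * F * T) := by
  obtain ⟨b, U, W, a1, a2⟩ := h
  refine ⟨b, U * T, S * W, ?_, ?_⟩
  · rw [Hm.mul_assoc, ← Hm.mul_assoc T, hT, Hm.one_mul, a1]
  · rw [← a2]
    simp only [Hm.mul_assoc]

theorem USchur_reindex {F : 𝒞.Hom I I} (h : FreeIdem F) {u : 𝒞.Hom J I} (hu : Unt u) :
    FreeIdem (u * F * u.ct) :=
  USchur_ret h u u.ct hu.2

theorem USchur_one {F : 𝒞.Hom I I} (h : FreeIdem F) (a : O) :
    FreeIdem (fromBlocks F 0 0 (1 : 𝒞.Hom a a)) := by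
  obtain ⟨b, U, W, a1, a2⟩ := h
  refine ⟨b + a, fromBlocks U 0 0 1, fromBlocks W 0 0 1, ?_, ?_⟩
  · simp [fromBlocks_multiply, a1]
  · simp [fromBlocks_multiply, a2]

theorem USchur_left {E : 𝒞.Hom I I} {a : O}
    (h : FreeIdem (fromBlocks E 0 0 (1 : 𝒞.Hom a a))) (a' : O) :
    FreeIdem (fromBlocks E 0 0 (1 : 𝒞.Hom (a + a') (a + a'))) := by
  have h1 := USchur_reindex (USchur_one h a') (unt_assoc (I := I) (J := a) (K := a'))
  have e : sAssoc 𝒞 I a a' * fromBlocks (fromBlocks E 0 0 (1 : 𝒞.Hom a a)) 0 0 (1 : 𝒞.Hom a' a') =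
      fromBlocks E 0 0 (1 : 𝒞.Hom (a + a') (a + a')) * sAssoc 𝒞 I a a' := by
    simp [sAssoc, fromBlocks_multiply, fromCols_mul_fromBlocks]
  rwa [e, Hm.mul_assoc, unt_assoc.1, Hm.mul_one] at h1

theorem USchur_right {E : 𝒞.Hom I I} {a' : O}
    (h : FreeIdem (fromBlocks E 0 0 (1 : 𝒞.Hom a' a'))) (a : O) :
    FreeIdem (fromBlocks E 0 0 (1 : 𝒞.Hom (a + a') (a + a'))) := by
  have h1 := USchur_reindex (USchur_left h a) ((unt_one (I := I)).sum (unt_comm (I := a') (J := a)))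
  simpa [fromBlocks_multiply, fromBlocks_conjTranspose, unt_comm.1] using h1

end Pool.Agent.Work.MP_9d1ffa_al.Ct
end

-- merged part: Pool.Agent.Work.MP_9d1ffa_al.Ct.SF
section
/-! Frames from complementary isotropic idempotents. -/

namespace Pool.Agent.Work.MP_9d1ffa_al.Ct

set_option linter.unusedSectionVars false
set_option linter.unusedVariables false

variable {O : Type 1} [Add O] [Zero O] {𝒞 : SCat O} {ε η : ℤˣ} {I J K L M : O} {b b' : O}

theorem OFrame_iso {E ψ : 𝒞.Hom I I} {A : 𝒞.Hom b I} {W : 𝒞.Hom I b} (a1 : A * W = 1)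
    (a2 : W * A = E) (e : Eqv η 0 (E * ψ * E.ct)) : Eqv η 0 (A * ψ * A.ct) := by
  have u1 : A * E = A := by rw [← a2, ← Hm.mul_assoc, a1, Hm.one_mul]
  have h1 : A * (E * ψ * E.ct) * A.ct = A * ψ * A.ct := by
    conv_rhs => rw [← u1]
    simp only [conjTranspose_mul, Hm.mul_assoc]
  have h2 := e.conj A
  rwa [h1, Hm.mul_zero, Hm.zero_mul] at h2

theorem OFrame_sy {ψ : 𝒞.Hom I I} {A : 𝒞.Hom b I} (e : Eqv η 0 (A * ψ * A.ct)) :
    A * sy η ψ * A.ct = 0 := by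
  rw [← sy_conj, ← e.sy_eq, sy_zero]

theorem OFrame_perp {E : 𝒞.Hom I I} {A : 𝒞.Hom b I} {W : 𝒞.Hom I b} {A' : 𝒞.Hom b' I}
    {W' : 𝒞.Hom I b'} (a1 : A * W = 1) (a2 : W * A = E) (a1' : A' * W' = 1)
    (a2' : W' * A' = 1 - E) : A * E = A ∧ A' * E = 0 ∧ A * W' = 0 ∧ A' * W = 0 := by
  have u1 : A * E = A := by rw [← a2, ← Hm.mul_assoc, a1, Hm.one_mul]
  have u2 : E * W = W := by rw [← a2, Hm.mul_assoc, a1, Hm.mul_one]
  have u1' : A' * (1 - E) = A' := by rw [← a2', ← Hm.mul_assoc, a1', Hm.one_mul]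
  have u2' : (1 - E) * W' = W' := by rw [← a2', Hm.mul_assoc, a1', Hm.mul_one]
  have u3 : A' * E = 0 := by
    rwa [Hm.mul_sub, Hm.mul_one, sub_eq_self] at u1'
  refine ⟨u1, u3, ?_, ?_⟩
  · rw [← u2', ← Hm.mul_assoc, Hm.mul_sub, u1, Hm.mul_one, sub_self, Hm.zero_mul]
  · rw [← u2, ← Hm.mul_assoc, u3, Hm.zero_mul]

theorem OFrame_T {E Ω μ : 𝒞.Hom I I} {A : 𝒞.Hom b I} {W : 𝒞.Hom I b}
    {A' : 𝒞.Hom b' I} {W' : 𝒞.Hom I b'} (h1 : Ω * μ = 1) (h2 : μ * Ω = 1) (a1 : A * W = 1)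
    (a2 : W * A = E) (a1' : A' * W' = 1) (a2' : W' * A' = 1 - E) (c1 : A * Ω * A.ct = 0)
    (c2 : A' * Ω * A'.ct = 0) :
    ∃ T' : 𝒞.Hom b' b, (A * Ω * A'.ct) * T' = 1 ∧ T' * (A * Ω * A'.ct) = 1 := by
  have a3 : W * A = 1 - W' * A' := by rw [a2, a2', sub_sub_cancel]
  refine ⟨W'.ct * μ * W, ?_, ?_⟩
  · calc (A * Ω * A'.ct) * (W'.ct * μ * W) = A * Ω * (W' * A').ct * (μ * W) := by
          simp only [conjTranspose_mul, Hm.mul_assoc]
      _ = A * (Ω * μ) * W - A * Ω * A.ct * (W.ct * μ * W) := by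
          rw [a2', ← a2]
          simp only [conjTranspose_sub, conjTranspose_one, conjTranspose_mul, Hm.mul_sub,
            Hm.sub_mul, Hm.mul_one, Hm.mul_assoc]
      _ = 1 := by rw [h1, c1, Hm.mul_one, a1, Hm.zero_mul, sub_zero]
  · calc (W'.ct * μ * W) * (A * Ω * A'.ct) = W'.ct * μ * (W * A) * (Ω * A'.ct) := by
          simp only [Hm.mul_assoc]
      _ = W'.ct * (μ * Ω) * A'.ct - W'.ct * μ * W' * (A' * Ω * A'.ct) := by
          rw [a3]
          simp only [Hm.mul_sub, Hm.sub_mul, Hm.mul_one, Hm.mul_assoc]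
      _ = 1 := by
          rw [h2, c2, Hm.mul_one, Hm.mul_zero, sub_zero, ← conjTranspose_mul, a1',
            conjTranspose_one]

theorem OFrame_mu : sy η (hypF 𝒞 J) * fromBlocks 0 ((η : ℤ) • (1 : 𝒞.Hom J J)) 1 0 = 1 ∧
    fromBlocks 0 ((η : ℤ) • (1 : 𝒞.Hom J J)) 1 0 * sy η (hypF 𝒞 J) = 1 := by
  rw [sy_hyp]
  constructor <;>
    simp only [fromBlocks_multiply, Hm.mul_zero, Hm.zero_mul, add_zero, zero_add,
      Hm.mul_one, Hm.smul_mul, Hm.one_mul, eps_eps, fromBlocks_one]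

theorem OFrame_J {E : 𝒞.Hom (J + J) (J + J)} {A : 𝒞.Hom J (J + J)} {W : 𝒞.Hom (J + J) J}
    {A' : 𝒞.Hom b' (J + J)} {W' : 𝒞.Hom (J + J) b'} (a1 : A * W = 1)
    (a2 : W * A = E) (a1' : A' * W' = 1) (a2' : W' * A' = 1 - E)
    (e1 : Eqv η 0 (E * hypF 𝒞 J * E.ct)) (e2 : Eqv η 0 ((1 - E) * hypF 𝒞 J * (1 - E).ct)) :
    ∃ U : 𝒞.Hom (J + J) (J + J), Uni η U ∧ U.toRows₁ * E = U.toRows₁ ∧ U.toRows₂ * E = 0 := by
  have c1 := OFrame_iso a1 a2 e1
  have c2 := OFrame_iso a1' a2' e2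
  obtain ⟨T', t1, t2⟩ :=
    OFrame_T OFrame_mu.1 OFrame_mu.2 a1 a2 a1' a2' (OFrame_sy c1) (OFrame_sy c2)
  obtain ⟨u1, u2, v1, v2⟩ := OFrame_perp a1 a2 a1' a2'
  obtain ⟨B, hB⟩ : ∃ B : 𝒞.Hom J (J + J), B = T'.ct * A' := ⟨_, rfl⟩
  obtain ⟨T, hT⟩ : ∃ T : 𝒞.Hom J b', T = A * sy η (hypF 𝒞 J) * A'.ct := ⟨_, rfl⟩
  obtain ⟨C, hC⟩ : ∃ C : 𝒞.Hom (J + J) J, C = W' * T.ct := ⟨_, rfl⟩
  have g1 : fromRows A B * fromCols W C = 1 := by
    rw [← hT] at t1
    rw [fromRows_mul_fromCols, hB, hC, a1, ← Hm.mul_assoc A, v1, Hm.zero_mul,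
      Hm.mul_assoc, v2, Hm.mul_zero, Hm.mul_assoc, ← Hm.mul_assoc A', a1',
      Hm.one_mul, ← conjTranspose_mul, t1, conjTranspose_one, fromBlocks_one]
  have g2 : fromCols W C * fromRows A B = 1 := by
    rw [← hT] at t2
    rw [fromCols_mul_fromRows, hB, hC, a2, Hm.mul_assoc, ← Hm.mul_assoc T.ct,
      ← conjTranspose_mul, t2, conjTranspose_one, Hm.one_mul, a2', add_sub_cancel]
  refine ⟨fromRows A B, ⟨⟨⟨fromRows A B, fromCols W C, g1, g2⟩, rfl⟩, ?_⟩, ?_, ?_⟩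
  · rw [fromRows_mul, conjTranspose_fromRows_eq_fromCols_conjTranspose, fromRows_mul_fromCols, hB]
    refine eqv_blocks c1 ?_ ?_
    · have h := c2.conj T'.ct
      rw [Hm.mul_zero, Hm.zero_mul] at h
      simpa only [conjTranspose_mul, Hm.mul_assoc] using h
    · rw [conjTranspose_zero, smul_zero, add_zero, ← t1]
      simp only [sy, conjTranspose_mul, conjTranspose_conjTranspose, Hm.mul_add,
        Hm.add_mul, Hm.mul_smul, Hm.smul_mul, Hm.mul_assoc]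
  · rw [toRows₁_fromRows, u1]
  · rw [toRows₂_fromRows, hB, Hm.mul_assoc, u2, Hm.mul_zero]

theorem dsum_four (U : 𝒞.Hom (I + I) (I + I)) (V : 𝒞.Hom (J + J) (J + J)) :
    dsum U V = sFour 𝒞 I I J J * fromBlocks U 0 0 V * (sFour 𝒞 I I J J).ct := by
  obtain ⟨a, b, c, d, rfl⟩ := exists_blocks U
  obtain ⟨x, y, z, v, rfl⟩ := exists_blocks V
  simp [dsum_blocks, sFour, fromBlocks_multiply, fromBlocks_conjTranspose, fromBlocks_add]

theorem OFrame_pad {E : 𝒞.Hom (J + J) (J + J)}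
    (hE : FreeIdem (fromBlocks E 0 0 (1 : 𝒞.Hom I I)))
    (hE' : FreeIdem (fromBlocks (1 - E) 0 0 (1 : 𝒞.Hom I I))) :
    FreeIdem (dsum E (fromBlocks 1 0 0 0 : 𝒞.Hom (I + I) (I + I))) ∧
      FreeIdem (1 - dsum E (fromBlocks 1 0 0 0 : 𝒞.Hom (I + I) (I + I))) := by
  have f1 := USchur_ret hE
    (fromBlocks (1 : 𝒞.Hom (J + J) (J + J)) 0 0
      (fromRows (1 : 𝒞.Hom I I) (0 : 𝒞.Hom I I)))
    (fromBlocks (1 : 𝒞.Hom (J + J) (J + J)) 0 0
      (fromCols (1 : 𝒞.Hom I I) (0 : 𝒞.Hom I I)))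
    (by simp [fromBlocks_multiply, fromCols_mul_fromRows])
  have f2 := USchur_ret hE'
    (fromBlocks (1 : 𝒞.Hom (J + J) (J + J)) 0 0
      (fromRows (0 : 𝒞.Hom I I) (1 : 𝒞.Hom I I)))
    (fromBlocks (1 : 𝒞.Hom (J + J) (J + J)) 0 0
      (fromCols (0 : 𝒞.Hom I I) (1 : 𝒞.Hom I I)))
    (by simp [fromBlocks_multiply, fromCols_mul_fromRows])
  simp only [fromBlocks_multiply, Hm.mul_zero, Hm.zero_mul, add_zero, zero_add,
    Hm.mul_one, Hm.one_mul, fromRows_mul_fromCols] at f1 f2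
  have d : (1 : 𝒞.Hom ((J + J) + (I + I)) ((J + J) + (I + I))) -
      fromBlocks E 0 0 (fromBlocks (1 : 𝒞.Hom I I) 0 0 0) =
      fromBlocks (1 - E) 0 0 (fromBlocks 0 0 0 (1 : 𝒞.Hom I I)) := by
    rw [sub_eq_iff_eq_add, fromBlocks_add, fromBlocks_add]
    simp
  rw [← d] at f2
  rw [dsum_four]
  refine ⟨USchur_reindex f1 unt_four, ?_⟩
  have f3 := USchur_reindex f2 (unt_four (I := J) (J := J) (K := I) (L := I))
  rwa [Hm.mul_sub, Hm.sub_mul, Hm.mul_one, unt_four.1] at f3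

theorem exists_pad {E : 𝒞.Hom (J + J) (J + J)}
    (hE : SFIdem E) (hE' : SFIdem (1 - E)) :
    ∃ (κ : O),
      FreeIdem (dsum E (fromBlocks 1 0 0 0 : 𝒞.Hom (κ + κ) (κ + κ))) ∧
      FreeIdem (1 - dsum E (fromBlocks 1 0 0 0 : 𝒞.Hom (κ + κ) (κ + κ))) := by
  obtain ⟨a, hE⟩ := hE
  obtain ⟨a', hE'⟩ := hE'
  exact ⟨a + a',
    OFrame_pad (USchur_left hE a') (USchur_right hE' a)⟩

/-- padding until the image of the idempotent is the given object -/
theorem exists_padF (hS : Stab 𝒞) {E : 𝒞.Hom (J + J) (J + J)} (hE : SFIdem E)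
    (hE' : SFIdem (1 - E)) :
    ∃ κ : O, FreeOn (J + κ) (dsum E (fromBlocks 1 0 0 0 : 𝒞.Hom (κ + κ) (κ + κ))) ∧
      FreeIdem (1 - dsum E (fromBlocks 1 0 0 0 : 𝒞.Hom (κ + κ) (κ + κ))) := by
  obtain ⟨κ₀, ⟨b, A, W, a1, a2⟩, h'⟩ := exists_pad hE hE'
  obtain ⟨κ₁, u, hu⟩ := hS b (J + κ₀)
  have e : dsum E (fromBlocks 1 0 0 0 : 𝒞.Hom ((κ₀ + κ₁) + (κ₀ + κ₁)) ((κ₀ + κ₁) + (κ₀ + κ₁))) =
      reix (sAssoc 𝒞 J κ₀ κ₁) (dsum (dsum E (fromBlocks 1 0 0 0)) (fromBlocks 1 0 0 0)) := by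
    rw [← OU3_assoc', dsum_blocks]
    simp
  have hw := (unt_assoc (𝒞 := 𝒞) (I := J) (J := κ₀) (K := κ₁)).sum
    (unt_assoc (I := J) (J := κ₀) (K := κ₁))
  have hv := hw.mul (unt_four (I := J + κ₀) (J := J + κ₀) (K := κ₁) (L := κ₁))
  have hs := (unt_assoc (𝒞 := 𝒞) (I := J) (J := κ₀) (K := κ₁)).mul hu.ct
  obtain ⟨b', A', W', a1', a2'⟩ := h'
  rw [reix, dsum_four (dsum E (fromBlocks 1 0 0 0)), ← Hm.mul_assoc, ← Hm.mul_assoc,
    Hm.mul_assoc _ _ (SCat.Hom.ct _), ← conjTranspose_mul] at e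
  generalize fromBlocks (sAssoc 𝒞 J κ₀ κ₁) 0 0 (sAssoc 𝒞 J κ₀ κ₁) *
    sFour 𝒞 (J + κ₀) (J + κ₀) κ₁ κ₁ = v at hv e
  generalize sAssoc 𝒞 J κ₀ κ₁ * u.ct = s at hs
  refine ⟨κ₀ + κ₁, ?_, ?_⟩
  · rw [e, ← a2]
    refine ⟨s * fromBlocks A 0 0 (fromCols (1 : 𝒞.Hom κ₁ κ₁) 0) * v.ct,
      v * (fromBlocks W 0 0 (fromRows (1 : 𝒞.Hom κ₁ κ₁) 0) * s.ct), ?_, ?_⟩
    · rw [Hm.mul_assoc, ← Hm.mul_assoc v.ct, hv.2, Hm.one_mul, Hm.mul_assoc,
        ← Hm.mul_assoc (fromBlocks A 0 0 _), fromBlocks_multiply]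
      simp [a1, fromCols_mul_fromRows, hs.1]
    · rw [Hm.mul_assoc v, Hm.mul_assoc s, Hm.mul_assoc _ s.ct, ← Hm.mul_assoc s.ct, hs.2,
        Hm.one_mul, ← Hm.mul_assoc (fromBlocks W 0 0 _), fromBlocks_multiply, ← Hm.mul_assoc,
        fromRows_mul_fromCols]
      simp
  · have := USchur_reindex (F := 1 - fromBlocks (dsum E (fromBlocks 1 0 0 0)) 0 0
      (fromBlocks 1 0 0 0)) ⟨b' + κ₁, fromBlocks A' 0 0 (fromCols 0 (1 : 𝒞.Hom κ₁ κ₁)),
      fromBlocks W' 0 0 (fromRows 0 (1 : 𝒞.Hom κ₁ κ₁)), ?_, ?_⟩ hv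
    · rwa [Hm.mul_sub, Hm.sub_mul, Hm.mul_one, hv.1, ← e] at this
    · simp [fromBlocks_multiply, a1', fromCols_mul_fromRows]
    · rw [fromBlocks_multiply, a2', eq_sub_iff_add_eq, fromBlocks_add, fromRows_mul_fromCols]
      simp [fromBlocks_add]

theorem exists_frame {E : 𝒞.Hom (J + J) (J + J)} (hE : FreeOn J E) (hE' : FreeIdem (1 - E))
    (e1 : Eqv η 0 (E * hypF 𝒞 J * E.ct)) (e2 : Eqv η 0 ((1 - E) * hypF 𝒞 J * (1 - E).ct)) :
    ∃ U : 𝒞.Hom (J + J) (J + J), Uni η U ∧ U.toRows₁ * E = U.toRows₁ ∧ U.toRows₂ * E = 0 := by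
  obtain ⟨A, W, a1, a2⟩ := hE
  obtain ⟨b', A', W', a1', a2'⟩ := hE'
  exact OFrame_J a1 a2 a1' a2' e1 e2

end Pool.Agent.Work.MP_9d1ffa_al.Ct
end

-- merged part: Pool.Agent.Work.MP_9d1ffa_al.Ct.CEx0
section
/-! Existence of edge frames: the proofs (the interface is in CEx). -/

namespace Pool.Agent.Work.MP_9d1ffa_al.Ct

open MonoidAlgebra

set_option linter.unusedSectionVars false
set_option linter.unusedVariables false

section Pad

variable {O : Type 1} [Add O] [Zero O] {𝒞 : SCat O} {I J κ L M : O}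

variable (κ) in
/-- zero rows inserted -/
def OEx_pd (Y : 𝒞.Hom (J + J) L) : 𝒞.Hom ((J + κ) + (J + κ)) L :=
  fromRows (fromRows Y.toRows₁ 0) (fromRows Y.toRows₂ 0)

theorem OEx_pd_mul (Y : 𝒞.Hom (J + J) L) (B : 𝒞.Hom L M) :
    OEx_pd κ Y * B = OEx_pd κ (Y * B) := by
  simp [OEx_pd, toRows₁_mul, toRows₂_mul]

theorem OEx_pd_add (Y Y' : 𝒞.Hom (J + J) L) :
    OEx_pd κ (Y + Y') = OEx_pd κ Y + OEx_pd κ Y' := by
  simp [OEx_pd]

theorem OEx_pd_sub (Y Y' : 𝒞.Hom (J + J) L) :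
    OEx_pd κ (Y - Y') = OEx_pd κ Y - OEx_pd κ Y' := by
  simp [OEx_pd]

theorem OEx_fromCols_add (a a' : 𝒞.Hom I J) (b b' : 𝒞.Hom I L) :
    fromCols a b + fromCols a' b' = fromCols (a + a') (b + b') := fromCols_add _ _ _ _

theorem OEx_fromCols_sub (a a' : 𝒞.Hom I J) (b b' : 𝒞.Hom I L) :
    fromCols a b - fromCols a' b' = fromCols (a - a') (b - b') := fromCols_sub _ _ _ _

theorem OEx_toCols₁_mul (a : 𝒞.Hom I J) (b : 𝒞.Hom J (L + M)) :
    (a * b).toCols₁ = a * b.toCols₁ := toCols₁_mul _ _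

theorem OEx_toCols₂_mul (a : 𝒞.Hom I J) (b : 𝒞.Hom J (L + M)) :
    (a * b).toCols₂ = a * b.toCols₂ := toCols₂_mul _ _

theorem OEx_toRows₁_mul (a : 𝒞.Hom (L + M) J) (b : 𝒞.Hom J I) :
    (a * b).toRows₁ = a.toRows₁ * b := toRows₁_mul _ _

theorem OEx_toRows₂_mul (a : 𝒞.Hom (L + M) J) (b : 𝒞.Hom J I) :
    (a * b).toRows₂ = a.toRows₂ * b := toRows₂_mul _ _

theorem OEx_dsum_pd (U : 𝒞.Hom (J + J) (J + J))
    (N : 𝒞.Hom (κ + κ) (κ + κ)) (Y : 𝒞.Hom (J + J) L) :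
    dsum U N * OEx_pd κ Y = OEx_pd κ (U * Y) := by
  obtain ⟨a, b, c, d, rfl⟩ := exists_blocks U
  obtain ⟨y, z, rfl⟩ := exists_rows Y
  simp [OEx_pd, dsum, fromBlocks_mul_fromRows]

theorem OEx_col₁ (U : 𝒞.Hom (J + J) (J + J)) :
    (dsum U (1 : 𝒞.Hom (κ + κ) (κ + κ))).toCols₁ =
      fromCols (OEx_pd κ U.toCols₁) (fromRows (fromRows 0 1) 0) := by
  obtain ⟨a, b, c, d, rfl⟩ := exists_blocks U
  rw [← fromBlocks_one (I := κ) (J := κ), dsum_blocks]
  refine ext_cols ?_ ?_ <;> simp [OEx_pd]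

theorem OEx_col₂ (U : 𝒞.Hom (J + J) (J + J)) :
    (dsum U (1 : 𝒞.Hom (κ + κ) (κ + κ))).toCols₂ =
      fromCols (OEx_pd κ U.toCols₂) (fromRows 0 (fromRows 0 1)) := by
  obtain ⟨a, b, c, d, rfl⟩ := exists_blocks U
  rw [← fromBlocks_one (I := κ) (J := κ), dsum_blocks]
  refine ext_cols ?_ ?_ <;> simp [OEx_pd]

theorem OEx_hyp (E : 𝒞.Hom I (J + J)) :
    E * hypF 𝒞 J * E.ct = E.toCols₁ * E.toCols₂.ct := by
  conv_lhs => rw [← fromCols_toCols E]
  rw [hypF, fromCols_mul_fromBlocks, conjTranspose_fromCols_eq_fromRows_conjTranspose,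
    fromCols_mul_fromRows]
  simp

theorem OEx_eqv_smul {η : ℤˣ} {a : 𝒞.Hom I I} (h : Eqv η 0 a) (n : ℤ) : Eqv η 0 (n • a) := by
  obtain ⟨χ, rfl⟩ := h
  exact ⟨n • χ, by rw [zero_add, zero_add, smul_sub, ct_zsmul, smul_comm n]⟩

theorem OEx_eqv_ct {η : ℤˣ} {a : 𝒞.Hom I I} (h : Eqv η 0 a) : Eqv η 0 a.ct := by
  have := OEx_eqv_smul (h.trans (eqv_swap a)) η
  rwa [eps_eps] at this

end Pad

variable {X Γ V A : Type} [Group Γ] [Group V] [Group A] {ε : ℤˣ} {ρ : Γ →* Equiv.Perm X}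
  {ρV : V →* Equiv.Perm X} {ρA : A →* Equiv.Perm X} {I J J' κ κ' : Ob X}
  {W : (OC ρV).Hom (I + I) (I + I)} {θ : (OC ρV).Hom I I} {P : (OC ρV).Hom I J}
  {Q : (OC ρV).Hom I J'} {U : (OC ρA).Hom (J + J) (J + J)}

theorem OEx_eqv_mp {η : ℤˣ} (f : AH ρV ρ) {a : (OC ρV).Hom I I} (h : Eqv η 0 a) :
    Eqv η 0 (mp f a) := by
  obtain ⟨χ, rfl⟩ := h
  exact ⟨mp f χ, by rw [zero_add, zero_add, mp_sub, mp_zsmul, mp_ct]⟩

theorem OEx_eqv_rs {η : ℤˣ} {L : Ob X} (f : AH ρV ρ) (hf : Function.Injective f.f)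
    {a : (OC ρ).Hom L L} (h : Eqv η 0 a) : Eqv η 0 (rs f hf a) := by
  obtain ⟨χ, rfl⟩ := h
  exact ⟨rs f hf χ, by rw [zero_add, zero_add, rs_sub, rs_zsmul, rs_ct]⟩

theorem OEx_mp_pd {L : Ob X} (f : AH ρV ρ) (Y : (OC ρV).Hom (J + J) L) :
    mp f (OEx_pd κ Y) = OEx_pd κ (mp f Y) := by
  rw [OEx_pd, mp_fromRows, mp_fromRows, mp_fromRows, mp_zero, OEx_pd, mp_toRows₁, mp_toRows₂]

theorem OEx_side_pd {L : Ob X} {C : TC ρ ρV ρA} {Y : (OC ρ).Hom (J + J) L} (h : C.Side Y) :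
    C.Side (OEx_pd κ Y) :=
  TC.side_fromRows.2 ⟨sup_fromRows.2 ⟨h.1, sup_zero⟩, sup_fromRows.2 ⟨h.2, sup_zero⟩⟩

theorem OEx_cols_dg {L : Ob X} {g : Γ} (a : (OC ρ).Hom L J) (b : (OC ρ).Hom L κ)
    (T : TU ρ g J J') (T' : TU ρ g κ κ') :
    fromCols a b * (T.sum T').T = fromCols (a * T.T) (b * T'.T) := by
  rw [TU.sum_T, fromCols_mul_fromBlocks]
  simp

theorem OEx_cols_dg' {L : Ob X} {g : Γ} (a : (OC ρ).Hom L J') (b : (OC ρ).Hom L κ')
    (T : TU ρ g J J') (T' : TU ρ g κ κ') :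
    fromCols a b * (T.sum T').T.ct = fromCols (a * T.T.ct) (b * T'.T.ct) := by
  rw [TU.sum_T, fromBlocks_conjTranspose, fromCols_mul_fromBlocks]
  simp

theorem OEx_mp_cols {L : Ob X} (f : AH ρV ρ) (B : (OC ρV).Hom L I) (P : (OC ρV).Hom I J) :
    mp f (B * fromCols P (0 : (OC ρV).Hom I κ)) = fromCols (mp f (B * P)) 0 := by
  rw [mul_fromCols, Hm.mul_zero, mp_fromCols, mp_zero]

theorem OEx_lin_pad (D : TC ρ ρV ρA) (T : TU ρ D.t J J') (T' : TU ρ D.t κ κ') (θ : (OC ρV).Hom I I)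
    (P : (OC ρV).Hom I J) (Q : (OC ρV).Hom I J') :
    D.lin (T.sum T') θ (fromCols P 0) (fromCols Q 0) = D.lin T θ P Q := by
  rw [TC.lin, TC.lin, mp_fromCols, mp_fromCols, mp_zero, mp_zero, OEx_cols_dg,
    conjTranspose_fromCols_eq_fromRows_conjTranspose, fromCols_mul_fromRows]
  simp

theorem OEx_sys_pad (D : TC ρ ρV ρA) (T : TU ρ D.t J J') (T' : TU ρ D.t κ κ') :
    D.sys (T.sum T') ε W θ (fromCols P 0) (fromCols Q 0) = D.sys T ε W θ P Q := by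
  rw [TC.sys, OEx_lin_pad, TC.sys]

theorem OEx_sig_pad (D : TC ρ ρV ρA) (T : TU ρ D.t J J') (T' : TU ρ D.t κ κ') :
    D.sig (T.sum T') ε (fromCols P 0) (fromCols Q 0) = OEx_pd κ (D.sig T ε P Q) := by
  rw [TC.sig, TC.sig, mp_fromCols, mp_fromCols, mp_zero, mp_zero,
    conjTranspose_fromCols_eq_fromRows_conjTranspose,
    conjTranspose_fromCols_eq_fromRows_conjTranspose, TU.sum_T, fromBlocks_mul_fromRows, OEx_pd,
    toRows₁_fromRows, toRows₂_fromRows]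
  congr 1
  · simp [fromRows_neg]
  · simp [fromRows_smul]

theorem OEx_ef_pad {C : TC ρ ρV ρA} {T : TU ρ C.t J J'} (h : C.EF T ε W θ P Q U)
    (T' : TU ρ C.t κ κ') : C.EF (T.sum T') ε W θ (fromCols P 0) (fromCols Q 0)
      (dsum U (1 : (OC ρA).Hom (κ + κ) (κ + κ))) := by
  obtain ⟨hU, Y, h1, h2, h3, h4⟩ := h
  refine ⟨hU.dsum uni_one, OEx_pd κ Y, ?_, OEx_side_pd h2, ?_, ?_⟩
  · rw [OEx_sys_pad, OEx_sig_pad, OEx_pd_mul, h1, mp_dsum, OEx_dsum_pd]
  · rw [OEx_mp_cols, mul_fromCols, Hm.mul_zero, OEx_col₁, mp_fromCols, OEx_fromCols_add,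
      OEx_cols_dg, OEx_pd_mul, OEx_mp_pd, ← OEx_pd_add, OEx_pd_mul, zero_add, mp_fromRows,
      mp_fromRows, mp_zero, mp_zero, mp_one, fromRows_mul, fromRows_mul, Hm.zero_mul,
      Hm.zero_mul, Hm.one_mul]
    refine TC.side_fromCols.2 ⟨OEx_side_pd h3, TC.side_fromRows.2 ⟨?_, sup_zero⟩⟩
    exact sup_fromRows.2 ⟨sup_zero, T'.sup.mono fun g e => e ▸ C.tpos⟩
  · rw [OEx_mp_cols, mul_fromCols, Hm.mul_zero, OEx_cols_dg', OEx_col₂, mp_fromCols,
      OEx_fromCols_sub, OEx_pd_mul, OEx_pd_mul, OEx_mp_pd, ← OEx_pd_sub, Hm.zero_mul, zero_sub,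
      mp_fromRows, mp_fromRows, mp_zero, mp_zero, mp_one]
    refine TC.side_fromCols.2 ⟨OEx_side_pd h4, TC.Side.neg (TC.side_fromRows.2 ⟨sup_zero, ?_⟩)⟩
    exact sup_fromRows.2 ⟨sup_zero, sup_one.mono fun g e => e ▸ C.one⟩

section Cuts

variable {L : Ob X} (C : TC ρ ρV ρA) (T : TU ρ C.t J J')

theorem OEx_sup_v {M N : Ob X} {y : (OC ρ).Hom L M} (hy : Sup C.pos y)
    (B : (OC ρV).Hom M N) : Sup C.pos (y * mp C.vh B) :=
  hy.mul (sup_mp _ B) (by
    rintro a _ ha ⟨b, rfl⟩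
    exact (C.right a b).2 ha)

theorem OEx_sup_v' {M N : Ob X} {y : (OC ρ).Hom L M}
    (hy : Sup (fun g => ¬ C.pos g) y) (B : (OC ρV).Hom M N) :
    Sup (fun g => ¬ C.pos g) (y * mp C.vh B) :=
  hy.mul (sup_mp _ B) (by
    rintro a _ ha ⟨b, rfl⟩ e
    exact ha ((C.right a b).1 e))

theorem OEx_sup_va {M N : Ob X} (B : (OC ρA).Hom M L) {y : (OC ρ).Hom L N}
    (hy : Sup C.pos y) : Sup C.pos (mp C.ah B * y) :=
  (sup_mp _ B).mul hy (by
    rintro _ b ⟨a, rfl⟩ hb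
    exact (C.left a b).2 hb)

theorem OEx_sup_va' {M N : Ob X} (B : (OC ρA).Hom M L) {y : (OC ρ).Hom L N}
    (hy : Sup (fun g => ¬ C.pos g) y) : Sup (fun g => ¬ C.pos g) (mp C.ah B * y) :=
  (sup_mp _ B).mul hy (by
    rintro _ b ⟨a, rfl⟩ hb e
    exact hb ((C.left a b).1 e))

theorem OEx_sup_mp {M N : Ob X} (B : (OC ρA).Hom M N) :
    Sup (fun g => ¬ C.pos g) (mp C.ah B) :=
  (sup_mp _ B).mono (by
    rintro _ ⟨a, rfl⟩
    exact C.npos_v _)

theorem OEx_rs_pos {M : Ob X} {y : (OC ρ).Hom L M} (hy : Sup C.pos y) :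
    rs C.ah C.hVA y = 0 :=
  hy.rs_zero fun x => C.npos_v _

theorem OEx_rs_neg {y : (OC ρ).Hom L J'} (hy : Sup (fun g => ¬ C.pos g) y) :
    rs C.ah C.hVA (y * T.T.ct) = 0 :=
  (hy.mul T.sup_ct (T := fun g => ¬ C.pos (g * C.t)) (by
    rintro a _ ha rfl
    rwa [inv_mul_cancel_right])).rs_zero fun x e => e (C.pos_vat x)

theorem OEx_bd (y : (OC ρ).Hom L I) : rs C.ah C.hVA (y * C.bd T W P Q) =
    fromCols (rs C.ah C.hVA (y * mp C.vh (W.toBlocks₁₁ * P)))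
      (rs C.ah C.hVA (y * mp C.vh (W.toBlocks₁₁ * Q) * T.T.ct)) := by
  rw [TC.bd, mul_fromCols, rs_fromCols, Hm.mul_assoc]

theorem OEx_iso (hW : Uni (-ε) W) (z : (OC ρA).Hom L (J + J)) (y : (OC ρ).Hom L I)
    (e : y * C.sys T ε W θ P Q = mp C.ah z * C.sig T ε P Q) :
    Eqv (-ε) 0
      (-(z.toCols₁ * (rs C.ah C.hVA (y * mp C.vh (W.toBlocks₁₁ * Q) * T.T.ct)).ct) +
        (ε : ℤ) • (z.toCols₂ * (rs C.ah C.hVA (y * mp C.vh (W.toBlocks₁₁ * P))).ct)) := by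
  have h1 : Eqv (-ε) 0 (W.toBlocks₁₁ * W.toBlocks₁₂.ct) := by
    rw [← fromBlocks_toBlocks W] at hW
    exact (uni_iff.1 hW).2.1
  have h2 := (OEx_eqv_mp C.vh (OEx_eqv_ct h1)).conj y
  have h3 : Eqv (-ε) 0 (sy ε (y * mp C.vh W.toBlocks₁₁ * C.lin T θ P Q *
      (y * mp C.vh W.toBlocks₁₁).ct)) :=
    ⟨_, by rw [zero_add, Units.val_neg, neg_smul, sub_neg_eq_add, sy]⟩
  have h4 := h3.add h2.neg
  rw [Hm.mul_zero, Hm.zero_mul, neg_zero, add_zero] at h4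
  have h5 : sy ε (y * mp C.vh W.toBlocks₁₁ * C.lin T θ P Q * (y * mp C.vh W.toBlocks₁₁).ct) +
      -(y * mp C.vh (W.toBlocks₁₁ * W.toBlocks₁₂.ct).ct * y.ct) =
      y * C.sys T ε W θ P Q * (y * mp C.vh W.toBlocks₁₁).ct := by
    rw [sy_conj, TC.sys, sysM, mp_toBlocks₁₁, mp_toBlocks₁₂, conjTranspose_mul W.toBlocks₁₁,
      conjTranspose_conjTranspose, mp_mul, mp_ct, conjTranspose_mul y, ← sub_eq_add_neg]
    simp only [Hm.mul_sub, Hm.sub_mul, Hm.mul_assoc]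
  rw [h5, e, Hm.mul_assoc] at h4
  have h6 := OEx_eqv_rs C.ah C.hVA h4
  have h7 : C.sig T ε P Q * (y * mp C.vh W.toBlocks₁₁).ct =
      fromRows (-(y * mp C.vh (W.toBlocks₁₁ * Q) * T.T.ct).ct)
        ((ε : ℤ) • (y * mp C.vh (W.toBlocks₁₁ * P)).ct) := by
    rw [TC.sig, fromRows_mul]
    simp only [mp_mul, conjTranspose_mul, conjTranspose_conjTranspose, Hm.neg_mul, Hm.smul_mul,
      Hm.mul_assoc]
  rw [rs_mp_mul, h7, rs_fromRows, rs_neg, rs_zsmul, rs_ct, rs_ct, ← fromCols_toCols z,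
    fromCols_mul_fromRows, Hm.mul_neg, Hm.mul_smul] at h6
  exact h6

theorem OEx_fm_sig : fm C.pos (C.sig T ε P Q) =
    mp C.ah (fromBlocks 1 0 0 0 : (OC ρA).Hom (J + J) (J + J)) * C.sig T ε P Q := by
  have h1 : Sup C.pos (T.T * (mp C.vh Q).ct) := by
    rw [← mp_ct]
    exact OEx_sup_v C (T.sup.mono fun g e => e ▸ C.tpos) _
  have h2 : Sup (fun g => ¬ C.pos g) (mp C.vh P).ct := by
    rw [← mp_ct]
    refine (sup_mp _ _).mono ?_
    rintro _ ⟨a, rfl⟩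
    exact C.npos_v a
  rw [TC.sig, fm_fromRows, h1.neg.fm_eq, (h2.zsmul _).fm_zero fun g e => e, mp_blocks, mp_one,
    mp_zero, fromBlocks_mul_fromRows]
  simp

theorem OEx_e₁ : (fromBlocks 1 0 0 0 : (OC ρA).Hom (J + J) (J + J)) =
    fromCols (fromRows 1 0) 0 := by
  rw [← fromCols_fromRows_eq_fromBlocks, fromRows_zero]

theorem OEx_mul_e (z : (OC ρA).Hom L (J + J)) :
    z * (fromRows 1 0 : (OC ρA).Hom (J + J) J) = z.toCols₁ := by
  conv_lhs => rw [← fromCols_toCols z]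
  rw [fromCols_mul_fromRows, Hm.mul_one, Hm.mul_zero, add_zero]

theorem OEx_frame {E : (OC ρA).Hom (J + J) (J + J)} {Y : (OC ρ).Hom (J + J) I}
    (h1 : Y * C.sys T ε W θ P Q = C.sig T ε P Q)
    (h2 : E = fromBlocks 1 0 0 0 + rs C.ah C.hVA (Y * C.bd T W P Q))
    (h3 : mp C.ah E * Y = fm C.pos Y) (hU : Uni (-ε) U) (u1 : U.toRows₁ * E = U.toRows₁)
    (u2 : U.toRows₂ * E = 0) : C.EF T ε W θ P Q U := by
  have s1 : Sup C.pos (mp C.ah U.toRows₁ * Y) := by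
    rw [← u1, mp_mul, Hm.mul_assoc, h3]
    exact OEx_sup_va C _ (sup_fm _ _)
  have s2 : Sup (fun g => ¬ C.pos g) (mp C.ah U.toRows₂ * Y) := by
    rw [← fm_add_not C.pos Y, Hm.mul_add, ← h3, ← Hm.mul_assoc, ← mp_mul, u2, mp_zero,
      Hm.zero_mul, zero_add]
    exact OEx_sup_va' C _ (sup_fm _ _)
  rw [OEx_bd, OEx_e₁, OEx_fromCols_add, zero_add] at h2
  have c1 : U.toCols₁.toRows₁ = U.toRows₁.toCols₁ := (Hm.mul_assoc _ _ _).symm
  have c2 : U.toCols₁.toRows₂ = U.toRows₂.toCols₁ := (Hm.mul_assoc _ _ _).symm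
  have c3 : U.toCols₂.toRows₁ = U.toRows₁.toCols₂ := (Hm.mul_assoc _ _ _).symm
  have c4 : U.toCols₂.toRows₂ = U.toRows₂.toCols₂ := (Hm.mul_assoc _ _ _).symm
  refine ⟨hU, mp C.ah U * Y, by rw [Hm.mul_assoc, h1], ⟨by rwa [toRows₁_mul, mp_toRows₁],
    by rwa [toRows₂_mul, mp_toRows₂]⟩, ⟨?_, ?_⟩, ⟨?_, ?_⟩⟩
  · rw [toRows₁_mul, toRows₁_add, toRows₁_mul, toRows₁_mul, mp_toRows₁, mp_toRows₁, c1]
    rw [Hm.add_mul]
    refine ((OEx_sup_v C s1 _).mul T.sup ?_).add ((sup_mp _ _).mul T.sup ?_)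
    · rintro a _ ha rfl
      exact C.up a ha
    · rintro _ _ ⟨a, rfl⟩ rfl
      exact C.pos_vat a
  · rw [toRows₂_mul, toRows₂_add, toRows₂_mul, toRows₂_mul, mp_toRows₂, mp_toRows₂, c2]
    have a1 := (OEx_sup_v' C s2 (W.toBlocks₁₁ * P)).add (OEx_sup_mp C U.toRows₂.toCols₁)
    have a2 : rs C.ah C.hVA (mp C.ah U.toRows₂ * Y * mp C.vh (W.toBlocks₁₁ * P) +
        mp C.ah U.toRows₂.toCols₁) = 0 := by
      have := congrArg SCat.Hom.toCols₁ u2
      rw [OEx_toCols₁_mul, h2, toCols₁_fromCols, Hm.mul_add, OEx_mul_e] at this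
      rw [rs_add, rs_mp, Hm.mul_assoc, rs_mp_mul, add_comm]
      exact this.trans toCols₁_zero
    have a3 := C.fm_t T (mp C.ah U.toRows₂ * Y * mp C.vh (W.toBlocks₁₁ * P) +
      mp C.ah U.toRows₂.toCols₁)
    rw [a2, a1.fm_zero fun g e => e, mp_zero, Hm.zero_mul, add_zero] at a3
    rw [← fm_add_not C.pos (_ * T.T), a3, zero_add]
    exact sup_fm _ _
  · rw [toRows₁_sub, toRows₁_mul, toRows₁_mul, toRows₁_mul, mp_toRows₁, mp_toRows₁, c3]
    have a1 := OEx_sup_v C s1 (W.toBlocks₁₁ * Q)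
    have a2 : rs C.ah C.hVA (mp C.ah U.toRows₁ * Y * mp C.vh (W.toBlocks₁₁ * Q) * T.T.ct) =
        U.toRows₁.toCols₂ := by
      have := congrArg SCat.Hom.toCols₂ u1
      rw [OEx_toCols₂_mul, h2, toCols₂_fromCols] at this
      rw [Hm.mul_assoc, Hm.mul_assoc, rs_mp_mul, ← Hm.mul_assoc]
      exact this
    have a3 := C.fm_tinv T (mp C.ah U.toRows₁ * Y * mp C.vh (W.toBlocks₁₁ * Q))
    rw [a2, a1.fm_eq] at a3
    rw [← a3]
    exact sup_fm _ _
  · rw [toRows₂_sub, toRows₂_mul, toRows₂_mul, toRows₂_mul, mp_toRows₂, mp_toRows₂, c4]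
    refine ((OEx_sup_v' C s2 _).mul T.sup_ct ?_).sub (OEx_sup_mp C _)
    rintro a _ ha rfl
    exact C.npos_tinv ha

end Cuts

/-- an idempotent whose image and kernel are the two edge Lagrangians -/
theorem TC.exists_idem (C : TC ρ ρV ρA) (T : TU ρ C.t J J') (hW : Uni (-ε) W)
    (hs : IsUnit (C.sys T ε W θ P Q)) :
    ∃ (E : (OC ρA).Hom (J + J) (J + J)) (Y : (OC ρ).Hom (J + J) I), E * E = E ∧
      Y * C.sys T ε W θ P Q = C.sig T ε P Q ∧
      E = fromBlocks 1 0 0 0 + rs C.ah C.hVA (Y * C.bd T W P Q) ∧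
      mp C.ah E * Y = fm C.pos Y ∧
      Eqv (-ε) 0 (E * hypF (OC ρA) J * E.ct) ∧
      Eqv (-ε) 0 ((1 - E) * hypF (OC ρA) J * (1 - E).ct) := by
  obtain ⟨u, hu⟩ := hs
  have m1 : C.sys T ε W θ P Q * u.inv = 1 := hu ▸ u.val_inv
  have m2 : u.inv * C.sys T ε W θ P Q = 1 := hu ▸ u.inv_val
  obtain ⟨Y, hY⟩ : ∃ Y : (OC ρ).Hom (J + J) I, Y * C.sys T ε W θ P Q = C.sig T ε P Q :=
    ⟨C.sig T ε P Q * u.inv, by rw [Hm.mul_assoc, m2, Hm.mul_one]⟩
  obtain ⟨E, hE⟩ : ∃ E : (OC ρA).Hom (J + J) (J + J),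
      E = fromBlocks 1 0 0 0 + rs C.ah C.hVA (Y * C.bd T W P Q) := ⟨_, rfl⟩
  have k1 : fm C.pos Y * C.sys T ε W θ P Q = mp C.ah E * C.sig T ε P Q := by
    rw [C.key_pos, hY, OEx_fm_sig, hE, mp_add, Hm.add_mul]
  have k2 : mp C.ah E * Y = fm C.pos Y := by
    rw [← Hm.mul_one (fm C.pos Y), ← m1, ← Hm.mul_assoc, k1, ← hY, Hm.mul_assoc,
      Hm.mul_assoc, m1, Hm.mul_one]
  have k3 : fm (fun g => ¬ C.pos g) Y * C.sys T ε W θ P Q = mp C.ah (1 - E) * C.sig T ε P Q := by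
    rw [mp_sub, mp_one, Hm.sub_mul, Hm.one_mul, ← k1, eq_sub_iff_add_eq', ← Hm.add_mul,
      fm_add_not, hY]
  have r1 := OEx_rs_pos C (OEx_sup_v C (sup_fm C.pos Y) (W.toBlocks₁₁ * P))
  have r2 := OEx_rs_neg C T (OEx_sup_v' C (sup_fm (fun g => ¬ C.pos g) Y) (W.toBlocks₁₁ * Q))
  have hE' := hE
  rw [OEx_bd, OEx_e₁, OEx_fromCols_add, zero_add] at hE'
  have r3 : rs C.ah C.hVA (fm C.pos Y * mp C.vh (W.toBlocks₁₁ * Q) * T.T.ct) = E.toCols₂ := by
    rw [hE', toCols₂_fromCols]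
    conv_rhs => rw [← fm_add_not C.pos Y, Hm.add_mul, Hm.add_mul, rs_add, r2, add_zero]
  have r4 : rs C.ah C.hVA (fm (fun g => ¬ C.pos g) Y * mp C.vh (W.toBlocks₁₁ * P)) =
      -(1 - E).toCols₁ := by
    have : (1 - E).toCols₁ = fromRows 1 0 - E.toCols₁ := by
      simp
    rw [this, hE', toCols₁_fromCols, sub_add_cancel_left, neg_neg]
    conv_rhs => rw [← fm_add_not C.pos Y, Hm.add_mul, rs_add, r1, zero_add]
  refine ⟨E, Y, ?_, hY, hE, k2, ?_, ?_⟩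
  · have a1 := OEx_bd C T (W := W) (P := P) (Q := Q) (fm C.pos Y)
    rw [r1, r3, ← k2, Hm.mul_assoc, rs_mp_mul] at a1
    conv_lhs => rw [show E * E = E * fromBlocks 1 0 0 0 + E * rs C.ah C.hVA (Y * C.bd T W P Q) by
      rw [← Hm.mul_add, ← hE]]
    rw [a1, OEx_e₁, mul_fromCols, OEx_mul_e, Hm.mul_zero, OEx_fromCols_add, add_zero, zero_add,
      fromCols_toCols]
  · have a1 := (OEx_iso C T hW E _ k1).neg
    rw [r1, r3, conjTranspose_zero, Hm.mul_zero, smul_zero, add_zero, neg_neg, neg_zero] at a1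
    rwa [OEx_hyp]
  · have a1 := OEx_eqv_ct (OEx_eqv_smul (OEx_iso C T hW (1 - E) _ k3) (-ε))
    rw [r2, r4, conjTranspose_zero, Hm.mul_zero, neg_zero, zero_add, neg_smul, eps_eps,
      conjTranspose_neg (1 - E).toCols₁, Hm.mul_neg, neg_neg, conjTranspose_mul,
      conjTranspose_conjTranspose] at a1
    rwa [OEx_hyp]

theorem OEx_bd_pad (D : TC ρ ρV ρA) (T : TU ρ D.t J J') (T' : TU ρ D.t κ κ')
    (Y : (OC ρ).Hom (J + J) I) : OEx_pd κ Y * D.bd (T.sum T') W (fromCols P 0) (fromCols Q 0) =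
      dsum (Y * D.bd T W P Q) 0 := by
  rw [TC.bd, TC.bd, OEx_mp_cols, OEx_mp_cols, OEx_cols_dg', Hm.zero_mul, OEx_pd_mul]
  obtain ⟨y, z, rfl⟩ := exists_rows Y
  rw [fromRows_mul_fromCols, fromRows_mul_fromCols, ← fromBlocks_zero (I := κ) (J := κ) (K := κ)
    (L := κ), dsum_blocks]
  refine ext_cols (ext_cols ?_ ?_) (ext_cols ?_ ?_) <;> simp [OEx_pd]

theorem OEx_E_pad (f : AH ρA ρ) (hf : Function.Injective f.f) (M : (OC ρ).Hom (J + J) (J + J)) :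
    fromBlocks 1 0 0 0 + rs f hf (dsum M (0 : (OC ρ).Hom (κ + κ) (κ + κ))) =
      dsum (fromBlocks 1 0 0 0 + rs f hf M) (fromBlocks 1 0 0 0) := by
  obtain ⟨a, b, c, d, rfl⟩ := exists_blocks M
  rw [← fromBlocks_zero (I := κ) (J := κ) (K := κ) (L := κ), dsum_blocks, rs_blocks, rs_blocks,
    rs_blocks, rs_blocks, rs_blocks, rs_blocks, fromBlocks_add, fromBlocks_add, dsum_blocks,
    ← fromBlocks_one (I := J) (J := κ), fromBlocks_add]
  simp [rs_zero]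

theorem OEx_exists_ef {C : TC ρ ρV ρA} {T : TU ρ C.t J J'} (hA : SFI (OC ρA)) (hW : Uni (-ε) W)
    (hs : IsUnit (C.sys T ε W θ P Q)) :
    ∃ (κ κ' : Ob X) (T' : TU ρ C.t κ κ') (U : (OC ρA).Hom ((J + κ) + (J + κ)) ((J + κ) + (J + κ))),
      C.EF (T.sum T') ε W θ (fromCols P 0) (fromCols Q 0) U := by
  obtain ⟨E, Y, h0, h1, h2, -⟩ := C.exists_idem T hW hs
  have h0' : (1 - E) * (1 - E) = 1 - E := by
    rw [Hm.mul_sub, Hm.mul_one, Hm.sub_mul, Hm.one_mul, h0, sub_self, sub_zero]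
  obtain ⟨κ, f1, f2⟩ := exists_padF (stab_oc ρA) (hA _ E h0) (hA _ _ h0')
  have T' := TU.src ρ C.t κ
  have hs' : IsUnit (C.sys (T.sum T') ε W θ (fromCols P 0) (fromCols Q 0)) := by
    rwa [OEx_sys_pad]
  obtain ⟨E', Y', -, k1, k2, k3, k4, k5⟩ := C.exists_idem _ hW hs'
  have e1 : Y' = OEx_pd κ Y := by
    obtain ⟨u, hu⟩ := hs
    have m1 : C.sys T ε W θ P Q * u.inv = 1 := hu ▸ u.val_inv
    rw [OEx_sys_pad, OEx_sig_pad, ← h1, ← OEx_pd_mul] at k1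
    rw [← Hm.mul_one Y', ← m1, ← Hm.mul_assoc, k1, Hm.mul_assoc, m1, Hm.mul_one]
  have e2 : E' = dsum E (fromBlocks 1 0 0 0) := by
    rw [k2, e1, OEx_bd_pad, OEx_E_pad, ← h2]
  rw [← e2] at f1 f2
  obtain ⟨U, u0, u1, u2⟩ := exists_frame f1 f2 k4 k5
  exact ⟨κ, _, T', U, OEx_frame C _ k1 k2 k3 u0 u1 u2⟩

end Pool.Agent.Work.MP_9d1ffa_al.Ct
end

-- merged part: Pool.Agent.Work.MP_9d1ffa_al.Ct.CEx
section
/-! Existence of edge frames. -/

namespace Pool.Agent.Work.MP_9d1ffa_al.Ct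

set_option linter.unusedSectionVars false
set_option linter.unusedVariables false

open MonoidAlgebra

variable {X Γ V A : Type} [Group Γ] [Group V] [Group A] {ε : ℤˣ} {ρ : Γ →* Equiv.Perm X}
  {ρV : V →* Equiv.Perm X} {ρA : A →* Equiv.Perm X} {I J J' K L M N κ κ' : Ob X}
  {C : TC ρ ρV ρA} {T : TU ρ C.t J J'}
  {W : (OC ρV).Hom (I + I) (I + I)} {θ : (OC ρV).Hom I I} {P : (OC ρV).Hom I J}
  {Q : (OC ρV).Hom I J'} {U : (OC ρA).Hom (J + J) (J + J)}

theorem TC.lin_pad (C : TC ρ ρV ρA) (T : TU ρ C.t J J') (T' : TU ρ C.t κ κ') (θ : (OC ρV).Hom I I)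
    (P : (OC ρV).Hom I J) (Q : (OC ρV).Hom I J') :
    C.lin (T.sum T') θ (fromCols P 0) (fromCols Q 0) = C.lin T θ P Q := by
  exact OEx_lin_pad C T T' θ P Q

theorem TC.EF.pad (h : C.EF T ε W θ P Q U) (T' : TU ρ C.t κ κ') :
    C.EF (T.sum T') ε W θ (fromCols P 0) (fromCols Q 0)
      (dsum U (1 : (OC ρA).Hom (κ + κ) (κ + κ))) := by
  exact OEx_ef_pad h T'

theorem TC.exists_ef (hA : SFI (OC ρA)) (hW : Uni (-ε) W) (hs : IsUnit (C.sys T ε W θ P Q)) :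
    ∃ (κ κ' : Ob X) (T' : TU ρ C.t κ κ') (U : (OC ρA).Hom ((J + κ) + (J + κ)) ((J + κ) + (J + κ))),
      C.EF (T.sum T') ε W θ (fromCols P 0) (fromCols Q 0) U := by
  exact OEx_exists_ef hA hW hs

end Pool.Agent.Work.MP_9d1ffa_al.Ct
end

-- merged part: Pool.Agent.Work.MP_9d1ffa_al.Ct.CIns
section
/-! Changing the edge frame by elementary isometries. -/

namespace Pool.Agent.Work.MP_9d1ffa_al.Ct

set_option linter.unusedSectionVars false
set_option linter.unusedVariables false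
set_option linter.unusedSimpArgs false

section Alg

variable {O : Type 1} [Add O] [Zero O] {𝒞 : SCat O} {ε : ℤˣ} {I J J' κ κ' L : O}

/-- the relations between the stable letter and the two images of an isometric projection -/
structure CIns_Rel (t : 𝒞.Hom J J') (ti : 𝒞.Hom J' J) (τ : 𝒞.Hom κ κ') (τi : 𝒞.Hom κ' κ)
    (a : 𝒞.Hom κ J) (b : 𝒞.Hom κ' J') : Prop where
  t1 : t * ti = 1
  t2 : ti * t = 1
  s1 : τ * τi = 1
  s2 : τi * τ = 1
  tc : t.ct = ti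
  sc : τ.ct = τi
  ab : a * t = τ * b
  bb : b * b.ct = 1

variable {t : 𝒞.Hom J J'} {ti : 𝒞.Hom J' J} {τ : 𝒞.Hom κ κ'} {τi : 𝒞.Hom κ' κ} {a : 𝒞.Hom κ J}
  {b : 𝒞.Hom κ' J'}

theorem CIns_Rel.ea (h : CIns_Rel t ti τ τi a b) : a = τ * (b * ti) := by
  rw [← Hm.mul_assoc, ← h.ab, Hm.mul_assoc, h.t1, Hm.mul_one]

theorem CIns_Rel.tic (h : CIns_Rel t ti τ τi a b) : ti.ct = t := by
  rw [← h.tc, conjTranspose_conjTranspose]

theorem CIns_Rel.sic (h : CIns_Rel t ti τ τi a b) : τi.ct = τ := by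
  rw [← h.sc, conjTranspose_conjTranspose]

theorem CIns_can {M N K : O} {x : 𝒞.Hom M N}
    {y : 𝒞.Hom N M} (h : x * y = 1) (z : 𝒞.Hom M K) : x * (y * z) = z := by
  rw [← Hm.mul_assoc, h, Hm.one_mul]

theorem CIns_lin (h : CIns_Rel t ti τ τi a b) (θ : 𝒞.Hom I I) (p : 𝒞.Hom I J)
    (q : 𝒞.Hom I J')
    (c : 𝒞.Hom I (κ + κ')) :
    fromBlocks θ c 0 0 + fromRows (p * (1 - a.ct * a)) (fromRows a (0 : 𝒞.Hom κ' J)) * t *
      (fromRows (q * (1 - b.ct * b)) (fromRows (0 : 𝒞.Hom κ J') b)).ct =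
      fromBlocks (θ + p * t * (1 - b.ct * b) * q.ct) c 0 (fromBlocks 0 τ 0 0) := by
  have e1 : p * (1 - a.ct * a) * t * (q * (1 - b.ct * b)).ct = p * t * (1 - b.ct * b) * q.ct := by
    rw [h.ea]
    simp only [conjTranspose_mul, conjTranspose_sub, conjTranspose_one, conjTranspose_conjTranspose,
      h.tic, h.sc, Hm.mul_sub, Hm.sub_mul, Hm.mul_assoc, Hm.one_mul,
      Hm.mul_one, CIns_can h.t2, CIns_can h.s2, CIns_can h.bb, h.t2]
    abel
  have e2 : p * (1 - a.ct * a) * t * b.ct = 0 := by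
    rw [h.ea]
    simp only [conjTranspose_mul, h.tic, h.sc, Hm.mul_sub, Hm.sub_mul, Hm.mul_assoc,
      Hm.one_mul, Hm.mul_one, CIns_can h.t2, CIns_can h.s2, h.bb, sub_self]
  have e3 : a * t * (q * (1 - b.ct * b)).ct = 0 := by
    rw [h.ab]
    simp only [conjTranspose_mul, conjTranspose_sub, conjTranspose_one, conjTranspose_conjTranspose,
      Hm.mul_sub, Hm.sub_mul, Hm.mul_assoc, Hm.one_mul, CIns_can h.bb, sub_self]
  have e4 : a * t * b.ct = τ := by rw [h.ab, Hm.mul_assoc, h.bb, Hm.mul_one]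
  rw [fromRows_mul _ _ t, fromRows_mul _ _ t, conjTranspose_fromRows_eq_fromCols_conjTranspose,
    conjTranspose_fromRows_eq_fromCols_conjTranspose, fromRows_mul_fromCols, mul_fromCols,
    fromRows_mul, fromRows_mul_fromCols, e1, e2, e3, e4, fromBlocks_add]
  simp

theorem CIns_z (h : CIns_Rel t ti τ τi a b) :
    Z ε (fromBlocks (0 : 𝒞.Hom κ κ) τ (0 : 𝒞.Hom κ' κ) (0 : 𝒞.Hom κ' κ')) :=
  z_lag τ 0 0 τi (by simpa using h.s1) (by simpa using h.s2)

theorem CIns_iso (h : CIns_Rel t ti τ τi a b) (θ : 𝒞.Hom I I) (p : 𝒞.Hom I J)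
    (q : 𝒞.Hom I J') :
    Iso ε (fromBlocks (θ + p * t * q.ct) 0 0 (fromBlocks (0 : 𝒞.Hom κ κ) τ 0 (0 : 𝒞.Hom κ' κ')))
      (fromBlocks (θ + p * t * (1 - b.ct * b) * q.ct)
        (fromCols (-((ε : ℤ) • (p * a.ct))) ((ε : ℤ) • (q * b.ct))) 0 (fromBlocks 0 τ 0 0)) := by
  refine (iso_ext _ _ (fromCols ((ε : ℤ) • (q * b.ct * τi)) (-(p * a.ct * τ)))).trans
    (Iso.of_eqv (eqv_blocks ?_ (Eqv.refl _) ?_))
  · have e : θ + p * t * (1 - b.ct * b) * q.ct = θ + p * t * q.ct + (ε : ℤ) •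
        (fromCols ((ε : ℤ) • (q * b.ct * τi)) (-(p * a.ct * τ)) *
          fromBlocks (0 : 𝒞.Hom κ κ) τ 0 (0 : 𝒞.Hom κ' κ') *
          (fromCols ((ε : ℤ) • (q * b.ct * τi)) (-(p * a.ct * τ))).ct).ct := by
      rw [fromCols_mul_fromBlocks, conjTranspose_fromCols_eq_fromRows_conjTranspose,
        fromCols_mul_fromRows, h.ea]
      simp only [conjTranspose_mul, conjTranspose_neg, ct_zsmul, conjTranspose_conjTranspose,
        h.tic, h.sc, h.sic, Hm.mul_sub, Hm.sub_mul, Hm.mul_assoc, Hm.one_mul,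
        Hm.mul_one, CIns_can h.s2, CIns_can h.s1, Hm.mul_zero, Hm.zero_mul, add_zero,
        zero_add, Hm.smul_mul, Hm.mul_smul, Hm.mul_neg, Hm.neg_mul, smul_neg,
        eps_eps, h.s2, h.tc, conjTranspose_add, conjTranspose_zero, neg_zero, smul_add,
        smul_zero]
      abel
    rw [e]
    exact (Eqv.refl _).add (eqv_swap _)
  · rw [conjTranspose_mul, conjTranspose_conjTranspose, fromBlocks_conjTranspose,
      fromCols_mul_fromBlocks, fromCols_mul_fromBlocks, h.sc]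
    simp only [Hm.mul_assoc, Hm.mul_one, h.s1, h.s2, Hm.mul_zero, add_zero,
      zero_add, Hm.smul_mul, Hm.neg_mul, conjTranspose_zero, smul_zero]
    simp [fromCols_smul]

theorem CIns_cols {M N K : O} {x x' : 𝒞.Hom M N} {y y' : 𝒞.Hom M K} (h : x = x')
    (h' : y = y') : fromCols x y = fromCols x' y' := by rw [h, h']

theorem CIns_sys (h : CIns_Rel t ti τ τi a b) (θ : 𝒞.Hom I I) (p : 𝒞.Hom I J)
    (q : 𝒞.Hom I J')
    (Y : 𝒞.Hom L I) (U₁ U₂ : 𝒞.Hom L J)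
    (hY : Y * sy ε (θ + p * t * q.ct) = fromCols U₁ U₂ * fromRows (-(t * q.ct)) ((ε : ℤ) • p.ct)) :
    fromCols Y (fromCols (-((ε : ℤ) • ((Y * q * ti - U₂) * a.ct))) ((Y * p + U₁) * t * b.ct)) *
      sy ε (fromBlocks (θ + p * t * (1 - b.ct * b) * q.ct)
        (fromCols (-((ε : ℤ) • (p * a.ct))) ((ε : ℤ) • (q * b.ct))) 0 (fromBlocks 0 τ 0 0)) =
      fromCols (U₁ * (1 - a.ct * a) - (ε : ℤ) • (U₂ * (a.ct * a))) (U₁ * (a.ct * a) + U₂ * (1 - a.ct * a)) *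
        fromRows (-(t * (fromRows (q * (1 - b.ct * b)) (fromRows (0 : 𝒞.Hom κ J') b)).ct))
          ((ε : ℤ) • (fromRows (p * (1 - a.ct * a)) (fromRows a (0 : 𝒞.Hom κ' J))).ct) := by
  have hY' : Y * sy ε θ = -(U₁ * (t * q.ct)) + (ε : ℤ) • (U₂ * p.ct) - Y * (p * (t * q.ct)) -
      (ε : ℤ) • (Y * (q * (ti * p.ct))) := by
    rw [fromCols_mul_fromRows, sy_add, Hm.mul_add] at hY
    simp only [sy, conjTranspose_mul, conjTranspose_conjTranspose, h.tc, Hm.mul_assoc,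
      Hm.mul_add, Hm.mul_smul, Hm.mul_neg] at hY ⊢
    rw [← hY]
    abel
  rw [sy_blocks, sy_blocks, sy_add, sy_zero, sy_zero, fromCols_mul_fromBlocks, fromCols_mul_fromRows,
    Hm.mul_add Y, hY', sy, h.ea]
  simp only [conjTranspose_fromRows_eq_fromCols_conjTranspose,
    conjTranspose_fromCols_eq_fromRows_conjTranspose, conjTranspose_zero, smul_zero, add_zero,
    zero_add, fromRows_smul, fromCols_smul, fromCols_neg, mul_fromCols, fromCols_mul_fromRows,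
    fromCols_mul_fromBlocks, fromCols_add]
  refine CIns_cols ?_ (CIns_cols ?_ ?_) <;>
  · simp only [conjTranspose_mul, conjTranspose_neg, ct_zsmul, conjTranspose_conjTranspose,
      conjTranspose_sub, conjTranspose_one, h.tic, h.sc, h.sic, h.tc, Hm.mul_sub,
      Hm.sub_mul, Hm.mul_add, Hm.add_mul, Hm.mul_assoc, Hm.one_mul,
      Hm.mul_one, CIns_can h.s2, CIns_can h.s1, CIns_can h.t1, CIns_can h.t2, CIns_can h.bb,
      Hm.mul_zero, Hm.zero_mul, add_zero, zero_add, Hm.smul_mul, Hm.mul_smul,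
      Hm.mul_neg, Hm.neg_mul, smul_neg, smul_add, smul_sub, eps_eps, h.s1, h.s2, h.t1,
      h.t2, h.bb, neg_zero, smul_zero, neg_neg]
    abel

theorem CIns_third (h : CIns_Rel t ti τ τi a b) (p : 𝒞.Hom I J)
    (q : 𝒞.Hom I J')
    (Y : 𝒞.Hom L I) (U₁ U₂ : 𝒞.Hom L J) :
    (fromCols Y (fromCols (-((ε : ℤ) • ((Y * q * ti - U₂) * a.ct))) ((Y * p + U₁) * t * b.ct)) *
      fromRows (p * (1 - a.ct * a)) (fromRows a (0 : 𝒞.Hom κ' J)) +
      (U₁ * (1 - a.ct * a) - (ε : ℤ) • (U₂ * (a.ct * a)))) * t =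
      (Y * p + U₁) * t * (1 - b.ct * b) + -((ε : ℤ) • (Y * (q * (b.ct * b)))) := by
  rw [fromCols_mul_fromRows, fromCols_mul_fromRows, h.ea]
  simp only [conjTranspose_mul, h.tic, h.sc, Hm.mul_sub,
    Hm.sub_mul, Hm.mul_add, Hm.add_mul, Hm.mul_assoc, Hm.one_mul,
    Hm.mul_one, CIns_can h.s2, CIns_can h.s1, CIns_can h.t1, CIns_can h.t2, CIns_can h.bb,
    Hm.mul_zero, add_zero, Hm.smul_mul, Hm.neg_mul, smul_sub, h.t2]
  abel

theorem CIns_fourth (h : CIns_Rel t ti τ τi a b) (p : 𝒞.Hom I J)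
    (q : 𝒞.Hom I J')
    (Y : 𝒞.Hom L I) (U₁ U₂ : 𝒞.Hom L J) :
    fromCols Y (fromCols (-((ε : ℤ) • ((Y * q * ti - U₂) * a.ct))) ((Y * p + U₁) * t * b.ct)) *
      fromRows (q * (1 - b.ct * b)) (fromRows (0 : 𝒞.Hom κ J') b) * ti -
      (U₁ * (a.ct * a) + U₂ * (1 - a.ct * a)) =
      (Y * q * ti - U₂) * (1 - a.ct * a) + Y * (p * (a.ct * a)) := by
  rw [fromCols_mul_fromRows, fromCols_mul_fromRows, h.ea]
  simp only [conjTranspose_mul, h.tic, h.sc, Hm.mul_sub,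
    Hm.sub_mul, Hm.mul_add, Hm.add_mul, Hm.mul_assoc, Hm.one_mul,
    Hm.mul_one, CIns_can h.s2, CIns_can h.s1, CIns_can h.t1, CIns_can h.t2, CIns_can h.bb,
    Hm.mul_zero, zero_add, Hm.zero_mul]
  abel

theorem CIns_frame (U₁ U₂ : 𝒞.Hom L J) (e : 𝒞.Hom J J) :
    fromCols U₁ U₂ * fromBlocks (1 - e) e (((-ε : ℤˣ) : ℤ) • e) (1 - e) =
      fromCols (U₁ * (1 - e) - (ε : ℤ) • (U₂ * e)) (U₁ * e + U₂ * (1 - e)) := by
  rw [fromCols_mul_fromBlocks, Units.val_neg, neg_smul, Hm.mul_neg, Hm.mul_smul,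
    ← sub_eq_add_neg]

theorem CIns_one : (1 : 𝒞.Hom (I + I) (I + I)).toBlocks₁₁ = 1 := by
  rw [← fromBlocks_one, toBlocks_fromBlocks₁₁]

end Alg

open MonoidAlgebra

variable {X Γ V A : Type} [Group Γ] [Group V] [Group A] {ε : ℤˣ} {ρ : Γ →* Equiv.Perm X}
  {ρV : V →* Equiv.Perm X} {ρA : A →* Equiv.Perm X} {I J J' K L M N κ κ' : Ob X}
  {C : TC ρ ρV ρA} {T : TU ρ C.t J J'}
  {x : L0 (OC ρ) ε} {U : (OC ρA).Hom (J + J) (J + J)}

theorem CIns_rel (T : TU ρ C.t J J') (τ : TU ρ C.t κ κ') (s : (OC ρA).Hom κ J)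
    (hs : s * s.ct = 1) :
    CIns_Rel T.T T.T.ct τ.T τ.T.ct (mp C.ah s) (mp C.vh (C.jm τ T s)) where
  t1 := T.u1
  t2 := T.u2
  s1 := τ.u1
  s2 := τ.u2
  tc := rfl
  sc := rfl
  ab := C.mp_va_dg τ T s
  bb := by rw [← mp_ct, ← TC.jm_ct, ← mp_mul, ← TC.jm_mul, hs, TC.jm_one, mp_one]

theorem TC.Rep.sw (h : C.Rep T ε x U) (s : (OC ρA).Hom κ J) (hs : s * s.ct = 1) :
    C.Rep T ε x (U * fromBlocks (1 - s.ct * s) (s.ct * s) (((-ε : ℤˣ) : ℤ) • (s.ct * s))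
      (1 - s.ct * s)) := by
  obtain ⟨I, θ, P, Q, h1, ⟨h2, Y, y1, y2, y3, y4⟩, h3⟩ := h
  obtain ⟨κ', ⟨τ⟩⟩ : ∃ κ', Nonempty (TU ρ C.t κ κ') := ⟨_, ⟨TU.src ρ C.t κ⟩⟩
  have r := CIns_rel T τ s hs
  obtain ⟨U₁, U₂, rfl⟩ : ∃ U₁ U₂, U = fromCols U₁ U₂ := ⟨_, _, (fromCols_toCols U).symm⟩
  rw [CIns_one, Hm.one_mul, toCols₁_fromCols] at y3
  rw [CIns_one, Hm.one_mul, toCols₂_fromCols] at y4
  rw [TC.sys_one, TC.lin, TC.sig, mp_fromCols] at y1
  have eP : mp C.vh (fromRows (P * mp C.ih (1 - s.ct * s)) (fromRows (mp C.ih s) 0)) =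
      fromRows (mp C.vh P * (1 - (mp C.ah s).ct * mp C.ah s))
        (fromRows (mp C.ah s) (0 : (OC ρ).Hom κ' J)) := by
    rw [mp_fromRows, mp_fromRows, mp_mul, mp_zero, ← TC.mp_va, ← TC.mp_va, mp_sub, mp_one, mp_mul,
      mp_ct]
  have eQ : mp C.vh (fromRows (Q * C.jm T T (1 - s.ct * s)) (fromRows 0 (C.jm τ T s))) =
      fromRows (mp C.vh Q * (1 - (mp C.vh (C.jm τ T s)).ct * mp C.vh (C.jm τ T s)))
        (fromRows (0 : (OC ρ).Hom κ J') (mp C.vh (C.jm τ T s))) := by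
    rw [TC.jm_sub, TC.jm_one, C.jm_mul T τ T, TC.jm_ct]
    simp only [mp_fromRows, mp_mul, mp_zero, mp_sub, mp_one, mp_ct]
  have eL : C.lin T (fromBlocks θ (fromCols (-((ε : ℤ) • (P * (mp C.ih s).ct)))
      ((ε : ℤ) • (Q * (C.jm τ T s).ct))) 0 0)
      (fromRows (P * mp C.ih (1 - s.ct * s)) (fromRows (mp C.ih s) 0))
      (fromRows (Q * C.jm T T (1 - s.ct * s)) (fromRows 0 (C.jm τ T s))) =
      fromBlocks (mp C.vh θ + mp C.vh P * T.T *
          (1 - (mp C.vh (C.jm τ T s)).ct * mp C.vh (C.jm τ T s)) * (mp C.vh Q).ct)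
        (fromCols (-((ε : ℤ) • (mp C.vh P * (mp C.ah s).ct)))
          ((ε : ℤ) • (mp C.vh Q * (mp C.vh (C.jm τ T s)).ct))) 0 (fromBlocks 0 τ.T 0 0) := by
    rw [TC.lin, eP, eQ, mp_blocks, mp_zero, mp_zero, CIns_lin r, mp_fromCols, mp_neg, mp_zsmul,
      mp_zsmul, mp_mul, mp_mul, mp_ct, mp_ct, ← TC.mp_va]
  have hi := CIns_iso (ε := ε) r (mp C.vh θ) (mp C.vh P) (mp C.vh Q)
  have hz := CIns_z (ε := ε) r
  have eU : mp C.ah (U₁ * (1 - s.ct * s) - (ε : ℤ) • (U₂ * (s.ct * s))) =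
      mp C.ah U₁ * (1 - (mp C.ah s).ct * mp C.ah s) -
        (ε : ℤ) • (mp C.ah U₂ * ((mp C.ah s).ct * mp C.ah s)) := by
    simp only [mp_mul, mp_sub, mp_one, mp_ct, mp_zsmul]
  have eU' : mp C.ah (U₁ * (s.ct * s) + U₂ * (1 - s.ct * s)) =
      mp C.ah U₁ * ((mp C.ah s).ct * mp C.ah s) + mp C.ah U₂ * (1 - (mp C.ah s).ct * mp C.ah s) := by
    simp only [mp_mul, mp_sub, mp_add, mp_one, mp_ct]
  have sa : ∀ {K : Ob X} {W : (OC ρ).Hom (J + J) J},
      C.Side W → ∀ B : (OC ρA).Hom J K, C.Side (W * mp C.ah B) := fun hX B => by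
    rw [TC.mp_va]
    exact hX.mul_v _
  refine ⟨I + (κ + κ'),
    fromBlocks θ (fromCols (-((ε : ℤ) • (P * (mp C.ih s).ct))) ((ε : ℤ) • (Q * (C.jm τ T s).ct))) 0 0,
    fromRows (P * mp C.ih (1 - s.ct * s)) (fromRows (mp C.ih s) 0),
    fromRows (Q * C.jm T T (1 - s.ct * s)) (fromRows 0 (C.jm τ T s)), ?_,
    ⟨h2.mul (GenU.sw κ s hs).uni,
      fromCols Y (fromCols
        (-((ε : ℤ) • ((Y * mp C.vh Q * T.T.ct - mp C.ah U₂) * (mp C.ah s).ct)))
        ((Y * mp C.vh P + mp C.ah U₁) * T.T * (mp C.vh (C.jm τ T s)).ct)), ?_, ?_, ?_, ?_⟩, ?_⟩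
  · rw [eL]
    exact NS.iso hi (h1.sum hz.ns)
  · rw [TC.sys_one, eL, TC.sig, eP, eQ, CIns_frame, mp_fromCols, eU, eU']
    exact CIns_sys r _ _ _ _ _ _ y1
  · refine TC.side_fromCols.2 ⟨y2, TC.side_fromCols.2 ⟨?_, ?_⟩⟩
    · rw [← mp_ct]
      exact ((sa y4 _).zsmul _).neg
    · rw [← mp_ct]
      exact y3.mul_v _
  · rw [CIns_one, Hm.one_mul, eP, CIns_frame, toCols₁_fromCols, eU, CIns_third r]
    refine TC.Side.add ?_ (TC.Side.zsmul ?_ _).neg
    · have := y3.mul_v (1 - (C.jm τ T s).ct * C.jm τ T s)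
      rwa [mp_sub, mp_one, mp_mul, mp_ct] at this
    · have := y2.mul_v (Q * ((C.jm τ T s).ct * C.jm τ T s))
      rwa [mp_mul, mp_mul, mp_ct] at this
  · rw [CIns_one, Hm.one_mul, eQ, CIns_frame, toCols₂_fromCols, eU', CIns_fourth r]
    refine TC.Side.add ?_ ?_
    · have := sa y4 (1 - s.ct * s)
      rwa [mp_sub, mp_one, mp_mul, mp_ct] at this
    · have := y2.mul_v (P * ((mp C.ih s).ct * mp C.ih s))
      rwa [mp_mul, mp_mul, mp_ct, ← TC.mp_va] at this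
  · rw [eL, ← cls_iso hi, ← h3]
    exact (cls_sum h1 hz.ns).trans (by rw [(cls_eq_zero hz.ns).2 hz, add_zero])

theorem TC.Rep.mem (h : C.Rep T ε x U) {r : (OC ρA).Hom (J + J) (J + J)}
    (hr : r ∈ RU (OC ρA) (-ε) J) : C.Rep T ε x (U * r) := by
  induction hr using Submonoid.closure_induction_right with
  | one => rwa [Hm.mul_one]
  | mul_right a ha b hb ih =>
    rw [← Hm.mul_assoc]
    cases hb with
    | gl g g' h1 h2 => exact ih.gl g g' h1 h2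
    | sh χ =>
      have := ih.sh χ
      rwa [sy, ← sub_neg_eq_add, ← neg_smul, ← Units.val_neg] at this
    | sw κ s hs => exact ih.sw s hs

theorem TC.Rep.pad (h : C.Rep T ε x U) (T' : TU ρ C.t κ κ') :
    C.Rep (T.sum T') ε x (dsum U (1 : (OC ρA).Hom (κ + κ) (κ + κ))) := by
  obtain ⟨I, θ, P, Q, h1, h2, h3⟩ := h
  exact ⟨I, θ, fromCols P 0, fromCols Q 0, by rwa [TC.lin_pad], h2.pad T', by rwa [TC.lin_pad]⟩

theorem TC.Rep.norm (h : C.Rep T ε x U) (h0 : Nul (-ε) U) :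
    ∃ (L L' : Ob X) (T' : TU ρ C.t L L'), C.Rep T' ε x (1 : (OC ρA).Hom (L + L) (L + L)) := by
  obtain ⟨κ, hm⟩ := h0
  obtain ⟨V, -, h1, -⟩ := (Uni.of_mem hm).inv
  exact ⟨J + κ, _, _, h1 ▸ (h.pad (TU.src ρ C.t κ)).mem (ru_inv hm h1)⟩

end Pool.Agent.Work.MP_9d1ffa_al.Ct
end

-- merged part: Pool.Agent.Work.MP_9d1ffa_al.Ct.SH
section
/-! Changing the quadratic refinement of a form. -/

namespace Pool.Agent.Work.MP_9d1ffa_al.Ct

set_option linter.unusedSectionVars false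
set_option linter.unusedVariables false

variable {O : Type 1} [Add O] [Zero O] {𝒞 : SCat O} {ε η : ℤˣ} {I J K L M : O}

theorem iso_hess {ψ D : 𝒞.Hom I I} (hψ : NS ε ψ)
    (hD : sy ε D = 0) : ∃ X : 𝒞.Hom I I, sy ε X = 0 ∧
      Iso ε (fromBlocks ψ 0 0 (-(ψ - D))) (fromBlocks D 1 0 X) := by
  obtain ⟨μ, h1, h2⟩ := hψ.inv
  have s1 : Iso ε (fromBlocks ψ 0 0 (-(ψ - D))) (fromBlocks D (-sy ε ψ) 0 (-(ψ - D))) := by
    refine (iso_conj _ (g := fromBlocks 1 1 0 1) (g' := fromBlocks 1 (-1) 0 1) ?_ ?_).trans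
      (Iso.of_eqv ?_)
    · simp [fromBlocks_multiply]
    · simp [fromBlocks_multiply]
    · simp only [fromBlocks_multiply, fromBlocks_conjTranspose, conjTranspose_one,
        conjTranspose_zero, Hm.one_mul, Hm.mul_one, Hm.zero_mul, Hm.mul_zero,
        add_zero, zero_add]
      refine eqv_blocks (Eqv.of_eq (by abel)) (Eqv.refl _) ?_
      rw [conjTranspose_zero, smul_zero, add_zero]
      change sy ε (-(ψ - D)) = _
      rw [sy_neg, sub_eq_add_neg, sy_add, sy_neg, hD, neg_zero, add_zero]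
  obtain ⟨φ, hφ⟩ : ∃ φ, φ = μ.ct * -(ψ - D) * μ := ⟨_, rfl⟩
  have s2 : Iso ε (fromBlocks D (-sy ε ψ) 0 (-(ψ - D))) (fromBlocks D 1 0 φ) := by
    refine (iso_conj _ (g := fromBlocks 1 0 0 (-μ.ct)) (g' := fromBlocks 1 0 0 (-(sy ε ψ).ct)) ?_
      ?_).trans (Iso.of_eqv (Eqv.of_eq ?_))
    · simp [fromBlocks_multiply, ← conjTranspose_mul, h1]
    · simp [fromBlocks_multiply, ← conjTranspose_mul, h2]
    · simp only [fromBlocks_multiply, fromBlocks_conjTranspose, conjTranspose_one,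
        conjTranspose_zero, Hm.one_mul, Hm.mul_one, Hm.zero_mul, Hm.mul_zero,
        add_zero, zero_add, conjTranspose_neg, conjTranspose_conjTranspose, h1, hφ,
        mul_neg, neg_mul, neg_neg, neg_zero]
  refine ⟨φ * D * φ.ct, by rw [sy_conj, hD, mul_zero, zero_mul], (s1.trans s2).trans ?_⟩
  refine (iso_conj _ (g := fromBlocks 1 0 (-φ) 1) (g' := fromBlocks 1 0 φ 1) ?_ ?_).trans
    (Iso.of_eqv ?_)
  · simp [fromBlocks_multiply]
  · simp [fromBlocks_multiply]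
  · simp only [fromBlocks_multiply, fromBlocks_conjTranspose, conjTranspose_one,
      conjTranspose_zero, Hm.one_mul, Hm.mul_one, Hm.zero_mul, Hm.mul_zero,
      add_zero, neg_add_cancel]
    refine eqv_blocks (Eqv.refl _) (Eqv.of_eq (by simp)) ?_
    have e : D * φ.ct + (ε : ℤ) • (D.ct * φ.ct) = 0 := by
      rw [← smul_mul_assoc, ← add_mul]
      change sy ε D * _ = _
      rw [hD, zero_mul]
    rw [conjTranspose_zero, smul_zero, add_zero, conjTranspose_mul, conjTranspose_neg, mul_neg,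
      mul_neg, smul_neg, add_right_comm, ← neg_add, e, neg_zero, zero_add]

end Pool.Agent.Work.MP_9d1ffa_al.Ct
end

-- merged part: Pool.Agent.Work.MP_9d1ffa_al.Ct.CHess
section
/-! Changing the quadratic refinement of a controlled form. -/

namespace Pool.Agent.Work.MP_9d1ffa_al.Ct

set_option linter.unusedSectionVars false
set_option linter.unusedVariables false

open MonoidAlgebra

variable {X Γ V A : Type} [Group Γ] [Group V] [Group A] {ε : ℤˣ} {ρ : Γ →* Equiv.Perm X}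
  {ρV : V →* Equiv.Perm X} {ρA : A →* Equiv.Perm X} {I J J' K L M N κ κ' : Ob X}

theorem cls_surj {O : Type 1} [Add O] [Zero O] {𝒞 : SCat O} (x : L0 𝒞 ε) :
    ∃ (n : O) (ψ : 𝒞.Hom n n), NS ε ψ ∧ cls ε ψ = x := by
  obtain ⟨n, ψ, h, rfl⟩ := OL0_q_surj x
  exact ⟨n, ψ, h, OL0_cls h⟩

theorem CHess_w (f : AH ρV ρ) {a : (OC ρV).Hom I I} {b : (OC ρV).Hom J J} (h : OL0W ε a b) :
    OL0W ε (mp f a) (mp f b) := by
  have := Z.mp (f := f) h
  rwa [mp_blocks, mp_zero, mp_zero, mp_neg] at this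

/-- the map induced by a homomorphism of groups -/
noncomputable def m0 (ε : ℤˣ) (f : AH ρV ρ) : L0 (OC ρV) ε →+ L0 (OC ρ) ε :=
  AddMonoidHom.mk' (Quotient.lift (fun a : Fm (OC ρV) ε => OL0_q _ (a.ns.mp (f := f)))
    fun _ _ h => OL0_q_eq.2 (CHess_w f h)) fun x y => by
    obtain ⟨_, a, ha, rfl⟩ := OL0_q_surj x
    obtain ⟨_, b, hb, rfl⟩ := OL0_q_surj y
    refine OL0_q_iso (Iso.of_eqv (Eqv.of_eq ?_))
    exact (mp_blocks _ _ _ _ _).trans (by rw [mp_zero, mp_zero])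

theorem m0_cls (f : AH ρV ρ) {a : (OC ρV).Hom I I} (ha : NS ε a) :
    m0 ε f (cls ε a) = cls ε (mp f a) := by
  rw [OL0_cls ha, OL0_cls (ha.mp (f := f))]
  rfl

theorem eqv_int (h2 : ∀ g : Γ, g * g = 1 → g = 1) {Y : (OC ρ).Hom I I} (hY : sy ε Y = 0)
    (f : AH ρV ρ) : ∃ N : (OC ρV).Hom I I, sy ε N = 0 ∧ Eqv ε Y (mp f N) := by
  classical
  obtain ⟨_, -⟩ := exists_wellFoundedLT (I.I × I.I × Γ)
  have hx : ∀ k l g, (val Y k l).coeff g + (ε : ℤ) * (val Y l k).coeff g⁻¹ = 0 := fun k l g => by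
    have := congrArg (fun A : (OC ρ).Hom I I => (val A k l).coeff g) hY
    simpa only [sy, val_add, val_zsmul, val_zero, Matrix.add_apply, Matrix.smul_apply, coeff_add,
      coeff_smul, Finsupp.add_apply, Finsupp.smul_apply, coeff_ct, smul_eq_mul, Matrix.zero_apply,
      coeff_zero, Finsupp.zero_apply] using this
  have c1 : Ctl ρV I I (Matrix.diagonal fun k => single 1 ((val Y k k).coeff 1)) := by
    refine (ctl_one ρV I).mono fun i j g h => ?_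
    by_cases e : i = j
    · subst e
      rw [Matrix.diagonal_apply_eq] at h
      by_cases e' : g = 1
      · subst e'
        simp [MonoidAlgebra.one_def]
      · simp [e'] at h
    · simp [e] at h
  have c2 : Ctl ρ I I (Matrix.of fun k l => fil (fun g => (k, l, g) < (l, k, g⁻¹)) (val Y k l)) := by
    refine (val_ctl Y).mono fun i j g h e => h ?_
    rw [Matrix.of_apply, coeff_fil, e, ite_self]
  refine ⟨mk _ c1, val_inj ?_, Eqv.symm ⟨mk _ c2, ?_⟩⟩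
  · rw [val_sy, val_mk, val_zero, MP_9d1ffa_al.sy, Matrix.diagonal_conjTranspose,
      ← Matrix.diagonal_smul, Matrix.diagonal_add, ← Matrix.diagonal_zero]
    congr 1
    funext k
    have := hx k k 1
    rw [inv_one] at this
    rw [Pi.smul_apply, Pi.star_apply, star_single, inv_one, MonoidAlgebra.smul_single,
      ← MonoidAlgebra.single_add, smul_eq_mul, this, MonoidAlgebra.single_zero]
  · refine hom_ext fun k l g => ?_
    have e1 : (val (mp f (mk _ c1)) k l).coeff g =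
        if k = l ∧ g = 1 then (val Y k l).coeff g else 0 := by
      rw [val_mp, val_mk, MP_9d1ffa_al.mp, Matrix.diagonal_map (map_zero _)]
      by_cases h : k = l
      · subst h
        rw [Matrix.diagonal_apply_eq, gm_single, map_one]
        by_cases h' : g = 1
        · simp [h']
        · simp [h']
      · simp [h]
    have e2 := hx k l g
    simp only [val_sub, val_add, val_zsmul, Matrix.sub_apply, Matrix.add_apply, Matrix.smul_apply,
      coeff_sub, coeff_add, coeff_smul, Finsupp.sub_apply, Finsupp.add_apply, Finsupp.smul_apply,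
      coeff_ct, val_mk, Matrix.of_apply, coeff_fil, e1, inv_inv, smul_eq_mul]
    rcases lt_trichotomy (k, l, g) (l, k, g⁻¹) with h | h | h
    · rw [if_pos h, if_neg h.not_gt, if_neg (by rintro ⟨rfl, rfl⟩; simp at h)]
      ring
    · have h3 : k = l ∧ g = 1 := ⟨congrArg Prod.fst h,
        h2 g (mul_eq_one_iff_eq_inv.2 (congrArg (fun t => t.2.2) h))⟩
      rw [if_pos h3, if_neg h.not_lt, if_neg h.not_gt]
      ring
    · rw [if_pos h, if_neg h.not_gt, if_neg (by rintro ⟨rfl, rfl⟩; simp at h)]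
      linarith

theorem CHess_iso {O : Type 1} [Add O] [Zero O] {𝒞 : SCat O} {I : O} {ψ D : 𝒞.Hom I I}
    (hψ : NS ε ψ) (hD : sy ε D = 0) : ∃ X : 𝒞.Hom I I, sy ε X = 0 ∧
      Iso ε (fromBlocks ψ 0 0 (-(ψ - D))) (fromBlocks D 1 0 X) := by
  obtain ⟨μ, h1, h2⟩ := hψ.inv
  have s1 : Iso ε (fromBlocks ψ 0 0 (-(ψ - D))) (fromBlocks D (-sy ε ψ) 0 (-(ψ - D))) := by
    refine (iso_conj _ (g := fromBlocks 1 1 0 1) (g' := fromBlocks 1 (-1) 0 1) ?_ ?_).trans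
      (Iso.of_eqv ?_)
    · simp [fromBlocks_multiply]
    · simp [fromBlocks_multiply]
    · simp only [fromBlocks_multiply, fromBlocks_conjTranspose, conjTranspose_one,
        conjTranspose_zero, Hm.one_mul, Hm.mul_one, Hm.zero_mul, Hm.mul_zero,
        add_zero, zero_add]
      refine eqv_blocks (Eqv.of_eq (by abel)) (Eqv.refl _) ?_
      rw [conjTranspose_zero, smul_zero, add_zero]
      change sy ε (-(ψ - D)) = _
      rw [sy_neg, sub_eq_add_neg, sy_add, sy_neg, hD, neg_zero, add_zero]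
  obtain ⟨φ, hφ⟩ : ∃ φ, φ = μ.ct * -(ψ - D) * μ := ⟨_, rfl⟩
  have s2 : Iso ε (fromBlocks D (-sy ε ψ) 0 (-(ψ - D))) (fromBlocks D 1 0 φ) := by
    refine (iso_conj _ (g := fromBlocks 1 0 0 (-μ.ct)) (g' := fromBlocks 1 0 0 (-(sy ε ψ).ct)) ?_
      ?_).trans (Iso.of_eqv (Eqv.of_eq ?_))
    · simp [fromBlocks_multiply, ← conjTranspose_mul, h1]
    · simp [fromBlocks_multiply, ← conjTranspose_mul, h2]
    · simp only [fromBlocks_multiply, fromBlocks_conjTranspose, conjTranspose_one,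
        conjTranspose_zero, Hm.one_mul, Hm.mul_one, Hm.zero_mul, Hm.mul_zero,
        add_zero, zero_add, conjTranspose_neg, conjTranspose_conjTranspose, h1, hφ,
        mul_neg, neg_mul, neg_neg, neg_zero]
  refine ⟨φ * D * φ.ct, by rw [sy_conj, hD, mul_zero, zero_mul], (s1.trans s2).trans ?_⟩
  refine (iso_conj _ (g := fromBlocks 1 0 (-φ) 1) (g' := fromBlocks 1 0 φ 1) ?_ ?_).trans
    (Iso.of_eqv ?_)
  · simp [fromBlocks_multiply]
  · simp [fromBlocks_multiply]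
  · simp only [fromBlocks_multiply, fromBlocks_conjTranspose, conjTranspose_one,
      conjTranspose_zero, Hm.one_mul, Hm.mul_one, Hm.zero_mul, Hm.mul_zero,
      add_zero, neg_add_cancel]
    refine eqv_blocks (Eqv.refl _) (Eqv.of_eq (by simp)) ?_
    have e : D * φ.ct + (ε : ℤ) • (D.ct * φ.ct) = 0 := by
      rw [← smul_mul_assoc, ← add_mul]
      change sy ε D * _ = _
      rw [hD, zero_mul]
    rw [conjTranspose_zero, smul_zero, add_zero, conjTranspose_mul, conjTranspose_neg, mul_neg,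
      mul_neg, smul_neg, add_right_comm, ← neg_add, e, neg_zero, zero_add]

theorem hess (h2 : ∀ g : Γ, g * g = 1 → g = 1) {ψ D : (OC ρ).Hom I I} (hψ : NS ε ψ)
    (hD : sy ε D = 0) (f : AH ρV ρ) : cls ε ψ - cls ε (ψ - D) ∈ (m0 ε f).range := by
  obtain ⟨Y, hY, hI⟩ := CHess_iso hψ hD
  obtain ⟨N, n1, n2⟩ := eqv_int h2 hD f
  obtain ⟨N', n1', n2'⟩ := eqv_int h2 hY f
  have h1 : NS ε (ψ - D) := by
    unfold NS at hψ ⊢
    rwa [sub_eq_add_neg, sy_add, sy_neg, hD, neg_zero, add_zero]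
  have h3 : NS ε (fromBlocks N 1 0 N') := by
    have := ns_hyp (𝒞 := OC ρV) (ε := ε) (I := I)
    unfold NS at this ⊢
    rw [hypF, sy_blocks, sy_zero] at this
    rwa [sy_blocks, n1, n1']
  refine ⟨cls ε (fromBlocks N 1 0 N'), ?_⟩
  rw [m0_cls f h3, mp_blocks, mp_one, mp_zero, sub_eq_add_neg, ← cls_neg, ← cls_sum hψ h1.neg,
    cls_iso hI]
  exact (cls_iso (Iso.of_eqv (eqv_blocks n2 n2' rfl))).symm

end Pool.Agent.Work.MP_9d1ffa_al.Ct
end

-- merged part: Pool.Agent.Work.MP_9d1ffa_al.Ct.BPm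
section
/-! Maps of bases, finite objects and unipotent morphisms. -/

namespace Pool.Agent.Work.MP_9d1ffa_al.Ct

open MonoidAlgebra

set_option linter.unusedSectionVars false
set_option linter.unusedVariables false

variable {X G : Type} [Group G] {ρ : G →* Equiv.Perm X} {I J K L : Ob X} {ε : ℤˣ}

/-- the morphism is given by the map of bases `e` -/
def IsPm (u : (OC ρ).Hom I J) (e : I.I → J.I) : Prop := val u = pmM e fun _ => 1

theorem isPm_pm1 (e : I.I → J.I) (h2 : ∀ i, J.t (e i) = I.t i) (h3 : ∀ i, J.x (e i) = I.x i) :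
    IsPm (pm1 ρ e h2 h3) e := rfl

theorem isPm_inc (P : I.I → Prop) : IsPm (inc ρ I P) Subtype.val := rfl

theorem IsPm.rows {u : (OC ρ).Hom I K} {v : (OC ρ).Hom J K} {e : I.I → K.I} {e' : J.I → K.I}
    (h : IsPm u e) (h' : IsPm v e') : IsPm (fromRows u v) (Sum.elim e e') := by
  rw [IsPm, val_fromRows, h, h']
  funext i k
  rcases i with i | i <;> rfl

theorem IsPm.sum {u : (OC ρ).Hom I K} {v : (OC ρ).Hom J L} {e : I.I → K.I} {e' : J.I → L.I}
    (h : IsPm u e) (h' : IsPm v e') : IsPm (fromBlocks u 0 0 v) (Sum.map e e') := by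
  rw [IsPm, val_fromBlocks, h, h', val_zero, val_zero]
  funext i k
  rcases i with i | i <;> rcases k with k | k
  · change pmM e (fun _ => (1 : G)) i k = _
    by_cases n : e i = k
    · subst n
      exact (CB_pm_self _ _ _).trans (CB_pm_self (Sum.map e e') (fun _ => 1) (Sum.inl i)).symm
    · exact (CB_pm_ne _ _ n).trans (CB_pm_ne (Sum.map e e') (fun _ => 1) (i := Sum.inl i)
        fun n' => n (Sum.inl_injective n')).symm
  · exact (CB_pm_ne (Sum.map e e') (fun _ => 1) (i := Sum.inl i) Sum.inl_ne_inr).symm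
  · exact (CB_pm_ne (Sum.map e e') (fun _ => 1) (i := Sum.inr i) Sum.inr_ne_inl).symm
  · change pmM e' (fun _ => (1 : G)) i k = _
    by_cases n : e' i = k
    · subst n
      exact (CB_pm_self _ _ _).trans (CB_pm_self (Sum.map e e') (fun _ => 1) (Sum.inr i)).symm
    · exact (CB_pm_ne _ _ n).trans (CB_pm_ne (Sum.map e e') (fun _ => 1) (i := Sum.inr i)
        fun n' => n (Sum.inr_injective n')).symm

theorem IsPm.left {u : (OC ρ).Hom I J} {e : I.I → J.I} (h : IsPm u e) (y : (OC ρ).Hom J K)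
    (i : I.I) (k : K.I) : val (u * y) i k = val y (e i) k := by
  rw [val_mul, h, pmM_cmul, CB_one, one_mul]

theorem IsPm.right {u : (OC ρ).Hom I J} {e : I.I → J.I} (h : IsPm u e) (y : (OC ρ).Hom K J)
    (k : K.I) (i : I.I) : val (y * u.ct) k i = val y k (e i) := by
  rw [val_mul, val_ct, h, cmul_pmM_ct, inv_one, CB_one, mul_one]

theorem IsPm.both {u : (OC ρ).Hom I J} {e : I.I → J.I} (h : IsPm u e) {v : (OC ρ).Hom K L}
    {e' : K.I → L.I} (h' : IsPm v e') (y : (OC ρ).Hom J L) (i : I.I) (k : K.I) :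
    val (u * y * v.ct) i k = val y (e i) (e' k) := by
  rw [h'.right, h.left]

theorem IsPm.iso {u : (OC ρ).Hom I J} {e : I.I → J.I} (h : IsPm u e)
    (he : Function.Injective e) : u * u.ct = 1 := by
  apply val_inj
  rw [val_mul, val_ct, h]
  exact @pmM_mul_ct _ _ _ _ (fun _ _ => Classical.propDecidable _) _ he _

theorem IsPm.unt {u : (OC ρ).Hom I J} {e : I.I → J.I} (h : IsPm u e)
    (he : Function.Bijective e) : Unt u := by
  refine ⟨h.iso he.1, val_inj ?_⟩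
  rw [val_mul, val_ct, h]
  exact @pmM_ct_mul _ _ _ _ (fun _ _ => Classical.propDecidable _) _ he _

theorem IsPm.orth {u : (OC ρ).Hom I J} {e : I.I → J.I} (h : IsPm u e) {v : (OC ρ).Hom K J}
    {e' : K.I → J.I} (h' : IsPm v e') (n : ∀ i k, e i ≠ e' k) : u * v.ct = 0 :=
  val_inj (funext fun i => funext fun k => by
    rw [h'.right, h]
    exact CB_pm_ne _ _ (n i k))

theorem IsPm.sup {u : (OC ρ).Hom I J} {e : I.I → J.I} (h : IsPm u e) : Sup (· = 1) u :=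
  fun k l g hg => by
    rw [h] at hg
    exact (CA_pm hg).2.symm

/-- a morphism whose columns vanish outside the image of `e` -/
theorem IsPm.absorb {u : (OC ρ).Hom I J} {e : I.I → J.I} (h : IsPm u e)
    (he : Function.Injective e) {y : (OC ρ).Hom K J}
    (hy : ∀ k l, val y k l ≠ 0 → ∃ i, e i = l) : y * u.ct * u = y :=
  val_inj (funext fun k => funext fun l => by
    rw [val_mul, h]
    by_cases hl : ∃ i, e i = l
    · obtain ⟨i, rfl⟩ := hl
      rw [cmul_pmM he, CB_one, mul_one, h.right]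
    · rw [cmul_pmM_not _ _ _ fun i e' => hl ⟨i, e'⟩]
      by_contra e'
      exact hl (hy k l (Ne.symm e')))

theorem val_mul_ne {x : (OC ρ).Hom I J} {y : (OC ρ).Hom J K} {i : I.I} {k : K.I}
    (h : val (x * y) i k ≠ 0) : ∃ j, val x i j ≠ 0 ∧ val y j k ≠ 0 := by
  obtain ⟨g, hg⟩ := CA_ne.1 h
  obtain ⟨j, g₁, g₂, -, h1, h2⟩ := coeff_cmul_ne hg
  exact ⟨j, CA_ne.2 ⟨_, h1⟩, CA_ne.2 ⟨_, h2⟩⟩

theorem val_one_ne {i j : I.I} (h : val (1 : (OC ρ).Hom I I) i j ≠ 0) : i = j := by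
  classical
  by_contra e
  exact h (@Matrix.one_apply_ne _ _ (fun _ _ => Classical.propDecidable _) _ _ _ _ e)

theorem val_add_ne {x y : (OC ρ).Hom I J} {i : I.I} {j : J.I} (h : val (x + y) i j ≠ 0) :
    val x i j ≠ 0 ∨ val y i j ≠ 0 := by
  by_contra e
  rw [not_or, not_not, not_not] at e
  exact h (by rw [val_add, Matrix.add_apply, e.1, e.2, add_zero])

theorem val_sy_ne {x : (OC ρ).Hom I I} {i j : I.I} (h : val (sy ε x) i j ≠ 0) :
    val x i j ≠ 0 ∨ val x j i ≠ 0 :=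
  (val_add_ne h).imp_right fun e e' => e (by
    rw [val_zsmul, val_ct, Matrix.smul_apply, Matrix.conjTranspose_apply, e', star_zero, smul_zero])

theorem sub_bij (P : I.I → Prop) : Function.Bijective
    (Sum.elim (Subtype.val : {i // ¬ P i} → I.I) (Subtype.val : {i // P i} → I.I)) := by
  constructor
  · rintro (i | i) (j | j) (h : i.1 = j.1)
    exacts [congrArg _ (Subtype.ext h), (i.2 (h ▸ j.2)).elim, (j.2 (h ▸ i.2)).elim,
      congrArg _ (Subtype.ext h)]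
  · intro i
    by_cases h : P i
    exacts [⟨Sum.inr ⟨i, h⟩, rfl⟩, ⟨Sum.inl ⟨i, h⟩, rfl⟩]

/-- a morphism that lowers a bounded level function -/
theorem nil_of_level {x : (OC ρ).Hom I I} (m : I.I → ℕ) (M : ℕ) (hM : ∀ k, m k ≤ M)
    (h : ∀ k l, val x k l ≠ 0 → m l < m k) : IsNilpotent x := by
  have key : ∀ r k l, val (x ^ r) k l ≠ 0 → m l + r ≤ m k := by
    intro r
    induction r with
    | zero =>
      intro k l e
      rw [pow_zero] at e
      rw [val_one_ne e, add_zero]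
    | succ r ih =>
      intro k l e
      rw [pow_succ] at e
      obtain ⟨j, h1, h2⟩ := val_mul_ne e
      have := ih k j h1
      have := h j l h2
      omega
  refine ⟨M + 1, val_inj (funext fun k => funext fun l => ?_)⟩
  by_contra e
  have := key _ k l e
  have := hM k
  omega

theorem BPm_one {ι R : Type} [Zero R] [One R] (i j : DecidableEq ι) :
    @OfNat.ofNat (Matrix ι ι R) 1 (@One.toOfNat1 _ (@Matrix.one ι R i _ _)) =
      @OfNat.ofNat (Matrix ι ι R) 1 (@One.toOfNat1 _ (@Matrix.one ι R j _ _)) := by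
  rw [Subsingleton.elim i j]

theorem val_pow [Fintype I.I] [DecidableEq I.I] (x : (OC ρ).Hom I I) (r : ℕ) :
    val (x ^ r) = val x ^ r := by
  induction r with
  | zero => rw [pow_zero, pow_zero]; exact BPm_one _ _
  | succ r ih => rw [pow_succ, pow_succ, ← ih]; exact cmul_fintype _ _

/-- a finite basis concentrated at one point -/
noncomputable def finOb (κ : Type) [Finite κ] (y : X) : Ob X where
  I := κ
  t _ := 0
  x _ := Finsupp.single y 1
  fin _ := Set.toFinite _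
  pos _ z := by
    classical
    rw [Finsupp.single_apply]
    split_ifs <;> norm_num
  tot _ := by rw [l1_single, abs_one]
  cpt := ⟨{y}, fun _ z hz => Finsupp.support_single_subset hz⟩

theorem hom_empty [IsEmpty X] (x y : (OC ρ).Hom I J) : x = y :=
  val_inj (funext fun i => by
    have := I.tot i
    rw [Subsingleton.elim (I.x i) 0, l1_zero] at this
    exact absurd this zero_ne_one)

/-- a form on a finite basis that is stably hyperbolic over the group ring -/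
theorem z_of_fin [Fintype I.I] [DecidableEq I.I] {ψ : (OC ρ).Hom I I} (h : StHyp ε (val ψ)) :
    Z ε ψ := by
  rcases isEmpty_or_nonempty X with hX | ⟨⟨y⟩⟩
  · exact ⟨0, 0, 0, 0, hom_empty _ _, hom_empty _ _, 0, hom_empty _ _⟩
  obtain ⟨m, n, g, g', χ, h1, h2, h3⟩ := h
  have f1 : Finite (finOb (Fin n) y + finOb (Fin n) y).I := inferInstanceAs (Finite (Fin n ⊕ Fin n))
  have f2 : Finite (I + (finOb (Fin m) y + finOb (Fin m) y)).I :=
    inferInstanceAs (Finite (I.I ⊕ (Fin m ⊕ Fin m)))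
  refine ⟨finOb (Fin m) y, finOb (Fin n) y, mk g (ctl_finite _), mk g' (ctl_finite _),
    val_inj ((cmul_fintype g g').trans (h1.trans (BPm_one _ _))),
    val_inj ((cmul_fintype g' g).trans (h2.trans (BPm_one _ _))), mk χ (ctl_finite _), val_inj ?_⟩
  have e : ∀ k : ℕ, val (hypF (OC ρ) (finOb (Fin k) y)) = MP_9d1ffa_al.hypF (ZG G) (Fin k) :=
    fun k => val_hyp.trans (congrArg (Matrix.fromBlocks 0 · 0 0) (BPm_one _ _))
  rw [val_sub, val_add, val_zsmul, val_ct, val_mul, val_mul, val_ct, val_fromBlocks, e, e]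
  refine Eq.trans ?_ h3
  exact (cmul_fintype (J := I.I ⊕ (Fin m ⊕ Fin m)) _ _).trans
    (congrArg (· * MP_9d1ffa_al.ct g) (cmul_fintype (J := I.I ⊕ (Fin m ⊕ Fin m)) _ _))

end Pool.Agent.Work.MP_9d1ffa_al.Ct
end

-- merged part: Pool.Agent.Work.MP_9d1ffa_al.Ct.BBar
section
/-! The centre of mass of a measure on a tree, seen from a directed edge. -/

namespace Pool.Agent.Work.MP_9d1ffa_al.Ct

open MonoidAlgebra Pool.Agent.Work.MP_904812_al

set_option linter.unusedSectionVars false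
set_option linter.unusedVariables false

variable {X G V : Type} [Group G] [MulAction G V] {ρ : G →* Equiv.Perm X}

/-- the integral of a function -/
noncomputable def intg (f : X → ℝ) (μ : X →₀ ℝ) : ℝ := μ.sum fun y r => r * f y

theorem intg_sub (f : X → ℝ) (μ ν : X →₀ ℝ) : intg f (μ - ν) = intg f μ - intg f ν :=
  Finsupp.sum_sub_index fun _ _ _ => sub_mul _ _ _

theorem intg_le {f : X → ℝ} {μ : X →₀ ℝ} {C : ℝ} (h : ∀ y ∈ μ.support, |f y| ≤ C) :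
    |intg f μ| ≤ C * l1 μ := by
  rw [l1, Finsupp.sum, Finset.mul_sum]
  refine (Finset.abs_sum_le_sum_abs _ _).trans (Finset.sum_le_sum fun y hy => ?_)
  rw [abs_mul, mul_comm]
  exact mul_le_mul_of_nonneg_right (h y hy) (abs_nonneg _)

theorem intg_map (f : X → ℝ) (φ : X → X) (μ : X →₀ ℝ) :
    intg f (μ.mapDomain φ) = intg (f ∘ φ) μ :=
  Finsupp.sum_mapDomain_index (fun _ => zero_mul _) fun _ _ _ => add_mul _ _ _

theorem intg_add_le {f f' : X → ℝ} {μ : X →₀ ℝ} {c : ℝ} (h0 : ∀ y, 0 ≤ μ y) (h1 : l1 μ = 1)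
    (h : ∀ y, f y + f' y ≤ c) : intg f μ + intg f' μ ≤ c := by
  rw [CL_pos h0] at h1
  rw [intg, intg, Finsupp.sum, Finsupp.sum, ← Finset.sum_add_distrib, ← one_mul c, ← h1,
    Finsupp.sum, Finset.sum_mul]
  refine Finset.sum_le_sum fun y _ => ?_
  rw [← mul_add]
  exact mul_le_mul_of_nonneg_left (h y) (h0 y)

theorem intg_neg (f : X → ℝ) (μ : X →₀ ℝ) : intg (fun y => -f y) μ = -intg f μ := by
  simp [intg, Finsupp.sum]

/-- an action on a tree together with an equivariant map to the vertices -/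
structure TA (ρ : G →* Equiv.Perm X) (T : SimpleGraph V) where
  π : X → V
  tree : T.IsTree
  act : ∀ (g : G) a b, T.Adj a b → T.Adj (g • a) (g • b)
  eqv : ∀ g y, π (ρ g y) = g • π y

variable {T : SimpleGraph V} (A : TA ρ T)

/-- the difference of the squared distances to the two ends of an edge -/
noncomputable def TA.df (u w : V) (y : X) : ℝ :=
  (T.dist (A.π y) w : ℝ) ^ 2 - (T.dist (A.π y) u : ℝ) ^ 2

/-- positive if the centre of mass is on the side of `u` -/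
noncomputable def TA.bar (μ : X →₀ ℝ) (u w : V) : ℝ := intg (A.df u w) μ

theorem TA.bar_swap (μ : X →₀ ℝ) (u w : V) : A.bar μ w u = -A.bar μ u w := by
  rw [TA.bar, TA.bar, ← intg_neg]
  congr 1
  funext y
  simp [TA.df]

theorem TA.bar_smul (g : G) (μ : X →₀ ℝ) (u w : V) :
    A.bar (μ.mapDomain (ρ g)) (g • u) (g • w) = A.bar μ u w := by
  rw [TA.bar, intg_map]
  congr 1
  funext y
  simp only [Function.comp, TA.df, A.eqv, dist_smul A.tree A.act]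

theorem TA.df_conv {u u' w : V} (h : T.Adj u w) (h' : T.Adj u' w) (n : u ≠ u') (y : X) :
    A.df u w y + A.df u' w y ≤ -2 := by
  have tr := tr_of_isTree A.tree
  have e : (T.dist u w : ℤ) = 1 := by exact_mod_cast SimpleGraph.dist_eq_one_iff_adj.2 h
  have e' : (T.dist u' w : ℤ) = 1 := by exact_mod_cast SimpleGraph.dist_eq_one_iff_adj.2 h'
  have c := adj_cases tr e (A.π y)
  have c' := adj_cases tr e' (A.π y)
  have no : ¬ ((T.dist (A.π y) w : ℤ) = T.dist (A.π y) u + 1 ∧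
      (T.dist (A.π y) w : ℤ) = T.dist (A.π y) u' + 1) := fun ⟨a, a'⟩ =>
    n (tr.bt_uniq (x := A.π y) (y := w) (by simp only [Bt]; omega) (by simp only [Bt]; omega)
      (by omega))
  have key : ((T.dist (A.π y) w : ℤ) ^ 2 - (T.dist (A.π y) u : ℤ) ^ 2) +
      ((T.dist (A.π y) w : ℤ) ^ 2 - (T.dist (A.π y) u' : ℤ) ^ 2) ≤ -2 := by
    have p := tr.nonneg (A.π y) w
    generalize (T.dist (A.π y) w : ℤ) = a at *
    generalize (T.dist (A.π y) u : ℤ) = b at *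
    generalize (T.dist (A.π y) u' : ℤ) = b' at *
    rcases c with c | c <;> rcases c' with c' | c'
    · exact absurd ⟨c, c'⟩ no
    · obtain rfl : b = a - 1 := by omega
      subst c'
      nlinarith
    · obtain rfl : b' = a - 1 := by omega
      subst c
      nlinarith
    · subst c c'
      nlinarith
  unfold TA.df
  exact_mod_cast key

theorem TA.df_bdd {Y : Set X} {W : Set V} (hY : Y.Finite) (hW : W.Finite) :
    ∃ C : ℝ, 0 < C ∧ ∀ y ∈ Y, ∀ u ∈ W, ∀ w ∈ W, |A.df u w y| ≤ C := by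
  obtain ⟨C, hC⟩ := ((hY.prod (hW.prod hW)).image fun p => |A.df p.2.1 p.2.2 p.1|).bddAbove
  exact ⟨max C 1, by positivity, fun y hy u hu w hw =>
    (hC ⟨(y, u, w), ⟨hy, hu, hw⟩, rfl⟩).trans (le_max_left _ _)⟩

theorem TA.bar_bdd (a : Ob X) {u w : a.I → V} (hu : (Set.range u).Finite)
    (hw : (Set.range w).Finite) : ∃ C : ℕ, ∀ k, |A.bar (a.x k) (u k) (w k)| ≤ C := by
  obtain ⟨F, hF⟩ := a.cpt
  obtain ⟨C, -, hC⟩ := A.df_bdd F.finite_toSet (hu.union hw)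
  obtain ⟨n, hn⟩ := exists_nat_ge C
  refine ⟨n, fun k => (intg_le fun y hy =>
    hC y (hF k y hy) _ (Or.inl ⟨k, rfl⟩) _ (Or.inr ⟨k, rfl⟩)).trans ?_⟩
  rwa [a.tot, mul_one]

/-- two different edges with the same end do not both point away from the centre of mass -/
theorem TA.bar_step {a b : Ob X} {u w : a.I → V} {u' w' : b.I → V} (hw : (Set.range w).Finite)
    (hu' : (Set.range u').Finite) (h : ∀ k, T.Adj (u k) (w k)) (h' : ∀ k, T.Adj (u' k) (w' k))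
    (x : (OC ρ).Hom a b) : ∃ N : ℕ, ∀ k l g, N ≤ a.t k → (val x k l).coeff g ≠ 0 →
      w k = g • w' l → u k ≠ g • u' l →
      A.bar (a.x k) (u k) (w k) + A.bar (b.x l) (u' l) (w' l) ≤ -1 := by
  classical
  obtain ⟨⟨S, hS⟩, -, h3⟩ := val_ctl x
  obtain ⟨F, hF⟩ := a.cpt
  obtain ⟨F', hF'⟩ := b.cpt
  obtain ⟨C, C0, hC⟩ := A.df_bdd (F ∪ Finset.image₂ (fun g y => ρ g y) S F').finite_toSet
    (hw.union (S.finite_toSet.image2 (· • ·) hu'))
  obtain ⟨N, hN⟩ := h3 (1 / C) (by positivity)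
  refine ⟨N, fun k l g hk e e1 e2 => ?_⟩
  have k1 := intg_add_le (a.pos k) (a.tot k)
    (A.df_conv (h k) (e1 ▸ A.act g _ _ (h' l)) e2)
  have k2 : |intg (A.df (g • u' l) (w k)) (a.x k - (b.x l).mapDomain (ρ g))| ≤ 1 := by
    refine (intg_le (C := C) fun y hy => hC y ?_ _
      (Or.inr ⟨g, hS k l g e, _, ⟨l, rfl⟩, rfl⟩) _ (Or.inl ⟨k, rfl⟩)).trans ?_
    · rcases Finset.mem_union.1 (Finsupp.support_sub hy) with hy | hy
      · exact Finset.mem_union_left _ (hF k y hy)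
      · obtain ⟨z, hz, rfl⟩ := Finset.mem_image.1 (Finsupp.mapDomain_support hy)
        exact Finset.mem_union_right _ (Finset.mem_image₂_of_mem (hS k l g e) (hF' l z hz))
    · calc C * _ ≤ C * (1 / C) := mul_le_mul_of_nonneg_left (hN k l g hk e) C0.le
        _ = 1 := by field_simp
  rw [intg_sub, abs_le] at k2
  rw [← A.bar_smul g (b.x l), ← e1]
  unfold TA.bar
  linarith

end Pool.Agent.Work.MP_9d1ffa_al.Ct
end

-- merged part: Pool.Agent.Work.MP_9d1ffa_al.Ct.BFil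
section
/-! A controlled morphism that moves forward along a tree is unipotent up to a finite block. -/

namespace Pool.Agent.Work.MP_9d1ffa_al.Ct

open MonoidAlgebra

set_option linter.unusedSectionVars false
set_option linter.unusedVariables false

section Abstract

variable {O : Type 1} [Add O] [Zero O] {𝒞 : SCat O} {I J : O} (D : KT 𝒞)

theorem KT.d_one (a : O) : D.D (1 : 𝒞.Hom a a) := by
  simpa using D.mul (D.neg a) (D.neg a)

theorem KT.tri_upper {p : 𝒞.Hom I I} {r : 𝒞.Hom J J} (q : 𝒞.Hom I J) (hp : D.D p) (hr : D.D r) :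
    D.D (fromBlocks p q 0 r) := by
  obtain ⟨r', -, h⟩ := D.inv hr
  simpa [fromBlocks_multiply, Hm.mul_assoc, h] using D.mul (D.upper (q * r')) (D.sum hp hr)

theorem KT.tri_lower {p : 𝒞.Hom I I} {r : 𝒞.Hom J J} (q : 𝒞.Hom J I) (hp : D.D p) (hr : D.D r) :
    D.D (fromBlocks p 0 q r) := by
  obtain ⟨p', -, h⟩ := D.inv hp
  simpa [fromBlocks_multiply, Hm.mul_assoc, h] using D.mul (D.lower (q * p')) (D.sum hp hr)

theorem KT.of_conj {w : 𝒞.Hom I J} (h : w.ct * w = 1) (h1 : D.D w) (h2 : D.D w.ct)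
    {x : 𝒞.Hom J J} (hx : D.D (w * x * w.ct)) : D.D x := by
  have := D.mul (D.mul h2 hx) h1
  rwa [← Hm.mul_assoc, ← Hm.mul_assoc, h, Hm.one_mul, Hm.mul_assoc, h, Hm.mul_one] at this

theorem isUnit_tri {p : 𝒞.Hom I I} {q : 𝒞.Hom I J} {r r' : 𝒞.Hom J J} (hr : r' * r = 1)
    (h : IsUnit (fromBlocks p q 0 r)) : IsUnit p := by
  obtain ⟨u, hu⟩ := h
  have h1 := u.mul_inv
  have h2 := u.inv_mul
  obtain ⟨a, b, c, d, e⟩ := exists_blocks (↑u⁻¹ : 𝒞.Hom (I + J) (I + J))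
  rw [hu, e, fromBlocks_multiply, ← fromBlocks_one, fromBlocks_inj] at h1 h2
  have hc : c = 0 := by
    have := congrArg (r' * ·) h1.2.2.1
    simpa [← Hm.mul_assoc, hr] using this
  exact ⟨⟨p, a, by simpa [hc] using h1.1, by simpa using h2.1⟩, rfl⟩

theorem conj_one_add {w : 𝒞.Hom I J} (h : w * w.ct = 1) (x : 𝒞.Hom J J) :
    w * (1 + x) * w.ct = 1 + w * x * w.ct := by
  rw [Hm.mul_add, Hm.add_mul, Hm.mul_one, h]

theorem rows_conj {K : O} (u : 𝒞.Hom I K) (v : 𝒞.Hom J K) (x : 𝒞.Hom K K) :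
    fromRows u v * x * (fromRows u v).ct =
      fromBlocks (u * x * u.ct) (u * x * v.ct) (v * x * u.ct) (v * x * v.ct) := by
  rw [conjTranspose_fromRows_eq_fromCols_conjTranspose, fromRows_mul, fromRows_mul_fromCols]

theorem one_add_blocks (a : 𝒞.Hom I I) (b : 𝒞.Hom I J) (c : 𝒞.Hom J I) (d : 𝒞.Hom J J) :
    1 + fromBlocks a b c d = fromBlocks (1 + a) b c (1 + d) := by
  rw [← fromBlocks_one, fromBlocks_add, zero_add, zero_add]

theorem isUnit_conj {w : 𝒞.Hom I J} (h : Unt w) {x : 𝒞.Hom J J} (hx : IsUnit x) :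
    IsUnit (w * x * w.ct) := by
  obtain ⟨u, rfl⟩ := hx
  have key : ∀ y z : 𝒞.Hom J J, y * z = 1 → w * y * w.ct * (w * z * w.ct) = 1 := fun y z e => by
    calc w * y * w.ct * (w * z * w.ct) = w * (y * (w.ct * w) * z) * w.ct := by
          simp only [Hm.mul_assoc]
      _ = 1 := by rw [h.2, Hm.mul_one, e, Hm.mul_one, h.1]
  exact ⟨⟨_, w * (↑u⁻¹ : 𝒞.Hom J J) * w.ct, key _ _ u.mul_inv, key _ _ u.inv_mul⟩, rfl⟩

end Abstract

/-- a relation that increases a bounded function far out has a cofinite forward closed set on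
which it lowers a bounded level -/
theorem exists_top {ι : Type} (t : ι → ℕ) (ht : ∀ n, {i | t i ≤ n}.Finite) (β : ι → ℝ) (C : ℕ)
    (hC : ∀ k, |β k| ≤ C) (R : ι → ι → Prop) (N c : ℕ) (hc : ∀ k l, R k l → t k ≤ t l + c)
    (hN : ∀ k l, N ≤ t k → R k l → β k + 1 ≤ β l) :
    ∃ (H : ι → Prop) (m : ι → ℕ), {k | ¬ H k}.Finite ∧ (∀ k, m k ≤ 2 * C) ∧
      ∀ k l, H k → R k l → H l ∧ m l < m k ∧ β k + 1 ≤ β l := by
  have hm : ∀ k, ⌊C - β k⌋₊ ≤ 2 * C := fun k => Nat.floor_le_of_le (by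
    have := (abs_le.1 (hC k)).1
    push_cast
    linarith)
  refine ⟨fun k => N + c * ⌊C - β k⌋₊ ≤ t k, fun k => ⌊C - β k⌋₊,
    (ht (N + c * (2 * C))).subset fun k hk => ?_, hm, fun k l hk r => ?_⟩
  · have := Nat.mul_le_mul_left c (hm k)
    simp only [Set.mem_ofPred_eq] at hk ⊢
    omega
  · have e := hN k l (by omega) r
    have e1 : ⌊C - β l⌋₊ + 1 ≤ ⌊C - β k⌋₊ := by
      rw [← Nat.floor_add_one (sub_nonneg.2 (abs_le.1 (hC l)).2)]
      exact Nat.floor_mono (by linarith)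
    have e2 := Nat.mul_le_mul_left c e1
    have e3 := hc k l r
    rw [mul_add, mul_one] at e2
    exact ⟨by omega, e1, e⟩

variable {X G V : Type} [Group G] [MulAction G V] {ρ : G →* Equiv.Perm X} {I J : Ob X}
  {T : SimpleGraph V}

theorem BFil_sup_ct {u : (OC ρ).Hom I J} (h : Sup (· = 1) u) : Sup (· = 1) u.ct :=
  fun k l g e => inv_eq_one.1 (h l k g⁻¹ (by
    rwa [val_ct, Matrix.conjTranspose_apply, coeff_star] at e))

theorem isPm_cut (P : I.I → Prop) : IsPm (fromRows (inc ρ I fun i => ¬ P i) (inc ρ I P))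
    (Sum.elim Subtype.val Subtype.val) := (isPm_inc _).rows (isPm_inc _)

theorem IsPm.both_zero {K L : Ob X} {u : (OC ρ).Hom I J} {e : I.I → J.I} (h : IsPm u e)
    {v : (OC ρ).Hom K L} {e' : K.I → L.I} (h' : IsPm v e') {y : (OC ρ).Hom J L}
    (n : ∀ i k, val y (e i) (e' k) ≠ 0 → False) : u * y * v.ct = 0 :=
  val_inj (funext fun i => funext fun k => by
    rw [h.both h']
    by_contra e0
    exact n i k e0)

/-- splitting along a part of the basis -/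
theorem KT.of_cut (D : KT (OC ρ))
    (hu : ∀ {a b : Ob X} (u : (OC ρ).Hom a b), Sup (· = 1) u → Unt u → D.D u) (P : I.I → Prop)
    {x : (OC ρ).Hom I I} (h : D.D (fromBlocks
      (1 + (inc ρ I fun i => ¬ P i) * x * (inc ρ I fun i => ¬ P i).ct)
      ((inc ρ I fun i => ¬ P i) * x * (inc ρ I P).ct)
      (inc ρ I P * x * (inc ρ I fun i => ¬ P i).ct) (1 + inc ρ I P * x * (inc ρ I P).ct))) :
    D.D (1 + x) := by
  have w := (isPm_cut (ρ := ρ) P).unt (sub_bij P)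
  refine D.of_conj w.2 (hu _ (isPm_cut P).sup w) (hu _ (BFil_sup_ct (isPm_cut P).sup) w.ct) ?_
  rwa [conj_one_add w.1, rows_conj, one_add_blocks]

/-- a morphism that lowers a bounded level -/
theorem KT.of_level (D : KT (OC ρ))
    (hu : ∀ {a b : Ob X} (u : (OC ρ).Hom a b), Sup (· = 1) u → Unt u → D.D u) (M : ℕ) :
    ∀ (I : Ob X) (x : (OC ρ).Hom I I) (m : I.I → ℕ), (∀ k, m k ≤ M) →
      (∀ k l, val x k l ≠ 0 → m l < m k) → D.D (1 + x) := by
  induction M with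
  | zero =>
    intro I x m hM h
    have : x = 0 := val_inj (funext fun k => funext fun l => by
      by_contra e
      have := h k l e
      have := hM k
      omega)
    rw [this, add_zero]
    exact D.d_one I
  | succ M ih =>
    intro I x m hM h
    refine D.of_cut hu (fun k => 0 < m k) ?_
    have e : ∀ (i : {k // ¬ 0 < m k}) l, val x i.1 l ≠ 0 → False := fun i l e =>
      i.2 (lt_of_le_of_lt (Nat.zero_le _) (h _ _ e))
    rw [(isPm_inc _).both_zero (isPm_inc fun k => ¬ 0 < m k) fun i k => e i _,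
      (isPm_inc _).both_zero (isPm_inc fun k => 0 < m k) fun i k => e i _, add_zero]
    refine D.tri_lower _ (D.d_one _) (ih _ _ (fun k => m k.1 - 1) (fun k => ?_) fun k l e => ?_)
    · have := hM k.1
      omega
    · rw [(isPm_inc _).both (isPm_inc _)] at e
      have := h _ _ e
      have := l.2
      omega

/-- an isomorphism that differs from the identity by a morphism moving forward along a tree -/
theorem TA.kt_fil (A : TA ρ T) (D : KT (OC ρ))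
    (hu : ∀ {a b : Ob X} (u : (OC ρ).Hom a b), Sup (· = 1) u → Unt u → D.D u)
    (hf : ∀ (I : Ob X), Finite I.I → ∀ u : (OC ρ).Hom I I, IsUnit u → D.D u)
    {a b : J.I → V} (ha : (Set.range a).Finite) (hb : (Set.range b).Finite)
    (adj : ∀ k, T.Adj (a k) (b k)) (ν : (OC ρ).Hom J J)
    (hν : ∀ k l g, (val ν k l).coeff g ≠ 0 → g • a l = b k ∧ g • b l ≠ a k)
    (h : IsUnit (1 + ν)) : D.D (1 + ν) := by
  obtain ⟨C, hC⟩ := A.bar_bdd J ha hb
  obtain ⟨N, hN⟩ := A.bar_step hb hb adj (fun k => (adj k).symm) ν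
  obtain ⟨c, hc⟩ := (val_ctl ν).2.1
  obtain ⟨H, m, fin, hm, hH⟩ := exists_top J.t J.fin _ C hC (fun k l => val ν k l ≠ 0) N c
    (fun k l e => (hc k l e).1) fun k l hk e => by
      obtain ⟨g, e⟩ := CA_ne.1 e
      have := hN k l g hk e (hν k l g e).1.symm (hν k l g e).2.symm
      rw [A.bar_swap _ (a l)] at this
      linarith
  have w := (isPm_cut (ρ := ρ) H).unt (sub_bij H)
  have h' := isUnit_conj w h
  rw [conj_one_add w.1, rows_conj, one_add_blocks] at h'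
  refine D.of_cut hu H ?_
  rw [(isPm_inc H).both_zero (isPm_inc fun k => ¬ H k) fun i k e => k.2 (hH _ _ i.2 e).1] at h' ⊢
  have hr := D.of_level hu _ _ (inc ρ J H * ν * (inc ρ J H).ct) (fun k => m k.1) (fun k => hm _)
    fun k l e => by
      rw [(isPm_inc _).both (isPm_inc _)] at e
      exact (hH _ _ k.2 e).2.1
  obtain ⟨r', -, e⟩ := D.inv hr
  exact D.tri_upper _ (hf _ fin.to_subtype _ (isUnit_tri e h')) hr

end Pool.Agent.Work.MP_9d1ffa_al.Ct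
end

-- merged part: Pool.Agent.Work.MP_9d1ffa_al.Ct.BRest
section
/-! A controlled form that moves forward along a tree has a cofinite sublagrangian. -/

namespace Pool.Agent.Work.MP_9d1ffa_al.Ct

open MonoidAlgebra

set_option linter.unusedSectionVars false
set_option linter.unusedVariables false

section Abstract

variable {O : Type 1} [Add O] [Zero O] {𝒞 : SCat O} {I J K L : O} {ε : ℤˣ}

/-- a form with a sublagrangian -/
theorem z_sublag {ψ : 𝒞.Hom I I} (x : 𝒞.Hom I L) (y : 𝒞.Hom L I) (p : 𝒞.Hom J L) (q : 𝒞.Hom L J)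
    (r : 𝒞.Hom L L) (b' : 𝒞.Hom L J) (h1 : (p + (ε : ℤ) • q.ct) * b' = 1)
    (h2 : b' * (p + (ε : ℤ) • q.ct) = 1) (h : Z ε ψ) :
    Z ε (fromBlocks ψ (fromCols 0 x) (fromRows 0 y) (fromBlocks 0 p q r)) := by
  generalize hz : -((x + (ε : ℤ) • y.ct) * b') = z
  have e := iso_conj (ε := ε) (fromBlocks ψ (fromCols 0 x) (fromRows 0 y) (fromBlocks 0 p q r))
    (g := (fromBlocks 1 (fromCols z 0) 0 1 : 𝒞.Hom (I + (J + L)) (I + (J + L))))
    (g' := fromBlocks 1 (-fromCols z 0) 0 1)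
    (by simp [fromBlocks_multiply]) (by simp [fromBlocks_multiply])
  refine Z.iso e.symm (Z.eqv ?_ (h.sum (z_lag p q r b' h1 h2)))
  simp only [fromBlocks_multiply, fromBlocks_conjTranspose, conjTranspose_zero, conjTranspose_one,
    Hm.mul_zero, Hm.zero_mul, Hm.mul_one, Hm.one_mul, add_zero, zero_add,
    conjTranspose_fromCols_eq_fromRows_conjTranspose, fromCols_mul_fromRows,
    fromCols_mul_fromBlocks, fromBlocks_mul_fromRows, fromCols_add, fromRows_add]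
  refine eqv_blocks (Eqv.refl _) (Eqv.refl _) ?_
  have e2 : x + z * p + (ε : ℤ) • (y + q * z.ct).ct = 0 := by
    have : z * (p + (ε : ℤ) • q.ct) = -(x + (ε : ℤ) • y.ct) := by
      rw [← hz, Hm.neg_mul, Hm.mul_assoc, h2, Hm.mul_one]
    rw [Hm.mul_add, Hm.mul_smul] at this
    rw [conjTranspose_add, conjTranspose_mul, conjTranspose_conjTranspose, smul_add,
      eq_sub_of_add_eq this]
    abel
  rw [conjTranspose_fromRows_eq_fromCols_conjTranspose, fromCols_smul, fromCols_add, e2]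
  simp

theorem sy_hyp_ct : (sy ε (hypF 𝒞 J)).ct = fromBlocks 0 ((ε : ℤ) • 1) 1 0 := by
  simp only [hypF, sy_blocks, sy_zero, fromBlocks_conjTranspose, conjTranspose_zero,
    conjTranspose_one, smul_zero, add_zero, zero_add, ct_zsmul]

theorem unt_sy_hyp : Unt (sy ε (hypF 𝒞 J)) := by
  constructor <;> simp only [hypF, sy_blocks, sy_zero, fromBlocks_conjTranspose, conjTranspose_zero,
    conjTranspose_one, smul_zero, add_zero, zero_add, ct_zsmul, fromBlocks_multiply, Hm.mul_zero,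
    Hm.mul_one, Hm.mul_smul, eps_eps, fromBlocks_one]

/-- the algebra of a sublagrangian spanned by a summand -/
theorem z_of_sub {s₀ : 𝒞.Hom I K} {s s' : 𝒞.Hom L K} (w : Unt (fromRows s₀ (fromRows s s')))
    {h ψ N ν : 𝒞.Hom K K} (hh : Unt h) (hN : sy ε ψ = (1 + N) * h) (h1 : s * ψ * s.ct = 0)
    (h2 : s₀ * ψ * s.ct = 0) (h3 : s * ψ * s₀.ct = 0) (h4 : s * N * s.ct * s = s * N)
    (h5 : s * h * s'.ct * s' = s * h) (h6 : s' * h.ct * s.ct * s = s' * h.ct)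
    (h7 : s₀ * N * s'.ct = 0) (h8 : IsNilpotent (s * N * s.ct)) (hν : (1 + N) * ν = 1) :
    (1 + s₀ * N * s₀.ct) * (s₀ * ν * s₀.ct) = 1 ∧ (Z ε (s₀ * ψ * s₀.ct) → Z ε ψ) := by
  have w1 : fromRows s₀ (fromRows s s') * (1 : 𝒞.Hom K K) * (fromRows s₀ (fromRows s s')).ct = 1 := by
    rw [Hm.mul_one, w.1]
  have w2 := w.2
  rw [rows_conj, rows_conj, ← fromBlocks_one,
    ← fromBlocks_one (I := L), fromBlocks_inj, fromBlocks_inj,
    conjTranspose_fromRows_eq_fromCols_conjTranspose, mul_fromCols, fromRows_mul, fromRows_mul,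
    ← fromCols_zero, ← fromRows_zero, fromCols_ext_iff, fromRows_ext_iff] at w1
  simp only [Hm.mul_one] at w1
  obtain ⟨a1, ⟨-, a2⟩, ⟨a3, -⟩, a4, -, -, a5⟩ := w1
  rw [conjTranspose_fromRows_eq_fromCols_conjTranspose, fromCols_mul_fromRows,
    conjTranspose_fromRows_eq_fromCols_conjTranspose, fromCols_mul_fromRows] at w2
  obtain ⟨u, hu⟩ := h8.isUnit_one_add
  have k1 : s * (1 + N) = (u : 𝒞.Hom L L) * s := by
    rw [hu, Hm.mul_add, Hm.add_mul, h4, Hm.mul_one, Hm.one_mul]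
  have u1 : (u : 𝒞.Hom L L) * (↑u⁻¹ : 𝒞.Hom L L) = 1 := u.mul_inv
  have u2 : (↑u⁻¹ : 𝒞.Hom L L) * (u : 𝒞.Hom L L) = 1 := u.inv_mul
  constructor
  · have k2 : s * ν * s₀.ct = 0 := by
      calc s * ν * s₀.ct = (↑u⁻¹ : 𝒞.Hom L L) * ((u : 𝒞.Hom L L) * s * ν * s₀.ct) := by
            simp only [← Hm.mul_assoc, u2, Hm.one_mul]
        _ = 0 := by rw [← k1, Hm.mul_assoc s, hν, Hm.mul_one, a3, Hm.mul_zero]
    calc (1 + s₀ * N * s₀.ct) * (s₀ * ν * s₀.ct)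
        = s₀ * (1 + N) * s₀.ct * (s₀ * ν * s₀.ct) + (s₀ * (1 + N) * s.ct * (s * ν * s₀.ct) +
          s₀ * (1 + N) * s'.ct * (s' * ν * s₀.ct)) := by
          rw [k2, conj_one_add a1, Hm.mul_add s₀, Hm.add_mul _ _ s'.ct, Hm.mul_one, a2, h7]
          simp
      _ = s₀ * ((1 + N) * (s₀.ct * s₀ + (s.ct * s + s'.ct * s')) * ν) * s₀.ct := by
          simp only [Hm.mul_add (1 + N), Hm.add_mul, Hm.mul_add s₀, Hm.mul_assoc]
      _ = 1 := by rw [w2, Hm.mul_one, hν, Hm.mul_one, a1]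
  · intro hz
    refine Z.iso (iso_unt ψ w).symm ?_
    rw [rows_conj, rows_conj, conjTranspose_fromRows_eq_fromCols_conjTranspose, mul_fromCols,
      fromRows_mul, fromRows_mul, h1, h2, h3]
    have e : s * ψ * s'.ct + (ε : ℤ) • (s' * ψ * s.ct).ct = (u : 𝒞.Hom L L) * (s * h * s'.ct) := by
      rw [← Hm.mul_assoc, ← Hm.mul_assoc, ← k1, Hm.mul_assoc s (1 + N), ← hN, sy]
      simp only [conjTranspose_mul, conjTranspose_conjTranspose, Hm.mul_add, Hm.add_mul,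
        Hm.mul_smul, Hm.smul_mul, Hm.mul_assoc]
    have d1 : s * h * s'.ct * (s' * h.ct * s.ct) = 1 := by
      rw [← Hm.mul_assoc, ← Hm.mul_assoc, h5, Hm.mul_assoc s, hh.1, Hm.mul_one, a4]
    have d2 : s' * h.ct * s.ct * (s * h * s'.ct) = 1 := by
      rw [← Hm.mul_assoc, ← Hm.mul_assoc, h6, Hm.mul_assoc s', hh.2, Hm.mul_one, a5]
    refine z_sublag _ _ _ _ _ (s' * h.ct * s.ct * (↑u⁻¹ : 𝒞.Hom L L)) ?_ ?_ hz
    · rw [e, Hm.mul_assoc, ← Hm.mul_assoc (s * h * s'.ct), d1, Hm.one_mul, u1]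
    · rw [e, Hm.mul_assoc, ← Hm.mul_assoc _ (u : 𝒞.Hom L L), u2, Hm.one_mul, d2]

end Abstract

variable {X G V : Type} [Group G] [MulAction G V] {ρ : G →* Equiv.Perm X} {I J : Ob X}
  {T : SimpleGraph V} {ε : ℤˣ}

theorem val_hyp_ne {k l : J.I ⊕ J.I} (h : val (hypF (OC ρ) J) k l ≠ 0) : l = k.swap := by
  rw [hypF, val_fromBlocks] at h
  rcases k with k | k <;> rcases l with l | l
  exacts [absurd rfl h, congrArg Sum.inr (val_one_ne (ρ := ρ) h).symm, absurd rfl h, absurd rfl h]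

theorem val_sy_hyp_ne {k l : J.I ⊕ J.I} (h : val (sy ε (hypF (OC ρ) J)) k l ≠ 0) : l = k.swap :=
  (val_sy_ne h).elim val_hyp_ne fun e => by rw [val_hyp_ne e, Sum.swap_swap]

theorem val_ct_ne {x : (OC ρ).Hom I J} {k : J.I} {l : I.I} (h : val x.ct k l ≠ 0) :
    val x l k ≠ 0 := fun e => h (by rw [val_ct, Matrix.conjTranspose_apply, e, star_zero])

theorem BRest_bij {ι : Type} (S : ι ⊕ ι → Prop) (h : ∀ k, S k → ¬ S k.swap) :
    Function.Bijective (Sum.elim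
      (Sum.map (Subtype.val : {j // ¬ S (Sum.inl j) ∧ ¬ S (Sum.inr j)} → ι)
        (Subtype.val : {j // ¬ S (Sum.inl j) ∧ ¬ S (Sum.inr j)} → ι))
      (Sum.elim (Subtype.val : {k // S k} → ι ⊕ ι) fun k : {k // S k} => k.1.swap)) := by
  have n : ∀ k : {j // ¬ S (Sum.inl j) ∧ ¬ S (Sum.inr j)} ⊕ {j // ¬ S (Sum.inl j) ∧ ¬ S (Sum.inr j)},
      ¬ S (Sum.map Subtype.val Subtype.val k) ∧ ¬ S (Sum.map Subtype.val Subtype.val k).swap := by
    rintro (k | k)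
    exacts [k.2, k.2.symm]
  constructor
  · rintro (k | k | k) (l | l | l) e <;> simp only [Sum.elim_inl, Sum.elim_inr] at e
    · exact congrArg _ (Sum.map_injective.2 ⟨Subtype.val_injective, Subtype.val_injective⟩ e)
    · exact ((n k).1 (e ▸ l.2)).elim
    · exact ((n k).2 (by rw [e, Sum.swap_swap]; exact l.2)).elim
    · exact ((n l).1 (e ▸ k.2)).elim
    · rw [Subtype.ext e]
    · exact (h _ l.2 (e ▸ k.2)).elim
    · exact ((n l).2 (by rw [← e, Sum.swap_swap]; exact k.2)).elim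
    · exact (h _ k.2 (e ▸ l.2)).elim
    · rw [Subtype.ext (Sum.swap_leftInverse.injective e)]
  · intro k
    by_cases h1 : S k
    · exact ⟨Sum.inr (Sum.inl ⟨k, h1⟩), rfl⟩
    by_cases h2 : S k.swap
    · exact ⟨Sum.inr (Sum.inr ⟨_, h2⟩), Sum.swap_swap k⟩
    rcases k with k | k
    exacts [⟨Sum.inl (Sum.inl ⟨k, h1, h2⟩), rfl⟩, ⟨Sum.inl (Sum.inr ⟨k, h2, h1⟩), rfl⟩]

/-- a form that moves forward along a tree reduces to a finite block -/
theorem TA.z_fil (A : TA ρ T) {a b : J.I → V} (ha : (Set.range a).Finite)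
    (hb : (Set.range b).Finite) (adj : ∀ k, T.Adj (a k) (b k)) (ξ ν : (OC ρ).Hom (J + J) (J + J))
    (hξ : ∀ k l g, (val ξ k l).coeff g ≠ 0 →
      Sum.elim b a k = g • Sum.elim b a l ∧ Sum.elim a b k ≠ g • Sum.elim a b l)
    (h : (1 + sy ε ξ * fromBlocks 0 ((ε : ℤ) • 1) 1 0) * ν = 1) :
    ∃ P : J.I → Prop, Finite (sub J P).I ∧ ∃ s : (OC ρ).Hom (sub J P + sub J P) (J + J),
      IsPm s (Sum.map Subtype.val Subtype.val) ∧
      (1 + sy ε (s * ξ * s.ct) * fromBlocks 0 ((ε : ℤ) • 1) 1 0) * (s * ν * s.ct) = 1 ∧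
      (Z ε (hypF (OC ρ) (sub J P) + s * ξ * s.ct) → Z ε (hypF (OC ρ) J + ξ)) := by
  have hu : (Set.range (Sum.elim a b)).Finite := by
    rw [Set.Sum.elim_range]; exact ha.union hb
  have hw : (Set.range (Sum.elim b a)).Finite := by
    rw [Set.Sum.elim_range]; exact hb.union ha
  have adj' : ∀ k, T.Adj (Sum.elim a b k) (Sum.elim b a k) := Sum.rec adj fun k => (adj k).symm
  obtain ⟨C, hC⟩ := A.bar_bdd (J + J) hu hw
  obtain ⟨N, hN⟩ := A.bar_step (a := J + J) (b := J + J) hw hu adj' adj' ξ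
  obtain ⟨c, hc⟩ := (val_ctl ξ).2.1
  generalize hβ : (fun k => A.bar ((J + J).x k) (Sum.elim a b k) (Sum.elim b a k)) = β
  have hβ' : ∀ k, A.bar ((J + J).x k) (Sum.elim a b k) (Sum.elim b a k) = β k := congrFun hβ
  have sw : ∀ k : J.I ⊕ J.I, β k.swap = -β k := by
    rintro (k | k) <;> rw [← hβ', ← hβ'] <;> exact A.bar_swap _ _ _
  have st : ∀ k : J.I ⊕ J.I, (J + J).t k.swap = (J + J).t k := by
    rintro (k | k) <;> rfl
  have step : ∀ k l, N ≤ (J + J).t k → val ξ k l ≠ 0 → β k + β l ≤ -1 := fun k l hk e => by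
    obtain ⟨g, e⟩ := CA_ne.1 e
    rw [← hβ', ← hβ']
    exact hN k l g hk e (hξ k l g e).1 (hξ k l g e).2
  obtain ⟨H, m, fin, hm, hH⟩ := exists_top (ι := J.I ⊕ J.I) (J + J).t (J + J).fin β C
    (fun k => hβ' k ▸ hC k) (fun k l => val ξ k l.swap ≠ 0 ∨ val ξ l.swap k ≠ 0) (N + c) c
    (fun k l e => st l ▸ e.elim (fun e => (hc _ _ e).1) fun e => (hc _ _ e).2) fun k l hk e => by
      have := sw l
      rcases e with e | e
      · have := step _ _ (by omega) e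
        linarith
      · have := step _ _ (by have := (hc _ _ e).2; omega) e
        linarith
  let S : J.I ⊕ J.I → Prop := fun k => (0 ≤ β k ∧ (β k = 0 → k.isLeft)) ∧ H k
  have S1 : ∀ k, S k → ¬ S k.swap := fun k h1 h2 => by
    have e1 := h1.1.1
    have e2 := h2.1.1
    have e3 := sw k
    have e4 := h1.1.2 (by linarith)
    have e5 := h2.1.2 (by linarith)
    rcases k with k | k <;> simp at e4 e5
  have S2 : ∀ k l, S k → val ξ k l ≠ 0 ∨ val ξ l k ≠ 0 → S l.swap ∧ m l.swap < m k :=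
    fun k l hk e => by
      obtain ⟨e1, e2, e3⟩ := hH k l.swap hk.2 (by rwa [Sum.swap_swap])
      have := hk.1.1
      exact ⟨⟨⟨by linarith, fun e => by linarith⟩, e1⟩, e2⟩
  have S3 : ∀ k l, S k → val (hypF (OC ρ) J + ξ) k l ≠ 0 ∨ val (hypF (OC ρ) J + ξ) l k ≠ 0 →
      S l.swap := fun k l hk e => by
    rcases e with e | e <;> rcases val_add_ne e with e | e
    · rwa [val_hyp_ne e, Sum.swap_swap]
    · exact (S2 k l hk (Or.inl e)).1
    · rwa [← val_hyp_ne e]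
    · exact (S2 k l hk (Or.inr e)).1
  have S4 : ∀ k l, val (sy ε ξ * (sy ε (hypF (OC ρ) J)).ct) k l ≠ 0 →
      val ξ k (Sum.swap l) ≠ 0 ∨ val ξ (Sum.swap l) k ≠ 0 := fun k l e => by
    obtain ⟨j, e1, e2⟩ := val_mul_ne e
    rw [← val_sy_hyp_ne (val_ct_ne e2)]
    exact val_sy_ne e1
  let P : J.I → Prop := fun j => ¬ S (Sum.inl j) ∧ ¬ S (Sum.inr j)
  have n : ∀ k : {j // P j} ⊕ {j // P j}, ¬ S (Sum.map Subtype.val Subtype.val k).swap := by
    rintro (k | k)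
    exacts [k.2.2, k.2.1]
  have p0 := (isPm_inc (ρ := ρ) P).sum (isPm_inc (ρ := ρ) P)
  have p1 := isPm_inc (ρ := ρ) (I := J + J) S
  have p2 := isPm_pm1 (ρ := ρ) (I := sub (J + J) S) (J := J + J) (fun k => k.1.swap)
    (fun k => st _) (by rintro ⟨k | k, _⟩ <;> rfl)
  have i2 : Function.Injective fun k : {k // S k} => k.1.swap :=
    Sum.swap_leftInverse.injective.comp Subtype.val_injective
  have i0 := (isPm_inc (ρ := ρ) P).iso Subtype.val_injective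
  refine ⟨P, Set.Finite.to_subtype (((fin.preimage Sum.inl_injective.injOn).union
    (fin.preimage Sum.inr_injective.injOn)).subset fun j hj => ?_), _, p0, ?_⟩
  · have e := sw (Sum.inl j)
    by_cases e1 : 0 ≤ β (Sum.inl j)
    · exact Or.inl fun e2 => hj.1 ⟨⟨e1, fun _ => rfl⟩, e2⟩
    · rw [Sum.swap_inl] at e
      exact Or.inr fun e2 => hj.2 ⟨⟨by linarith, fun e3 => by linarith⟩, e2⟩
  rw [← sy_hyp_ct] at h
  have key := z_of_sub (ε := ε) ((p0.rows (p1.rows p2)).unt (BRest_bij S S1))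
    (h := sy ε (hypF (OC ρ) J)) (ψ := hypF (OC ρ) J + ξ) unt_sy_hyp
    (by rw [sy_add, Hm.add_mul, Hm.one_mul, Hm.mul_assoc, unt_sy_hyp.2, Hm.mul_one])
    (p1.both_zero p1 fun i k e => S1 _ k.2 (S3 _ _ i.2 (Or.inl e)))
    (p0.both_zero p1 fun i k e => n i (S3 _ _ k.2 (Or.inr e)))
    (p1.both_zero p0 fun i k e => n k (S3 _ _ i.2 (Or.inl e)))
    (p1.absorb Subtype.val_injective fun k l e => by
      rw [p1.left] at e
      have := (S2 _ _ k.2 (S4 _ _ e)).1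
      rw [Sum.swap_swap] at this
      exact ⟨⟨l, this⟩, rfl⟩)
    (p2.absorb i2 fun k l e => by
      rw [p1.left] at e
      exact ⟨k, (val_sy_hyp_ne e).symm⟩)
    (p1.absorb Subtype.val_injective fun k l e => by
      rw [p2.left] at e
      exact ⟨k, Sum.swap_leftInverse.injective (val_sy_hyp_ne (val_ct_ne e))⟩)
    (p0.both_zero p2 fun i k e => by
      have := S4 _ _ e
      rw [Sum.swap_swap] at this
      exact n i (S2 _ _ k.2 this.symm).1)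
    (nil_of_level (fun k => m k.1) _ (fun k => hm _) fun k l e => by
      rw [p1.both p1] at e
      have := (S2 _ _ k.2 (S4 _ _ e)).2
      rwa [Sum.swap_swap] at this) h
  have e1 : fromBlocks (inc ρ J P) 0 0 (inc ρ J P) * (hypF (OC ρ) J + ξ) *
      (fromBlocks (inc ρ J P) 0 0 (inc ρ J P)).ct = hypF (OC ρ) (sub J P) +
      fromBlocks (inc ρ J P) 0 0 (inc ρ J P) * ξ * (fromBlocks (inc ρ J P) 0 0 (inc ρ J P)).ct := by
    rw [Hm.mul_add, Hm.add_mul]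
    congr 1
    simp [hypF, fromBlocks_multiply, fromBlocks_conjTranspose, i0]
  have e2 : (sy ε (hypF (OC ρ) J)).ct * (fromBlocks (inc ρ J P) 0 0 (inc ρ J P)).ct =
      (fromBlocks (inc ρ J P) 0 0 (inc ρ J P)).ct * fromBlocks 0 ((ε : ℤ) • 1) 1 0 := by
    rw [sy_hyp_ct]
    simp only [fromBlocks_conjTranspose, conjTranspose_zero, add_zero, zero_add,
      fromBlocks_multiply, Hm.mul_zero, Hm.zero_mul, Hm.mul_one, Hm.one_mul, Hm.smul_mul,
      Hm.mul_smul, smul_zero]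
  rw [e1, Hm.mul_assoc _ (sy ε ξ * _), Hm.mul_assoc (sy ε ξ), e2, ← Hm.mul_assoc (sy ε ξ),
    ← Hm.mul_assoc _ (sy ε ξ * _), ← Hm.mul_assoc _ (sy ε ξ), ← sy_conj] at key
  exact key

/-- an equivariant map exists if all stabilisers have fixed points -/
theorem exists_eqv (h : ∀ y, ∃ v : V, ∀ g, ρ g y = y → g • v = v) :
    ∃ π : X → V, ∀ g y, π (ρ g y) = g • π y := by
  choose v hv using h
  let r : Setoid X := ⟨fun y z => ∃ g, ρ g y = z, fun y => ⟨1, by simp⟩,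
    fun ⟨g, e⟩ => ⟨g⁻¹, by simp [← e]⟩, fun ⟨g, e⟩ ⟨g', e'⟩ => ⟨g' * g, by simp [← e', ← e]⟩⟩
  choose γ hγ using fun y => (Quotient.mk_out (s := r) y : ∃ g, ρ g (Quotient.mk r y).out = y)
  refine ⟨fun y => γ y • v (Quotient.mk r y).out, fun g y => ?_⟩
  have e : Quotient.mk r (ρ g y) = Quotient.mk r y := (Quotient.sound (s := r) ⟨g, rfl⟩).symm
  have e1 := hγ (ρ g y)
  beta_reduce
  rw [e] at e1 ⊢
  have := hv (Quotient.mk r y).out ((γ (ρ g y))⁻¹ * (g * γ y)) (by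
    rw [map_mul, map_mul, map_inv, Equiv.Perm.mul_apply, Equiv.Perm.mul_apply, hγ,
      Equiv.Perm.inv_eq_iff_eq, e1])
  rw [mul_smul, inv_smul_eq_iff, mul_smul] at this
  exact this.symm

section Cut

variable {Γ W E : Type} [Group Γ] [Group W] [Group E] {σ : Γ →* Equiv.Perm X}

theorem exists_TA (C : Cut Γ W E) (h : ∀ g y, σ g y = y → ∃ w, C.v w = g) : Nonempty (TA σ C.T) := by
  obtain ⟨π, hπ⟩ := exists_eqv (ρ := σ) fun y => ⟨C.o, fun g e => (C.stab_iff g).2 (h g y e)⟩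
  exact ⟨⟨π, C.isTree, C.act, hπ⟩⟩

/-- the form left over after splitting off the vertex form -/
theorem z_rest (C : Cut Γ W E) (hU : UNilTree Γ C.T ε) (A : TA σ C.T)
    (ξ μ : (OC σ).Hom (J + J) (J + J))
    (n11 : Sup (fun g => ∃ h, h ∉ C.j.range ∧ C.t * C.v h * C.t⁻¹ = g) ξ.toBlocks₁₁)
    (n12 : Sup (fun g => ∃ h, C.t * C.v h = g) ξ.toBlocks₁₂)
    (n21 : Sup (fun g => ∃ h, C.v h * C.t⁻¹ = g) ξ.toBlocks₂₁)
    (n22 : Sup (fun g => ∃ h, h ∉ C.i.range ∧ C.v h = g) ξ.toBlocks₂₂)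
    (m1 : Sup C.pos μ.toRows₁) (m2 : Sup (fun g => ¬ C.pos (g * C.t)) μ.toRows₂)
    (h : (1 + sy ε ξ * fromBlocks 0 ((ε : ℤ) • 1) 1 0) * (1 + μ) = 1) :
    Z ε (hypF (OC σ) J + ξ) := by
  have b11 : ∀ k l, val ξ.toBlocks₁₁ k l = val ξ (Sum.inl k) (Sum.inl l) := fun k l =>
    (val_toCols₁ _ _ _).trans (val_toRows₁ _ _ _)
  have b12 : ∀ k l, val ξ.toBlocks₁₂ k l = val ξ (Sum.inl k) (Sum.inr l) := fun k l =>
    (val_toCols₂ _ _ _).trans (val_toRows₁ _ _ _)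
  have b21 : ∀ k l, val ξ.toBlocks₂₁ k l = val ξ (Sum.inr k) (Sum.inl l) := fun k l =>
    (val_toCols₁ _ _ _).trans (val_toRows₂ _ _ _)
  have b22 : ∀ k l, val ξ.toBlocks₂₂ k l = val ξ (Sum.inr k) (Sum.inr l) := fun k l =>
    (val_toCols₂ _ _ _).trans (val_toRows₂ _ _ _)
  obtain ⟨P, fin, s, hs, k1, k2⟩ := A.z_fil (a := fun _ => C.o) (b := fun _ => C.t • C.o)
    (Set.finite_range_const) (Set.finite_range_const) (fun _ => OSn_adj C) ξ (1 + μ) (by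
      rintro (k | k) (l | l) g e
      · have := OSn_b C (n11 k l g (by rwa [b11]))
        exact ⟨this.1.symm, this.2.symm⟩
      · have := OSn_a C (n12 k l g (by rwa [b12]))
        exact ⟨this.1.symm, this.2.symm⟩
      · have := OSn_d C (n21 k l g (by rwa [b21]))
        exact ⟨this.1.symm, this.2.symm⟩
      · have := OSn_c C (n22 k l g (by rwa [b22]))
        exact ⟨this.1.symm, this.2.symm⟩) h
  refine k2 ?_
  let _ : Fintype (sub J P).I := Fintype.ofFinite _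
  let _ : DecidableEq (sub J P).I := fun _ _ => Classical.propDecidable _
  let _ : Fintype (sub J P + sub J P).I := inferInstanceAs (Fintype ((sub J P).I ⊕ (sub J P).I))
  let _ : DecidableEq (sub J P + sub J P).I :=
    inferInstanceAs (DecidableEq ((sub J P).I ⊕ (sub J P).I))
  rw [conj_one_add (hs.iso (Sum.map_injective.2 ⟨Subtype.val_injective, Subtype.val_injective⟩))]
    at k1
  have k3 := congrArg val k1
  rw [val_mul, cmul_fintype, val_add, val_add, val_mul, cmul_fintype, val_fromBlocks, val_sy,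
    val_zsmul, show val (1 : (OC σ).Hom (sub J P + sub J P) (sub J P + sub J P)) = 1 from
      BPm_one _ _] at k3
  refine z_of_fin ?_
  rw [val_add, val_hyp]
  refine z_iff.2 (C.z_rest hU (val (s * ξ * s.ct)) (val (s * μ * s.ct)) (fun k l g e => ?_)
    (fun k l g e => ?_) (fun k l g e => ?_) (fun k l g e => ?_) (fun k l g e => ?_)
    (fun k l g e => ?_) k3)
  · exact n11 k.1 l.1 g (by rw [b11]; exact (hs.both hs ξ (Sum.inl k) (Sum.inl l)) ▸ e)
  · exact n12 k.1 l.1 g (by rw [b12]; exact (hs.both hs ξ (Sum.inl k) (Sum.inr l)) ▸ e)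
  · exact n21 k.1 l.1 g (by rw [b21]; exact (hs.both hs ξ (Sum.inr k) (Sum.inl l)) ▸ e)
  · exact n22 k.1 l.1 g (by rw [b22]; exact (hs.both hs ξ (Sum.inr k) (Sum.inr l)) ▸ e)
  · have e' : (val (s * μ * s.ct) (Sum.inl k) l).coeff g ≠ 0 := e
    rw [hs.both hs] at e'
    exact m1 k.1 _ g (by rw [val_toRows₁]; exact e')
  · have e' : (val (s * μ * s.ct) (Sum.inr k) l).coeff g ≠ 0 := e
    rw [hs.both hs] at e'
    exact m2 k.1 _ g (by rw [val_toRows₂]; exact e')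

end Cut

end Pool.Agent.Work.MP_9d1ffa_al.Ct
end

-- merged part: Pool.Agent.Work.MP_9d1ffa_al.Ct.CSp
section
/-! A linear form with trivial edge frame comes from the vertex group. -/

namespace Pool.Agent.Work.MP_9d1ffa_al.Ct

set_option linter.unusedSectionVars false
set_option linter.unusedVariables false

open MonoidAlgebra

variable {X Γ V A : Type} [Group Γ] [Group V] [Group A] {ε : ℤˣ} {ρ : Γ →* Equiv.Perm X}
  {ρV : V →* Equiv.Perm X} {ρA : A →* Equiv.Perm X} {I J J' K L M N κ κ' : Ob X}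
  {C : TC ρ ρV ρA} {T : TU ρ C.t J J'}

theorem CSp_other {O : Type 1} [Add O] [Zero O] {𝒞 : SCat O} {I : O} {ψ m : 𝒞.Hom I I}
    (h : sy ε ψ * m = 1) :
    m * sy ε ψ = 1 := by
  have h3 : (ε : ℤ) • m.ct * sy ε ψ = 1 := by
    have := congrArg SCat.Hom.ct h
    rwa [conjTranspose_mul, sy_ct, conjTranspose_one, Hm.mul_smul, ← Hm.smul_mul] at this
  generalize (ε : ℤ) • m.ct = n at h3
  have h4 : m = n := by
    rw [← Hm.one_mul m, ← h3, Hm.mul_assoc, h, Hm.mul_one]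
  rw [h4, h3]

theorem CSp_unsmul {S : Γ → Prop} {B : (OC ρ).Hom L M}
    (h : Sup S ((ε : ℤ) • B)) : Sup S B := by
  have := h.zsmul (ε : ℤ)
  rwa [eps_eps] at this

theorem CSp_unneg {S : Γ → Prop} {B : (OC ρ).Hom L M}
    (h : Sup S (-B)) : Sup S B := by
  have := h.neg
  rwa [neg_neg] at this

/-- with the trivial edge frame the vertex form is nonsingular -/
theorem CSp_vertex_ns {θ : (OC ρV).Hom I I} {P : (OC ρV).Hom I J} {Q : (OC ρV).Hom I J'}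
    {μ : (OC ρ).Hom I I}
    (h1 : sy ε (C.lin T θ P Q) * μ = 1) (h2 : μ * sy ε (C.lin T θ P Q) = 1)
    (h : C.EF T ε 1 θ P Q 1) :
    sy ε θ * rs C.vh C.hV μ = 1 ∧ rs C.vh C.hV μ * sy ε θ = 1 ∧
      Sup C.pos (T.T * (mp C.vh Q).ct * μ) ∧
      Sup C.pos (T.T * (mp C.vh Q).ct * μ * mp C.vh Q * T.T.ct) ∧
      Sup (fun g => ¬ C.pos g) ((mp C.vh P).ct * μ) ∧
      Sup (fun g => ¬ C.pos (g * C.t)) ((mp C.vh P).ct * μ * mp C.vh P) := by
  obtain ⟨-, Y, hY, s1, s2, s3⟩ := h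
  rw [TC.sys_one, mp_one, Hm.one_mul] at hY
  have hY' : Y = fromRows (-(T.T * (mp C.vh Q).ct * μ)) ((ε : ℤ) • ((mp C.vh P).ct * μ)) := by
    rw [← Hm.mul_one Y, ← h1, ← Hm.mul_assoc, hY, TC.sig, fromRows_mul, Hm.neg_mul,
      Hm.smul_mul]
  have e0 : (1 : (OC ρV).Hom (I + I) (I + I)).toBlocks₁₁ = 1 := by
    rw [← fromBlocks_one, toBlocks_fromBlocks₁₁]
  have e1 : (1 : (OC ρA).Hom (J + J) (J + J)).toCols₁ = fromRows 1 0 := by
    simp
  have e2 : (1 : (OC ρA).Hom (J + J) (J + J)).toCols₂ = fromRows 0 1 := by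
    simp
  rw [e0, Hm.one_mul] at s2 s3
  rw [e1, mp_fromRows, mp_zero] at s2
  rw [e2, mp_fromRows, mp_zero] at s3
  subst hY'
  rw [TC.side_fromRows] at s1
  rw [fromRows_mul, fromRows_add, fromRows_mul, TC.side_fromRows] at s2
  rw [fromRows_mul, fromRows_mul, fromRows_sub, TC.side_fromRows] at s3
  have a1 : Sup C.pos (T.T * (mp C.vh Q).ct * μ) := CSp_unneg s1.1
  have a3 : Sup (fun g => ¬ C.pos g) ((mp C.vh P).ct * μ) := CSp_unsmul s1.2
  have a2 : Sup C.pos (T.T * (mp C.vh Q).ct * μ * mp C.vh Q * T.T.ct) := by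
    have := s3.1
    rw [sub_zero, Hm.neg_mul, Hm.neg_mul] at this
    exact CSp_unneg this
  have a4 : Sup (fun g => ¬ C.pos (g * C.t)) ((mp C.vh P).ct * μ * mp C.vh P) := by
    have := s2.2
    rw [add_zero, Hm.smul_mul, Hm.smul_mul] at this
    exact Sup.of_mul_tu (S := fun g => ¬ C.pos g) T (CSp_unsmul this)
  have a0 : sy ε θ * rs C.vh C.hV μ = 1 := by
    have := congrArg (rs C.vh C.hV) h1
    have z1 : rs C.vh C.hV (T.T * (mp C.vh Q).ct * μ) = 0 := a1.rs_zero C.npos_v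
    have z2 : rs C.vh C.hV (T.T.ct * ((mp C.vh P).ct * μ)) = 0 := by
      refine (T.sup_ct.mul a3 (T := fun g => ¬ C.pos (C.t * g)) ?_).rs_zero
        fun x hx => hx (C.pos_tv x)
      rintro _ b rfl hb
      rwa [mul_inv_cancel_left]
    rw [TC.sy_lin, Hm.add_mul, Hm.add_mul, Hm.smul_mul, rs_add, rs_add, rs_zsmul,
      rs_mp_mul, rs_one, Hm.mul_assoc (mp C.vh P), Hm.mul_assoc (mp C.vh P), rs_mp_mul, z1,
      Hm.mul_assoc (mp C.vh Q * _), Hm.mul_assoc (mp C.vh Q), rs_mp_mul, z2,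
      Hm.mul_zero, Hm.mul_zero, smul_zero, add_zero, add_zero] at this
    exact this
  exact ⟨a0, CSp_other a0, a1, a2, a3, a4⟩

theorem CSp_sy_fm {S : Γ → Prop} (hS : ∀ g, S g⁻¹ ↔ S g)
    (B : (OC ρ).Hom J J) : sy ε (fm S B) = fm S (sy ε B) := by
  rw [sy, sy, fm_add, fm_zsmul, fm_ct]
  congr 3
  exact funext fun g => propext (hS g)

theorem CSp_conj_fm {S S' : Γ → Prop} {t : Γ} (T : TU ρ t J J') {B : (OC ρ).Hom J' J'}
    (h : Sup S' (T.T * B * T.T.ct)) : Sup S' (T.T * fm S B * T.T.ct) := by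
  rw [← fm_mul_left (T := fun g => S (t⁻¹ * g)) T.sup B (by
      rintro _ b rfl
      rw [inv_mul_cancel_left]),
    ← fm_mul_right (T := fun g => S (t⁻¹ * (g * t))) _ T.sup_ct (by
      rintro a _ rfl
      rw [inv_mul_cancel_right])]
  exact h.fm _

theorem CSp_sy_hyp {O : Type 1} [Add O] [Zero O] {𝒞 : SCat O} {J : O} :
    sy ε (hypF 𝒞 J) = fromBlocks 0 1 ((ε : ℤ) • 1) 0 := by
  rw [hypF, sy_blocks, sy_zero]
  simp only [conjTranspose_zero, smul_zero, add_zero, zero_add, conjTranspose_one]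

theorem TC.Rep.split_one (hU : UNilTree Γ C.T ε) (hG : TA ρ C.T) (h2 : ∀ g : Γ, g * g = 1 → g = 1)
    {x : L0 (OC ρ) ε} (h : C.Rep T ε x (1 : (OC ρA).Hom (J + J) (J + J))) :
    x ∈ (m0 ε C.vh).range := by
  obtain ⟨I, θ, P, Q, hns, hef, rfl⟩ := h
  obtain ⟨μ, l1, l2⟩ := hns.inv
  obtain ⟨a0, a0', a1, a2, a3, a4⟩ := CSp_vertex_ns l1 l2 hef
  have b4 : mp C.vh (P.ct * rs C.vh C.hV μ * P) =
      fm (fun g => ∃ h, C.vh.f h = g) ((mp C.vh P).ct * μ * mp C.vh P) := by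
    rw [← mp_rs (hf := C.hV), rs_mul_mp, ← mp_ct, rs_mp_mul]
  have b2 : mp C.vh (Q.ct * rs C.vh C.hV μ * Q) =
      fm (fun g => ∃ h, C.vh.f h = g) ((mp C.vh Q).ct * μ * mp C.vh Q) := by
    rw [← mp_rs (hf := C.hV), rs_mul_mp, ← mp_ct, rs_mp_mul]
  generalize rs C.vh C.hV μ = m at a0 a0' b2 b4
  have k1 : sy ε (mp C.vh θ) * mp C.vh m = 1 := by rw [← mp_sy, ← mp_mul, a0, mp_one]
  have k2 : mp C.vh m * sy ε (mp C.vh θ) = 1 := by rw [← mp_sy, ← mp_mul, a0', mp_one]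
  have nθ : NS ε θ := ns_of_left a0'
  set F : (OC ρ).Hom I (J + J) := fromCols (mp C.vh P) (mp C.vh Q * T.T.ct) with hF
  have hFc : F.ct = fromRows (mp C.vh P).ct (T.T * (mp C.vh Q).ct) := by
    rw [hF, conjTranspose_fromCols_eq_fromRows_conjTranspose, conjTranspose_mul,
      conjTranspose_conjTranspose]
  have hlin : mp C.vh θ + F * hypF (OC ρ) J * F.ct = C.lin T θ P Q := by
    rw [hFc, hF, hypF, fromCols_mul_fromBlocks, fromCols_mul_fromRows, TC.lin]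
    simp only [Hm.mul_zero, add_zero, zero_add, Hm.mul_one, Hm.zero_mul,
      Hm.mul_assoc]
  set R : (OC ρ).Hom (J + J) I := sy ε (hypF (OC ρ) J) * F.ct with hR
  have hR1 : R = fromRows (T.T * (mp C.vh Q).ct) ((ε : ℤ) • (mp C.vh P).ct) := by
    rw [hR, hFc, CSp_sy_hyp, fromBlocks_mul_fromRows]
    simp only [Hm.zero_mul, add_zero, zero_add, Hm.one_mul, Hm.smul_mul]
  have hFR : F * R = sy ε (C.lin T θ P Q) - sy ε (mp C.vh θ) := by
    rw [← hlin, sy_add, sy_conj, hR, Hm.mul_assoc, add_sub_cancel_left]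
  have hu : IsUnit (1 + F * (R * mp C.vh m)) := by
    rw [← Hm.mul_assoc, hFR, Hm.sub_mul, k1, add_sub_cancel]
    exact IsUnit.mul hns ⟨⟨_, _, k2, k1⟩, rfl⟩
  have hiso := schur k1 k2 (hypF (OC ρ) J) F hu
  rw [hlin, ← hR] at hiso
  set ξ : (OC ρ).Hom (J + J) (J + J) := R * mp C.vh m * mp C.vh θ * (R * mp C.vh m).ct with hξ
  have nξ : NS ε (hypF (OC ρ) J + ξ) := (NS.iso hiso ((nθ.mp (f := C.vh)).sum ns_hyp)).right
  have hcls := cls_iso hiso
  rw [cls_sum (nθ.mp (f := C.vh)) ns_hyp, cls_sum hns nξ, (cls_eq_zero ns_hyp).2 (z_hyp J), add_zero,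
    ← m0_cls _ nθ] at hcls
  have hM : sy ε (m * θ * m.ct) = (ε : ℤ) • m := by
    rw [sy_conj, a0', Hm.one_mul, inv_ct a0 a0']
  have hξ1 : ξ = R * mp C.vh (m * θ * m.ct) * R.ct := by
    rw [hξ, mp_mul, mp_mul, mp_ct, conjTranspose_mul]
    simp only [Hm.mul_assoc]
  generalize m * θ * m.ct = M at hM hξ1
  have hξ2 : ξ = fromBlocks (T.T * mp C.vh (Q.ct * M * Q) * T.T.ct)
      ((ε : ℤ) • (T.T * mp C.vh (Q.ct * M * P))) ((ε : ℤ) • (mp C.vh (P.ct * M * Q) * T.T.ct))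
      (mp C.vh (P.ct * M * P)) := by
    rw [hξ1, hR1, conjTranspose_fromRows_eq_fromCols_conjTranspose, fromRows_mul,
      fromRows_mul_fromCols]
    simp only [conjTranspose_mul, conjTranspose_conjTranspose, ct_zsmul, mp_mul, mp_ct,
      Hm.smul_mul, Hm.mul_smul, eps_eps, Hm.mul_assoc]
  have hS : ∀ g : Γ, (∃ a, C.va a = g⁻¹) ↔ ∃ a, C.va a = g := fun g =>
    ⟨fun ⟨a, e⟩ => ⟨a⁻¹, by rw [map_inv, e, inv_inv]⟩, fun ⟨a, e⟩ => ⟨a⁻¹, by rw [map_inv, e]⟩⟩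
  set D : (OC ρ).Hom (J + J) (J + J) :=
    fromBlocks (fm (fun g => ∃ a, C.va a = g) (T.T * mp C.vh (Q.ct * M * Q) * T.T.ct)) 0 0
      (fm (fun g => ∃ a, C.va a = g) (mp C.vh (P.ct * M * P))) with hD
  have hD0 : sy ε D = 0 := by
    have c1 : sy ε (T.T * mp C.vh (Q.ct * M * Q) * T.T.ct) =
        (ε : ℤ) • (T.T * mp C.vh (Q.ct * m * Q) * T.T.ct) := by
      rw [sy_conj, ← mp_sy]
      have := sy_conj (ε := ε) Q.ct M
      rw [conjTranspose_conjTranspose] at this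
      rw [this, hM, Hm.mul_smul, Hm.smul_mul, mp_zsmul, Hm.mul_smul, Hm.smul_mul]
    have c2 : sy ε (mp C.vh (P.ct * M * P)) = (ε : ℤ) • mp C.vh (P.ct * m * P) := by
      rw [← mp_sy]
      have := sy_conj (ε := ε) P.ct M
      rw [conjTranspose_conjTranspose] at this
      rw [this, hM, Hm.mul_smul, Hm.smul_mul, mp_zsmul]
    have d1 : Sup C.pos (T.T * mp C.vh (Q.ct * m * Q) * T.T.ct) := by
      rw [b2]
      refine CSp_conj_fm T ?_
      simpa only [Hm.mul_assoc] using a2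
    have d2 : Sup (fun g => ¬ C.pos (g * C.t)) (mp C.vh (P.ct * m * P)) := by
      rw [b4]
      exact a4.fm _
    rw [hD, sy_blocks, CSp_sy_fm hS, CSp_sy_fm hS, c1, c2, (d1.zsmul _).fm_zero,
      (d2.zsmul _).fm_zero]
    · simp
    · rintro _ hg ⟨a, rfl⟩
      exact hg (C.pos_vat a)
    · rintro _ hg ⟨a, rfl⟩
      exact C.npos_v _ hg
  have hξD : ξ - D = fromBlocks (T.T * mp C.vh (Q.ct * M * Q) * T.T.ct -
        fm (fun g => ∃ a, C.va a = g) (T.T * mp C.vh (Q.ct * M * Q) * T.T.ct))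
      ((ε : ℤ) • (T.T * mp C.vh (Q.ct * M * P))) ((ε : ℤ) • (mp C.vh (P.ct * M * Q) * T.T.ct))
      (mp C.vh (P.ct * M * P) - fm (fun g => ∃ a, C.va a = g) (mp C.vh (P.ct * M * P))) := by
    rw [hξ2, hD, sub_eq_add_neg, fromBlocks_neg, fromBlocks_add]
    simp only [← sub_eq_add_neg, sub_zero]
  have hμ : -(R * μ * F) = fromBlocks (-(T.T * (mp C.vh Q).ct * μ * mp C.vh P))
      (-(T.T * (mp C.vh Q).ct * μ * mp C.vh Q * T.T.ct))
      (-((ε : ℤ) • ((mp C.vh P).ct * μ * mp C.vh P)))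
      (-((ε : ℤ) • ((mp C.vh P).ct * μ * mp C.vh Q * T.T.ct))) := by
    rw [hR1, hF, fromRows_mul, fromRows_mul_fromCols, fromBlocks_neg]
    simp only [Hm.smul_mul, Hm.mul_assoc]
  have hZ : Z ε (hypF (OC ρ) J + (ξ - D)) := by
    refine z_rest C.toCut hU hG _ (-(R * μ * F)) ?_ ?_ ?_ ?_ ?_ ?_ ?_
    · rw [hξD, toBlocks_fromBlocks₁₁]
      have : Sup (fun g => ∃ h, C.t * C.v h * C.t⁻¹ = g)
          (T.T * mp C.vh (Q.ct * M * Q) * T.T.ct) := by
        refine (T.sup.mul (sup_mp _ _) (T := fun g => ∃ h, C.t * C.v h = g) ?_).mul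
          T.sup_ct ?_
        · rintro _ _ rfl ⟨h, rfl⟩
          exact ⟨h, rfl⟩
        · rintro _ _ ⟨h, rfl⟩ rfl
          exact ⟨h, rfl⟩
      refine (sup_sub_fm this).mono ?_
      rintro _ ⟨⟨h, rfl⟩, hg⟩
      refine ⟨h, ?_, rfl⟩
      rintro ⟨a, rfl⟩
      exact hg ⟨a, by rw [← C.va_t, mul_inv_cancel_right]⟩
    · rw [hξD, toBlocks_fromBlocks₁₂]
      refine (T.sup.mul (sup_mp _ _) ?_).zsmul _
      rintro _ _ rfl ⟨h, rfl⟩
      exact ⟨h, rfl⟩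
    · rw [hξD, toBlocks_fromBlocks₂₁]
      refine ((sup_mp _ _).mul T.sup_ct ?_).zsmul _
      rintro _ _ ⟨h, rfl⟩ rfl
      exact ⟨h, rfl⟩
    · rw [hξD, toBlocks_fromBlocks₂₂]
      refine (sup_sub_fm (sup_mp _ _)).mono ?_
      rintro _ ⟨⟨h, rfl⟩, hg⟩
      refine ⟨h, ?_, rfl⟩
      rintro ⟨a, rfl⟩
      exact hg ⟨a, rfl⟩
    · rw [hμ, ← fromRows_fromCols_eq_fromBlocks, toRows₁_fromRows, sup_fromCols]
      refine ⟨(a1.mul (sup_mp _ _) ?_).neg, a2.neg⟩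
      rintro a _ ha ⟨h, rfl⟩
      exact (C.right a h).2 ha
    · rw [hμ, ← fromRows_fromCols_eq_fromBlocks, toRows₂_fromRows, sup_fromCols]
      refine ⟨(a4.zsmul _).neg, (((a3.mul (sup_mp _ _) (T := fun g => ¬ C.pos g) ?_).mul
        T.sup_ct ?_).zsmul _).neg⟩
      · rintro a _ ha ⟨h, rfl⟩ e
        exact ha ((C.right a h).1 e)
      · rintro a _ ha rfl
        rwa [inv_mul_cancel_right]
    · have c1 : sy ε (ξ - D) = R * mp C.vh m * F * sy ε (hypF (OC ρ) J) := by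
        rw [sub_eq_add_neg, sy_add, sy_neg, hD0, neg_zero, add_zero, hξ1, sy_conj, ← mp_sy, hM,
          mp_zsmul]
        conv_lhs => rw [hR, conjTranspose_mul, conjTranspose_conjTranspose, sy_ct, ← hR]
        simp only [Hm.mul_smul, Hm.smul_mul, eps_eps, Hm.mul_assoc]
      have c2 : sy ε (hypF (OC ρ) J) * fromBlocks 0 ((ε : ℤ) • (1 : (OC ρ).Hom J J)) 1 0 = 1 := by
        rw [CSp_sy_hyp, fromBlocks_multiply]
        simp only [Hm.mul_zero, Hm.zero_mul, add_zero, zero_add, Hm.mul_one,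
          Hm.smul_mul, Hm.one_mul, eps_eps, fromBlocks_one]
      have c3 : R * mp C.vh m * F * (R * μ * F) = R * mp C.vh m * F - R * μ * F := by
        calc R * mp C.vh m * F * (R * μ * F) = R * (mp C.vh m * ((F * R) * μ)) * F := by
              simp only [Hm.mul_assoc]
          _ = _ := by
              rw [hFR, Hm.sub_mul, l1, Hm.mul_sub, Hm.mul_one, ← Hm.mul_assoc _ _ μ,
                k2, Hm.one_mul, Hm.mul_sub, Hm.sub_mul]
      rw [c1, Hm.mul_assoc _ (sy ε (hypF (OC ρ) J)), c2, Hm.mul_one, add_mul, mul_add,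
        mul_add, one_mul, one_mul, mul_one, mul_neg, c3]
      abel
  have hh := hess h2 nξ hD0 C.vh
  rw [add_sub_assoc, (cls_eq_zero hZ.ns).2 hZ, sub_zero] at hh
  rw [eq_sub_of_add_eq hcls.symm]
  exact sub_mem ⟨_, rfl⟩ hh

end Pool.Agent.Work.MP_9d1ffa_al.Ct
end
end
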