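import Pool.Agent.Work.MP_9d1ffa_al.Br.KTop
import Pool.Agent.Work.MP_9d1ffa_al.Ct.CDefs
import Pool.Agent.Work.MP_9d1ffa_al.Ct.CSp
import Pool.Agent.Work.MP_9d1ffa_al.Ct.CC
import Pool.Agent.Work.MP_9d1ffa_al.LL.Lw

-- merged part: Pool.Agent.Work.MP_9d1ffa_al.LL.AbA
section
/-! Torsion theories and long exact sequences. -/

namespace Pool.Agent.Work.MP_9d1ffa_al.VN

open Matrix

variable {R M M' : Type} [Ring R] [AddCommGroup M] [Module R M] [AddCommGroup M'] [Module R M']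
  {𝒯 : Set (Ideal R)} {X Y T S Q : Cx R} {k : ℤ}

/-- the scalars that move `m` into `B` -/
def cl (B : Submodule R M) (m : M) : Ideal R := B.comap (LinearMap.toSpanSingleton R M m)

theorem mem_cl {B : Submodule R M} {m : M} {r : R} : r ∈ cl B m ↔ r • m ∈ B := Iff.rfl

/-- a filter of left ideals in the sense of Gabriel -/
structure Gab (𝒯 : Set (Ideal R)) : Prop where
  top : ⊤ ∈ 𝒯
  col : ∀ I ∈ 𝒯, ∀ r : R, cl I r ∈ 𝒯
  ext : ∀ I ∈ 𝒯, ∀ J : Ideal R, (∀ r ∈ I, cl J r ∈ 𝒯) → J ∈ 𝒯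

theorem cl_top {B : Submodule R M} {m : M} (h : m ∈ B) : cl B m = ⊤ :=
  eq_top_iff.2 fun r _ => B.smul_mem r h

theorem cl_cl (B : Submodule R M) (m : M) (r : R) : cl (cl B m) r = cl B (r • m) :=
  Submodule.ext fun s => by simp only [mem_cl, smul_eq_mul, mul_smul]

theorem Gab.up (h : Gab 𝒯) {I J : Ideal R} (hI : I ∈ 𝒯) (e : I ≤ J) : J ∈ 𝒯 :=
  h.ext I hI J fun _ hr => cl_top (e hr) ▸ h.top

theorem gab_top : Gab ({⊤} : Set (Ideal R)) where
  top := rfl
  col _ h r := cl_top (h ▸ trivial)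
  ext _ h J k := (Ideal.eq_top_iff_one J).2 (by
    have := (Ideal.eq_top_iff_one _).1 (k 1 (h ▸ trivial))
    rwa [mem_cl, one_smul] at this)

theorem gab_univ : Gab (Set.univ : Set (Ideal R)) := ⟨trivial, fun _ _ _ => trivial,
  fun _ _ _ _ => trivial⟩

/-- the elements that are torsion modulo `B` -/
def Gab.tor (h : Gab 𝒯) (B : Submodule R M) : Submodule R M where
  carrier := {m | cl B m ∈ 𝒯}
  zero_mem' := show cl B 0 ∈ 𝒯 from (cl_top B.zero_mem).symm ▸ h.top
  add_mem' {a b} ha hb := h.ext _ ha _ fun r hr => h.up (h.col _ hb r) fun s hs => by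
    rw [cl_cl, mem_cl, smul_add, smul_add] at *
    exact add_mem (B.smul_mem s hr) hs
  smul_mem' r m hm := by
    have := h.col _ hm r
    rwa [cl_cl] at this

theorem Gab.le_tor (h : Gab 𝒯) {B : Submodule R M} {m : M} (e : m ∈ B) : m ∈ h.tor B :=
  show cl B m ∈ 𝒯 from (cl_top e).symm ▸ h.top

theorem Gab.of_cl (h : Gab 𝒯) {B : Submodule R M} {B' : Submodule R M'} {m : M} {m' : M'}
    (e : m' ∈ h.tor B') (k : ∀ r : R, r • m' ∈ B' → r • m ∈ h.tor B) : m ∈ h.tor B :=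
  h.ext _ e _ fun r hr => cl_cl B m r ▸ k r hr

theorem Gab.of_le (h : Gab 𝒯) {B : Submodule R M} {B' : Submodule R M'} {m : M} {m' : M'}
    (e : m' ∈ h.tor B') (k : ∀ r : R, r • m' ∈ B' → r • m ∈ B) : m ∈ h.tor B := h.up e k

theorem tor_top {B : Submodule R M} {m : M} : m ∈ gab_top.tor B ↔ m ∈ B :=
  ⟨fun h => by simpa [mem_cl] using (Ideal.eq_top_iff_one _).1 h, gab_top.le_tor⟩

/-- the boundaries -/
abbrev Bd (X : Cx R) : Submodule R (X.I → R) := LinearMap.range X.d.vecMulLinear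

theorem bd_mem (X : Cx R) (w : X.I → R) : w ᵥ* X.d ∈ Bd X := ⟨w, rfl⟩

theorem bd_hom {v : X.I → R} (hv : Vd X.p k v) (h : v ∈ Bd X) :
    ∃ w, Vd X.p (k + 1) w ∧ w ᵥ* X.d = v := by
  obtain ⟨w, rfl⟩ := h
  exact ⟨pj X.p (k + 1) w, vd_pj w, by
    rw [← pj_vecMul w X.hd (c := k) (by omega)]
    exact hv.pj_eq⟩

/-- the homology in degree `k` is torsion -/
def Tx (h : Gab 𝒯) (X : Cx R) (k : ℤ) : Prop := Zc X k ≤ h.tor (Bd X)

theorem tx_top : Tx gab_top X k ↔ Ex X k :=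
  ⟨fun h _ a b => tor_top.1 (h ⟨a, b⟩), fun h v a => tor_top.2 (h v a.1 a.2)⟩

theorem Ex.tx (e : Ex X k) (h : Gab 𝒯) : Tx h X k := fun v a => h.le_tor (e v a.1 a.2)

variable {h : Gab 𝒯}

theorem Tx.re (a : Tx h X k) {k' : ℤ} (f : X.I ≃ Y.I) (s : ℤˣ)
    (h1 : ∀ i, Y.p (f i) = k' → X.p i = k) (h2 : X.d = (s : ℤ) • Y.d.submatrix f f) :
    Tx h Y k' := by
  have key : ∀ w : X.I → R, w ᵥ* X.d = (s : ℤ) • (((w ∘ f.symm) ᵥ* Y.d) ∘ f) := fun w => by
    rw [h2, vecMul_smul, submatrix_vecMul_equiv]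
  intro v hv
  refine h.of_le (a (x := v ∘ f) ⟨fun i hi => h1 i (hv.1 _ hi), by
    rw [key, Function.comp_assoc, f.self_comp_symm, Function.comp_id, hv.2]
    simp⟩) fun r ⟨w, hw⟩ => ⟨(s : ℤ) • (w ∘ f.symm), funext fun i => ?_⟩
  have := congrFun ((key w).symm.trans hw) (f.symm i)
  rw [vecMulLinear_apply, smul_vecMul]
  simpa using this

theorem Tx.up (a : Tx h X (k - 1)) : Tx h X.up k :=
  a.re (Equiv.refl _) (-1) (fun i e => by simp at e; omega) (by simp)

theorem Tx.of_up (a : Tx h X.up (k + 1)) : Tx h X k :=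
  a.re (Equiv.refl _) (-1) (fun i e => by simp at e ⊢; omega) (by simp)

section Gl

variable {θ : Matrix Q.I S.I R} (g : Gl S Q θ)

theorem Gl.mul (x : S.I → R) (y : Q.I → R) :
    Sum.elim x y ᵥ* g.ext.d = Sum.elim (x ᵥ* S.d + y ᵥ* θ) (y ᵥ* Q.d) := by
  rw [VRe_blocks, vecMul_zero, zero_add]

theorem VRe_smul {I J : Type} (r : R) (a : I → R) (b : J → R) :
    r • Sum.elim a b = Sum.elim (r • a) (r • b) := by
  funext i
  cases i <;> rfl

theorem Gl.tx_ext (h1 : ∀ x ∈ Zc S k, Sum.elim x 0 ∈ h.tor (Bd g.ext))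
    (h2 : ∀ y ∈ Zc Q k, y ᵥ* θ ∈ Bd S → y ∈ h.tor (Bd Q)) : Tx h g.ext k := by
  intro v ⟨hv, h0⟩
  obtain ⟨x, y, rfl⟩ := VRe_split v
  rw [g.mul, VRe_zero] at h0
  rw [vd_elim] at hv
  refine h.of_cl (h2 y ⟨hv.2, h0.2⟩ ⟨-x, by
    rw [vecMulLinear_apply, neg_vecMul, neg_eq_iff_add_eq_zero, h0.1]⟩) fun r hr => ?_
  obtain ⟨w, hw, e⟩ := bd_hom (hv.2.smul r) hr
  have := add_mem (h1 (r • x - w ᵥ* θ) ⟨(hv.1.smul r).sub (hw.vecMul g.1 (by omega)), by
    rw [sub_vecMul, vecMul_vecMul, eq_neg_of_add_eq_zero_left g.2, vecMul_neg, ← vecMul_vecMul, e,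
      smul_vecMul, smul_vecMul, sub_neg_eq_add, ← smul_add, h0.1, smul_zero]⟩)
    (h.le_tor (bd_mem g.ext (Sum.elim 0 w)))
  rwa [g.mul, VRe_add, zero_vecMul, zero_add, zero_add, sub_add_cancel, e, ← VRe_smul] at this

theorem Gl.tx_ext' (h1 : Tx h S k) (h2 : Tx h Q k) : Tx h g.ext k :=
  g.tx_ext (fun x hx => h.of_le (h1 hx) fun r ⟨w, hw⟩ => ⟨Sum.elim w 0, by
    rw [vecMulLinear_apply, g.mul, VRe_smul, ← hw]
    simp⟩) fun _ hy _ => h2 hy

theorem Gl.tx_sub (h1 : Tx h g.ext k) (h2 : Tx h Q (k + 1)) : Tx h S k := by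
  intro x hx
  have hv : Vd g.ext.p k (Sum.elim x 0) := vd_elim.2 ⟨hx.1, vd_zero⟩
  refine h.of_cl (h1 ⟨hv, by rw [g.mul, hx.2]; simp⟩) fun r hr => ?_
  obtain ⟨w, hw, e⟩ := bd_hom (hv.smul r) hr
  obtain ⟨a, b, rfl⟩ := VRe_split w
  rw [g.mul, VRe_smul, VRe_eq, smul_zero] at e
  refine h.of_le (h2 ⟨(vd_elim.1 hw).2, e.2⟩) fun s ⟨z, hz⟩ => ⟨s • a - z ᵥ* θ, ?_⟩
  rw [vecMulLinear_apply] at hz ⊢
  rw [sub_vecMul, vecMul_vecMul, eq_neg_of_add_eq_zero_left g.2, vecMul_neg, ← vecMul_vecMul, hz,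
    ← e.1, smul_add, smul_vecMul, smul_vecMul, sub_neg_eq_add]

theorem Gl.tx_quo (h1 : Tx h g.ext k) {y : Q.I → R} (hy : y ∈ Zc Q k)
    (h2 : y ᵥ* θ ∈ h.tor (Bd S)) : y ∈ h.tor (Bd Q) := by
  refine h.of_cl h2 fun r hr => ?_
  obtain ⟨a, ha, e⟩ := bd_hom (k := k - 1) ((hy.1.vecMul g.1 (by omega)).smul r) hr
  rw [sub_add_cancel] at ha
  refine h.of_le (h1 (x := Sum.elim (-a) (r • y)) ⟨vd_elim.2 ⟨ha.neg, hy.1.smul r⟩, by
    rw [g.mul, neg_vecMul, e, smul_vecMul, smul_vecMul, hy.2]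
    simp⟩) fun s ⟨z, hz⟩ => ?_
  obtain ⟨c, b, rfl⟩ := VRe_split z
  rw [vecMulLinear_apply, g.mul, VRe_smul, VRe_eq] at hz
  exact ⟨b, hz.2⟩

theorem Gl.tx_quo' (h1 : Tx h g.ext k) (h2 : Tx h S (k - 1)) : Tx h Q k := fun y hy =>
  g.tx_quo h1 hy (h2 ⟨hy.1.vecMul g.1 (by omega), by
    rw [vecMul_vecMul, eq_neg_of_add_eq_zero_left g.2, vecMul_neg, ← vecMul_vecMul, hy.2]
    simp⟩)

end Gl

section Cone

variable {t : Matrix T.I X.I R} (c : Ch T X t)

theorem Ch.tx_cone (h1 : Tx h X k) (h2 : Tx h T (k - 1)) : Tx h c.cone k := c.gl.tx_ext' h1 h2.up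

theorem Ch.tx_tgt (h1 : Tx h c.cone k) (h2 : Tx h T k) : Tx h X k :=
  c.gl.tx_sub h1 (Tx.up (by rwa [add_sub_cancel_right]))

theorem Ch.tx_src (h1 : Tx h c.cone (k + 1)) (h2 : Tx h X k) : Tx h T k :=
  (c.gl.tx_quo' h1 (by rwa [add_sub_cancel_right])).of_up

variable [StarRing R]

theorem Tx.up_dual (a : Tx h X.dual (k + 1)) : Tx h X.up.dual k :=
  a.re (Equiv.refl _) (-1) (fun i e => by simp at e ⊢; omega) (by simp)

theorem Tx.of_up_dual (a : Tx h X.up.dual (k - 1)) : Tx h X.dual k :=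
  a.re (Equiv.refl _) (-1) (fun i e => by simp at e ⊢; omega) (by simp)

theorem Tx.of_dd (a : Tx h X.dual.dual k) : Tx h X k :=
  a.re (Equiv.refl _) 1 (fun i e => by simpa using e) (by simp)

include c in
theorem Ch.gld : Gl T.up.dual X.dual tᴴ :=
  ⟨c.1.ct.of fun k l e => by simp only at e ⊢; omega, by
    change tᴴ * (-T.d)ᴴ + X.dᴴ * tᴴ = 0
    rw [conjTranspose_neg, Matrix.mul_neg, ← conjTranspose_mul, ← conjTranspose_mul, c.2,
      neg_add_cancel]⟩

theorem Ch.tx_gld : Tx h c.gld.ext k ↔ Tx h c.cone.dual k :=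
  ⟨fun a => a.re (Equiv.sumComm _ _) 1 (fun i e => by cases i <;> exact e) (by
    ext (i | i) (j | j) <;> simp), fun a => a.re (Equiv.sumComm _ _) 1
      (fun i e => by cases i <;> exact e) (by ext (i | i) (j | j) <;> simp)⟩

theorem Ch.dx_cone (h1 : Tx h T.dual (k + 1)) (h2 : Tx h X.dual k) : Tx h c.cone.dual k :=
  c.tx_gld.1 (c.gld.tx_ext' h1.up_dual h2)

theorem Ch.dx_src (h1 : Tx h c.cone.dual (k - 1)) (h2 : Tx h X.dual k) : Tx h T.dual k :=
  (c.gld.tx_sub (c.tx_gld.2 h1) (by rwa [sub_add_cancel])).of_up_dual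

theorem Ch.dx_tgt (h1 : Tx h c.cone.dual k) (h2 : Tx h T.dual k) : Tx h X.dual k :=
  c.gld.tx_quo' (c.tx_gld.2 h1) (Tx.up_dual (by rwa [sub_add_cancel]))

end Cone

/-- induction over the truncations -/
theorem devis (hT : Trn R) {a : ℤ} (Φ : Cx R → Prop) (h0 : ∀ X, Acy X → Φ X)
    (h1 : ∀ (X T : Cx R) (t : Matrix T.I X.I R) (c : Ch T X t) (b : ℤ), b ≤ a → (∀ i, b ≤ T.p i) →
      Le T b → Le c.cone (b - 1) → Φ c.cone → Φ X) (X : Cx R) (hX : Le X a) : Φ X := by
  have key : ∀ (n : ℕ) (b : ℤ) (X : Cx R), b ≤ a → (∀ i, b - n < X.p i) → Le X b → Φ X := by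
    intro n
    induction n with
    | zero =>
      exact fun b X _ e e' => h0 X fun k => (le_or_gt k b).elim
        (fun l => ex_of_ne fun i q => by have := e i; omega) (e' k)
    | succ n ih =>
      intro b X l e e'
      obtain ⟨T, t, c, h2, h3⟩ := hT X b
      refine h1 X T t c b l h2 (fun k hk => tx_top.1 (c.tx_src (tx_top.2 (h3 _ (by omega)))
        (tx_top.2 (e' k hk)))) h3 (ih (b - 1) _ (by omega) ?_ h3)
      rintro (i | i)
      · have := e i
        change _ < X.p i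
        omega
      · have := h2 i
        change _ < T.p i + 1
        omega
  obtain ⟨N, hN⟩ := exists_bound X.p
  exact key (a + N + 1).toNat a X le_rfl (fun i => by have := hN i; omega) hX

/-- a resolution of the image of `ε`, starting in degree `b` -/
structure Rs (P : Cx R) (b : ℤ) (ε : (P.I → R) →ₗ[R] M) : Prop where
  deg : ∀ i, b ≤ P.p i
  le : Le P b
  ker : ∀ v, ε v = 0 ↔ pj P.p b v ∈ Bd P

variable {P P' : Cx R} {b : ℤ} {ε : (P.I → R) →ₗ[R] M} {ε' : (P'.I → R) →ₗ[R] M}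

theorem low_zero {v : P.I → R} (e : ∀ i, b ≤ P.p i) (hv : Vd P.p k v) (l : k < b) : v = 0 :=
  funext fun i => by_contra fun q => by
    have := hv i q
    have := e i
    omega

theorem pj_cyc (e : ∀ i, b ≤ P.p i) (v : P.I → R) : pj P.p b v ∈ Zc P b :=
  ⟨vd_pj v, low_zero e ((vd_pj v).vecMul P.hd rfl) (by omega)⟩

theorem Rs.bd (r : Rs P b ε) (w : P.I → R) : ε (w ᵥ* P.d) = 0 :=
  (r.ker _).2 ⟨_, (pj_vecMul w P.hd (k := b + 1) (by omega)).symm⟩

theorem Rs.ne (r : Rs P b ε) {v : P.I → R} (hv : Vd P.p k v) (l : k ≠ b) : ε v = 0 :=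
  (r.ker _).2 (by
    rw [show pj P.p b v = 0 from funext fun i => ite_eq_right_iff.2 fun e =>
      by_contra fun q => l ((hv i q).symm.trans e)]
    exact zero_mem _)

theorem Rs.pj (r : Rs P b ε) (v : P.I → R) : ε (pj P.p b v) = ε v := by
  rw [← sub_eq_zero, ← map_sub, r.ker, pj_sub, (vd_pj v).pj_eq, sub_self]
  exact zero_mem _

theorem Rs.ex (r : Rs P b ε) {v : P.I → R} (hv : v ∈ Zc P k) (e : ε v = 0) : v ∈ Bd P := by
  rcases lt_trichotomy k b with l | rfl | l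
  · rw [low_zero r.deg hv.1 l]
    exact zero_mem _
  · exact hv.1.pj_eq ▸ (r.ker v).1 e
  · exact r.le k l v hv.1 hv.2

theorem Rs.comp (f : M →ₗ[R] M') (hf : Function.Injective f) : Rs P b (f ∘ₗ ε) ↔ Rs P b ε :=
  ⟨fun r => ⟨r.deg, r.le, fun v => (map_eq_zero_iff f hf).symm.trans (r.ker v)⟩,
    fun r => ⟨r.deg, r.le, fun v => (map_eq_zero_iff f hf).trans (r.ker v)⟩⟩

/-- the comparison theorem -/
theorem Rs.lift (r : Rs P b ε) (r' : Rs P' b ε') (e : LinearMap.range ε ≤ LinearMap.range ε') :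
    ∃ f, Ch P P' f ∧ ∀ v, ε' (v ᵥ* f) = ε v := by
  have rows : ∀ f : Matrix P.I P'.I R, (∀ i, ε' (f i) = ε (Pi.single i 1)) →
      ∀ v, ε' (v ᵥ* f) = ε v := fun f hf v => by
    conv_rhs => rw [pi_eq_sum_univ' v]
    simp only [vecMul_eq_sum, map_sum, map_smul, hf]
  have key : ∀ n : ℕ, ∃ f : Matrix P.I P'.I R, Hg 0 P.p P'.p f ∧
      (∀ i, ε' (f i) = ε (Pi.single i 1)) ∧ ∀ i, P.p i ≤ b + n → (P.d * f - f * P'.d) i = 0 := by
    intro n
    induction n with
    | zero =>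
      choose u hu using fun i => e ⟨Pi.single i 1, rfl⟩
      have hf : Hg 0 P.p P'.p (Matrix.of fun i => VN.pj P'.p (P.p i) (u i)) := fun i l q =>
        (vd_pj _ l q).trans (add_zero _).symm
      refine ⟨_, hf, fun i => ?_, fun i hi => low_zero r'.deg (((P.hd.mul hf (c := -1) rfl).sub
        (hf.mul P'.hd rfl)).row i) (by omega)⟩
      by_cases q : P.p i = b
      · exact (q ▸ r'.pj _ :).trans (hu i)
      · exact (r'.ne (vd_pj _) q).trans (r.ne (fun j l => by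
          rw [of_not_not fun a => l (Pi.single_eq_of_ne a _)]) q).symm
    | succ n ih =>
      obtain ⟨f, h1, h2, h3⟩ := ih
      have hE := (P.hd.mul h1 (c := -1) rfl).sub (h1.mul P'.hd rfl)
      have : ∀ i, ∃ w, Vd P'.p (b + n + 1) w ∧ (P.p i ≠ b + n + 1 → w = 0) ∧
          (P.p i ≤ b + n + 1 → w ᵥ* P'.d = (P.d * f - f * P'.d) i) := fun i => by
        by_cases q : P.p i = b + n + 1
        · have a : Vd P'.p (b + n) ((P.d * f - f * P'.d) i) := by simpa [q] using hE.row i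
          obtain ⟨w, hw, e⟩ := bd_hom a (r'.ex ⟨a, by
            have := VOr2_row (d := P.d) (i := i) fun j l => h3 j (by have := P.hd i j l; omega)
            rw [Matrix.mul_sub, ← Matrix.mul_assoc, P.dd, Matrix.zero_mul, zero_sub] at this
            rw [← mul_apply_eq_vecMul, Matrix.sub_mul, Matrix.mul_assoc f, P'.dd, Matrix.mul_zero,
              sub_zero, Matrix.mul_assoc]
            exact neg_eq_zero.1 this⟩ (by
              change ε' ((P.d * f) i - (f * P'.d) i) = 0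
              rw [map_sub, mul_apply_eq_vecMul, mul_apply_eq_vecMul, rows f h2, r'.bd, sub_zero,
                ← r.bd (Pi.single i 1), single_one_vecMul]
              rfl))
          exact ⟨w, hw, fun l => (l q).elim, fun _ => e⟩
        · exact ⟨0, vd_zero, fun _ => rfl, fun l => by rw [h3 i (by omega), zero_vecMul]⟩
      choose w w1 w2 w3 using this
      refine ⟨f + Matrix.of w, h1.add fun i l q => ?_, fun i => ?_, fun i hi => ?_⟩
      · rw [w1 i l q, add_zero, of_not_not fun a => q (congrFun (w2 i a) l)]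
      · change ε' (f i + w i) = _
        rw [map_add, h2, r'.ne (w1 i) (by omega), add_zero]
      · have a : (P.d * Matrix.of w) i = 0 :=
          VOr2_row fun j l => w2 j (by have := P.hd i j l; omega)
        rw [Matrix.mul_add, Matrix.add_mul, add_sub_add_comm]
        change _ + ((P.d * Matrix.of w) i - (Matrix.of w * P'.d) i) = 0
        rw [a, zero_sub, ← w3 i (by omega)]
        exact add_neg_cancel _
  obtain ⟨N, hN⟩ := exists_bound P.p
  obtain ⟨f, h1, h2, h3⟩ := key (N - b).toNat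
  exact ⟨f, ⟨h1, sub_eq_zero.1 (funext fun i => h3 i (by have := hN i; omega))⟩, rows f h2⟩

/-- the first part of a vector -/
abbrev fst (R I J : Type) [Ring R] : (I ⊕ J → R) →ₗ[R] I → R := LinearMap.funLeft R R Sum.inl

theorem rs_cone {f : Matrix P'.I P.I R} (c : Ch P' P f) (d : ∀ i, b ≤ P.p i) (d' : ∀ i, b ≤ P'.p i)
    (l : Le P b) (l' : Le P' b) (j : ∀ y ∈ Zc P' b, y ᵥ* f ∈ Bd P → y ∈ Bd P')
    (e : ∀ x, ε x = 0 ↔ ∃ z, pj P.p b x - z ᵥ* f ∈ Bd P) : Rs c.cone b (ε ∘ₗ fst R _ _) where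
  deg := Sum.rec d fun i => (d' i).trans (Int.le_add_one le_rfl)
  le k hk := by
    rcases (show b + 1 < k ∨ k = b + 1 by omega) with q | rfl
    · exact tx_top.1 (c.tx_cone (tx_top.2 (l k hk)) (tx_top.2 (l' _ (by omega))))
    refine tx_top.1 (c.gl.tx_ext (fun x hx => tor_top.2 ?_) fun y hy q => tor_top.2 ?_)
    · obtain ⟨w, rfl⟩ := l _ hk x hx.1 hx.2
      exact ⟨Sum.elim w 0, by simp [c.gl.mul]⟩
    · obtain ⟨w, rfl⟩ := j y ⟨fun i a => add_right_cancel (hy.1 i a), neg_eq_zero.1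
        ((vecMul_neg y P'.d).symm.trans hy.2)⟩ q
      exact ⟨-w, neg_vecMul_neg _ _⟩
  ker v := by
    obtain ⟨x, y, rfl⟩ := VRe_split v
    have q : pj c.cone.p b (Sum.elim x y) = Sum.elim (pj P.p b x) 0 := funext (Sum.rec
      (fun _ => rfl) fun i => if_neg fun a : P'.p i + 1 = b => by have := d' i; omega)
    rw [q]
    refine (e x).trans ⟨fun ⟨z, w, a⟩ => ⟨Sum.elim (pj P.p (b + 1) w) (pj P'.p b z), ?_⟩,
      fun ⟨w, a⟩ => ?_⟩
    · rw [vecMulLinear_apply, c.gl.mul, ← pj_vecMul w P.hd (c := b) (by omega),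
        ← pj_vecMul z c.1 (c := b) (by omega), ← pj_add, show w ᵥ* P.d = _ from a, sub_add_cancel,
        (vd_pj x).pj_eq, vecMul_neg, (pj_cyc d' z).2, neg_zero]
    · obtain ⟨w, z, rfl⟩ := VRe_split w
      rw [vecMulLinear_apply, c.gl.mul, VRe_eq] at a
      exact ⟨z, w, eq_sub_of_add_eq a.1⟩

theorem Rs.cone (r : Rs P b ε) (r' : Rs P' b ε') {f : Matrix P'.I P.I R} (c : Ch P' P f)
    (e : ∀ v, ε (v ᵥ* f) = ε' v) (π : M →ₗ[R] M')
    (k : ∀ v, π (ε v) = 0 ↔ ε v ∈ LinearMap.range ε') : Rs c.cone b ((π ∘ₗ ε) ∘ₗ fst R _ _) :=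
  rs_cone c r.deg r'.deg r.le r'.le (fun y hy ⟨w, a⟩ => r'.ex hy (by
    rw [← e, ← r.bd w]
    exact congrArg ε a.symm)) fun x => (k x).trans ⟨fun ⟨z, a⟩ => ⟨VN.pj P'.p b z, by
      rw [← pj_vecMul z c.1 (c := b) (by omega), ← pj_sub, ← r.ker, map_sub, e, a, sub_self]⟩,
      fun ⟨z, w, a⟩ => ⟨z, by
        rw [← e, ← r.pj x, ← sub_eq_zero, ← neg_eq_zero, neg_sub, ← map_sub, ← a]
        exact r.bd w⟩⟩

theorem exists_rs [IsNoetherianRing R] (hT : Trn R) (b : ℤ) {F : Submodule R M} (hF : F.FG) :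
    ∃ (P : Cx R) (ε : (P.I → R) →ₗ[R] M), Rs P b ε ∧ LinearMap.range ε = F := by
  obtain ⟨n, φ, h1⟩ := (Submodule.fg_iff_exists_fin_linearMap R M).1 hF
  obtain ⟨m, ψ, h2⟩ := (Submodule.fg_iff_exists_fin_linearMap R _).1
    (IsNoetherian.noetherian (LinearMap.ker φ))
  obtain ⟨G, rfl⟩ := Matrix.toLinearMapRight'.surjective ψ
  have c : Ch (Cx.free R (Fin m) b) (Cx.free R (Fin n) b) G :=
    ⟨fun _ _ _ => (add_zero _).symm, by simp⟩
  obtain ⟨T, t, c', h3, h4⟩ := hT c.cone (b + 1)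
  refine ⟨c'.cone, (φ ∘ₗ fst R _ _) ∘ₗ fst R _ _, ⟨?_, by simpa using h4, fun v => ?_⟩, ?_⟩
  · rintro ((i | i) | i)
    exacts [le_rfl, Int.le_add_one le_rfl, by have := h3 i; change _ ≤ T.p i + 1; omega]
  · obtain ⟨v, z, rfl⟩ := VRe_split v
    obtain ⟨x, y, rfl⟩ := VRe_split v
    have q : pj c'.cone.p b (Sum.elim (Sum.elim x y) z) = Sum.elim (Sum.elim x 0) 0 := by
      funext i
      rcases i with (i | i) | i
      exacts [if_pos rfl, if_neg (by simp), if_neg fun a : T.p i + 1 = b => by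
        have := h3 i; omega]
    rw [q]
    change x ∈ LinearMap.ker φ ↔ _
    rw [← h2]
    refine ⟨fun ⟨u, a⟩ => ⟨Sum.elim (Sum.elim 0 u) 0, ?_⟩, fun a => ?_⟩
    · rw [vecMulLinear_apply, c'.gl.mul, c.gl.mul, ← a]
      simp
    · obtain ⟨w, hw, a⟩ := bd_hom (k := b) (q ▸ vd_pj _) a
      obtain ⟨w, z, rfl⟩ := VRe_split w
      obtain ⟨w, u, rfl⟩ := VRe_split w
      rw [c'.gl.mul, c.gl.mul, low_zero (k := b) h3 (fun i l => add_right_cancel
        ((vd_elim.1 hw).2 i l)) (by omega), zero_vecMul, add_zero, VRe_eq, VRe_eq, vecMul_zero,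
        zero_add] at a
      exact ⟨u, a.1.1⟩
  · rw [← h1, LinearMap.range_comp_of_range_eq_top, LinearMap.range_comp_of_range_eq_top] <;>
    exact LinearMap.range_eq_top.2 (LinearMap.funLeft_surjective_of_injective _ _ _ Sum.inl_injective)

theorem Rs.acy (r : Rs P b ε) (e : ∀ v, ε v = 0) : Acy P := fun _ v a a' => r.ex ⟨a, a'⟩ (e v)

/-- independence of the resolution -/
theorem Rs.ind [StarRing R] (r : Rs P b ε) (r' : Rs P' b ε')
    (e : LinearMap.range ε' = LinearMap.range ε) (a : Tx h P.dual k) : Tx h P'.dual k := by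
  obtain ⟨f, c, q⟩ := r'.lift r e.le
  exact c.dx_src ((((r.cone r' c q (0 : M →ₗ[R] M) fun v => iff_of_true rfl
    (e ▸ ⟨v, rfl⟩)).acy fun _ => rfl).dual _).tx h) a

end Pool.Agent.Work.MP_9d1ffa_al.VN
end

-- merged part: Pool.Agent.Work.MP_9d1ffa_al.LL.AbB
section
/-! The grade of a module and the condition of Auslander. -/

namespace Pool.Agent.Work.MP_9d1ffa_al.VN

open Matrix Function

variable {R S M M' : Type} [Ring R] [Ring S] [AddCommGroup M] [Module R M] [AddCommGroup M']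
  {X Y T P P' : Cx R} {j k a b : ℤ} {ε : (P.I → R) →ₗ[R] M}

theorem comp_vecMul {I J : Type} [Fintype I] (f : R →+* S) (v : I → R) (d : Matrix I J R) :
    (f ∘ v) ᵥ* d.map f = f ∘ (v ᵥ* d) := funext fun i => (f.map_vecMul d v i).symm

theorem zc_map (f : R →+* S) {v : X.I → R} (h : v ∈ Zc X k) : f ∘ v ∈ Zc (X.map f) k :=
  ⟨fun i e => h.1 i fun q => e ((congrArg f q).trans f.map_zero), by
    rw [comp_vecMul, h.2]
    exact funext fun _ => f.map_zero⟩

theorem bd_map (f : R →+* S) {v : X.I → R} (h : v ∈ Bd X) : f ∘ v ∈ Bd (X.map f) := by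
  obtain ⟨w, rfl⟩ := h
  exact ⟨f ∘ w, comp_vecMul f w X.d⟩

theorem Ch.map (f : R →+* S) {t : Matrix T.I X.I R} (c : Ch T X t) :
    Ch (T.map f) (X.map f) (t.map f) :=
  ⟨c.1.map f f.map_zero, by rw [← Matrix.map_mul, ← Matrix.map_mul, c.2]⟩

theorem symm_comp {I : Type} (σ : R ≃+* S) (v : I → S) : (σ : R →+* S) ∘ (σ.symm ∘ v) = v :=
  funext fun _ => σ.apply_symm_apply _

theorem bd_equiv (σ : R ≃+* S) {v : X.I → R} (h : (σ : R →+* S) ∘ v ∈ Bd (X.map (σ : R →+* S))) :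
    v ∈ Bd X := by
  obtain ⟨w, e⟩ := h
  rw [vecMulLinear_apply, ← symm_comp σ w, comp_vecMul] at e
  exact ⟨_, funext fun i => σ.injective (congrFun e i)⟩

theorem ex_map (σ : R ≃+* S) : Ex (X.map (σ : R →+* S)) k ↔ Ex X k := by
  refine ⟨fun h v h1 h2 => ?_, fun h v h1 h2 => ?_⟩
  · have := zc_map (σ : R →+* S) (X := X) ⟨h1, h2⟩
    exact bd_equiv σ (h _ this.1 this.2)
  · rw [← symm_comp σ v] at h2 ⊢
    rw [comp_vecMul] at h2
    exact bd_map _ (h _ (fun i e => h1 i fun q => e ((congrArg σ.symm q).trans (map_zero _)))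
      (funext fun i => σ.injective ((congrFun h2 i).trans (map_zero σ).symm)))

/-- transport of an augmentation along a semilinear map -/
def semi [Module S M'] (σ : R ≃+* S) (e : M →+ M') (he : ∀ r m, e (r • m) = σ r • e m)
    {I : Type} (ε : (I → R) →ₗ[R] M) : (I → S) →ₗ[S] M' where
  toFun v := e (ε (σ.symm ∘ v))
  map_add' v w := by
    rw [← map_add, ← map_add]
    exact congrArg (e <| ε ·) (funext fun _ => map_add _ _ _)
  map_smul' s v := by
    rw [show σ.symm ∘ (s • v) = σ.symm s • σ.symm ∘ v from funext fun _ => map_mul _ _ _, map_smul,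
      he, σ.apply_symm_apply]
    rfl

theorem Rs.semi [Module S M'] (r : Rs P b ε) (σ : R ≃+* S) (e : M →+ M')
    (he : ∀ r m, e (r • m) = σ r • e m) (hi : Injective e) :
    Rs (P.map (σ : R →+* S)) b (semi σ e he ε) where
  deg := r.deg
  le k hk := (ex_map σ).2 (r.le k hk)
  ker v := by
    have q : VN.pj P.p b v = (σ : R →+* S) ∘ VN.pj P.p b (σ.symm ∘ v) := funext fun i => by
      by_cases l : P.p i = b <;> simp [VN.pj, l]
    refine ((map_eq_zero_iff e hi).trans (r.ker _)).trans ?_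
    change _ ↔ VN.pj P.p b v ∈ _
    rw [q]
    exact ⟨bd_map _, bd_equiv σ⟩

/-- the projection to one degree -/
def pjL (R : Type) [Ring R] {I : Type} (p : I → ℤ) (b : ℤ) : (I → R) →ₗ[R] I → R where
  toFun := pj p b
  map_add' := pj_add
  map_smul' r v := funext fun i => by by_cases l : p i = b <;> simp [pj, l]

theorem rs_can (d : ∀ i, b ≤ P.p i) (l : Le P b) : Rs P b ((Bd P).mkQ ∘ₗ pjL R P.p b) :=
  ⟨d, l, fun _ => Submodule.Quotient.mk_eq_zero _⟩

theorem Tx.mono {𝒯 𝒯' : Set (Ideal R)} {h : Gab 𝒯} {h' : Gab 𝒯'} (e : 𝒯 ⊆ 𝒯') (t : Tx h X k) :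
    Tx h' X k := fun _ hv => e (t hv)

/-- noetherian with truncations -/
structure NT (R : Type) [Ring R] : Prop where
  noe : IsNoetherianRing R
  trn : Trn R

variable [StarRing R] [StarRing S]

theorem dual_map (f : R →+* S) (h : ∀ x, f (star x) = star (f x)) (X : Cx R) :
    (X.map f).dual = X.dual.map f := by
  simp only [Cx.map, Cx.dual, Cx.mk.injEq, heq_eq_eq, true_and]
  exact (conjTranspose_map f h).symm

variable (R) in
/-- all finitely generated submodules have grade at least `j` -/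
def Grd (j : ℤ) (M : Type) [AddCommGroup M] [Module R M] : Prop :=
  ∀ (b : ℤ) (P : Cx R) (ε : (P.I → R) →ₗ[R] M), Rs P b ε → Le P.dual (-b - j)

theorem Grd.semi [Module S M'] (h : Grd S j M') (σ : R ≃+* S) (hs : ∀ x, σ (star x) = star (σ x))
    (e : M →+ M') (he : ∀ r m, e (r • m) = σ r • e m) (hi : Injective e) : Grd R j M :=
  fun b P _ r k hk => (ex_map σ).1 (dual_map (σ : R →+* S) hs P ▸ h b _ _ (r.semi σ e he hi) k hk)

variable [Module R M']

theorem Grd.inj (h : Grd R j M') (f : M →ₗ[R] M') (hf : Injective f) : Grd R j M :=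
  fun b P _ r => h b P _ ((Rs.comp f hf).2 r)

theorem exists_cone (hR : NT R) (r : Rs P b ε) (π : M →ₗ[R] M') :
    ∃ (P' : Cx R) (ε' : (P'.I → R) →ₗ[R] LinearMap.ker π) (f : Matrix P'.I P.I R) (c : Ch P' P f),
      Rs P' b ε' ∧ Rs c.cone b ((π ∘ₗ ε) ∘ₗ fst R _ _) := by
  have := hR.noe
  obtain ⟨P', ε', r', e⟩ := exists_rs hR.trn b ((Submodule.fg_range ε).of_le
    (inf_le_left : LinearMap.range ε ⊓ LinearMap.ker π ≤ _))
  obtain ⟨f, c, q⟩ := r'.lift r (e.le.trans inf_le_left)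
  exact ⟨P', ε'.codRestrict _ fun v => (e.le ⟨v, rfl⟩).2, f, c,
    (Rs.comp _ (LinearMap.ker π).injective_subtype).1 r',
    r.cone r' c q π fun v => e ▸ ⟨fun l => ⟨⟨v, rfl⟩, l⟩, fun l => l.2⟩⟩

theorem Grd.ext (hR : NT R) (π : M →ₗ[R] M') (h : Grd R j (LinearMap.ker π)) (h' : Grd R j M') :
    Grd R j M := fun b P ε r k hk =>
  let ⟨_, _, _, c, r1, r2⟩ := exists_cone hR r π
  tx_top.1 (c.dx_tgt (tx_top.2 (h' _ _ _ r2 k hk)) (tx_top.2 (h _ _ _ r1 k hk)))

theorem Grd.surj (hR : NT R) (π : M →ₗ[R] M') (hπ : Surjective π) (h : Grd R j M) :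
    Grd R j M' := fun b P ε r k hk => by
  have := hR.noe
  obtain ⟨φ, rfl⟩ := Module.projective_lifting_property π ε hπ
  obtain ⟨P₀, ε₀, r₀, e⟩ := exists_rs hR.trn b (Submodule.fg_range φ)
  obtain ⟨_, _, _, c, r1, r2⟩ := exists_cone hR r₀ π
  refine tx_top.1 (r2.ind r ?_ (c.dx_cone (tx_top.2 (h.inj _ (LinearMap.ker π).injective_subtype
    _ _ _ r1 _ (by omega))) (tx_top.2 (h _ _ _ r₀ k hk))))
  rw [LinearMap.range_comp_of_range_eq_top _ (LinearMap.range_eq_top.2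
    (LinearMap.funLeft_surjective_of_injective _ _ _ Sum.inl_injective)), LinearMap.range_comp,
    LinearMap.range_comp, e]

variable (R) in
/-- the left ideals of grade at least `j` -/
def Tj (j : ℤ) : Set (Ideal R) := {I | Grd R j (R ⧸ I)}

theorem Grd.ker (h : Grd R j M) (f : R →ₗ[R] M) : LinearMap.ker f ∈ Tj R j :=
  h.inj ((LinearMap.range f).subtype ∘ₗ f.quotKerEquivRange.toLinearMap)
    (Subtype.val_injective.comp f.quotKerEquivRange.injective)

theorem grd_of_tor (hR : NT R) (h : ∀ m : M, cl ⊥ m ∈ Tj R j) : Grd R j M := fun b P ε r => by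
  have key : ∀ N : Submodule R M, N.FG → Grd R j N := fun N hN => by
    refine Submodule.fg_induction (motive := fun N _ => Grd R j N) (fun m => ?_)
      (fun A B _ _ hA hB => ?_) N hN
    · rw [LinearMap.span_singleton_eq_range]
      exact Grd.surj hR _ (LinearMap.toSpanSingleton R M m).quotKerEquivRange.surjective (h m)
    · refine Grd.surj hR ((A.subtype.coprod B.subtype).codRestrict _ fun x =>
        Submodule.add_mem_sup x.1.2 x.2.2) (fun ⟨x, hx⟩ => ?_) (Grd.ext hR (LinearMap.snd R A B)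
          (hA.inj (LinearMap.fst R A B ∘ₗ Submodule.subtype _) fun x y e =>
            Subtype.ext (Prod.ext e (x.2.trans y.2.symm))) hB)
      obtain ⟨y, hy, z, hz, rfl⟩ := Submodule.mem_sup.1 hx
      exact ⟨(⟨y, hy⟩, ⟨z, hz⟩), rfl⟩
  exact key _ (Submodule.fg_range ε) b P ε.rangeRestrict
    ((Rs.comp _ (LinearMap.range ε).injective_subtype).1 r)

theorem NT.tj (hR : NT R) (j : ℤ) : Gab (Tj R j) where
  top _ _ _ r k _ := (r.acy fun _ => Subsingleton.elim _ _).dual k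
  col I h r := by
    have := Grd.ker h (I.mkQ ∘ₗ LinearMap.toSpanSingleton R R r)
    rwa [LinearMap.ker_comp, Submodule.ker_mkQ] at this
  ext I h J e := by
    refine Grd.ext hR (Submodule.factor (le_sup_right : J ≤ I ⊔ J)) (grd_of_tor hR ?_)
      (Grd.surj hR _ (Submodule.factor_surjective le_sup_left) h)
    rintro ⟨x, hx⟩
    obtain ⟨x, rfl⟩ := J.mkQ_surjective x
    obtain ⟨y, hy, z, hz, rfl⟩ := Submodule.mem_sup.1 ((Submodule.Quotient.mk_eq_zero _).1 hx)
    refine cast (congrArg (· ∈ Tj R j) (Submodule.ext fun s => ?_)) (e y hy)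
    rw [mem_cl, mem_cl, Submodule.mem_bot, Subtype.ext_iff, Submodule.coe_smul, ← map_smul,
      Submodule.coe_zero, Submodule.mkQ_apply, Submodule.Quotient.mk_eq_zero, smul_add,
      J.add_mem_iff_left (J.smul_mem s hz)]

theorem Rs.le_dual (hR : NT R) (r : Rs P b ε) (h : ∀ v, ε v ∈ (hR.tj j).tor ⊥) :
    Le P.dual (-b - j) :=
  grd_of_tor hR (M := LinearMap.range ε) (fun ⟨_, v, e⟩ => (hR.tj j).up (h v) fun _ hs =>
    Subtype.ext (e ▸ hs)) b P ε.rangeRestrict ((Rs.comp _ (LinearMap.range ε).injective_subtype).1 r)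

theorem tj_mono (h : j ≤ k) : Tj R k ⊆ Tj R j := fun _ e b P ε r => (e b P ε r).mono (by omega)

theorem tj_zero (h : j ≤ 0) (I : Ideal R) : I ∈ Tj R j := fun _ _ _ r =>
  le_of_le fun i => by have := r.deg i; simp only; omega

theorem tor_semi (hR : NT R) (σ : R ≃+* R) (hs : ∀ x, σ (star x) = star (σ x)) (e : M →+ M')
    (he : ∀ r m, e (r • m) = σ r • e m) {B : Submodule R M} {B' : Submodule R M'}
    (hB : ∀ x ∈ B, e x ∈ B') {m : M} (h : m ∈ (hR.tj j).tor B) : e m ∈ (hR.tj j).tor B' := by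
  let f := (cl B m).mkQ ∘ₛₗ (σ.symm : R →+* R).toSemilinearMap
  refine (hR.tj j).up (I := LinearMap.ker f) (Grd.semi h σ.symm (fun x => σ.injective (by
    rw [hs, σ.apply_symm_apply, σ.apply_symm_apply]))
    ((LinearMap.ker f).liftQ f le_rfl).toAddMonoidHom (fun r x => ((LinearMap.ker f).liftQ f le_rfl).map_smulₛₗ r x)
    (LinearMap.ker_eq_bot.1 (Submodule.ker_liftQ_eq_bot _ _ _ le_rfl))) fun s hs => ?_
  have := hB (σ.symm s • m) ((Submodule.Quotient.mk_eq_zero (cl B m)).1 hs)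
  rw [he] at this
  exact σ.apply_symm_apply s ▸ this

theorem le_dual_of_tx (hR : NT R) (h : ∀ q, Tx (hR.tj (-a - q)) X q) : Le X.dual a := by
  obtain ⟨N, hN⟩ := exists_bound X.p
  refine devis hR.trn (a := N) (fun X => (∀ q, Tx (hR.tj (-a - q)) X q) → Le X.dual a)
    (fun X e _ k _ => e.dual k) (fun X T t c b _ d l l' ih h k hk => ?_) X
    (le_of_le fun i => (hN i).2) h
  refine tx_top.1 (c.dx_tgt (tx_top.2 (ih (fun q => ?_) k hk)) (tx_top.2 ((rs_can d l).le_dual hR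
    (j := -a - b) (fun v => ?_) k (by omega))))
  · rcases lt_or_ge q b with e | e
    · exact c.tx_cone (h q) ((ge_of_le d _ (by omega)).tx _)
    · exact (l' q (by omega)).tx _
  · exact (hR.tj _).of_le (c.tx_src ((l' _ (by omega)).tx _) (h b) (pj_cyc d v)) fun r e =>
      (Submodule.Quotient.mk_eq_zero _).2 e

theorem s3_of (hT : Trn R) {𝒯 : ℤ → Set (Ideal R)} (g : ∀ j, Gab (𝒯 j))
    (anti : ∀ j k, j ≤ k → 𝒯 k ⊆ 𝒯 j) (H : ∀ (P : Cx R) (b : ℤ), (∀ i, b ≤ P.p i) → Le P b →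
      ∀ q, Tx (g (-b - q)) P.dual q) (h : Le Y a) (q : ℤ) : Tx (g (-a - q)) Y.dual q :=
  devis hT (fun Y => Tx (g (-a - q)) Y.dual q) (fun _ e => (e.dual q).tx _)
    (fun _ T _ c b e d l _ ih => c.dx_tgt ih ((H T b d l q).mono (anti _ _ (by omega)))) Y h

/-- the strong form of the duality conditions -/
def AS (R : Type) [Ring R] [StarRing R] : Prop :=
  (∀ (X T : Cx R) (t : Matrix T.I X.I R) (h : Ch T X t) (a b : ℤ),
    Le X.dual a → Ge T b → Le h.cone b → Le T.dual a) ∧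
  ∃ N : ℕ, ∀ (X : Cx R) (a : ℤ), Le X.dual a → Ge X (-a - N)

theorem as_of (hR : NT R) (N : ℕ) (H : ∀ (P : Cx R) (b : ℤ), (∀ i, b ≤ P.p i) → Le P b →
    (∀ q, Tx (hR.tj (-b - q)) P.dual q) ∧ Ge P.dual (-b - N)) : AS R := by
  refine ⟨fun X T t c a b h1 h2 h3 => le_dual_of_tx hR fun q => ?_, N, fun X a h k hk => ?_⟩
  · rcases lt_or_ge q b with e | e
    · exact (h2 q e).tx _
    · exact c.tx_src ((h3 _ (by omega)).tx _) (s3_of hR.trn hR.tj (fun _ _ => tj_mono)
        (fun P b d l => (H P b d l).1) h1 q).of_dd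
  · have g : ∀ j : ℤ, Gab (if j ≤ N then Set.univ else ({⊤} : Set (Ideal R))) := fun j => by
      split_ifs
      exacts [gab_univ, gab_top]
    refine tx_top.1 ((s3_of hR.trn g (fun j k e => ?_) (fun P b d l q => ?_) h k).of_dd.mono
      (if_neg (by omega)).le)
    · split_ifs
      exacts [le_rfl, by omega, Set.subset_univ _, le_rfl]
    · by_cases e : -b - q ≤ N
      · exact Tx.mono (h := gab_univ) (if_pos e).ge fun _ _ => trivial
      · exact ((H P b d l).2 q (by omega)).tx _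

/-- the shifted complex -/
abbrev Cx.sh (X : Cx R) (n : ℤ) : Cx R where
  I := X.I
  p i := X.p i + n
  d := X.d
  hd := X.hd.of fun k l e => by omega
  dd := X.dd

theorem AS.s3 (h : AS R) (hR : NT R) (l : Le Y a) (q : ℤ) : Tx (hR.tj (-a - q)) Y.dual q := by
  obtain ⟨T, t, c, d, e⟩ := hR.trn Y.dual (q + 1)
  rw [add_sub_cancel_right] at e
  obtain ⟨T', t', c', d', e'⟩ := hR.trn c.cone q
  have l1 := h.1 _ _ _ c a _ (vcls_le_dd l) (ge_of_le d) (e.mono (by omega))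
  have l2 : Le T'.dual a := h.1 _ _ _ c' a _ (fun k hk => tx_top.1 (c.dx_cone
    (tx_top.2 (l1 _ (by omega))) (tx_top.2 (vcls_le_dd l k hk)))) (ge_of_le d') (e'.mono (by omega))
  have r := rs_can d' fun k hk => tx_top.1 (c'.tx_src (tx_top.2 (e' _ (by omega)))
    (tx_top.2 (e k hk)))
  refine c.tx_tgt (c'.tx_tgt ((e' q (by omega)).tx _) fun v hv => ?_)
    ((ge_of_le d q (by omega)).tx _)
  have g : Grd R (-a - q) (LinearMap.range ((Bd T').mkQ ∘ₗ pjL R T'.p q)) := fun b P ε r' k hk => by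
    have r1 : Rs (P.sh (q - b)) q (Submodule.subtype _ ∘ₗ ε) := (Rs.comp _ Subtype.val_injective).2
      ⟨fun i => by have := r'.deg i; simp only; omega, fun k hk => tx_top.1
        ((tx_top.2 (r'.le (k - (q - b)) (by omega))).re (Equiv.refl _) 1
          (fun i e => by simp at e; omega) (by simp)), fun v => (r'.ker v).trans (by
        rw [show pj P.p b v = pj (P.sh (q - b)).p q v from funext fun i =>
          if_congr (by simp only; omega) rfl rfl])⟩
    obtain ⟨f, c₁, e₁⟩ := r1.lift r fun _ ⟨v, e⟩ => e ▸ (ε v).2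
    exact tx_top.1 ((tx_top.2 (h.1 _ _ _ c₁ a q l2 (ge_of_le r1.deg) (r.cone r1 c₁ e₁
      (Submodule.mkQ _) fun _ => Submodule.Quotient.mk_eq_zero _).le (k - (q - b)) (by omega))).re
      (Equiv.refl _) 1 (fun i e => by simp at e ⊢; omega) (by simp))
  refine (hR.tj _).up (g.ker (LinearMap.toSpanSingleton R _ ⟨_, v, rfl⟩)) fun s hs => ?_
  have := (r.ker (s • v)).1 ((map_smul _ s v).trans (congrArg Subtype.val hs))
  rwa [(hv.1.smul s).pj_eq] at this

theorem AS.rst (ρ : Rst R S) (h : AS S) : AS R := by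
  obtain ⟨h1, N, h2⟩ := h
  refine ⟨fun X T t c a b e1 e2 e3 k hk => ρ.ex_dual.1 (h1 _ _ _ (ρ.ch c) a b
    (fun j hj => ρ.ex_dual.2 (e1 j hj)) (fun j hj => ρ.ex.2 (e2 j hj))
    (fun j hj => (ρ.re c).symm.ex (ρ.ex.2 (e3 j hj))) k hk), N, fun X a e k hk =>
      ρ.ex.1 (h2 _ a (fun j hj => ρ.ex_dual.2 (e j hj)) k hk)⟩

theorem AS.af (h : AS R) : AF R :=
  ⟨fun X T t c a b e1 e2 e3 => h.1 X T t c a b e1 e2 (e3.mono (by omega)), h.2⟩

end Pool.Agent.Work.MP_9d1ffa_al.VN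
end

-- merged part: Pool.Agent.Work.MP_9d1ffa_al.LL.AbC
section
/-! Twisted Laurent extensions: polynomials, flatness and characteristic resolutions. -/

namespace Pool.Agent.Work.MP_9d1ffa_al.VN

open Matrix Function Submodule

/-- a twisted Laurent extension -/
structure Sk (R Λ : Type) [Ring R] [StarRing R] [Ring Λ] [StarRing Λ] where
  ι : R →+* Λ
  t : Λˣ
  α : R ≃+* R
  π : Λ →+ R
  ι_star : ∀ r, ι (star r) = star (ι r)
  t_star : star (t : Λ) = ↑t⁻¹
  comm : ∀ r, (t : Λ) * ι r = ι (α r) * t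
  π_mul : ∀ x r, π (x * ι r) = π x * r
  π_one : π 1 = 1
  π_t : ∀ n : ℕ, π (t ^ (n + 1)) = 0
  gen : Subring.closure (Set.range ι ∪ {↑t, ↑t⁻¹}) = ⊤

variable {R Λ M : Type} [Ring R] [StarRing R] [Ring Λ] [StarRing Λ] [AddCommGroup M] [Module Λ M]
  (s : Sk R Λ) {I J : Type} {X Y P P' : Cx R} {j k b : ℤ}

namespace Sk

theorem π_ι (r : R) : s.π (s.ι r) = r := by rw [← one_mul (s.ι r), s.π_mul, s.π_one, one_mul]

theorem comm' (r : R) : s.ι r * s.t = s.t * s.ι (s.α.symm r) := by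
  rw [s.comm, s.α.apply_symm_apply]

theorem comm_inv (r : R) : ↑s.t⁻¹ * s.ι r = s.ι (s.α.symm r) * ↑s.t⁻¹ := by
  rw [Units.inv_mul_eq_iff_eq_mul, ← mul_assoc, ← s.comm', Units.mul_inv_cancel_right]

theorem symm_star (r : R) : s.α.symm (star r) = star (s.α.symm r) := by
  have := congrArg star (s.comm' r)
  rw [star_mul, star_mul, s.t_star, ← s.ι_star, ← s.ι_star, s.comm_inv, Units.mul_left_inj] at this
  simpa only [s.π_ι] using congrArg s.π this

theorem α_star (r : R) : s.α (star r) = star (s.α r) := s.α.symm.injective (by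
  rw [s.symm_star, s.α.symm_apply_apply, s.α.symm_apply_apply])

/-- the polynomials with coefficients in `F` -/
inductive Pos (F : Set M) : M → Prop
  | zero : Pos F 0
  | cons {u v : M} : u ∈ F → Pos F v → Pos F (u + (s.t : Λ) • v)

/-- a submodule over the small ring -/
structure Cl (F : Set M) : Prop where
  zero : 0 ∈ F
  add : ∀ u ∈ F, ∀ v ∈ F, u + v ∈ F
  smul : ∀ r, ∀ u ∈ F, s.ι r • u ∈ F

variable {s} {F : Set M} {u v : M}

theorem Pos.of (h : u ∈ F) : s.Pos F u := by simpa using Pos.cons h (Pos.zero (s := s))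

theorem Pos.add (c : s.Cl F) (hu : s.Pos F u) (hv : s.Pos F v) : s.Pos F (u + v) := by
  induction hu generalizing v with
  | zero => rwa [zero_add]
  | cons h1 h2 ih =>
    cases hv with
    | zero => simpa using h2.cons h1
    | cons h3 h4 => simpa only [smul_add, add_add_add_comm] using (ih h4).cons (c.add _ h1 _ h3)

theorem Pos.smul (c : s.Cl F) (hu : s.Pos F u) (r : R) : s.Pos F (s.ι r • u) := by
  induction hu generalizing r with
  | zero => simpa using Pos.zero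
  | cons h1 _ ih =>
    rw [smul_add, ← mul_smul, s.comm', mul_smul]
    exact (ih _).cons (c.smul r _ h1)

theorem Pos.pow (c : s.Cl F) (hu : s.Pos F u) (n : ℕ) : s.Pos F ((s.t : Λ) ^ n • u) := by
  induction n with
  | zero => simpa
  | succ n ih => simpa [pow_succ', mul_smul] using ih.cons c.zero

theorem exists_pos (c : s.Cl F) (h : u ∈ span Λ F) : ∃ n : ℕ, s.Pos F ((s.t : Λ) ^ n • u) := by
  have add : ∀ u v : M, (∃ n : ℕ, s.Pos F ((s.t : Λ) ^ n • u)) →
      (∃ n : ℕ, s.Pos F ((s.t : Λ) ^ n • v)) → ∃ n : ℕ, s.Pos F ((s.t : Λ) ^ n • (u + v)) :=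
    fun u v ⟨n, a⟩ ⟨m, a'⟩ => ⟨m + n, by
      have := (a.pow c m).add c (a'.pow c n)
      rwa [← mul_smul, ← mul_smul, ← pow_add, ← pow_add, add_comm n, ← smul_add] at this⟩
  have sm : ∀ (r : R) (u : M), (∃ n : ℕ, s.Pos F ((s.t : Λ) ^ n • u)) →
      ∃ n : ℕ, s.Pos F ((s.t : Λ) ^ n • s.ι r • u) := fun r u ⟨n, a⟩ => by
    have : ∀ (n : ℕ) r, ∃ r', (s.t : Λ) ^ n * s.ι r = s.ι r' * s.t ^ n := fun n => by
      induction n with
      | zero => exact fun r => ⟨r, by simp⟩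
      | succ n ih =>
        intro r
        obtain ⟨r', e⟩ := ih r
        exact ⟨s.α r', by rw [pow_succ', mul_assoc, e, ← mul_assoc, s.comm, mul_assoc]⟩
    obtain ⟨r', e⟩ := this n r
    exact ⟨n, by rw [← mul_smul, e, mul_smul]; exact a.smul c r'⟩
  induction h using span_induction with
  | mem x hx => exact ⟨0, by simpa using Pos.of hx⟩
  | zero => exact ⟨0, by simpa using Pos.zero⟩
  | add x y _ _ a a' => exact add x y a a'
  | smul x u _ a =>
    have hx : x ∈ Subring.closure _ := s.gen ▸ Subring.mem_top x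
    induction hx using Subring.closure_induction generalizing u with
    | mem x hx =>
      obtain ⟨r, rfl⟩ | rfl | rfl := hx
      · exact sm r u a
      · obtain ⟨n, a⟩ := a
        exact ⟨n, by simpa [← mul_smul, ← pow_succ, ← pow_succ'] using a.pow c 1⟩
      · obtain ⟨n, a⟩ := a
        exact ⟨n + 1, by rwa [← mul_smul, pow_succ, Units.mul_inv_cancel_right]⟩
    | zero => exact ⟨0, by simpa using Pos.zero⟩
    | one => rwa [one_smul]
    | add x y _ _ h1 h2 =>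
      rw [add_smul]
      exact add _ _ (h1 u ‹_› a) (h2 u ‹_› a)
    | neg x _ h1 => simpa using sm (-1) _ (h1 u ‹_› a)
    | mul x y _ _ h1 h2 =>
      rw [mul_smul]
      exact h1 _ (smul_mem _ _ ‹_›) (h2 u ‹_› a)

/-- induction over the length of a polynomial -/
theorem ind (c : s.Cl F) {Z V : Submodule Λ M} (h0 : ∀ u ∈ F, u ∈ Z → u ∈ V)
    (h : ∀ u ∈ F, ∀ v, s.Pos F v → u + (s.t : Λ) • v ∈ Z →
      ∃ w ∈ F, u - (s.t : Λ) • w ∈ Z ⊓ V) (hu : u ∈ span Λ F) (hZ : u ∈ Z) : u ∈ V := by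
  have key : ∀ v, s.Pos F v → ∀ u ∈ F, u + (s.t : Λ) • v ∈ Z → u + (s.t : Λ) • v ∈ V := by
    intro v hv
    induction hv with
    | zero => simpa using h0
    | @cons u' v h1 h2 ih =>
      intro u a a'
      obtain ⟨w, hw, e, e'⟩ := h u a _ (h2.cons h1) a'
      have q : u + (s.t : Λ) • (u' + (s.t : Λ) • v) =
          u - (s.t : Λ) • w + (s.t : Λ) • (u' + w + (s.t : Λ) • v) := by
        simp only [smul_add]
        abel
      rw [q] at a' ⊢
      exact add_mem e' (V.smul_mem _ (ih _ (c.add _ h1 _ hw)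
        ((Z.smul_mem_iff_of_isUnit s.t.isUnit).1 ((Z.add_mem_iff_right e).1 a'))))
  obtain ⟨n, a⟩ := exists_pos c hu
  have := key _ a 0 c.zero (by rw [zero_add]; exact Z.smul_mem _ (Z.smul_mem _ hZ))
  rwa [zero_add, V.smul_mem_iff_of_isUnit s.t.isUnit,
    V.smul_mem_iff_of_isUnit (s.t.isUnit.pow n)] at this

variable (s)

/-- the vectors with entries in the small ring -/
abbrev vec (I : Type) : Set (I → Λ) := Set.range fun u : I → R => s.ι ∘ u

theorem comp_smul (r : R) (u : I → R) : s.ι ∘ (r • u) = s.ι r • s.ι ∘ u :=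
  funext fun _ => map_mul _ _ _

theorem comp_add (u v : I → R) : s.ι ∘ (u + v) = s.ι ∘ u + s.ι ∘ v := funext fun _ => map_add _ _ _

theorem comp_sub (u v : I → R) : s.ι ∘ (u - v) = s.ι ∘ u - s.ι ∘ v := funext fun _ => map_sub _ _ _

theorem cl_vec : s.Cl (s.vec I) where
  zero := ⟨0, funext fun _ => map_zero _⟩
  add := by
    rintro _ ⟨u, rfl⟩ _ ⟨v, rfl⟩
    exact ⟨u + v, s.comp_add u v⟩
  smul r := by
    rintro _ ⟨u, rfl⟩
    exact ⟨r • u, s.comp_smul r u⟩

theorem span_vec [Fintype I] : span Λ (s.vec I) = ⊤ := by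
  classical
  refine eq_top_iff.2 fun v _ => ?_
  rw [pi_eq_sum_univ' v]
  exact sum_mem fun i _ => smul_mem _ _ (subset_span ⟨Pi.single i 1, funext fun l => by
    by_cases e : l = i <;> simp [e]⟩)

theorem π_comp (u : I → R) : s.π ∘ s.ι ∘ u = u := funext fun _ => s.π_ι _

theorem π_vecMul [Fintype I] (v : I → Λ) (d : Matrix I J R) :
    s.π ∘ (v ᵥ* d.map s.ι) = (s.π ∘ v) ᵥ* d := funext fun i => by
  simp [vecMul, dotProduct, s.π_mul]

variable {s}

theorem π_pos {v : I → Λ} (h : s.Pos (s.vec I) v) (n : ℕ) : s.π ∘ ((s.t : Λ) ^ (n + 1) • v) = 0 := by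
  induction h generalizing n with
  | zero => exact funext fun _ => by simp
  | cons h1 _ ih =>
    obtain ⟨u, rfl⟩ := h1
    funext i
    have := congrFun (ih (n + 1)) i
    simp only [Function.comp_apply, Pi.smul_apply, smul_eq_mul, Pi.add_apply, mul_add, map_add,
      Pi.zero_apply] at this ⊢
    rw [s.π_mul, s.π_t, zero_mul, zero_add, ← mul_assoc, ← pow_succ, this]

theorem π_mat [Fintype I] {h : Matrix I J Λ} (e : ∀ u, ∃ c, (s.ι ∘ u) ᵥ* h = (s.t : Λ) • s.ι ∘ c)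
    {v : I → Λ} (a : s.Pos (s.vec I) v) : s.π ∘ (v ᵥ* h) = 0 := by
  have : ∃ w, s.Pos (s.vec J) w ∧ v ᵥ* h = (s.t : Λ) • w := by
    induction a with
    | zero => exact ⟨0, .zero, by simp⟩
    | cons h1 _ ih =>
      obtain ⟨u, rfl⟩ := h1
      obtain ⟨w, a, e'⟩ := ih
      obtain ⟨c, e⟩ := e u
      exact ⟨_, a.cons ⟨c, rfl⟩, by rw [add_vecMul, smul_vecMul, e, e', smul_add]⟩
  obtain ⟨w, a, e⟩ := this
  simpa [e] using π_pos a 0

theorem zc_π {v : X.I → Λ} (h : v ∈ Zc (X.map s.ι) k) : s.π ∘ v ∈ Zc X k :=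
  ⟨fun i e => h.1 i fun q => e ((congrArg s.π q).trans s.π.map_zero), by
    rw [← s.π_vecMul, show v ᵥ* _ = 0 from h.2]
    exact funext fun _ => s.π.map_zero⟩

theorem bd_π {v : X.I → Λ} (h : v ∈ Bd (X.map s.ι)) : s.π ∘ v ∈ Bd X := by
  obtain ⟨w, rfl⟩ := h
  exact ⟨s.π ∘ w, (s.π_vecMul w X.d).symm⟩

theorem cyc {U V : Submodule Λ (X.I → Λ)} (h : ∀ v, s.Pos (s.vec X.I) v → v ∈ U →
    s.π ∘ v ∈ Zc X k → s.ι ∘ s.π ∘ v ∈ U ⊓ V) {v : X.I → Λ} (hv : v ∈ Zc (X.map s.ι) k)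
    (hU : v ∈ U) : v ∈ V := by
  refine ind s.cl_vec (Z := Zc (X.map s.ι) k ⊓ U) ?_ ?_ (s.span_vec.ge trivial) ⟨hv, hU⟩
  · rintro _ ⟨u, rfl⟩ e
    have := (h _ (.of ⟨u, rfl⟩) e.2 (zc_π e.1)).2
    rwa [s.π_comp] at this
  · rintro _ ⟨u, rfl⟩ v a e
    have q : s.π ∘ (s.ι ∘ u + (s.t : Λ) • v) = u := funext fun i => by
      have := congrFun (π_pos a 0) i
      simp only [Function.comp_apply, Pi.add_apply, map_add, s.π_ι, zero_add, pow_one] at this ⊢
      rw [this, Pi.zero_apply, add_zero]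
    have z := zc_π e.1
    have := h _ (a.cons ⟨u, rfl⟩) e.2 z
    rw [q] at this z
    exact ⟨0, s.cl_vec.zero, by simpa using ⟨⟨zc_map _ z, this.1⟩, this.2⟩⟩

theorem lc {U : Submodule Λ (X.I → Λ)} (hU : Bd (X.map s.ι) ≤ U) (h : ∀ v, s.Pos (s.vec X.I) v →
    v ∈ U → s.π ∘ v ∈ Zc X k → s.π ∘ v ∈ Bd X) {v : X.I → Λ} (hv : v ∈ Zc (X.map s.ι) k)
    (e : v ∈ U) : v ∈ Bd (X.map s.ι) :=
  cyc (fun v a a' z => have := bd_map s.ι (h v a a' z); ⟨hU this, this⟩) hv e

variable (s)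

theorem ex (h : Ex X k) : Ex (X.map s.ι) k := fun _ a a' =>
  lc le_top (fun _ _ _ z => h _ z.1 z.2) ⟨a, a'⟩ trivial

theorem span_cyc {v : X.I → Λ} (hv : v ∈ Zc (X.map s.ι) k) :
    v ∈ span Λ ((s.ι ∘ ·) '' Zc X k) :=
  cyc (U := ⊤) (fun _ _ _ z => ⟨trivial, subset_span (Set.mem_image_of_mem _ z)⟩) hv trivial

/-- the variable as a diagonal matrix -/
def τ (I : Type) [DecidableEq I] : Matrix I I Λ := diagonal fun _ => s.t

theorem τ_comm [Fintype I] [DecidableEq I] [Fintype J] [DecidableEq J] (d : Matrix I J R) :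
    d.map s.ι * s.τ J = s.τ I * (d.map (s.α.symm : R →+* R)).map s.ι := by
  ext i l
  simp [τ, s.comm']

theorem vec_τ [Fintype I] [DecidableEq I] (u : I → R) :
    (s.ι ∘ u) ᵥ* s.τ I = (s.t : Λ) • s.ι ∘ (s.α.symm : R →+* R) ∘ u :=
  funext fun i => (vecMul_diagonal _ _ i).trans (s.comm' _)

theorem τ_ct [Fintype I] [DecidableEq I] : (s.τ I)ᴴ * s.τ I = 1 := by
  simp [τ, diagonal_conjTranspose, s.t_star]

theorem vec_τ' [Fintype I] [DecidableEq I] (u : I → R) :
    (s.t : Λ) • (s.ι ∘ u) ᵥ* (s.τ I)ᴴ = s.ι ∘ (s.α : R →+* R) ∘ u := funext fun i => by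
  simp [τ, diagonal_conjTranspose, vecMul_diagonal, s.t_star, ← mul_assoc, s.comm]

variable {a : Matrix P'.I P.I R} {β : Matrix P'.I P.I R} (ca : Ch P' P a)
  (cb : Ch (P'.map (s.α.symm : R →+* R)) P β)

include ca cb in
theorem mv : Ch (P'.map s.ι) (P.map s.ι) (a.map s.ι - s.τ P'.I * β.map s.ι) :=
  ⟨(ca.map _).1.sub (Hg.mul (fun i l e => by
    rw [of_not_not fun q => e (diagonal_apply_ne _ q), add_zero]) (cb.map _).1 (add_zero 0).symm), by
      rw [Matrix.mul_sub, Matrix.sub_mul, (ca.map _).2, ← Matrix.mul_assoc, s.τ_comm,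
        Matrix.mul_assoc, (cb.map _).2, Matrix.mul_assoc]⟩

section

variable {g : Matrix P'.I P.I Λ} (c : Ch (P'.map s.ι) (P.map s.ι) g)

include c in
theorem gl : Gl (P'.up.dual.map s.ι) (P.dual.map s.ι) gᴴ :=
  ⟨c.gld.1, by
    have := c.gld.2
    dsimp only at this ⊢
    rwa [conjTranspose_map _ s.ι_star, conjTranspose_map _ s.ι_star, Matrix.map_neg _ s.ι.map_neg]⟩

theorem tx_gl {𝒯 : Set (Ideal Λ)} {h : Gab 𝒯} (e : Tx h (s.gl c).ext k) : Tx h c.cone.dual k :=
  e.re (Equiv.sumComm _ _) 1 (fun i e => by cases i <;> exact e) (by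
    ext (i | i) (j | j) <;> simp [s.ι_star])

end

theorem mv_ct : (a.map s.ι - s.τ P'.I * β.map s.ι)ᴴ = aᴴ.map s.ι - βᴴ.map s.ι * (s.τ P'.I)ᴴ := by
  rw [conjTranspose_sub, conjTranspose_mul, conjTranspose_map _ s.ι_star,
    conjTranspose_map _ s.ι_star]

theorem mv_ex (h1 : Ex P'.dual (k + 1)) (h2 : Ex cb.cone.dual k) : Ex (s.mv ca cb).cone.dual k := by
  refine tx_top.1 (s.tx_gl _ (Gl.tx_ext _ (fun x hx => ?_) fun y hy e => tor_top.2 (lc
    (U := (Bd _).comap (vecMulLinear _)) ?_ (fun v p ⟨w, e⟩ z => ?_) hy e)))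
  · obtain ⟨w, rfl⟩ := s.ex (tx_top.1 (tx_top.2 h1).up_dual) x hx.1 hx.2
    exact tor_top.2 ⟨Sum.elim w 0, by rw [vecMulLinear_apply, Gl.mul]; simp⟩
  · rintro _ ⟨w, rfl⟩
    exact ⟨-(w ᵥ* _), by
      simp only [vecMulLinear_apply, vecMul_vecMul]
      rw [neg_vecMul, vecMul_vecMul, eq_neg_of_add_eq_zero_right (s.gl (s.mv ca cb)).2, vecMul_neg]⟩
  · refine tor_top.1 (cb.gld.tx_quo (cb.tx_gld.2 (tx_top.2 h2)) z (tor_top.2 ⟨-(s.π ∘ (w ᵥ* s.τ P'.I)),
      ?_⟩))
    have := congrArg (fun x => s.π ∘ (x ᵥ* s.τ P'.I)) e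
    simp only [vecMulLinear_apply, vecMul_vecMul, mv_ct, Matrix.sub_mul, Matrix.mul_assoc, τ_ct,
      Matrix.mul_one] at this
    rw [vecMul_sub, s.τ_comm, ← vecMul_vecMul, π_vecMul, show ∀ x y : P'.I → Λ, s.π ∘ (x - y) = s.π ∘ x - s.π ∘ y
      from fun _ _ => funext fun _ => map_sub _ _ _, π_vecMul, π_mat (fun u => ⟨_, by
        rw [← vecMul_vecMul, comp_vecMul, vec_τ]⟩) p, zero_sub] at this
    rw [vecMulLinear_apply, neg_vecMul, neg_eq_iff_eq_neg, ← this]
    congr 1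
    ext
    simp [s.symm_star]

/-- the two actions agree -/
def Hc (M : Type) [AddCommGroup M] [Module Λ M] [Module R M] : Prop :=
  ∀ (r : R) (m : M), r • m = s.ι r • m

variable [Module R M] {s} (hc : s.Hc M)

/-- the preimage under a semilinear map -/
def cm (σ : R ≃+* R) (e : M →+ M) (he : ∀ r m, e (r • m) = σ r • e m) (B : Submodule R M) :
    Submodule R M where
  carrier := {u | e u ∈ B}
  zero_mem' := show e 0 ∈ B from e.map_zero.symm ▸ B.zero_mem
  add_mem' {x y} a a' := show e (x + y) ∈ B from (e.map_add x y).symm ▸ add_mem a a'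
  smul_mem' r x a := show e (r • x) ∈ B from (he r x).symm ▸ B.smul_mem _ a

/-- multiplication by a scalar -/
abbrev mu (x : Λ) : M →+ M := DistribSMul.toAddMonoidHom M x

include hc

theorem mu_t (r : R) (m : M) : mu (s.t : Λ) (r • m) = s.α r • mu (s.t : Λ) m := by
  simp only [DistribSMul.toAddMonoidHom_apply, hc _ _, ← mul_smul, s.comm]

theorem mu_inv (r : R) (m : M) : mu (↑s.t⁻¹ : Λ) (r • m) = s.α.symm r • mu (↑s.t⁻¹ : Λ) m := by
  simp only [DistribSMul.toAddMonoidHom_apply, hc _ _, ← mul_smul, s.comm_inv]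

/-- the product with the variable -/
def up (B : Submodule R M) : Submodule R M := cm _ _ (mu_inv hc) B

/-- the product with the inverse of the variable -/
def dn (B : Submodule R M) : Submodule R M := cm _ _ (mu_t hc) B

theorem Hc.cl (B : Submodule R M) : s.Cl (B : Set M) :=
  ⟨B.zero_mem, fun _ a _ a' => B.add_mem a a', fun r u a => hc r u ▸ B.smul_mem r a⟩

omit hc in
theorem t_inv (u : M) : (s.t : Λ) • (↑s.t⁻¹ : Λ) • u = u := by rw [← mul_smul, s.t.mul_inv, one_smul]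

omit hc in
theorem inv_t (u : M) : (↑s.t⁻¹ : Λ) • (s.t : Λ) • u = u := by rw [← mul_smul, s.t.inv_mul, one_smul]

variable {F G : Submodule R M}

theorem mem_up {u : M} : u ∈ up hc F ↔ (↑s.t⁻¹ : Λ) • u ∈ F := Iff.rfl

theorem mem_dn {u : M} : u ∈ dn hc F ↔ (s.t : Λ) • u ∈ F := Iff.rfl

theorem t_up {u : M} : (s.t : Λ) • u ∈ up hc F ↔ u ∈ F := by rw [mem_up, inv_t]

theorem up_mono (h : F ≤ G) : up hc F ≤ up hc G := fun _ e => h e

theorem dn_mono (h : F ≤ G) : dn hc F ≤ dn hc G := fun _ e => h e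

variable (hR : NT R) (j)

/-- the lattices that detect the grade -/
structure Q (F : Submodule R M) : Prop where
  fg : F.FG
  t1 : F ≤ (hR.tj (j - 1)).tor ⊥
  t2 : F ≤ (hR.tj j).tor (dn hc F)

variable {hc hR j}

theorem Q.sup (h : Q j hc hR F) (h' : Q j hc hR G) : Q j hc hR (F ⊔ G) :=
  ⟨h.fg.sup h'.fg, sup_le h.t1 h'.t1, sup_le
    (fun _ e => (hR.tj j).of_le (h.t2 e) fun _ q => dn_mono hc le_sup_left q)
    fun _ e => (hR.tj j).of_le (h'.t2 e) fun _ q => dn_mono hc le_sup_right q⟩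

theorem Q.up (h : Q j hc hR F) : Q j hc hR (up hc F) := by
  refine ⟨?_, fun u e => t_inv (s := s) u ▸ tor_semi hR _ s.α_star _ (mu_t hc) (fun x a => ?_) (h.t1 e),
    fun u e => t_inv (s := s) u ▸ tor_semi hR _ s.α_star _ (mu_t hc) (fun x a => ?_) (h.t2 e)⟩
  · obtain ⟨n, φ, rfl⟩ := (fg_iff_exists_fin_linearMap R M).1 h.fg
    refine cast (congrArg FG (le_antisymm ?_ fun u ⟨v, e⟩ => ⟨(s.α : R →+* R) ∘ v, ?_⟩))
      (fg_range (semi s.α _ (mu_t hc) φ))
    · rintro _ ⟨v, rfl⟩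
      exact (t_up hc).2 ⟨_, rfl⟩
    · rw [← t_inv (s := s) u]
      exact congrArg _ ((congrArg φ (funext fun _ => s.α.symm_apply_apply _)).trans e)
  · rw [show x = 0 from a, map_zero]
    exact zero_mem _
  · exact (mem_dn hc).2 ((t_up hc).2 a)

theorem Q.inf (h : Q j hc hR F) (e : ∀ u ∈ G, (s.t : Λ) • u ∈ G) : Q j hc hR (F ⊓ G) :=
  have := hR.noe
  ⟨h.fg.of_le inf_le_left, inf_le_left.trans h.t1, fun _ a => (hR.tj j).of_le (h.t2 a.1)
    fun r q => (mem_dn hc).2 ⟨q, e _ (G.smul_mem r a.2)⟩⟩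

variable (hc hR j F G) in
/-- the approximations of the module of polynomials -/
def Gd : Prop := Q j hc hR G ∧ F ≤ G ∧ (∀ u ∈ G, s.Pos F u) ∧ G ≤ F ⊔ up hc G

theorem Q.gd (h : Q j hc hR F) {u : M} (e : s.Pos F u) : ∃ G, Gd j hc F G hR ∧ u ∈ G := by
  induction e with
  | zero => exact ⟨F, ⟨h, le_rfl, fun _ => .of, le_sup_left⟩, zero_mem _⟩
  | @cons u v a _ ih =>
    obtain ⟨G, ⟨h1, -, h2, h3⟩, e⟩ := ih
    refine ⟨F ⊔ Sk.up hc G, ⟨h.sup h1.up, le_sup_left, fun u q => ?_, sup_le_sup_left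
      (up_mono hc h3) _⟩, add_mem_sup a ((t_up hc).2 e)⟩
    obtain ⟨x, hx, y, hy, rfl⟩ := mem_sup.1 q
    exact t_inv (s := s) y ▸ (h2 _ hy).cons hx

theorem Q.good (h : Q j hc hR F) : ∃ G, Q j hc hR G ∧ span Λ (G : Set M) = span Λ F ∧
    ∀ u ∈ G, ∀ v, s.Pos G v → u + (s.t : Λ) • v = 0 → u ∈ Sk.up hc G := by
  have := hR.noe
  let N : Submodule R M := ⟨⟨⟨{u | s.Pos (F : Set M) u}, fun a a' => Pos.add (hc.cl F) a a'⟩, .zero⟩,
    fun r u a => show s.Pos (F : Set M) _ from (hc r u).symm ▸ Pos.smul (hc.cl F) a r⟩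
  have key : ∀ K : Submodule R M, K.FG → K ≤ Sk.up hc N → ∃ G, Gd j hc F G hR ∧ K ≤ Sk.up hc G := by
    refine fg_induction (fun x e => ?_) fun A B _ _ hA hB e => ?_
    · obtain ⟨G, a, e⟩ := h.gd ((mem_up hc).1 (e (mem_span_singleton_self x)))
      exact ⟨G, a, (span_singleton_le_iff_mem _ _).2 e⟩
    · obtain ⟨G, a, e1⟩ := hA (le_sup_left.trans e)
      obtain ⟨G', a', e2⟩ := hB (le_sup_right.trans e)
      refine ⟨G ⊔ G', ⟨a.1.sup a'.1, a.2.1.trans le_sup_left, fun u q => ?_, sup_le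
        (a.2.2.2.trans (sup_le_sup_left (up_mono hc le_sup_left) _))
        (a'.2.2.2.trans (sup_le_sup_left (up_mono hc le_sup_right) _))⟩,
        sup_le_sup e1 e2 |>.trans (sup_le (up_mono hc le_sup_left) (up_mono hc le_sup_right))⟩
      obtain ⟨x, hx, y, hy, rfl⟩ := mem_sup.1 q
      exact (a.2.2.1 x hx).add (hc.cl F) (a'.2.2.1 y hy)
  obtain ⟨G, ⟨h1, h2, h3, h4⟩, e⟩ := key _ (h.fg.of_le inf_le_left) inf_le_right
  refine ⟨G, h1, le_antisymm (span_le.2 fun u a => ?_) (span_mono h2), fun u a v a' q => ?_⟩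
  · have := h3 u a
    clear a
    induction this with
    | zero => exact zero_mem _
    | cons a _ ih => exact add_mem (subset_span a) (smul_mem _ _ ih)
  · have hv : s.Pos F v := by
      clear q
      induction a' with
      | zero => exact .zero
      | cons a _ ih => exact (h3 _ a).add (hc.cl F) (by simpa using ih.pow (hc.cl F) 1)
    obtain ⟨x, hx, y, hy, rfl⟩ := mem_sup.1 (h4 a)
    refine add_mem (e ⟨hx, ?_⟩) hy
    rw [eq_sub_of_add_eq (eq_neg_of_add_eq_zero_left q)]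
    exact sub_mem (neg_mem ((t_up hc).2 hv)) (h3 _ hy)

/-- the characteristic resolution -/
theorem exists_mv {N : Submodule Λ M} (hN : N.FG)
    (h : ∀ m ∈ N, ∃ (n : ℕ) (G : Submodule R M), Q j hc hR G ∧ (s.t : Λ) ^ n • m ∈ G) (b : ℤ) :
    ∃ (P P' : Cx R) (a β : Matrix P'.I P.I R) (ca : Ch P' P a)
      (cb : Ch (P'.map (s.α.symm : R →+* R)) P β) (E : ((s.mv ca cb).cone.I → Λ) →ₗ[Λ] M),
      Rs (s.mv ca cb).cone b E ∧ LinearMap.range E = N ∧ Le P b ∧ Le P' b ∧ Le ca.cone b ∧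
        Le P'.dual (-b - (j - 1)) ∧ Le cb.cone.dual (-b - j) := by
  have := hR.noe
  let N' : Submodule R M := ⟨N.toAddSubmonoid, fun r u a =>
    show r • u ∈ N from (hc r u).symm ▸ N.smul_mem _ a⟩
  have key : ∀ K : Submodule Λ M, K.FG → K ≤ N →
      ∃ G, Q j hc hR G ∧ G ≤ N' ∧ K ≤ span Λ (G : Set M) := by
    refine fg_induction (fun x e => ?_) fun A B _ _ hA hB e => ?_
    · have := e (mem_span_singleton_self x)
      obtain ⟨n, G, a, e⟩ := h x this
      exact ⟨G ⊓ N', a.inf fun u => N.smul_mem _, inf_le_right, (span_singleton_le_iff_mem _ _).2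
        ((smul_mem_iff_of_isUnit _ (s.t.isUnit.pow n)).1 (subset_span ⟨e, N.smul_mem _ this⟩))⟩
    · obtain ⟨G, a, e1, e2⟩ := hA (le_sup_left.trans e)
      obtain ⟨G', a', e3, e4⟩ := hB (le_sup_right.trans e)
      exact ⟨G ⊔ G', a.sup a', sup_le e1 e3, sup_le (e2.trans (span_mono (le_sup_left (a := G))))
        (e4.trans (span_mono (le_sup_right (a := G))))⟩
  obtain ⟨G₀, q, e1, e2⟩ := key N hN le_rfl
  obtain ⟨G, q, e3, hG⟩ := q.good
  obtain ⟨P, ε, r, rfl⟩ := exists_rs hR.trn b q.fg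
  obtain ⟨P', ε', r', e'⟩ := exists_rs hR.trn b (q.fg.of_le (inf_le_left (b := up hc (LinearMap.range ε))))
  have r₂ := r'.semi s.α.symm _ (mu_inv hc) (MulAction.injective s.t⁻¹)
  obtain ⟨a, ca, qa⟩ := r'.lift r (e'.le.trans inf_le_left)
  obtain ⟨β, cb, qb⟩ := r₂.lift r (by
    rintro _ ⟨v, rfl⟩
    exact (e'.le ⟨_, rfl⟩).2)
  have qb' : ∀ y, ε (((s.α.symm : R →+* R) ∘ y) ᵥ* β) = (↑s.t⁻¹ : Λ) • ε' y := fun y =>
    (qb _).trans (congrArg ((↑s.t⁻¹ : Λ) • ε' ·) (funext fun _ => s.α.apply_symm_apply _))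
  let E := Fintype.linearCombination Λ fun i => ε (Pi.single i 1)
  have hE : ∀ u, E (s.ι ∘ u) = ε u := fun u => by
    conv_rhs => rw [pi_eq_sum_univ' u]
    simp only [E, Fintype.linearCombination_apply, map_sum, map_smul, hc _ _, Function.comp_apply]
  have hg : ∀ y, (s.ι ∘ y) ᵥ* (a.map s.ι - s.τ P'.I * β.map s.ι) =
      s.ι ∘ (y ᵥ* a) - (s.t : Λ) • s.ι ∘ (((s.α.symm : R →+* R) ∘ y) ᵥ* β) := fun y => by
    rw [vecMul_sub, ← vecMul_vecMul, vec_τ, smul_vecMul, comp_vecMul, comp_vecMul]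
  have ext : ∀ {I : Type} [Fintype I] (f g : (I → Λ) →ₗ[Λ] M), (∀ u, f (s.ι ∘ u) = g (s.ι ∘ u)) →
      ∀ x, f x = g x := fun f g e => LinearMap.congr_fun (LinearMap.ext_on_range s.span_vec e)
  have hp : ∀ u, pj P.p b (s.ι ∘ u) = s.ι ∘ pj P.p b u := fun u => funext fun i => by
    by_cases l : P.p i = b <;> simp [pj, l]
  refine ⟨P, P', a, β, ca, cb, E ∘ₗ fst Λ _ _, rs_cone _ r.deg r'.deg (fun k l => s.ex (r.le k l))
    (fun k l => s.ex (r'.le k l)) (fun y hy e => lc (U := (Bd _).comap (vecMulLinear _)) ?_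
      (fun v p e z => r'.ex z ?_) hy e) fun x => ⟨fun e => ?_, fun ⟨z, w, e⟩ => ?_⟩, ?_, r.le, r'.le,
    (r.cone r' ca qa (mkQ _) fun _ => Quotient.mk_eq_zero _).le,
    r'.le_dual hR fun v => q.t1 (e'.le ⟨v, rfl⟩).1,
    (r.cone r₂ cb qb (mkQ _) fun _ => Quotient.mk_eq_zero _).le_dual hR fun v =>
      (hR.tj j).of_le (q.t2 ⟨fst R _ _ v, rfl⟩) fun c e => (Quotient.mk_eq_zero _).2 ?_⟩
  · rintro _ ⟨w, rfl⟩
    exact ⟨w ᵥ* _, (vecMul_vecMul _ _ _).trans ((congrArg _ (s.mv ca cb).2.symm).trans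
      (vecMul_vecMul _ _ _).symm)⟩
  · obtain ⟨w, e⟩ := bd_π (X := P) e
    rw [vecMulLinear_apply, vecMulLinear_apply, vecMul_sub, show ∀ x y : P.I → Λ, s.π ∘ (x - y) =
      s.π ∘ x - s.π ∘ y from fun _ _ => funext fun _ => map_sub _ _ _, π_vecMul, π_mat (fun u => ⟨_,
        by rw [← vecMul_vecMul, vec_τ, smul_vecMul, comp_vecMul]⟩) p, sub_zero] at e
    rw [← qa, ← e, r.bd]
  · let V := (LinearMap.range (a.map s.ι - s.τ P'.I * β.map s.ι).vecMulLinear ⊔
      Bd (P.map s.ι)).comap (pjL Λ P.p b)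
    have h0 : ∀ u, ε u = 0 → s.ι ∘ u ∈ V := fun u e =>
      mem_sup_right (show pj P.p b _ ∈ _ from hp u ▸ bd_map _ ((r.ker u).1 e))
    have : x ∈ V := by
      refine ind s.cl_vec (Z := LinearMap.ker E) ?_ ?_ (s.span_vec.ge trivial) e
      · rintro _ ⟨u, rfl⟩ e
        exact h0 u ((hE u).symm.trans e)
      · rintro _ ⟨u, rfl⟩ v p e
        have p' : s.Pos (LinearMap.range ε) (E v) := by
          clear e
          induction p with
          | zero => simpa using Pos.zero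
          | cons a _ ih =>
            obtain ⟨u, rfl⟩ := a
            rw [map_add, map_smul, hE]
            exact ih.cons ⟨u, rfl⟩
        obtain ⟨y, hy⟩ := e'.ge ⟨⟨u, rfl⟩, hG _ ⟨u, rfl⟩ _ p' (by
          rwa [LinearMap.mem_ker, map_add, map_smul, hE] at e)⟩
        refine ⟨_, ⟨((s.α.symm : R →+* R) ∘ y) ᵥ* β, rfl⟩, ?_, ?_⟩
        · rw [SetLike.mem_coe, LinearMap.mem_ker, map_sub, map_smul, hE, hE, qb', t_inv, hy, sub_self]
        · have := add_mem (h0 (u - y ᵥ* a) (by rw [map_sub, qa, hy, sub_self]))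
            (show (s.ι ∘ y) ᵥ* _ ∈ V from mem_sup_left ⟨_,
              (pj_vecMul _ (s.mv ca cb).1 (add_zero b).symm).symm⟩)
          rwa [hg, comp_sub, sub_add_sub_cancel] at this
    obtain ⟨_, ⟨z, rfl⟩, w, hw, e⟩ := mem_sup.1 this
    exact ⟨z, eq_sub_of_add_eq' e ▸ hw⟩
  · have h1 := ext (E ∘ₗ pjL Λ P.p b) E (fun u => (congrArg E (hp u)).trans (by
      rw [hE, hE, r.pj])) x
    have h2 := ext (E ∘ₗ (a.map s.ι - s.τ P'.I * β.map s.ι).vecMulLinear) 0 (fun u =>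
      (congrArg E (hg u)).trans (by
        rw [map_sub, map_smul, hE, hE, qa, qb', t_inv, sub_self, LinearMap.zero_apply])) z
    have h3 := ext (E ∘ₗ (P.d.map s.ι).vecMulLinear) 0 (fun u =>
      (congrArg E (comp_vecMul _ u _)).trans ((hE _).trans (r.bd u))) w
    rw [← h1, show (E ∘ₗ pjL Λ P.p b) x = E _ from congrArg E (eq_add_of_sub_eq e.symm), map_add]
    exact (congrArg₂ (· + ·) h3 h2).trans (add_zero 0)
  · rw [LinearMap.range_comp_of_range_eq_top _ (LinearMap.range_eq_top.2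
      (LinearMap.funLeft_surjective_of_injective _ _ _ Sum.inl_injective))]
    refine le_antisymm ?_ (e2.trans (e3.ge.trans (span_le.2 ?_)))
    · rw [Fintype.range_linearCombination]
      exact (span_mono (Set.range_subset_iff.2 fun i => LinearMap.mem_range_self ε _)).trans
        (e3.le.trans (span_le.2 e1))
    · rintro _ ⟨u, rfl⟩
      exact ⟨_, hE u⟩
  · obtain ⟨y, hy⟩ := e'.ge ⟨e, (t_up hc).2 (smul_mem _ c ⟨_, rfl⟩)⟩
    exact ⟨(s.α.symm : R →+* R) ∘ y, (qb _).symm.trans ((qb' y).trans (hy ▸ inv_t _))⟩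

theorem tor_span (hΛ : NT Λ) (h : Q j hc hR F) {m : M} (e : m ∈ span Λ (F : Set M)) :
    m ∈ (hΛ.tj j).tor ⊥ := by
  have g : Grd Λ j (span Λ (F : Set M)) := fun b P ε r k hk => by
    obtain ⟨_, _, _, _, ca, cb, E, r', e, -, -, -, h1, h2⟩ := exists_mv (j := j) (hc := hc) (hR := hR)
      (fg_range (Submodule.subtype _ ∘ₗ ε)) (fun m ⟨v, e⟩ => by
        obtain ⟨n, a⟩ := exists_pos (hc.cl F) (show m ∈ _ from e ▸ (ε v).2)
        obtain ⟨G, a, e⟩ := h.gd a
        exact ⟨n, G, a.1, e⟩) b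
    exact tx_top.1 (r'.ind ((Rs.comp _ Subtype.val_injective).2 r) e.symm
      (tx_top.2 (s.mv_ex ca cb (h1 _ (by omega)) (h2 k hk))))
  exact (hΛ.tj j).up (g.ker (LinearMap.toSpanSingleton Λ _ ⟨m, e⟩)) fun _ => congrArg Subtype.val

omit [Module R M] hc in
theorem tor_cyc (hR : NT R) (hΛ : NT Λ) (φ : (X.I → Λ) →ₗ[Λ] M) (h0 : ∀ v ∈ Bd X, φ (s.ι ∘ v) = 0)
    (h1 : Tx (hR.tj (j - 1)) X k) (h2 : ∀ v ∈ Zc X k, ∃ I ∈ Tj R j, ∀ r ∈ I, ∃ c ∈ Zc X k,
      φ (s.ι ∘ c) = (s.t : Λ) • φ (s.ι ∘ (r • v))) {v : X.I → Λ} (hv : v ∈ Zc (X.map s.ι) k) :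
    φ v ∈ (hΛ.tj j).tor ⊥ := by
  have := hR.noe
  let _ := Module.compHom M s.ι
  let ψ : (X.I → R) →ₗ[R] M := ⟨⟨fun u => φ (s.ι ∘ u), fun u v => by rw [comp_add, map_add]⟩,
    fun r u => (congrArg φ (s.comp_smul r u)).trans (map_smul _ _ _)⟩
  refine tor_span (s := s) (hc := fun _ _ => rfl) (hR := hR) (F := (Zc X k).map ψ) hΛ
    ⟨(IsNoetherian.noetherian _).map _, ?_, ?_⟩ ?_
  · rintro _ ⟨v, a, rfl⟩
    exact (hR.tj _).of_le (h1 a) fun r e => (ψ.map_smul r v).symm.trans (h0 _ e)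
  · rintro _ ⟨v, a, rfl⟩
    obtain ⟨I, hI, e⟩ := h2 v a
    refine (hR.tj _).up hI fun r q => ?_
    obtain ⟨c, a, e⟩ := e r q
    exact ⟨c, a, e.trans (congrArg _ (ψ.map_smul r v))⟩
  · have := apply_mem_span_image_of_mem_span φ (s.span_cyc hv)
    rwa [Set.image_image] at this

omit hc in
theorem mv_tx (h : AS R) (hR : NT R) (hΛ : NT Λ) (l : Le P b) (l' : Le P' b) (l₁ : Le ca.cone b)
    (q : ℤ) : Tx (hΛ.tj (-b - q)) (s.mv ca cb).cone.dual q := by
  refine s.tx_gl _ (Gl.tx_ext _ (fun x hx => ?_) fun y hy _ => ?_)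
  · let g := s.gl (s.mv ca cb)
    let φ := (Bd g.ext).mkQ ∘ₗ vecMulLinear (fromCols (1 : Matrix P'.I P'.I Λ) 0)
    have hφ : ∀ x, φ x = 0 ↔ Sum.elim x 0 ∈ Bd g.ext := fun x => by
      simp only [φ, LinearMap.comp_apply, mkQ_apply, Quotient.mk_eq_zero, vecMulLinear_apply,
        vecMul_fromCols, vecMul_one, vecMul_zero]
    refine (hΛ.tj _).of_le (tor_cyc (X := P'.up.dual) hR hΛ φ
      (fun v ⟨w, e⟩ => (hφ _).2 ⟨Sum.elim (s.ι ∘ w) 0, ?_⟩)
      ((h.s3 hR l' (q + 1)).up_dual.mono (tj_mono (by omega))) (fun v hv => ⟨_, ca.tx_gld.2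
        (h.s3 hR l₁ q) (x := Sum.elim v 0) ⟨vd_elim.2 ⟨hv.1, vd_zero⟩, by
          rw [Gl.mul, hv.2]
          simp⟩, fun r e => ?_⟩) hx) fun r e => ?_
    · rw [vecMulLinear_apply, Gl.mul, comp_vecMul, ← e, zero_vecMul, zero_vecMul, add_zero]
      rfl
    · obtain ⟨w, hw, e⟩ := bd_hom (k := q) ((vd_elim.2 ⟨hv.1, vd_zero⟩).smul r) (mem_cl.1 e)
      obtain ⟨y, x, rfl⟩ := VRe_split w
      rw [Gl.mul, VRe_smul, VRe_eq, smul_zero] at e
      have z := zc_map (s.α : R →+* R) (X := (P'.map (s.α.symm : R →+* R)).up.dual) (k := q)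
        (v := x ᵥ* βᴴ) ⟨(vd_elim.1 hw).2.vecMul cb.gld.1 (by omega), by
          rw [vecMul_vecMul, eq_neg_of_add_eq_zero_left cb.gld.2, vecMul_neg, ← vecMul_vecMul, e.2]
          simp⟩
      refine ⟨_, ⟨z.1, Eq.trans (congrArg _ ?_) z.2⟩, ?_⟩
      · ext
        simp [s.α_star]
      · rw [← vec_τ', map_smul]
        refine congrArg _ (sub_eq_zero.1 ?_).symm
        rw [← map_sub, hφ]
        refine ⟨Sum.elim (s.ι ∘ y) (s.ι ∘ x), ?_⟩
        rw [vecMulLinear_apply, Gl.mul, VRe_eq, mv_ct, vecMul_sub, ← vecMul_vecMul, comp_vecMul,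
          comp_vecMul, comp_vecMul, comp_vecMul, e.2, ← e.1, comp_add, add_sub_assoc]
        exact ⟨rfl, funext fun _ => map_zero _⟩
    · rw [VRe_smul, smul_zero, ← hφ, map_smul]
      exact e
  · have h0 : ∀ v ∈ Bd P.dual, (Bd (P.dual.map s.ι)).mkQ (s.ι ∘ v) = 0 := fun v e =>
      (Quotient.mk_eq_zero _).2 (bd_map _ e)
    exact (hΛ.tj _).of_le (tor_cyc hR hΛ _ h0 ((h.s3 hR l q).mono (tj_mono (by omega))) (fun v hv =>
      ⟨_, h.s3 hR l q hv, fun r e => ⟨0, zero_mem _, by rw [h0 (r • v) e, h0 0 (zero_mem _), smul_zero]⟩⟩)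
        hy) fun r e => (Quotient.mk_eq_zero (Bd (P.dual.map s.ι))).1 e

omit hc in
/-- the duality conditions pass to twisted Laurent extensions -/
theorem as (s : Sk R Λ) (h : AS R) (hR : NT R) (hΛ : NT Λ) : AS Λ := by
  obtain ⟨N, hN⟩ := h.2
  refine as_of hΛ (N + 1) fun P b d l => ?_
  let _ := Module.compHom ((P.I → Λ) ⧸ Bd P) s.ι
  have r := rs_can d l
  obtain ⟨A, A', _, _, ca, cb, E, r', e, l, l', l₁, -⟩ := exists_mv (s := s) (j := 0)
    (hc := fun _ _ => rfl) (hR := hR) (fg_range ((Bd P).mkQ ∘ₗ pjL Λ P.p b)) (fun m _ =>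
      ⟨0, span R {m}, ⟨fg_span_singleton m, fun _ _ => tj_zero (by omega) _,
        fun _ _ => tj_zero le_rfl _⟩, by simp⟩) b
  refine ⟨fun q => r'.ind r e.symm (mv_tx ca cb h hR hΛ l l' l₁ q), fun k hk =>
    tx_top.1 (r'.ind r e.symm (Ch.dx_cone _ ?_ ?_))⟩
  · rw [dual_map _ s.ι_star]
    exact tx_top.2 (s.ex (hN _ b (vcls_le_dd l') _ (by omega)))
  · rw [dual_map _ s.ι_star]
    exact tx_top.2 (s.ex (hN _ b (vcls_le_dd l) _ (by omega)))

end Sk

end Pool.Agent.Work.MP_9d1ffa_al.VN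
end

-- merged part: Pool.Agent.Work.MP_9d1ffa_al.Ct.GDefs
section
/-! Iterated graphs of groups whose edge groups have small intersections with their conjugates
by square roots. -/

namespace Pool.Agent.Work.MP_9d1ffa_al

open Matrix

/-- all finitely generated subgroups are products of a free group and a free abelian group -/
def LocFZ (A : Type) [Group A] : Prop := ∀ D : Subgroup A, D.FG → FZ D

open Classical in
/-- for every free action of `G`, all idempotents in all Laurent extensions of the obstruction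
category split stably -/
def VanK (G : Type) [Group G] : Prop :=
  ∀ (X : Type) (ρ : G →* Equiv.Perm X), (∀ g y, ρ g y = y → g = 1) →
    ∀ (n : ℕ) (a : Ob X) (E : Matrix a.I a.I (ZG (G × Multiplicative (Fin n → ℤ)))),
      Ctl (ρ.comp (MonoidHom.fst _ _)) a a E → cmul E E = E →
      ∃ (k b : Ob X) (U : Matrix b.I (a.I ⊕ k.I) (ZG (G × Multiplicative (Fin n → ℤ))))
        (W : Matrix (a.I ⊕ k.I) b.I (ZG (G × Multiplicative (Fin n → ℤ)))),
        Ctl (ρ.comp (MonoidHom.fst _ _)) b (a.sum k) U ∧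
          Ctl (ρ.comp (MonoidHom.fst _ _)) (a.sum k) b W ∧
          cmul U W = 1 ∧ cmul W U = fromBlocks E 0 0 1

/-- if `g` is outside `E` and its square is in `E`, then the intersection of `E` with its conjugate
by `g` is small -/
def Root {V : Type} [Group V] (E : Subgroup V) : Prop :=
  ∀ g : V, g ∉ E → g * g ∈ E → ∀ (n : ℕ) (D : Type) [Group D]
    (f : D →* V × Multiplicative (Fin n → ℤ)), Group.FG D → Function.Injective f →
    (∀ d, (f d).1 ∈ E ∧ g * (f d).1 * g⁻¹ ∈ E) →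
      FZ D ∨ (RC D ∧ K0Zero D ∧ ∃ H : Subgroup D, H.FiniteIndex ∧ FZ H)

/-- the smallest class of groups that contains the class `B`, the groups `LocFZ` and the torsion
free one relator groups and is closed under retracts, directed unions, and HNN extensions and
amalgamated free products along admissible groups of the class -/
inductive Gr (B : ∀ (G : Type) [Group G], Prop) : ∀ (G : Type) [Group G], Prop
  | base (G : Type) [Group G] (h : B G) : Gr B G
  | fz (G : Type) [Group G] (h : LocFZ G) : Gr B G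
  | oneRel (X : Type) (r : FreeGroup X)
      (h : ∀ g : PresentedGroup ({r} : Set (FreeGroup X)), IsOfFinOrder g → g = 1) :
      Gr B (PresentedGroup ({r} : Set (FreeGroup X)))
  | hnn (V : Type) [Group V] (A A' : Subgroup V) (φ : A ≃* A')
      (k : LocFZ A ∨ (VanK A ∧ Root A ∧ Root A')) (hA : Gr B A) (h : Gr B V) :
      Gr B (HNNExtension V A A' φ)
  | amalg (A : Type) [Group A] (V : Bool → Type) [∀ i, Group (V i)] (φ : ∀ i, A →* V i)
      (hφ : ∀ i, Function.Injective (φ i)) (k : LocFZ A ∨ (VanK A ∧ ∀ i, Root (φ i).range))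
      (hA : Gr B A) (h : ∀ i, Gr B (V i)) : Gr B (Monoid.PushoutI φ)
  | retract (G H : Type) [Group G] [Group H] (s : G →* H) (r : H →* G) (e : ∀ g, r (s g) = g)
      (h : Gr B H) : Gr B G
  | union (G : Type) [Group G] (N : Finset G → Subgroup G) (e : ∀ T, ∀ g ∈ T, g ∈ N T)
      (h : ∀ T, Gr B (N T)) : Gr B G

end Pool.Agent.Work.MP_9d1ffa_al
end

-- merged part: Pool.Agent.Work.MP_9d1ffa_al.Ct.BFn
section
/-! Functors, and the passage of the vanishing property to retracts and unions. -/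

namespace Pool.Agent.Work.MP_9d1ffa_al.Ct

open MonoidAlgebra

set_option linter.unusedSectionVars false
set_option linter.unusedVariables false

namespace Fn

variable {O O' : Type 1} [Add O] [Zero O] [Add O'] [Zero O'] {𝒞 : SCat O} {𝒟 : SCat O'}
  (F : Fn 𝒞 𝒟) {I J K L : O} {ε : ℤˣ}

/-- the functor as an additive map -/
def hom (a b : O) : 𝒞.Hom a b →+ 𝒟.Hom (F.ob a) (F.ob b) := AddMonoidHom.mk' F.map F.map_add

theorem map_zero' : F.map (0 : 𝒞.Hom I J) = 0 := (F.hom I J).map_zero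

theorem map_neg' (x : 𝒞.Hom I J) : F.map (-x) = -F.map x := (F.hom I J).map_neg x

theorem map_sub' (x y : 𝒞.Hom I J) : F.map (x - y) = F.map x - F.map y := (F.hom I J).map_sub x y

theorem map_zsmul' (n : ℤ) (x : 𝒞.Hom I J) : F.map (n • x) = n • F.map x :=
  (F.hom I J).map_zsmul n x

theorem map_sy (x : 𝒞.Hom I I) : F.map (sy ε x) = sy ε (F.map x) := by
  rw [sy, sy, F.map_add, F.map_zsmul', F.map_ct]

/-- the comparison of sums -/
def w (a b : O) : 𝒟.Hom (F.ob a + F.ob b) (F.ob (a + b)) :=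
  fromRows (F.map (𝒞.inl a b)) (F.map (𝒞.inr a b))

theorem w_conj (x : 𝒞.Hom (I + J) (K + L)) : F.w I J * F.map x * (F.w K L).ct =
    fromBlocks (F.map x.toBlocks₁₁) (F.map x.toBlocks₁₂) (F.map x.toBlocks₂₁)
      (F.map x.toBlocks₂₂) := by
  rw [w, w, conjTranspose_fromRows_eq_fromCols_conjTranspose, fromRows_mul, fromRows_mul_fromCols]
  simp only [← F.map_ct, ← F.map_mul]
  rfl

theorem w_blocks (a : 𝒞.Hom I K) (b : 𝒞.Hom I L) (c : 𝒞.Hom J K) (d : 𝒞.Hom J L) :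
    F.w I J * F.map (fromBlocks a b c d) * (F.w K L).ct =
      fromBlocks (F.map a) (F.map b) (F.map c) (F.map d) := by
  simp [w_conj]

theorem unt_w : Unt (F.w I J) := by
  constructor
  · have := F.w_blocks (1 : 𝒞.Hom I I) 0 0 (1 : 𝒞.Hom J J)
    rwa [fromBlocks_one, F.map_one, Hm.mul_one, F.map_one, F.map_one, F.map_zero', F.map_zero',
      fromBlocks_one] at this
  · rw [w, conjTranspose_fromRows_eq_fromCols_conjTranspose, fromCols_mul_fromRows, ← F.map_ct,
      ← F.map_ct, ← F.map_mul, ← F.map_mul, ← F.map_add, SC_tot, F.map_one]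

theorem iso_sum (a : 𝒞.Hom I I) (b : 𝒞.Hom J J) :
    Iso ε (F.map (fromBlocks a 0 0 b)) (fromBlocks (F.map a) 0 0 (F.map b)) :=
  UZ_re F.unt_w (by rw [w_blocks, F.map_zero', F.map_zero'])

theorem iso_hyp : Iso ε (F.map (hypF 𝒞 I)) (hypF 𝒟 (F.ob I)) :=
  UZ_re F.unt_w (by rw [hypF, w_blocks, F.map_zero', F.map_one, hypF])

theorem eqv {a b : 𝒞.Hom I I} (h : Eqv ε a b) : Eqv ε (F.map a) (F.map b) := by
  obtain ⟨χ, rfl⟩ := h
  exact ⟨F.map χ, by rw [F.map_sub', F.map_add, F.map_zsmul', F.map_ct]⟩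

theorem iso {a : 𝒞.Hom I I} {b : 𝒞.Hom J J} (h : Iso ε a b) : Iso ε (F.map a) (F.map b) := by
  obtain ⟨g, g', h1, h2, h⟩ := h
  refine ⟨F.map g, F.map g', by rw [← F.map_mul, h1, F.map_one], by rw [← F.map_mul, h2, F.map_one],
    ?_⟩
  rw [← F.map_ct, ← F.map_mul, ← F.map_mul]
  exact F.eqv h

theorem z {a : 𝒞.Hom I I} (h : Z ε a) : Z ε (F.map a) := by
  obtain ⟨m, n, h⟩ := h
  exact ⟨F.ob m, F.ob n, (((Iso.refl _).sum F.iso_hyp.symm).trans (F.iso_sum _ _).symm).trans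
    ((F.iso h).trans F.iso_hyp)⟩

theorem ns {a : 𝒞.Hom I I} (h : NS ε a) : NS ε (F.map a) := by
  obtain ⟨μ, -, h⟩ := h.inv
  exact ns_of_left (C := F.map μ) (by rw [← F.map_sy, ← F.map_mul, h, F.map_one])

theorem unt {u : 𝒞.Hom I J} (h : Unt u) : Unt (F.map u) :=
  ⟨by rw [← F.map_ct, ← F.map_mul, h.1, F.map_one], by rw [← F.map_ct, ← F.map_mul, h.2, F.map_one]⟩

theorem sf {E : 𝒞.Hom I I} (h : SFIdem E) : SFIdem (F.map E) := by
  obtain ⟨a, b, U, W, h1, h2⟩ := h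
  refine ⟨F.ob a, F.ob b, F.map U * (F.w I a).ct, F.w I a * F.map W, ?_, ?_⟩
  · rw [Hm.mul_assoc, ← Hm.mul_assoc _ (F.w I a), F.unt_w.2, Hm.one_mul, ← F.map_mul, h1, F.map_one]
  · rw [← Hm.mul_assoc, Hm.mul_assoc _ (F.map W), ← F.map_mul, h2, w_blocks, F.map_zero',
      F.map_zero', F.map_one]

end Fn

variable {X Y W G H Γ : Type} [Group G] [Group H] [Group Γ] {ρ : G →* Equiv.Perm X}
  {σ : H →* Equiv.Perm Y} {I J : Ob X} {ε : ℤˣ}

theorem l1_push_le (φ φ' : X → Y) (α : X → X) (β : Y → Y) (h : ∀ y, φ (α y) = β (φ' y))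
    (μ ν : X →₀ ℝ) :
    l1 (μ.mapDomain φ - (ν.mapDomain φ').mapDomain β) ≤ l1 (μ - ν.mapDomain α) := by
  rw [← Finsupp.mapDomain_comp, show β ∘ φ' = φ ∘ α from funext fun y => (h y).symm,
    Finsupp.mapDomain_comp, ← Finsupp.mapDomain_sub]
  exact l1_mapDomain_le _ _

/-- the image of a morphism under an equivariant map -/
noncomputable def pushH (σ : H →* Equiv.Perm Y) (f : G →* H) (φ : X → Y)
    (h : ∀ g y, φ (ρ g y) = σ (f g) (φ y)) (A : (OC ρ).Hom I J) :
    (OC σ).Hom (push φ I) (push φ J) :=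
  mk (MP_9d1ffa_al.mp f (val A) :)
    (ctl_push (I := I) (J := J) (I' := push φ I) (J' := push φ J) f id
    id (fun _ => rfl) (fun _ => rfl)
    (fun i j g => l1_push_le φ φ (ρ g) (σ (f g)) (h g) (I.x i) (J.x j)) A)

theorem val_pushH (f : G →* H) (φ : X → Y) (h : ∀ g y, φ (ρ g y) = σ (f g) (φ y))
    (A : (OC ρ).Hom I J) : val (pushH σ f φ h A) = (MP_9d1ffa_al.mp f (val A) :) := rfl

/-- the functor induced by an equivariant map -/
noncomputable def pushF (σ : H →* Equiv.Perm Y) (f : G →* H) (φ : X → Y)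
    (h : ∀ g y, φ (ρ g y) = σ (f g) (φ y)) : Fn (OC ρ) (OC σ) where
  ob := push φ
  map A := pushH σ f φ h A
  map_add A B := val_inj (by
    rw [val_add, val_pushH, val_pushH, val_pushH, val_add]
    exact MP_9d1ffa_al.mp_add f (val A) (val B))
  map_mul A B := val_inj (by
    rw [val_mul, val_pushH, val_pushH, val_pushH, val_mul]
    exact mp_cmul f (val_fin A) (val B))
  map_one a := val_inj (by
    rw [val_pushH, val_one, val_one]
    exact @MP_9d1ffa_al.mp_one _ _ _ _ _ (fun _ _ => Classical.propDecidable _) f)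
  map_ct A := val_inj (by
    rw [val_ct, val_pushH, val_pushH, val_ct]
    exact MP_9d1ffa_al.mp_ct f (val A))

theorem iso_of_val {a : (OC ρ).Hom I I} {b : (OC ρ).Hom J J} (e : J.I → I.I)
    (he : Function.Bijective e) (h2 : ∀ i, I.t (e i) = J.t i) (h3 : ∀ i, I.x (e i) = J.x i)
    (h : ∀ i j, val a (e i) (e j) = val b i j) : Iso ε a b :=
  UZ_re ((isPm_pm1 e h2 h3).unt he) (val_inj (funext fun i => funext fun j =>
    ((isPm_pm1 e h2 h3).both (isPm_pm1 e h2 h3) a i j).trans (h i j)))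

/-- a form that is induced from a stably hyperbolic form -/
theorem z_of_push {L : Ob Y} {θ : (OC σ).Hom L L} (hθ : Z ε θ) (f : H →* G) (φ : Y → X)
    (h : ∀ g y, φ (σ g y) = ρ (f g) (φ y)) {ψ : (OC ρ).Hom I I} (e : I.I → L.I)
    (he : Function.Bijective e) (h2 : ∀ i, L.t (e i) = I.t i)
    (h3 : ∀ i, (L.x (e i)).mapDomain φ = I.x i)
    (h4 : ∀ i j, gm f (val θ (e i) (e j)) = val ψ i j) : Z ε ψ :=
  Z.iso (iso_of_val (a := pushH ρ f φ h θ) e he h2 h3 h4) ((pushF ρ f φ h).z hθ)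

theorem van0_empty [IsEmpty X] : Van0 (OC ρ) ε := fun _ _ _ =>
  ⟨0, 0, 0, 0, hom_empty _ _, hom_empty _ _, 0, hom_empty _ _⟩

/-- the action is free -/
def Free (ρ : G →* Equiv.Perm X) : Prop := ∀ g y, ρ g y = y → g = 1

theorem Free.comp (h : Free ρ) {f : H →* G} (hf : Function.Injective f) : Free (ρ.comp f) :=
  fun g y e => hf ((h _ y e).trans (map_one f).symm)

/-- an equivariant map from a free action factors through a free action -/
theorem Free.factor (h : Free ρ) (s : G →* Γ) (α : Γ →* Equiv.Perm W) (j₀ : X → W)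
    (hj : ∀ g y, j₀ (ρ g y) = α (s g) (j₀ y)) :
    ∃ (τ : Γ →* Equiv.Perm (W × Γ)) (j : X → W × Γ), Free τ ∧ (∀ g y, j (ρ g y) = τ (s g) (j y)) ∧
      (∀ g y, (τ g y).1 = α g y.1) ∧ ∀ y, (j y).1 = j₀ y := by
  obtain ⟨c, hc⟩ := exists_eqv (ρ := ρ) (V := G) fun y => ⟨1, fun g e => by rw [h g y e, one_smul]⟩
  refine ⟨⟨⟨fun g => Equiv.prodCongr (α g) (Equiv.mulLeft g), ?_⟩, fun g g' => ?_⟩,
    fun y => (j₀ y, s (c y)), fun g y e => ?_, fun g y => Prod.ext (hj g y) ?_, fun _ _ => rfl,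
    fun _ => rfl⟩
  · ext y <;> simp
  · ext y <;> simp [mul_assoc]
  · exact mul_eq_right.1 (congrArg Prod.snd e)
  · change s (c (ρ g y)) = s g * s (c y)
    rw [hc, smul_eq_mul, map_mul]

/-- the free abelian groups -/
abbrev Zn (n : ℕ) : Type := Multiplicative (Fin n → ℤ)

/-- the vanishing property in the language of categories with involution -/
def VK (G : Type) [Group G] : Prop :=
  ∀ (X : Type) (ρ : G →* Equiv.Perm X), Free ρ → ∀ (n : ℕ) (ε : ℤˣ),
    Van0 (OC (ρ.comp (MonoidHom.fst G (Zn n)))) ε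

theorem z_iff_hypC {ψ : (OC ρ).Hom I I} : Z ε ψ ↔ HypC ρ ε I (val ψ) := by
  have e : ∀ (k l : Ob X) (g : (OC ρ).Hom (l + l) (I + (k + k))) (χ : (OC ρ).Hom (l + l) (l + l)),
      g * fromBlocks ψ 0 0 (hypF (OC ρ) k) * g.ct = hypF (OC ρ) l + χ - (ε : ℤ) • χ.ct ↔
        val (g * fromBlocks ψ 0 0 (hypF (OC ρ) k) * g.ct) =
          val (hypF (OC ρ) l + χ - (ε : ℤ) • χ.ct) := fun k l g χ => ⟨congrArg _, val_inj⟩
  simp only [val_mul, val_fromBlocks, val_sub, val_add, val_hyp] at e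
  constructor
  · rintro ⟨k, l, g, g', h1, h2, χ, h3⟩
    exact ⟨k, l, val g, val g', val χ, val_ctl g, val_ctl g', val_ctl χ,
      (congrArg val h1).trans (BPm_one _ _), (congrArg val h2).trans (BPm_one _ _),
      (e k l g χ).1 h3⟩
  · rintro ⟨k, l, g, g', χ, c1, c2, c3, h1, h2, h3⟩
    exact ⟨k, l, mk g c1, mk g' c2, val_inj (h1.trans (BPm_one _ _)),
      val_inj (h2.trans (BPm_one _ _)), mk χ c3, (e k l (mk g c1) (mk χ c3)).2 h3⟩

theorem van_iff : Van G ↔ VK G := by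
  constructor
  · intro h X ρ hρ n ε a ψ hψ
    obtain ⟨μ, h1, h2⟩ := hψ.inv
    have k1 := congrArg val h1
    have k2 := congrArg val h2
    rw [val_mul, val_sy, val_one] at k1 k2
    exact z_iff_hypC.2 (h X ρ hρ n ε a (val ψ) (val μ) (val_ctl ψ) (val_ctl μ) k1 k2)
  · intro h X ρ hρ n ε a ψ μ c1 c2 h1 h2
    refine (z_iff_hypC (ψ := mk ψ c1)).1 (h X ρ hρ n ε a _ (ns_of_left (C := mk μ c2) (val_inj ?_)))
    rw [val_mul, val_sy, val_one, val_mk, val_mk]
    exact h2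

theorem vk_triv [Subsingleton G] : VK G := fun X ρ _ n ε =>
  van0_triv (fun g => by rw [MonoidHom.comp_apply, Subsingleton.elim (MonoidHom.fst _ _ g) 1, map_one]) ε

/-- retracts of categories of controlled matrices -/
theorem Van0.of_push (h : Van0 (OC σ) ε) (s : G →* H) (r : H →* G) (e : ∀ g, r (s g) = g)
    (j : X → Y) (p : Y → X) (hj : ∀ g y, j (ρ g y) = σ (s g) (j y))
    (hp : ∀ g y, p (σ g y) = ρ (r g) (p y)) (e' : ∀ y, p (j y) = y) : Van0 (OC ρ) ε :=
  fun I ψ hψ => z_of_push (h _ _ ((pushF σ s j hj).ns hψ)) r p hp id Function.bijective_id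
    (fun _ => rfl) (fun i => by
      change ((I.x i).mapDomain j).mapDomain p = _
      rw [← Finsupp.mapDomain_comp, show p ∘ j = id from funext e', Finsupp.mapDomain_id])
    fun i k => congrFun (congrFun ((MP_9d1ffa_al.mp_mp r s (val ψ)).trans (by
      rw [show r.comp s = MonoidHom.id G from MonoidHom.ext e, MP_9d1ffa_al.mp_id])) i) k

theorem VK.ret (h : VK H) (s : G →* H) (r : H →* G) (e : ∀ g, r (s g) = g) : VK G := by
  intro X ρ hρ n ε
  obtain ⟨τ, j, h1, h2, h3, h4⟩ := hρ.factor s (ρ.comp r) id fun g y => by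
    rw [MonoidHom.comp_apply, e]; rfl
  exact (h _ τ h1 n ε).of_push (px _ s) (px _ r) (fun g => Prod.ext (e g.1) rfl) j Prod.fst
    (fun g y => h2 g.1 y) (fun g y => h3 g.1 y) h4

/-- forms are defined over finitely generated subgroups -/
theorem van0_lcl (h : ∀ S : Finset G, ∃ (H : Type) (_ : Group H) (σ : H →* Equiv.Perm X)
    (f : AH σ ρ), Function.Injective f.f ∧ (∀ g ∈ S, ∃ k, f.f k = g) ∧ Van0 (OC σ) ε) :
    Van0 (OC ρ) ε := by
  classical
  intro I ψ hψ
  obtain ⟨μ, -, h2⟩ := hψ.inv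
  obtain ⟨S, hS⟩ := exists_sup_finset ψ
  obtain ⟨S', hS'⟩ := exists_sup_finset μ
  obtain ⟨H, _, σ, f, hf, k1, k2⟩ := h (S ∪ S')
  have e1 : mp f (rs f hf ψ) = ψ := (hS.mono fun g k => k1 g (Finset.mem_union_left _ k)).mp_rs
  have e2 : mp f (rs f hf μ) = μ := (hS'.mono fun g k => k1 g (Finset.mem_union_right _ k)).mp_rs
  rw [← e1]
  refine (k2 _ _ (ns_of_left (C := rs f hf μ) ?_)).mp f
  rw [rs_sy, ← rs_mp_mul, e2, h2, rs_one]

theorem VK.lcl (h : Lcl VK G) : VK G := by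
  classical
  intro X ρ hρ n ε
  refine van0_lcl fun S => ?_
  obtain ⟨H, _, f, hf, k1, k2⟩ := h (S.image Prod.fst)
  refine ⟨H × Zn n, inferInstance, (ρ.comp f).comp (MonoidHom.fst _ _), ⟨px _ f, fun _ => rfl⟩,
    hf.prodMap Function.injective_id, fun g hg => ?_, k2 X _ (hρ.comp hf) n ε⟩
  obtain ⟨k, e⟩ := k1 g.1 (Finset.mem_image_of_mem _ hg)
  exact ⟨(k, g.2), Prod.ext e rfl⟩

end Pool.Agent.Work.MP_9d1ffa_al.Ct
end

-- merged part: Pool.Agent.Work.MP_9d1ffa_al.Ct.GTop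
section
-- merged part: Pool.Agent.Work.MP_9d1ffa_al.Ct.GRev
section
/-! Reversible segments in the tree of an HNN extension. -/

namespace Pool.Agent.Work.MP_9d1ffa_al

open MulAction Monoid Pool.Agent.Work.MP_904812_al

set_option linter.unusedSectionVars false
set_option linter.unusedVariables false

variable {Γ V A K G H : Type} [Group Γ] [Group V] [Group A] [Group K] [Group G] [Group H]

/-- a reversible segment gives a square root of an element of an edge group -/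
theorem Cut.rev (C : Cut Γ V A) {a b : Γ ⧸ C.v.range} (hab : a ≠ b) {g : Γ} (h1 : g • a = b)
    (h2 : g • b = a) :
    ∃ (E : Subgroup V) (x : V) (χ : stabilizer Γ (a, b) →* V),
      (E = C.i.range ∨ E = C.j.range) ∧ x ∉ E ∧ x * x ∈ E ∧ Function.Injective χ ∧
        ∀ δ, χ δ ∈ E ∧ x * χ δ * x⁻¹ ∈ E := by
  have htr := tr_of_isTree C.isTree
  set d : Γ ⧸ C.v.range → Γ ⧸ C.v.range → ℤ := fun a b => (C.T.dist a b : ℤ) with hd
  have iso : ∀ (g : Γ) x y, d (g • x) (g • y) = d x y := fun g x y => by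
    simp only [hd]
    rw [dist_smul C.isTree C.act]
  have adj : ∀ x y, d x y = 1 → C.T.Adj x y := fun x y e =>
    SimpleGraph.dist_eq_one_iff_adj.1 (by simp only [hd] at e; exact_mod_cast e)
  have flip : ∀ p, Bt d a p b → Bt d a (g • p) b ∧ d a (g • p) = d a b - d a p := fun p hp => by
    have e1 : d a (g • p) = d b p := by rw [← iso g b p, h2]
    have e2 : d (g • p) b = d p a := by rw [← iso g p a, h1]
    have := htr.symm b p
    have := htr.symm p a
    simp only [Bt] at *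
    omega
  have hpos := htr.pos hab
  rcases Int.even_or_odd' (d a b) with ⟨m, hm | hm⟩
  swap
  · exfalso
    obtain ⟨p, hp, hp'⟩ := htr.ex_bt a b (t := m) (by omega) (by omega)
    obtain ⟨hq, hq'⟩ := flip p hp
    obtain ⟨hr, hr'⟩ := flip _ hq
    refine C.noinv g (x := p) (y := g • p) (adj _ _ ?_) rfl (htr.bt_uniq hr hp (by omega))
    have := (htr.bt_of_le hp hq (by omega)).1
    simp only [Bt] at *
    omega
  obtain ⟨c, hc, hc'⟩ := htr.ex_bt a b (t := m) (by omega) (by omega)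
  have gc : g • c = c := htr.bt_uniq (flip c hc).1 hc (by rw [(flip c hc).2]; omega)
  obtain ⟨p, hp, hp'⟩ := htr.ex_bt a b (t := m - 1) (by omega) (by omega)
  obtain ⟨hq, hq'⟩ := flip p hp
  obtain ⟨hr, hr'⟩ := flip _ hq
  have gp : g • p ≠ p := fun e => by
    rw [e] at hq'
    omega
  have ggp : g • g • p = p := htr.bt_uniq hr hp (by omega)
  have ad : C.T.Adj c p := (adj _ _ (by
    have := (htr.bt_of_le hp hc (by omega)).1
    simp only [Bt] at *
    omega)).symm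
  have fx : ∀ δ : stabilizer Γ (a, b), ∀ q, Bt d a q b → δ.1 • q = q := fun δ q hq =>
    geo_fix htr iso (congrArg Prod.fst δ.2) (congrArg Prod.snd δ.2) hq
  obtain ⟨γ, rfl⟩ := C.exists_o c
  have h3 := C.act γ⁻¹ _ _ ad
  rw [inv_smul_smul] at h3
  have main : ∀ (E : Subgroup V) (s : Γ) (edge : ∀ h, (C.v h * s) • C.o = s • C.o ↔ h ∈ E) (k : V),
      γ⁻¹ • p = (C.v k * s) • C.o → ∃ (x : V) (χ : stabilizer Γ (a, b) →* V),
        x ∉ E ∧ x * x ∈ E ∧ Function.Injective χ ∧ ∀ δ, χ δ ∈ E ∧ x * χ δ * x⁻¹ ∈ E := by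
    intro E s edge k ek
    let f : V →* Γ := (MulAut.conj (γ * C.v k)).toMonoidHom.comp C.v
    have finj : Function.Injective f := (MulAut.conj _).injective.comp C.vinj
    have rg : ∀ δ : Γ, δ • γ • C.o = γ • C.o → δ ∈ f.range := fun δ hδ => by
      obtain ⟨δ', e⟩ := (C.stab_iff (γ⁻¹ * δ * γ)).1 (by
        rw [mul_smul, mul_smul, hδ, inv_smul_smul])
      refine ⟨k⁻¹ * δ' * k, ?_⟩
      change γ * C.v k * C.v _ * (γ * C.v k)⁻¹ = δ
      rw [map_mul, map_mul, e, map_inv]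
      group
    have fix : ∀ h, f h • p = p ↔ h ∈ E := fun h => by
      have e0 : p = (γ * C.v k) • s • C.o := by
        rw [mul_smul, ← mul_smul (C.v k), ← ek, smul_inv_smul]
      have e1 : f h • p = (γ * C.v k) • (C.v h * s) • C.o := by
        rw [e0, ← mul_smul, ← mul_smul, ← mul_smul]
        congr 1
        change γ * C.v k * C.v h * (γ * C.v k)⁻¹ * (γ * C.v k) * s = _
        group
      rw [← edge, e1]
      conv_lhs => rw [e0]
      exact smul_left_cancel_iff _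
    have hle : stabilizer Γ (a, b) ≤ f.range := fun δ hδ => rg δ (fx ⟨δ, hδ⟩ _ hc)
    obtain ⟨x, hx⟩ := rg g gc
    let χ := (MonoidHom.ofInjective finj).symm.toMonoidHom.comp (Subgroup.inclusion hle)
    have hχ : ∀ δ, f (χ δ) = δ.1 := fun δ => MonoidHom.apply_ofInjective_symm finj _
    refine ⟨x, χ, fun e => gp (hx ▸ (fix x).2 e), (fix _).1 (by rw [map_mul, hx, mul_smul, ggp]),
      (MonoidHom.ofInjective finj).symm.injective.comp (Subgroup.inclusion_injective hle),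
      fun δ => ⟨(fix _).1 (by rw [hχ, fx δ p hp]), (fix _).1 ?_⟩⟩
    rw [map_mul, map_mul, map_inv, hx, hχ, mul_smul, mul_smul, inv_smul_eq_iff.2 ggp.symm,
      fx δ _ hq, ggp]
  obtain ⟨k, ek | ek⟩ := C.nbr h3
  · obtain ⟨x, χ, h⟩ := main _ _ C.edge_iff k ek
    exact ⟨_, x, χ, Or.inl rfl, h⟩
  · obtain ⟨x, χ, h⟩ := main _ _ C.edge_iff' k ek
    exact ⟨_, x, χ, Or.inr rfl, h⟩

theorem Cut.unil_root (C : Cut Γ V A) (ri : Root C.i.range) (rj : Root C.j.range) (two : NoTwo Γ)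
    (n : ℕ) (ε : ℤˣ) :
    UNilTree (Γ × Multiplicative (Fin n → ℤ)) (C.prod (Multiplicative (Fin n → ℤ))).T ε := by
  have hK : FA (Multiplicative (Fin n → ℤ)) := ⟨n, ⟨MulEquiv.refl _⟩⟩
  refine unilTree_edge (C.prod _).isTree (C.prod _).act (fun g a e => ?_)
    fun a b hab ⟨g, h1, h2⟩ D hD hfg => ?_
  · rw [two.prod hK.tf.two g e, one_smul]
  obtain ⟨E, x, χ, hE, k1, k2, k3, k4⟩ := (C.prod _).rev hab h1 h2
  have key : ∀ m : A →* V, Root m.range → E = (px _ m).range →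
      FZ D ∨ (RC D ∧ K0Zero D ∧ ∃ H : Subgroup D, H.FiniteIndex ∧ FZ H) := fun m r e => by
    have mem : ∀ y, y ∈ E ↔ y.1 ∈ m.range := fun y => e ▸
      ⟨fun ⟨z, h⟩ => ⟨z.1, congrArg Prod.fst h⟩, fun ⟨z, h⟩ => ⟨(z, y.2), Prod.ext h rfl⟩⟩
    exact r x.1 (fun h => k1 ((mem x).2 h)) ((mem _).1 k2) n D (χ.comp (Subgroup.inclusion hD))
      ((Group.fg_iff_subgroup_fg D).2 hfg) (k3.comp (Subgroup.inclusion_injective hD))
      fun z => ⟨(mem _).1 (k4 _).1, (mem _).1 (k4 _).2⟩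
  exact hE.elim (key _ ri) (key _ rj)

/-- free factors are closed under square roots -/
theorem cop_sqrt (h : NoTwo G) (h' : NoTwo H) {w : Coprod G H} {y : G} (e : w * w = Coprod.inl y) :
    ∃ x, Coprod.inl x = w := by
  obtain ⟨⟨D, pos, a1, a2, a3, a4, a5, a6, a7, a8⟩, rfl : D = _⟩ := cut_phC (G × H)
  set C : Cut _ _ _ := ⟨phC (G × H), pos, a1, a2, a3, a4, a5, a6, a7, a8⟩
  have k : copI G H w • C.o = C.o := by
    by_contra k
    obtain ⟨E, x, -, hE, k1, k2, -⟩ := C.rev (Ne.symm k) rfl (by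
      rw [← mul_smul, ← map_mul, e]
      exact (C.stab_iff _).2 ⟨(y, 1), rfl⟩)
    have : x * x = 1 := by
      rcases hE with rfl | rfl <;> exact k2.choose_spec.symm
    exact k1 ((h.prod h') x this ▸ one_mem E)
  obtain ⟨z, hz⟩ := (C.stab_iff _).1 k
  have k1 := DFunLike.congr_fun (copR_I (G := G) (H := H) (K := Cy)) w
  rw [MonoidHom.comp_apply, ← hz] at k1
  have k2 := congrArg (fun U : U2 (Coprod G H × Cy) => U.1 false false) k1
  refine ⟨z.1, ?_⟩
  change MonoidAlgebra.single ((Coprod.inl z.1, 1) : Coprod G H × Cy) (1 : ℤ) =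
    MonoidAlgebra.single (w, 1) 1 at k2
  exact congrArg Prod.fst ((MonoidAlgebra.single_left_inj one_ne_zero).1 k2)

theorem FA.prod (h : FA G) (h' : FA K) : FA (G × K) := by
  obtain ⟨m, ⟨e⟩⟩ := h
  obtain ⟨n, ⟨e'⟩⟩ := h'
  exact ⟨m + n, ⟨(e.prodCongr e').trans ((MulEquiv.prodMultiplicative _ _).symm.trans
    (AddEquiv.toMultiplicative ((LinearEquiv.sumArrowLequivProdArrow _ _ ℤ ℤ).symm.trans
      (LinearEquiv.funCongrLeft ℤ ℤ finSumFinEquiv.symm)).toAddEquiv))⟩⟩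

/-- every finite subset lies in a product of a free group and a free abelian group -/
abbrev LZ (A : Type) [Group A] : Prop := Lcl FZ A

theorem LocFZ.lz (h : LocFZ G) : LZ G := fun T =>
  ⟨Subgroup.closure (T : Set G), inferInstance, Subgroup.subtype _, Subgroup.subtype_injective _,
    fun g hg => ⟨⟨g, Subgroup.subset_closure hg⟩, rfl⟩, h _ ⟨T, rfl⟩⟩

theorem LZ.root (h : LZ A) {m : A →* V} (hm : Function.Injective m) : Root m.range := by
  intro g _ _ n D _ f hD hf k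
  obtain ⟨S, hS⟩ := Group.fg_def.1 hD
  let e := MonoidHom.ofInjective hm
  let f₁ : D →* A := e.symm.toMonoidHom.comp
    (((MonoidHom.fst _ _).comp f).codRestrict _ fun d => (k d).1)
  have e₁ : ∀ d, m (f₁ d) = (f d).1 := fun d => MonoidHom.apply_ofInjective_symm hm _
  obtain ⟨H, _, u, h1, ⟨Y, l, ⟨e'⟩⟩, h3⟩ := h.big (big_all fun x : S => f₁ x.1)
  have h5 : ∀ d, f₁ d ∈ u.range := fun d =>
    (Subgroup.closure_le (u.range.comap f₁)).2 (fun y hy => h3 ⟨y, hy⟩) (hS ▸ Subgroup.mem_top d)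
  let f₂ : D →* H := (MonoidHom.ofInjective h1).symm.toMonoidHom.comp (f₁.codRestrict _ h5)
  have e₂ : ∀ d, u (f₂ d) = f₁ d := fun d => MonoidHom.apply_ofInjective_symm h1 _
  refine Or.inl (VN.sub_free (FA.prod ⟨l, ⟨MulEquiv.refl _⟩⟩ ⟨n, ⟨MulEquiv.refl _⟩⟩)
    (((MonoidHom.fst _ _).comp (e'.toMonoidHom.comp f₂)).prod
      (((MonoidHom.snd _ _).comp (e'.toMonoidHom.comp f₂)).prod ((MonoidHom.snd _ _).comp f)))
    fun a b q => hf (Prod.ext ?_ (congrArg (fun z => z.2.2) q)))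
  rw [← e₁, ← e₁, ← e₂, ← e₂,
    e'.injective (Prod.ext (congrArg (fun z => z.1) q) (congrArg (fun z => z.2.1) q))]

/-- the condition on square roots passes to free products -/
theorem Root.inl (h : NoTwo G) (h' : NoTwo H) {m : A →* G} (r : Root m.range) :
    Root ((Coprod.inl : G →* Coprod G H).comp m).range := by
  intro g h1 ⟨y, h2⟩ n D _ f hD hf k
  obtain ⟨x, rfl⟩ := cop_sqrt h h' h2.symm
  have mem : ∀ z, z ∈ ((Coprod.inl : G →* Coprod G H).comp m).range →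
      Coprod.fst z ∈ m.range ∧ Coprod.inl (Coprod.fst z) = z := by
    rintro _ ⟨z, rfl⟩
    exact ⟨⟨z, rfl⟩, rfl⟩
  refine r x (fun ⟨z, e⟩ => h1 ⟨z, congrArg Coprod.inl e⟩) (mem _ ⟨y, h2⟩).1 n D
    ((px _ (Coprod.fst : Coprod G H →* G)).comp f) hD
    (fun a b q => hf (Prod.ext ?_ (congrArg (fun z => z.2) q)))
    fun d => ⟨(mem _ (k d).1).1, ?_⟩
  · exact (mem _ (k a).1).2.symm.trans
      ((congrArg (fun z => Coprod.inl z.1) q).trans (mem _ (k b).1).2)
  · simpa using (mem _ (k d).2).1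

theorem Root.equiv (e : G ≃* H) {m : A →* G} (r : Root m.range) :
    Root (e.toMonoidHom.comp m).range := by
  intro g h1 h2 n D _ f hD hf k
  have mem : ∀ z, z ∈ (e.toMonoidHom.comp m).range ↔ e.symm z ∈ m.range := fun z =>
    ⟨fun ⟨a, h⟩ => ⟨a, e.eq_symm_apply.2 h⟩, fun ⟨a, h⟩ => ⟨a, e.eq_symm_apply.1 h⟩⟩
  refine r (e.symm g) (fun h => h1 ((mem _).2 h)) (map_mul e.symm g g ▸ (mem _).1 h2) n D
    ((px _ e.symm.toMonoidHom).comp f) hD
    ((e.symm.injective.prodMap Function.injective_id).comp hf) fun d => ⟨(mem _).1 (k d).1, ?_⟩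
  simpa using (mem _).1 (k d).2

theorem Root.inr (h : NoTwo G) (h' : NoTwo H) {m : A →* H} (r : Root m.range) :
    Root ((Coprod.inr : H →* Coprod G H).comp m).range :=
  (r.inl h' h).equiv (MulEquiv.coprodComm H G)

end Pool.Agent.Work.MP_9d1ffa_al
end

-- merged part: Pool.Agent.Work.MP_9d1ffa_al.Ct.KTop
section
/-! Idempotents split stably in the obstruction category of a locally free group. -/

namespace Pool.Agent.Work.MP_9d1ffa_al.Ct

open MonoidAlgebra

set_option linter.unusedSectionVars false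
set_option linter.unusedVariables false

variable {X G H K Γ V A : Type} [Group G] [Group H] [Group K] [Group Γ] [Group V] [Group A]
  {I J : Ob X} {ρ : G →* Equiv.Perm X} {ρ' : H →* Equiv.Perm X}

/-- the product with a group that acts trivially -/
def AH.prd (f : AH ρ ρ') (K : Type) [Group K] :
    AH (ρ.comp (MonoidHom.fst G K)) (ρ'.comp (MonoidHom.fst H K)) :=
  ⟨f.f.prodMap (MonoidHom.id K), fun g => f.h g.1⟩

/-- the constants -/
def aZ (ρ : G →* Equiv.Perm X) (K : Type) [Group K] :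
    AH (ρ.comp (MonoidHom.fst G K)) (ρ.comp (MonoidHom.fst G (K × Multiplicative ℤ))) :=
  ⟨(MonoidHom.id G).prodMap (MonoidHom.inl K _), fun _ => rfl⟩

theorem aZ_inj : Function.Injective (aZ ρ K).f := fun a b h =>
  Prod.ext (congrArg (fun z : G × K × Multiplicative ℤ => z.1) h)
    (congrArg (fun z : G × K × Multiplicative ℤ => z.2.1) h)

/-- the powers of the variable -/
noncomputable def tZ (ρ : G →* Equiv.Perm X) (K : Type) [Group K] (a : Ob X) (n : ℤ) :
    TU (ρ.comp (MonoidHom.fst G (K × Multiplicative ℤ))) (1, 1, Multiplicative.ofAdd n) a a :=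
  TU.cen (ρ.comp (MonoidHom.fst G (K × Multiplicative ℤ))) (1, 1, Multiplicative.ofAdd n)
    (map_one ρ) a

theorem val_tZ (n : ℤ) : val (tZ ρ K I n).T = pmM id fun _ => (1, 1, Multiplicative.ofAdd n) := rfl

/-- the Laurent extension of the obstruction category -/
noncomputable def lau (ρ : G →* Equiv.Perm X) (K : Type) [Group K] :
    Lau (OC (ρ.comp (MonoidHom.fst G K)))
      (OC (ρ.comp (MonoidHom.fst G (K × Multiplicative ℤ)))) where
  e := (mpIF (aZ ρ K)).m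
  f P := AddMonoidHom.mk' (fm fun g => P g.2.2.toAdd) (fm_add _)
  c := AddMonoidHom.mk' (rs (aZ ρ K) aZ_inj) rs_add
  zz a n := (tZ ρ K a n).T
  e_mul := (mpIF (aZ ρ K)).m_mul
  e_one := (mpIF (aZ ρ K)).m_one
  e_ct := (mpIF (aZ ρ K)).m_ct
  e_inl := (mpIF (aZ ρ K)).m_inl
  e_inr := (mpIF (aZ ρ K)).m_inr
  f_f P Q _ _ x := hom_ext fun i j g => by
    change (val (fm _ (fm _ x)) i j).coeff g = (val (fm _ x) i j).coeff g
    rw [coeff_fm, coeff_fm, coeff_fm]
    by_cases h : P g.2.2.toAdd <;> by_cases h' : Q g.2.2.toAdd <;> simp [h, h']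
  f_not P _ _ x := fm_add_not _ x
  f_false x := (sup_true x).fm_zero fun _ _ => id
  f_mul P Q T _ _ _ x y hx hy h :=
    (Sup.mul (hx ▸ sup_fm _ x) (hy ▸ sup_fm _ y) fun a b => h _ _).fm_eq
  e_c x := (mp_rs x).trans (congrArg (fm · x) (funext fun g => propext
    ⟨fun ⟨h, e⟩ => e ▸ rfl, fun e => ⟨(g.1, g.2.1), Prod.ext rfl (Prod.ext rfl e.symm)⟩⟩))
  c_e := rs_mp
  z_zero a := val_inj (@pmM_id _ _ _ fun _ _ => Classical.propDecidable _)
  z_add a m n := val_inj (funext fun i => funext fun k => by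
    rw [pmM_mul (val_tZ m), val_tZ, val_tZ, id]
    by_cases h : i = k
    · subst h
      rw [show pmM id _ i i = _ from CB_pm_self id _ i,
        show pmM id _ i i = _ from CB_pm_self id _ i, single_mul_single, one_mul]
      exact congrArg (single · 1) (by simp [ofAdd_add])
    · rw [CB_pm_ne id _ h, CB_pm_ne id _ h, mul_zero])
  z_comm n x := cen_comm (t := (1, 1, Multiplicative.ofAdd n)) (map_one ρ)
    (fun g => by ext <;> simp [add_comm]) x
  f_z a n := ((tZ ρ K a n).sup.mono fun g e => by rw [e]; rfl).fm_eq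
  bdd x := by
    obtain ⟨s, hs⟩ := exists_sup_finset x
    refine ⟨s.sup fun g => g.2.2.toAdd.natAbs, (hs.mono fun g e => ?_).fm_eq⟩
    exact (Int.abs_eq_natAbs _).trans_le
      (Int.ofNat_le.2 (Finset.le_sup (f := fun g : G × K × Multiplicative ℤ => g.2.2.toAdd.natAbs) e))

theorem lau_dg {P : ℤ → Prop} {x : (OC (ρ.comp (MonoidHom.fst G (K × Multiplicative ℤ)))).Hom I J}
    (h : Sup (fun g => P g.2.2.toAdd) x) : (lau ρ K).Dg P x := h.fm_eq

/-- the morphism of Laurent extensions given by an embedding of groups -/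
noncomputable def lauHom (f : AH ρ ρ') (K : Type) [Group K] : Lau.Hom (lau ρ K) (lau ρ' K) where
  φ := mpIF (f.prd K)
  ψ := mpIF (f.prd _)
  he x := (mp_mp (f.prd _) (aZ ρ K) x).trans
    ((mp_congr (MonoidHom.ext fun _ => rfl) x).trans (mp_mp (aZ ρ' K) (f.prd K) x).symm)
  hf P _ _ x := by
    change mp _ (fm _ x) = fm _ (mp _ x)
    have h1 : Sup (fun g => P g.2.2.toAdd) (mp (f.prd _) (fm (fun g => P g.2.2.toAdd) x)) :=
      (sup_fm _ x).map _ fun g e => e
    have h2 : Sup (fun g => ¬ P g.2.2.toAdd) (mp (f.prd _) (fm (fun g => ¬ P g.2.2.toAdd) x)) :=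
      (sup_fm _ x).map _ fun g e => e
    conv_rhs => rw [← fm_add_not (fun g => P g.2.2.toAdd) x, mp_add, fm_add, h1.fm_eq,
      h2.fm_zero fun _ e => e, add_zero]
  hz a n := val_inj (funext fun i => funext fun k => by
    change gm _ (val (tZ ρ K a n).T i k) = val (tZ ρ' K a n).T i k
    rw [val_tZ, val_tZ]
    by_cases h : i = k
    · subst h
      rw [show pmM id _ i i = _ from CB_pm_self id _ i,
        show pmM id _ i i = _ from CB_pm_self id _ i, gm_single]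
      exact congrArg (single · 1) (Prod.ext (map_one f.f) rfl)
    · rw [CB_pm_ne id _ h, CB_pm_ne id _ h, map_zero])

/-- idempotents on finite objects -/
theorem sf_fin (h : MP_9d1ffa_al.SFI (ZG G)) [Finite I.I] {E : (OC ρ).Hom I I} (hE : E * E = E) :
    SFIdem E := by
  classical
  rcases isEmpty_or_nonempty X with hX | ⟨⟨y⟩⟩
  · exact ⟨0, 0, 0, 0, hom_empty _ _, hom_empty _ _⟩
  have := Fintype.ofFinite I.I
  obtain ⟨a, _, _, b, _, _, U, W, h1, h2⟩ := h I.I (val E)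
    ((cmul_fintype _ _).symm.trans (congrArg val hE))
  have f1 : Finite (finOb b y).I := inferInstanceAs (Finite b)
  have f2 : Finite (I + finOb a y).I := inferInstanceAs (Finite (I.I ⊕ a))
  refine ⟨finOb a y, finOb b y, mk U (ctl_finite _), mk W (ctl_finite _),
    val_inj ((cmul_fintype U W).trans (h1.trans (BPm_one _ _))),
    val_inj ((cmul_fintype W U).trans (h2.trans ?_))⟩
  rw [val_fromBlocks]
  exact congrArg (Matrix.fromBlocks (val E) 0 0) (BPm_one _ _)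

theorem wo_fin (h : Finite I.I) (n : ℕ) : Finite (wo I n).I := by
  induction n with
  | zero => exact inferInstanceAs (Finite Empty)
  | succ n ih => exact inferInstanceAs (Finite ((wo I n).I ⊕ I.I))

/-- idempotents split stably for an HNN extension -/
theorem sfi_cut (C : Cut Γ V A) (σ : Γ →* Equiv.Perm X) (hσ : ∀ g y, σ g y = y → g = 1)
    (h : MP_9d1ffa_al.SFI (ZG (Γ × K))) (hV : SFI (OC ((σ.comp C.v).comp (MonoidHom.fst V K))))
    (hA : SFI (OC ((σ.comp C.va).comp (MonoidHom.fst A (K × Multiplicative ℤ))))) :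
    SFI (OC (σ.comp (MonoidHom.fst Γ K))) := fun I E hE => by
  obtain ⟨𝒯⟩ := exists_TA (σ := σ.comp (MonoidHom.fst Γ (K × Multiplicative ℤ))) (C.prod _)
    fun g y e => ⟨(1, g.2), Prod.ext ((map_one C.v).trans (hσ g.1 y e).symm) rfl⟩
  refine Lau.Tr.sf (Λ := lau σ K) hE (kt_all (C.prod _)
    (ρV := (σ.comp C.v).comp (MonoidHom.fst V _)) (fun _ => rfl) (fun _ => rfl) 𝒯 (lau σ K).kt hA
    (fun a ha => ?_)
    (fun T h1 h2 => Lau.tr_unit h2.1 h2.2 (lau_dg (h1.mono fun g e => by rw [e]; exact le_rfl))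
      (lau_dg (h1.ct.mono fun g e => by rw [← inv_inv g, e]; exact le_rfl)))
    (fun J hJ u ⟨w, e⟩ => Lau.tr_win ⟨_, e ▸ w.mul_inv, e ▸ w.inv_mul⟩ fun n E hE =>
      have := wo_fin hJ n
      sf_fin h hE))
  have := (lauHom (AH.of σ C.v) K).tr ha fun n E hE => (mpIF _).sf (hV _ E hE)
  exact mp_congr (f := (AH.of σ C.v).prd _) (f' := aV (C.prod _) _) rfl a ▸ this

theorem sfi_fin (hK : FA K) (n : ℕ) : ∀ (Y : Type) [Finite Y], Nat.card Y = n →
    ∀ σ : FreeGroup Y →* Equiv.Perm X, (∀ g y, σ g y = y → g = 1) →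
      SFI (OC (σ.comp (MonoidHom.fst _ K))) := by
  induction n with
  | zero =>
    intro Y _ h σ _
    have : IsEmpty Y := (Finite.card_eq_zero_iff).1 h
    exact sfi_triv fun g => (congrArg σ (Subsingleton.elim g.1 1)).trans (map_one σ)
  | succ n ih =>
    intro Y _ h σ hσ
    obtain ⟨x₀⟩ : Nonempty Y := Finite.card_pos_iff.1 (by omega)
    obtain ⟨C, -⟩ := cut_free x₀
    refine sfi_cut C σ hσ (sfi_free hK) (ih _ ?_ _ fun g y e => C.vinj ?_)
      (sfi_triv fun g => (congrArg (σ.comp C.va) (Subsingleton.elim g.1 1)).trans (map_one _))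
    · have := Fintype.ofFinite Y
      classical
      rw [Nat.card_eq_fintype_card] at h ⊢
      rw [Fintype.card_subtype_compl, Fintype.card_subtype_eq, h]
      rfl
    · rw [hσ _ y e, map_one]

theorem sfi_lcl {P : ∀ (H : Type) [Group H], Prop} (h : Lcl P G)
    (hP : ∀ (H : Type) [Group H], P H → ∀ σ : H →* Equiv.Perm X, (∀ g y, σ g y = y → g = 1) →
      SFI (OC (σ.comp (MonoidHom.fst H K)))) (hρ : ∀ g y, ρ g y = y → g = 1) :
    SFI (OC (ρ.comp (MonoidHom.fst G K))) := fun I E hE => by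
  classical
  obtain ⟨s, hs⟩ := exists_sup_finset E
  obtain ⟨H, _, f, h1, h2, h3⟩ := h (s.image Prod.fst)
  have hf : Function.Injective ((AH.of ρ f).prd K).f := h1.prodMap Function.injective_id
  have e := Sup.mp_rs (hf := hf) (hs.mono fun g k => by
    obtain ⟨x, hx⟩ := h2 _ (Finset.mem_image_of_mem _ k)
    exact ⟨(x, g.2), Prod.ext hx rfl⟩)
  rw [← e]
  exact (hP H h3 _ (fun g y k => h1 ((hρ _ y k).trans (map_one f).symm)) I _
    (mp_inj hf (by rw [mp_mul, e, hE]))).mp _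

theorem sfi_isFree' (hK : FA K) [IsFreeGroup G] (hρ : ∀ g y, ρ g y = y → g = 1) :
    SFI (OC (ρ.comp (MonoidHom.fst G K))) :=
  sfi_lcl (P := fun H _ => H = H ∧ ∀ σ : H →* Equiv.Perm X, (∀ g y, σ g y = y → g = 1) →
      SFI (OC (σ.comp (MonoidHom.fst H K))))
    (fun T => ⟨_, inferInstance, (IsFreeGroup.toFreeGroup G).symm.toMonoidHom,
      (IsFreeGroup.toFreeGroup G).symm.injective,
      fun g _ => (IsFreeGroup.toFreeGroup G).symm.surjective g, rfl, fun σ hσ =>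
        sfi_lcl (lcl_free (P := fun H _ => ∀ σ : H →* Equiv.Perm X, (∀ g y, σ g y = y → g = 1) →
          SFI (OC (σ.comp (MonoidHom.fst H K)))) fun S => sfi_fin hK _ _ rfl) (fun _ _ => id) hσ⟩)
    (fun _ _ h => h.2) hρ

/-- idempotents split stably for locally free groups -/
theorem sfi_LF (h : LF G) (hK : FA K) (hρ : ∀ g y, ρ g y = y → g = 1) :
    SFI (OC (ρ.comp (MonoidHom.fst G K))) :=
  sfi_lcl h (fun H _ k σ hσ => sfi_isFree' hK hσ) hρ

theorem sfi_lf (h : LocFree G) (hK : FA K) (hρ : ∀ g y, ρ g y = y → g = 1) :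
    SFI (OC (ρ.comp (MonoidHom.fst G K))) := sfi_LF h.lf hK hρ

end Pool.Agent.Work.MP_9d1ffa_al.Ct
end

-- merged part: Pool.Agent.Work.MP_9d1ffa_al.Ct.BCop
section
/-! The vanishing property passes to free products. -/

namespace Pool.Agent.Work.MP_9d1ffa_al.Ct

open MonoidAlgebra Monoid

set_option linter.unusedSectionVars false
set_option linter.unusedVariables false

variable {X Y Γ Q G H K : Type} [Group Γ] [Group Q] [Group G] [Group H] [Group K] {ε : ℤˣ}

section Sheets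

variable {ρ : Q →* Equiv.Perm X} {σ : Γ →* Equiv.Perm Y} {I J L : Ob Y}

theorem rep_coeff (r : Γ →* U2 Q) (x : ZG Γ) (b c : Bool) (g : Q)
    (h : (rep r x b c).coeff g ≠ 0) : ∃ γ, x.coeff γ ≠ 0 ∧ ((r γ).1 b c).coeff g ≠ 0 := by
  rw [show rep r x = _ from MonoidAlgebra.lift_apply _ x, Finsupp.sum, Matrix.sum_apply, coeff_sum,
    Finsupp.finsetSum_apply] at h
  obtain ⟨γ, h1, h2⟩ := Finset.exists_ne_zero_of_sum_ne_zero h
  refine ⟨γ, Finsupp.mem_support_iff.1 h1, fun e => h2 ?_⟩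
  change x.coeff γ • ((r γ).1 b c).coeff g = 0
  rw [e, smul_zero]

variable (r : Γ →* U2 Q) (φ : Y → Bool → X)
  (h : ∀ γ b c g, ((r γ).1 b c).coeff g ≠ 0 → ∀ y, φ (σ γ y) b = ρ g (φ y c))

include h in
theorem ctl_sh (b c : Bool) (A : (OC σ).Hom I J) :
    Ctl ρ (push (φ · b) I) (push (φ · c) J) ((val A).map fun x => rep r x b c :) := by
  classical
  obtain ⟨⟨S, hS⟩, ⟨n, hn⟩, hd⟩ := val_ctl A
  refine ⟨⟨S.biUnion fun γ => ((r γ).1 b c).coeff.support, fun i j g e => ?_⟩,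
    ⟨n, fun i j e => hn i j fun e0 => e ?_⟩, fun δ hδ => ?_⟩
  · obtain ⟨γ, h1, h2⟩ := rep_coeff r _ b c g e
    exact Finset.mem_biUnion.2 ⟨γ, hS i j γ h1, Finsupp.mem_support_iff.2 h2⟩
  · change rep r (val A i j) b c = 0
    rw [e0, map_zero, Matrix.zero_apply]
  · obtain ⟨m, hm⟩ := hd δ hδ
    refine ⟨m, fun i j g hi e => ?_⟩
    obtain ⟨γ, h1, h2⟩ := rep_coeff r _ b c g e
    exact (l1_push_le (φ · b) (φ · c) (σ γ) (ρ g) (h γ b c g h2) (I.x i) (J.x j)).trans
      (hm i j γ hi h1)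

/-- the part of a morphism between two sheets -/
noncomputable def shH (b c : Bool) (A : (OC σ).Hom I J) :
    (OC ρ).Hom (push (φ · b) I) (push (φ · c) J) := mk _ (ctl_sh r φ h b c A)

theorem val_shH (b c : Bool) (A : (OC σ).Hom I J) (i : I.I) (j : J.I) :
    val (shH r φ h b c A) i j = rep r (val A i j) b c := rfl

theorem shH_add (b c : Bool) (A B : (OC σ).Hom I J) :
    shH r φ h b c (A + B) = shH r φ h b c A + shH r φ h b c B :=
  val_inj (funext fun i => funext fun j => by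
    rw [val_add, Matrix.add_apply, val_shH, val_shH, val_shH, val_add, Matrix.add_apply, map_add,
      Matrix.add_apply])

theorem sh_cmul {ι κ μ : Type} {A : Matrix ι κ (ZG Γ)} (hA : RowFin A) (B : Matrix κ μ (ZG Γ))
    (b c : Bool) : (cmul A B).map (fun x => rep r x b c) =
      cmul (A.map fun x => rep r x b false) (B.map fun x => rep r x false c) +
        cmul (A.map fun x => rep r x b true) (B.map fun x => rep r x true c) := by
  funext i k
  have e : ∀ d j, (A.map fun x => rep r x b d) i j ≠ 0 → j ∈ (hA i).toFinset := fun d j e =>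
    (hA i).mem_toFinset.2 fun e0 => e (by rw [Matrix.map_apply, e0, map_zero, Matrix.zero_apply])
  rw [Matrix.add_apply, Matrix.map_apply, CB_row _ i k _ fun j => (hA i).mem_toFinset.2,
    CB_row _ i k _ (e false), CB_row _ i k _ (e true), map_sum, Matrix.sum_apply,
    ← Finset.sum_add_distrib]
  refine Finset.sum_congr rfl fun j _ => ?_
  rw [map_mul, Matrix.mul_apply, Fintype.sum_bool, add_comm]
  rfl

theorem shH_mul (b c : Bool) (A : (OC σ).Hom I J) (B : (OC σ).Hom J L) :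
    shH r φ h b c (A * B) = shH r φ h b false A * shH r φ h false c B +
      shH r φ h b true A * shH r φ h true c B := val_inj (sh_cmul r (val_fin A) (val B) b c)

theorem shH_ct (b c : Bool) (A : (OC σ).Hom I J) :
    shH r φ h b c A.ct = (shH r φ h c b A).ct :=
  val_inj (funext fun i => funext fun j => by
    rw [val_ct, Matrix.conjTranspose_apply, val_shH, val_shH, val_ct, Matrix.conjTranspose_apply,
      rep_star]
    rfl)

theorem sh_one {ι : Type} [DecidableEq ι] (b c : Bool) :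
    (1 : Matrix ι ι (ZG Γ)).map (fun x => rep r x b c) = if b = c then 1 else 0 := by
  funext i j
  rw [Matrix.map_apply, Matrix.one_apply]
  split_ifs <;> simp [Matrix.one_apply, *]

theorem shH_one (b : Bool) : shH r φ h b b (1 : (OC σ).Hom I I) = 1 :=
  val_inj ((@sh_one _ _ _ _ r _ (fun _ _ => Classical.propDecidable _) b b).trans (if_pos rfl))

theorem shH_zero {b c : Bool} (n : b ≠ c) : shH r φ h b c (1 : (OC σ).Hom I I) = 0 :=
  val_inj ((@sh_one _ _ _ _ r _ (fun _ _ => Classical.propDecidable _) b c).trans (if_neg n))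

/-- the functor of a two sheeted representation -/
noncomputable def sheetF : Fn (OC σ) (OC ρ) where
  ob a := push (φ · false) a + push (φ · true) a
  map A := fromBlocks (shH r φ h false false A) (shH r φ h false true A) (shH r φ h true false A)
    (shH r φ h true true A)
  map_add A B := by simp only [shH_add, fromBlocks_add]
  map_mul A B := by simp only [shH_mul, fromBlocks_multiply]
  map_one a := by
    rw [shH_one, shH_one, shH_zero r φ h Bool.false_ne_true,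
      shH_zero r φ h Bool.false_ne_true.symm, fromBlocks_one]
  map_ct A := by simp only [shH_ct, fromBlocks_conjTranspose]

theorem rep_gm (f : G →* Γ) (x : ZG G) : rep r (gm f x) = rep (r.comp f) x := by
  induction x using MonoidAlgebra.induction_linear with
  | zero => simp
  | add a b ha hb => rw [map_add, map_add, map_add, ha, hb]
  | single g n => rw [gm_single, rep_single, rep_single]; rfl

/-- a morphism on which the representation is diagonal -/
theorem sheetF_diag {f : G →* Γ} {p q : G →* Q} (e : r.comp f = dgl p q) {A : (OC σ).Hom I I}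
    {M : Matrix I.I I.I (ZG G)} (hA : ∀ i j, val A i j = gm f (M i j)) :
    (sheetF r φ h).map A = fromBlocks (shH r φ h false false A) 0 0 (shH r φ h true true A) ∧
      (∀ i j, gm p (M i j) = val (shH r φ h false false A) i j) ∧
      ∀ i j, gm q (M i j) = val (shH r φ h true true A) i j := by
  have k : ∀ b c i j, val (shH r φ h b c A) i j =
      Matrix.diagonal (fun b => bif b then gm q (M i j) else gm p (M i j)) b c := fun b c i j => by
    rw [val_shH, hA, rep_gm, e, rep_dgl]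
  refine ⟨fromBlocks_inj.2 ⟨rfl, val_inj (funext fun i => funext fun j => ?_),
    val_inj (funext fun i => funext fun j => ?_), rfl⟩, fun i j => ?_, fun i j => ?_⟩ <;>
    rw [k] <;> rfl

end Sheets

/-- a matrix that describes a permutation of pairs of points -/
def Mon (ρ : Q →* Equiv.Perm X) (U : U2 Q) (a : Equiv.Perm (Bool → X)) : Prop :=
  ∀ b c g, (U.1 b c).coeff g ≠ 0 → ∀ f, a f b = ρ g (f c)

theorem Mon.mul {ρ : Q →* Equiv.Perm X} {U U' : U2 Q} {a a' : Equiv.Perm (Bool → X)}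
    (h : Mon ρ U a) (h' : Mon ρ U' a') : Mon ρ (U * U') (a * a') := fun b c g e f => by
  rw [Submonoid.coe_mul, ← cmul_fintype] at e
  obtain ⟨d, g₁, g₂, rfl, e1, e2⟩ := coeff_cmul_ne e
  rw [Equiv.Perm.mul_apply, h _ _ _ e1, h' _ _ _ e2, map_mul, Equiv.Perm.mul_apply]

theorem Mon.inv {ρ : Q →* Equiv.Perm X} {U : U2 Q} {a : Equiv.Perm (Bool → X)} (h : Mon ρ U a) :
    Mon ρ U⁻¹ a⁻¹ := fun b c g e f => by
  have := h c b g⁻¹ (by rwa [← MP_9d1ffa_al.coeff_ct]) (a⁻¹ f)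
  rw [← Equiv.Perm.mul_apply, mul_inv_cancel, map_inv, Equiv.Perm.eq_inv_iff_eq] at this
  exact this.symm

theorem mon_dgl {ρ : Q →* Equiv.Perm X} (p q : G →* Q) (g : G) {a : Equiv.Perm (Bool → X)} :
    Mon ρ (dgl p q g) a ↔ ∀ f b, a f b = ρ (bif b then q g else p g) (f b) := by
  have e : ∀ b c, (dgl p q g).1 b c = Matrix.diagonal (fun b => single (bif b then q g else p g) 1)
    b c := fun _ _ => rfl
  refine ⟨fun h f b => h b b _ (by simp [e]) f, fun h b c x k f => ?_⟩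
  rw [e, Matrix.diagonal_apply] at k
  split_ifs at k with k'
  · subst k'
    rw [coeff_single, ← Finsupp.mem_support_iff] at k
    rw [h, Finset.mem_singleton.1 (Finsupp.support_single_subset k)]
  · exact absurd rfl k

/-- the exchange of the two points -/
def swB (X : Type) : Equiv.Perm (Bool → X) :=
  Function.Involutive.toPerm (fun f b => f (!b)) fun f => by simp

theorem mon_swp {ρ : Q →* Equiv.Perm X} : Mon ρ (swp Q) (swB X) := fun b c g k f => by
  change (if b = c then (0 : ZG Q) else 1).coeff g ≠ 0 at k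
  split_ifs at k with k'
  · exact absurd rfl k
  · rw [MonoidAlgebra.one_def, coeff_single, ← Finsupp.mem_support_iff] at k
    rw [Finset.mem_singleton.1 (Finsupp.support_single_subset k), map_one]
    change f (!b) = f c
    rw [Bool.eq_not_iff.2 (Ne.symm k')]

/-- the action on pairs of points -/
def prA (ρ : Q →* Equiv.Perm X) (p q : G →* Q) : G →* Equiv.Perm (Bool → X) where
  toFun g := Equiv.piCongrRight fun b => ρ (bif b then q g else p g)
  map_one' := by ext f (_ | _) <;> simp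
  map_mul' g g' := by ext f (_ | _) <;> simp

/-- every nonsingular form is stably induced -/
def Onto {ρ : Γ →* Equiv.Perm X} {ρ' : G →* Equiv.Perm X} (f : AH ρ' ρ) (ε : ℤˣ) : Prop :=
  ∀ (I : Ob X) (ψ : (OC ρ).Hom I I), NS ε ψ → ∃ (J : Ob X) (θ : (OC ρ').Hom J J), NS ε θ ∧
    Z ε (fromBlocks ψ 0 0 (-mp f θ))

/-- the action of the larger group on pairs of points -/
def copA (ρ : Coprod G H →* Equiv.Perm X) : Coprod (G × H) Cy →* Equiv.Perm (Bool → X) :=
  Coprod.lift (prA ρ (Coprod.inl.comp (MonoidHom.fst G H)) (Coprod.inr.comp (MonoidHom.snd G H)))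
    (cy (swB X))

theorem mon_copR (ρ : Coprod G H →* Equiv.Perm X) (γ : Coprod (G × H) Cy) :
    Mon (ρ.comp (MonoidHom.fst _ K)) (copR G H K γ) (copA ρ γ) := by
  have o : Mon (ρ.comp (MonoidHom.fst _ K)) 1 1 := by
    have := (mon_dgl (ρ := ρ.comp (MonoidHom.fst _ K)) (1 : G →* _) 1 1 (a := 1)).2
      fun f b => by cases b <;> simp
    rwa [map_one] at this
  induction γ using Coprod.induction_on with
  | inl g => exact (mon_dgl _ _ g).2 fun f b => by cases b <;> rfl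
  | inr z =>
    induction z using FreeGroup.induction_on with
    | C1 => rwa [map_one, map_one, map_one]
    | of x => simpa [copR, copA, cy] using mon_swp
    | inv_of x k => rw [map_inv, map_inv, map_inv]; exact k.inv
    | mul a b ha hb => rw [map_mul, map_mul, map_mul]; exact ha.mul hb
  | mul a b ha hb => rw [map_mul, map_mul]; exact ha.mul hb

theorem mon_copP (ρ : Coprod G H →* Equiv.Perm X) (γ : Coprod (G × H) Cy × K) :
    Mon (ρ.comp (MonoidHom.fst _ K)) (copP G H K γ) (copA ρ γ.1) := by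
  rw [copP_apply, ← mul_one (copA ρ γ.1)]
  exact (mon_copR _ _).mul ((mon_dgl _ _ _).2 fun f b => by cases b <;> simp)

theorem copA_I (ρ : Coprod G H →* Equiv.Perm X) (x₀ : X) (g : Coprod G H) (y : X) :
    (fun b => bif b then x₀ else ρ g y) = copA ρ (copI G H g) fun b => bif b then x₀ else y := by
  funext b
  have := mon_copR (K := Cy) ρ (copI G H g)
  rw [← MonoidHom.comp_apply, copR_I, mon_dgl] at this
  rw [this]
  cases b <;> simp

/-- a form that is induced in two steps -/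
theorem z_of_two {S : Type} [Group S] {ρ : Q →* Equiv.Perm X} {σ : Γ →* Equiv.Perm Y}
    {τ : S →* Equiv.Perm X} (hτ : Van0 (OC τ) ε) (p : Γ →* S) (i : S →* Q) (φ : Y → X)
    (h1 : ∀ g y, φ (σ g y) = τ (p g) (φ y)) (h2 : ∀ g y, τ g y = ρ (i g) y) {L : Ob Y}
    {θ : (OC σ).Hom L L} (hθ : NS ε θ) {I : Ob X} {ψ : (OC ρ).Hom I I} (e : I.I → L.I)
    (he : Function.Bijective e) (h3 : ∀ k, L.t (e k) = I.t k)
    (h4 : ∀ k, (L.x (e k)).mapDomain φ = I.x k)
    (h5 : ∀ k l, gm (i.comp p) (val θ (e k) (e l)) = val ψ k l) : Z ε ψ :=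
  z_of_push (L := push φ L) (hτ _ _ ((pushF τ p φ h1).ns hθ)) i id h2 e he h3
    (fun k => Finsupp.mapDomain_id.trans (h4 k)) fun k l =>
      (congrFun (congrFun (MP_9d1ffa_al.mp_mp i p (val θ)) (e k)) (e l)).trans (h5 k l)

theorem VK.coprod (hc : ∀ (Y : Type) (σ : Coprod (G × H) Cy →* Equiv.Perm Y), Free σ → ∀ n ε,
    Onto ((AH.of σ Coprod.inl).prd (Zn n)) ε) (h : VK G) (h' : VK H) : VK (Coprod G H) := by
  intro X ρ hρ n ε
  rcases isEmpty_or_nonempty X with hX | ⟨⟨x₀⟩⟩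
  · exact van0_empty
  intro I ψ hψ
  obtain ⟨τ, j, h1, h2, h3, h4⟩ := hρ.factor (copI G H) (copA ρ) (fun x b => bif b then x₀ else x)
    (copA_I ρ x₀)
  have hφ : ∀ γ b c g, ((copP G H (Zn n) γ).1 b c).coeff g ≠ 0 → ∀ y,
      ((τ.comp (MonoidHom.fst _ (Zn n))) γ y).1 b = (ρ.comp (MonoidHom.fst _ (Zn n))) g (y.1 c) :=
    fun γ b c g e y => (congrFun (h3 γ.1 y) b).trans (mon_copP ρ γ b c g e y.1)
  obtain ⟨ψ', n1, v1⟩ : ∃ ψ' : (OC (τ.comp (MonoidHom.fst _ (Zn n)))).Hom (push j I) (push j I),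
      NS ε ψ' ∧ ∀ k l, val ψ' k l = gm (px _ (copI G H)) (val ψ k l) :=
    ⟨_, (pushF (τ.comp (MonoidHom.fst _ (Zn n))) (px _ (copI G H)) j fun g y => h2 g.1 y).ns hψ,
      fun _ _ => rfl⟩
  obtain ⟨J, θ, t1, t2⟩ := hc _ τ h1 n ε _ _ n1
  obtain ⟨θ', e', v2⟩ : ∃ θ', mp ((AH.of τ Coprod.inl).prd (Zn n)) θ = θ' ∧
    ∀ k l, val θ' k l = gm (px _ Coprod.inl) (val θ k l) := ⟨_, rfl, fun _ _ => rfl⟩
  rw [e'] at t2
  have t3 := Z.iso ((sheetF _ Prod.fst hφ).iso_sum _ _) ((sheetF _ Prod.fst hφ).z t2)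
  obtain ⟨a1, a2, a3⟩ := sheetF_diag _ Prod.fst hφ copP_I v1
  obtain ⟨b1, b2, b3⟩ := sheetF_diag _ Prod.fst hφ copP_inl v2
  have z0 : Z ε (shH _ Prod.fst hφ false false θ') :=
    z_of_two (h X _ (hρ.comp Coprod.inl_injective) n ε) (px (Zn n) (MonoidHom.fst G H))
      (px (Zn n) (Coprod.inl : G →* Coprod G H)) (fun y : (Bool → X) × _ => y.1 false)
      (fun g y => congrFun (h3 (Coprod.inl g.1) y) false) (fun _ _ => rfl)
      t1 id Function.bijective_id (fun _ => rfl) (fun _ => rfl) b2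
  have z1 : Z ε (shH _ Prod.fst hφ true true θ') :=
    z_of_two (h' X _ (hρ.comp Coprod.inr_injective) n ε) (px (Zn n) (MonoidHom.snd G H))
      (px (Zn n) (Coprod.inr : H →* Coprod G H)) (fun y : (Bool → X) × _ => y.1 true)
      (fun g y => congrFun (h3 (Coprod.inl g.1) y) true) (fun _ _ => rfl)
      t1 id Function.bijective_id (fun _ => rfl) (fun _ => rfl) b3
  have z2 := z0.sum z1
  rw [← b1] at z2
  rw [Fn.map_neg'] at t3
  have t4 := t3.cancel z2.neg
  rw [a1] at t4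
  have e : ∀ (b : Bool) i, ((I.x i).mapDomain j).mapDomain (fun y => y.1 b) =
      (I.x i).mapDomain fun x => bif b then x₀ else x := fun b i => by
    rw [← Finsupp.mapDomain_comp]
    exact congrArg (Finsupp.mapDomain · _) (funext fun y => congrFun (h4 y) b)
  have z3 : Z ε (shH _ Prod.fst hφ true true ψ') :=
    z_of_two (van0_triv (ρ := (1 : Zn n →* Equiv.Perm X)) (fun _ => rfl) ε)
      (MonoidHom.snd (Coprod G H) (Zn n)) (MonoidHom.inr (Coprod G H) (Zn n)) (fun _ : X => x₀)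
      (fun _ _ => rfl) (fun g y => by simp)
      hψ id Function.bijective_id (fun _ => rfl) (fun i => (e true i).symm) a3
  exact Z.iso (iso_of_val (a := shH _ Prod.fst hφ false false ψ') id Function.bijective_id
    (fun _ => rfl) (fun i => (e false i).trans Finsupp.mapDomain_id) fun k l => (a2 k l).symm.trans
      (congrFun (congrFun (MP_9d1ffa_al.mp_id (val ψ)) k) l)) (t4.cancel z3)

end Pool.Agent.Work.MP_9d1ffa_al.Ct
end

-- merged part: Pool.Agent.Work.MP_9d1ffa_al.Ct.BTop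
section
/-! The vanishing property passes along hierarchies. -/

namespace Pool.Agent.Work.MP_9d1ffa_al.Ct

open MonoidAlgebra Monoid

set_option linter.unusedSectionVars false
set_option linter.unusedVariables false

/-- forms over an HNN extension come from the vertex group if the edge group has no invariants -/
def Split : Prop :=
  ∀ (X Γ V A : Type) [Group Γ] [Group V] [Group A] (C : Cut Γ V A) (ρ : Γ →* Equiv.Perm X)
    (ε : ℤˣ), (∀ g y, ρ g y = y → ∃ w, C.v w = g) → UNilTree Γ C.T ε → NoTwo Γ →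
    SFI (OC (ρ.comp C.va)) → Van1 (OC (ρ.comp C.va)) (-ε) → Onto (AH.of ρ C.v) ε

/-- the odd Wall group embeds in the even Wall group of the Laurent extension -/
def Line : Prop :=
  ∀ (X V : Type) [Group V] (ρ : V →* Equiv.Perm X) (ε : ℤˣ), SFI (OC ρ) →
    Van0 (OC (ρ.comp (MonoidHom.fst V (Multiplicative ℤ)))) ε → Van1 (OC ρ) (-ε)

variable {X G H K Γ V A : Type} [Group G] [Group H] [Group K] [Group Γ] [Group V] [Group A]
  {ε : ℤˣ}

theorem fa_zn (n : ℕ) : FA (Zn n) := ⟨n, ⟨MulEquiv.refl _⟩⟩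

theorem VK.fa (h : VK G) (hK : FA K) {ρ : G →* Equiv.Perm X} (hρ : Free ρ) :
    Van0 (OC (ρ.comp (MonoidHom.fst G K))) ε := by
  obtain ⟨n, ⟨e⟩⟩ := hK
  exact (h X ρ hρ n ε).of_push ((MonoidHom.id G).prodMap e.toMonoidHom)
    ((MonoidHom.id G).prodMap e.symm.toMonoidHom) (fun g => Prod.ext rfl (e.symm_apply_apply g.2))
    id id (fun _ _ => rfl) (fun _ _ => rfl) fun _ => rfl

theorem Onto.van0 {ρ : Γ →* Equiv.Perm X} {ρ' : G →* Equiv.Perm X} {f : AH ρ' ρ} (h : Onto f ε)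
    (h' : Van0 (OC ρ') ε) : Van0 (OC ρ) ε := fun I ψ hψ => by
  obtain ⟨J, θ, h1, h2⟩ := h I ψ hψ
  exact h2.cancel ((h' J θ h1).mp f).neg

variable (hS : Split) (hL : Line)
include hS hL

theorem cut_onto (C : Cut Γ V A) (hA : LF A) (hA' : VK A) (two : NoTwo Γ)
    {σ : Γ →* Equiv.Perm X} (hσ : Free σ) (n : ℕ) (ε : ℤˣ) :
    Onto ((AH.of σ C.v).prd (Zn n)) ε := by
  have fr := hσ.comp C.vainj
  have s := sfi_LF hA (fa_zn n) fr
  have v : Van1 (OC ((σ.comp C.va).comp (MonoidHom.fst A (Zn n)))) (-ε) := hL X _ _ ε s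
    ((hA'.fa (fa_zn n).prod_int fr).of_push MulEquiv.prodAssoc.toMonoidHom
      MulEquiv.prodAssoc.symm.toMonoidHom (fun _ => rfl) id id (fun _ _ => rfl) (fun _ _ => rfl)
      fun _ => rfl)
  exact hS X _ _ _ (C.prod (Zn n)) (σ.comp (MonoidHom.fst _ _)) ε
    (fun g y e => ⟨(1, g.2), Prod.ext ((map_one C.v).trans (hσ g.1 y e).symm) rfl⟩)
    (C.unil_free hA two (fa_zn n) ε) (two.prod (fa_zn n).tf.two) s v

theorem VK.cut (C : Cut Γ V A) (hA : LF A) (hA' : VK A) (two : NoTwo V) (h : VK V) : VK Γ :=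
  fun X σ hσ n ε => (cut_onto hS hL C hA hA' (C.noTwo two) hσ n ε).van0
    (h X _ (hσ.comp C.vinj) n ε)

theorem vk_fin (n : ℕ) : ∀ (Y : Type) [Finite Y], Nat.card Y = n →
    NoTwo (FreeGroup Y) ∧ VK (FreeGroup Y) := by
  induction n with
  | zero =>
    intro Y _ h
    have : IsEmpty Y := (Finite.card_eq_zero_iff).1 h
    exact ⟨fun _ _ => Subsingleton.elim _ _, vk_triv⟩
  | succ n ih =>
    intro Y _ h
    obtain ⟨x₀⟩ : Nonempty Y := Finite.card_pos_iff.1 (by omega)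
    have := Fintype.ofFinite Y
    classical
    obtain ⟨C, -⟩ := cut_free x₀
    have k := ih {x // x ≠ x₀} (by
      rw [Nat.card_eq_fintype_card] at h ⊢
      rw [Fintype.card_subtype_compl, Fintype.card_subtype_eq, h]
      rfl)
    exact ⟨C.noTwo k.1, VK.cut hS hL C (lf_free _) vk_triv k.1 k.2⟩

theorem vk_lf (h : LF A) : VK A :=
  VK.lcl (h.mono fun H _ _ => (VK.lcl (lcl_free fun S => (vk_fin hS hL _ _ rfl).2)).ret
    (IsFreeGroup.toFreeGroup H).toMonoidHom (IsFreeGroup.toFreeGroup H).symm.toMonoidHom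
    (IsFreeGroup.toFreeGroup H).symm_apply_apply)

theorem closed_vk : Closed fun G _ => NoTwo G ∧ VK G where
  triv G _ _ := ⟨fun _ _ => Subsingleton.elim _ _, vk_triv⟩
  ret G H _ _ s r e h := ⟨h.1.of_inj s (Function.LeftInverse.injective e), h.2.ret s r e⟩
  lcl G _ h := by
    refine ⟨fun g e => ?_, VK.lcl (h.mono fun _ _ k => k.2)⟩
    obtain ⟨H, _, f, h1, h2, g, rfl⟩ := h.big (big_mem g)
    rw [h2.1 g (h1 (by rw [map_mul, e, map_one])), map_one]
  cop G H _ _ h h' := by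
    refine ⟨h.1.coprod h'.1, VK.coprod (fun Y σ hσ n ε => ?_) h.2 h'.2⟩
    obtain ⟨⟨D, pos, a1, a2, a3, a4, a5, a6, a7, a8⟩, rfl : D = _⟩ := cut_phC (G × H)
    exact cut_onto hS hL ⟨phC (G × H), pos, a1, a2, a3, a4, a5, a6, a7, a8⟩ (lf_free _) vk_triv
      (cop_two (h.1.prod h'.1)) hσ n ε
  cut Γ V A _ _ _ C _ hA h := ⟨C.noTwo h.1, VK.cut hS hL C hA (vk_lf hS hL hA) h.1 h.2⟩

/-- the vanishing property passes from the bottom of a hierarchy to the top -/
theorem hier_van {B : ∀ (S : Type) [Group S], Prop}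
    (hB : ∀ (S : Type) [Group S], B S → (∀ g : S, g * g = 1 → g = 1) ∧ Van S) (h : Hier B G) :
    Van G :=
  van_iff.2 ((closed_vk hS hL).hierB (fun S _ k => ⟨(hB S k).1, van_iff.1 (hB S k).2⟩) h).2

end Pool.Agent.Work.MP_9d1ffa_al.Ct
end

-- merged part: Pool.Agent.Work.MP_9d1ffa_al.Ct.GTop
section
/-! The vanishing property passes to iterated graphs of groups. -/

namespace Pool.Agent.Work.MP_9d1ffa_al.Ct

open MonoidAlgebra Monoid

set_option linter.unusedSectionVars false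
set_option linter.unusedVariables false

variable {X G H K Γ V A : Type} [Group G] [Group H] [Group K] [Group Γ] [Group V] [Group A]
  {ε : ℤˣ}

/-- stable splitting of idempotents in the language of categories -/
def SK (G : Type) [Group G] : Prop :=
  ∀ (X : Type) (ρ : G →* Equiv.Perm X), Free ρ → ∀ n : ℕ,
    SFI (OC (ρ.comp (MonoidHom.fst G (Zn n))))

theorem sk_of_vanK (h : VanK G) : SK G := fun X ρ hρ n a E hE => by
  obtain ⟨k, b, U, W, c1, c2, h1, h2⟩ := h X ρ hρ n a (val E) (val_ctl E) (congrArg val hE)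
  refine ⟨k, b, mk U c1, mk W c2, val_inj (h1.trans (BPm_one _ _)), val_inj (h2.trans ?_)⟩
  rw [val_fromBlocks]
  exact congrArg (Matrix.fromBlocks (val E) 0 0) (BPm_one _ _)

/-- one more cyclic factor -/
noncomputable def znSucc (F : Type) [Group F] (m : ℕ) :
    F × Zn (m + 1) ≃* (F × Zn m) × Multiplicative ℤ :=
  ((MulEquiv.refl F).prodCongr ((AddEquiv.toMultiplicative
    ((Fin.consLinearEquiv ℤ fun _ : Fin (m + 1) => ℤ).symm.toAddEquiv.trans
      AddEquiv.prodComm)).trans (MulEquiv.prodMultiplicative _ _))).trans MulEquiv.prodAssoc.symm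

/-- induction on the rank of the abelian factor -/
theorem lz_ind {P : ∀ (G : Type) [Group G], Prop} (lcl : ∀ (G : Type) [Group G], Lcl P G → P G)
    (free : ∀ Y : Type, P (FreeGroup Y))
    (step : ∀ (Y : Type) (m : ℕ), P (FreeGroup Y × Zn m) →
      P ((FreeGroup Y × Zn m) × Multiplicative ℤ)) (h : LZ G) : P G := by
  have eq : ∀ (G H : Type) [Group G] [Group H], G ≃* H → P H → P G := fun G H _ _ e k =>
    lcl _ fun T => ⟨H, inferInstance, e.symm.toMonoidHom, e.symm.injective,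
      fun g _ => e.symm.surjective g, k⟩
  refine lcl _ (h.mono ?_)
  rintro H _ ⟨Y, m, ⟨e⟩⟩
  refine eq _ _ e ?_
  clear e
  induction m with
  | zero => exact eq _ _ MulEquiv.prodUnique (free Y)
  | succ m ih => exact eq _ _ (znSucc _ m) (step Y m ih)

theorem lz_fz (Y : Type) (m : ℕ) : LZ (FreeGroup Y × Zn m) := fun T =>
  ⟨_, inferInstance, MonoidHom.id _, Function.injective_id, fun g _ => ⟨g, rfl⟩, Y, m,
    ⟨MulEquiv.refl _⟩⟩

theorem sfi_LZ (h : LZ G) : ∀ (K : Type) [Group K], FA K → ∀ (X : Type) (ρ : G →* Equiv.Perm X),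
    Free ρ → SFI (OC (ρ.comp (MonoidHom.fst G K))) := by
  refine lz_ind (P := fun G _ => ∀ (K : Type) [Group K], FA K → ∀ (X : Type)
    (ρ : G →* Equiv.Perm X), Free ρ → SFI (OC (ρ.comp (MonoidHom.fst G K))))
    (fun G _ k K _ hK X ρ hρ => sfi_lcl k (fun H _ p σ hσ => p K hK X σ hσ) hρ)
    (fun Y K _ hK X ρ hρ => sfi_isFree' hK hρ) (fun Y m ih K _ hK X ρ hρ => ?_) h
  have fr : Free (ρ.comp (Cut.line _).v) := hρ.comp (Cut.line _).vinj
  refine sfi_cut (Cut.line _) ρ hρ (fun I _ _ E hE => ?_) (ih K hK X _ fr)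
    (ih _ hK.prod_int X _ fr)
  let e : ((FreeGroup Y × Zn m) × Multiplicative ℤ) × K ≃*
      FreeGroup Y × (Zn m × Multiplicative ℤ) × K :=
    (MulEquiv.prodAssoc.prodCongr (MulEquiv.refl K)).trans MulEquiv.prodAssoc
  have k : MP_9d1ffa_al.mp e.symm.toMonoidHom (MP_9d1ffa_al.mp e.toMonoidHom E) = E := by
    rw [MP_9d1ffa_al.mp_mp, show e.symm.toMonoidHom.comp e.toMonoidHom = MonoidHom.id _ from
      MonoidHom.ext e.symm_apply_apply, MP_9d1ffa_al.mp_id]
  rw [← k]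
  exact SFI.of_ret _ I (sfi_free ((fa_zn m).prod_int.prod hK) I _
    (by rw [← MP_9d1ffa_al.mp_mul, hE]))

theorem LZ.sk (h : LZ G) : SK G := fun X ρ hρ n => sfi_LZ h _ (fa_zn n) X ρ hρ

variable (hS : Split) (hL : Line)
include hS hL

theorem VK.cutR (C : Cut Γ V A) (hA : SK A) (hA' : VK A) (ri : Root C.i.range)
    (rj : Root C.j.range) (h : NoTwo V ∧ VK V) : NoTwo Γ ∧ VK Γ := by
  refine ⟨C.noTwo h.1, fun X σ hσ n ε => Onto.van0 (f := (AH.of σ C.v).prd (Zn n)) ?_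
    (h.2 X _ (hσ.comp C.vinj) n ε)⟩
  have fr := hσ.comp C.vainj
  have s := hA X _ fr n
  have v : Van1 (OC ((σ.comp C.va).comp (MonoidHom.fst A (Zn n)))) (-ε) := hL X _ _ ε s
    ((hA'.fa (fa_zn n).prod_int fr).of_push MulEquiv.prodAssoc.toMonoidHom
      MulEquiv.prodAssoc.symm.toMonoidHom (fun _ => rfl) id id (fun _ _ => rfl) (fun _ _ => rfl)
      fun _ => rfl)
  exact hS X _ _ _ (C.prod (Zn n)) (σ.comp (MonoidHom.fst _ _)) ε
    (fun g y e => ⟨(1, g.2), Prod.ext ((map_one C.v).trans (hσ g.1 y e).symm) rfl⟩)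
    (C.unil_root ri rj (C.noTwo h.1) n ε) ((C.noTwo h.1).prod (fa_zn n).tf.two) s v

theorem vk_lz (h : LZ G) : NoTwo G ∧ VK G :=
  lz_ind (closed_vk hS hL).lcl (closed_vk hS hL).free (fun Y m ih =>
    VK.cutR hS hL (Cut.line _) (LZ.sk (lz_fz Y m)) ih.2 ((lz_fz Y m).root (Cut.line _).iinj)
      ((lz_fz Y m).root (Cut.line _).jinj) ih) h

theorem vk_hnn {i j : A →* V} (hi : Function.Injective i) (hj : Function.Injective j)
    {B B' : Subgroup V} (φ : B ≃* B') (e : A ≃* B) (e1 : ∀ a, j a = e a) (e2 : ∀ a, i a = φ (e a))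
    (hA : SK A) (hA' : VK A) (ri : Root i.range) (rj : Root j.range) (h : NoTwo V ∧ VK V) :
    NoTwo (HNNExtension V B B' φ) ∧ VK (HNNExtension V B B' φ) := by
  let D : PH (HNNExtension V B B' φ) V A :=
    { v := HNNExtension.of
      i := i
      j := j
      t := HNNExtension.t
      rel := fun a => by rw [e1, e2]; exact (HNNExtension.t_mul_of (e a)).symm }
  obtain ⟨C, hC⟩ := cut_of_univ D hi hj
    (eq_top_iff.2 fun g hg => by
      clear hg
      induction g using HNNExtension.induction_on with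
      | of g => exact Subgroup.subset_closure (Or.inr ⟨g, rfl⟩)
      | t => exact Subgroup.subset_closure (Or.inl rfl)
      | mul x y hx hy => exact mul_mem hx hy
      | inv x hx => exact inv_mem hx)
    fun Γ' _ f τ k => ⟨HNNExtension.lift f τ fun b => by
        obtain ⟨a, rfl⟩ := e.surjective b
        rw [← e1, ← e2]
        exact (k a).symm,
      fun x => HNNExtension.lift_of _ _ _ x, HNNExtension.lift_t _ _ _⟩
  exact VK.cutR hS hL C hA hA' (hC ▸ ri) (hC ▸ rj) h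

theorem vk_amalg {V : Bool → Type} [∀ i, Group (V i)] (φ : ∀ i, A →* V i)
    (hφ : ∀ i, Function.Injective (φ i)) (hA : SK A) (hA' : VK A) (rt : ∀ i, Root (φ i).range)
    (h : ∀ i, NoTwo (V i) ∧ VK (V i)) : NoTwo (PushoutI φ) ∧ VK (PushoutI φ) := by
  let i : A →* Coprod (V false) (V true) := Coprod.inl.comp (φ false)
  let j : A →* Coprod (V false) (V true) := Coprod.inr.comp (φ true)
  have hi : Function.Injective i := Coprod.inl_injective.comp (hφ false)
  have hj : Function.Injective j := Coprod.inr_injective.comp (hφ true)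
  let ψ : j.range ≃* i.range := (MonoidHom.ofInjective hj).symm.trans (MonoidHom.ofInjective hi)
  have hψ : ∀ a, (ψ ⟨j a, a, rfl⟩ : Coprod (V false) (V true)) = i a := fun a => by
    have : (MonoidHom.ofInjective hj).symm ⟨j a, a, rfl⟩ = a := (MulEquiv.symm_apply_eq _).2 rfl
    simp only [ψ, MulEquiv.trans_apply, this]
    rfl
  let s : ∀ b, V b →* HNNExtension _ _ _ ψ := fun b => match b with
    | false => HNNExtension.of.comp Coprod.inl
    | true => (MulAut.conj HNNExtension.t).toMonoidHom.comp (HNNExtension.of.comp Coprod.inr)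
  have hs : ∀ b, (s b).comp (φ b) = HNNExtension.of.comp i := by
    rintro (_ | _)
    · rfl
    · refine MonoidHom.ext fun a => ?_
      change HNNExtension.t * HNNExtension.of (j a) * HNNExtension.t⁻¹ = HNNExtension.of (i a)
      rw [← hψ, mul_inv_eq_iff_eq_mul]
      exact HNNExtension.t_mul_of (φ := ψ) ⟨j a, a, rfl⟩
  let r : HNNExtension _ _ _ ψ →* PushoutI φ :=
    HNNExtension.lift (Coprod.lift (PushoutI.of false) (PushoutI.of true)) 1 (by
      rintro ⟨_, a, rfl⟩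
      rw [hψ, one_mul, mul_one]
      exact (PushoutI.of_apply_eq_base φ true a).trans (PushoutI.of_apply_eq_base φ false a).symm)
  refine (closed_vk hS hL).ret _ _ (PushoutI.lift s _ hs) r
    (DFunLike.congr_fun (show r.comp _ = MonoidHom.id _ from PushoutI.hom_ext_nonempty ?_))
    (vk_hnn hS hL hi hj ψ (MonoidHom.ofInjective hj) (fun _ => rfl) (fun a => (hψ a).symm) hA hA'
      ((rt false).inl (h false).1 (h true).1) ((rt true).inr (h false).1 (h true).1)
      ((closed_vk hS hL).cop _ _ (h false) (h true)))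
  rintro (_ | _) <;> ext g <;> simp [r, s]

/-- the vanishing property passes to iterated graphs of groups -/
theorem gr_van {B : ∀ (S : Type) [Group S], Prop}
    (hB : ∀ (S : Type) [Group S], B S → (∀ g : S, g * g = 1 → g = 1) ∧ Van S) (h : Gr B G) :
    Van G := by
  have h0 := closed_vk hS hL
  refine van_iff.2 (And.right (a := NoTwo G) ?_)
  induction h with
  | base G h => exact ⟨(hB G h).1, van_iff.1 (hB G h).2⟩
  | fz G h => exact vk_lz hS hL h.lz
  | oneRel X r h =>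
    obtain ⟨L, rfl⟩ : ∃ L, FreeGroup.mk L = r := Quot.exists_rep r
    exact h0.aux _ X L (Nat.lt_succ_self _) h
  | hnn V A A' φ k _ _ hA ih =>
    have hi : Function.Injective (A'.subtype.comp φ.toMonoidHom) :=
      A'.subtype_injective.comp φ.injective
    have e : (A'.subtype.comp φ.toMonoidHom).range = A' := by
      rw [MonoidHom.range_comp, MonoidHom.range_eq_top.2 φ.surjective, ← MonoidHom.range_eq_map,
        Subgroup.range_subtype]
    refine vk_hnn hS hL hi A.subtype_injective φ (MulEquiv.refl _) (fun _ => rfl) (fun _ => rfl)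
      (k.elim (fun k => LZ.sk k.lz) fun k => sk_of_vanK k.1) hA.2
      (k.elim (fun k => k.lz.root hi) fun k => e.symm ▸ k.2.2)
      (k.elim (fun k => k.lz.root A.subtype_injective) fun k => A.range_subtype.symm ▸ k.2.1) ih
  | amalg A V φ hφ k _ _ hA ih =>
    exact vk_amalg hS hL φ hφ (k.elim (fun k => LZ.sk k.lz) fun k => sk_of_vanK k.1) hA.2
      (fun i => k.elim (fun k => k.lz.root (hφ i)) fun k => k.2 i) ih
  | retract G H s r e _ ih => exact h0.ret _ _ s r e ih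
  | union G N e _ ih =>
    exact h0.lcl _ fun T => ⟨N T, inferInstance, (N T).subtype, (N T).subtype_injective,
      fun g hg => ⟨⟨g, e T g hg⟩, rfl⟩, ih T⟩

end Pool.Agent.Work.MP_9d1ffa_al.Ct
end
end
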